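import Pool.Agent.Lib.InjLI.SplB

/-!
# Glu : potentials of the parts

(helper18, problem MP_cf50d6_gt, paper MP_cf50d6_gt_paper18rel.md)

* `potB_spl`: a potential `Φ` of the edges of the block `b` in the split graph gives `φ q = Φ (mv p U q b)` (`mem_spl_mv`, `cl x = b`).
* `potB_sub`: `Φ y = if h : y ∈ T then φ₁ ⟨y, h⟩ else φ₂ ⟨y, h⟩`; an edge of `Δ` has both ends in `T` or both in `Tᶜ` (`mem_sub`).
* `potG_sub`: as `potB_sub`, but normalized: `Φ y = (φ₁ none)⁻¹ * φ₁ y` for `y ∈ T`, `(φ₂ (some p))⁻¹ * φ₂ y` otherwise: a potential of the split graph with `Φ none = 1 = Φ (some p)`;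
  then `Φ (mv p U q b) = Φ (some q)` for all `q b` and `φ q = Φ (some q)` is a potential of `Γ` (`mem_spl_mv`).
-/

set_option autoImplicit false

open scoped Classical

namespace Pool.Agent.InjLI

open Pool.Agent.LIA

universe u v

namespace OW

variable {X : Type u} {I E : Type} {W : Type*} (P : OW X I E)


theorem potB_spl {Q : I → Type v} [∀ b, Group (Q b)] (f : ∀ b, X → Q b) {Γ : LG W X} {p : W}
    {U : Finset I} (h : P.PotB f (P.spl Γ p U)) : P.PotB f Γ := by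
  intro b
  obtain ⟨Φ, hΦ⟩ := h b
  refine ⟨fun q => Φ (mv p U q b), fun u x v huv hx => ?_⟩
  have h1 := hΦ _ x _ (P.mem_spl_mv.2 huv) hx
  rw [hx] at h1
  exact h1

theorem potB_sub {Q : I → Type v} [∀ b, Group (Q b)] (f : ∀ b, X → Q b) {Δ : LG W X} {T : Set W}
    (hT : ∀ y x z, (y, x, z) ∈ Δ.F → (y ∈ T ↔ z ∈ T)) (h : P.PotB f (sub Δ T))
    (h' : P.PotB f (sub Δ Tᶜ)) : P.PotB f Δ := by
  intro b
  obtain ⟨φ₁, h1⟩ := h b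
  obtain ⟨φ₂, h2⟩ := h' b
  refine ⟨fun y => if hy : y ∈ T then φ₁ ⟨y, hy⟩ else φ₂ ⟨y, hy⟩, fun u x v huv hx => ?_⟩
  have huv' := hT u x v huv
  by_cases hu : u ∈ T
  · have hv : v ∈ T := huv'.1 hu
    simp only [dif_pos hu, dif_pos hv]
    exact h1 ⟨u, hu⟩ x ⟨v, hv⟩ (mem_sub.2 huv) hx
  · have hv : v ∉ T := fun hv => hu (huv'.2 hv)
    simp only [dif_neg hu, dif_neg hv]
    exact h2 ⟨u, hu⟩ x ⟨v, hv⟩ (mem_sub.2 huv) hx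

theorem potG_sub {G : Type*} [Group G] (g : X → G) {Γ : LG W X} {p : W} {U : Finset I}
    {T : Set (Option W)} (hT : ∀ y x z, (y, x, z) ∈ (P.spl Γ p U).F → (y ∈ T ↔ z ∈ T))
    (h1 : none ∈ T) (h2 : some p ∉ T) (h : PotG g (sub (P.spl Γ p U) T))
    (h' : PotG g (sub (P.spl Γ p U) Tᶜ)) : PotG g Γ := by
  obtain ⟨φ₁, e1⟩ := h
  obtain ⟨φ₂, e2⟩ := h'
  let Φ : Option W → G := fun y =>
    if hy : y ∈ T then (φ₁ ⟨none, h1⟩)⁻¹ * φ₁ ⟨y, hy⟩ else (φ₂ ⟨some p, h2⟩)⁻¹ * φ₂ ⟨y, hy⟩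
  have hn : Φ none = 1 := by
    show (if hy : none ∈ T then (φ₁ ⟨none, h1⟩)⁻¹ * φ₁ ⟨none, hy⟩ else
      (φ₂ ⟨some p, h2⟩)⁻¹ * φ₂ ⟨none, hy⟩) = 1
    rw [dif_pos h1]
    exact inv_mul_cancel _
  have hs : Φ (some p) = 1 := by
    show (if hy : some p ∈ T then (φ₁ ⟨none, h1⟩)⁻¹ * φ₁ ⟨some p, hy⟩ else
      (φ₂ ⟨some p, h2⟩)⁻¹ * φ₂ ⟨some p, hy⟩) = 1
    rw [dif_neg h2]
    exact inv_mul_cancel _
  have hΦ : ∀ y x z, (y, x, z) ∈ (P.spl Γ p U).F → Φ z = Φ y * g x := by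
    intro y x z hyz
    have hyz' := hT y x z hyz
    by_cases hy : y ∈ T
    · have hz : z ∈ T := hyz'.1 hy
      show (if hz : z ∈ T then (φ₁ ⟨none, h1⟩)⁻¹ * φ₁ ⟨z, hz⟩ else
        (φ₂ ⟨some p, h2⟩)⁻¹ * φ₂ ⟨z, hz⟩) = (if hy : y ∈ T then (φ₁ ⟨none, h1⟩)⁻¹ * φ₁ ⟨y, hy⟩ else
        (φ₂ ⟨some p, h2⟩)⁻¹ * φ₂ ⟨y, hy⟩) * g x
      rw [dif_pos hy, dif_pos hz, e1 ⟨y, hy⟩ x ⟨z, hz⟩ (mem_sub.2 hyz), mul_assoc]
    · have hz : z ∉ T := fun hz => hy (hyz'.2 hz)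
      show (if hz : z ∈ T then (φ₁ ⟨none, h1⟩)⁻¹ * φ₁ ⟨z, hz⟩ else
        (φ₂ ⟨some p, h2⟩)⁻¹ * φ₂ ⟨z, hz⟩) = (if hy : y ∈ T then (φ₁ ⟨none, h1⟩)⁻¹ * φ₁ ⟨y, hy⟩ else
        (φ₂ ⟨some p, h2⟩)⁻¹ * φ₂ ⟨y, hy⟩) * g x
      rw [dif_neg hy, dif_neg hz, e2 ⟨y, hy⟩ x ⟨z, hz⟩ (mem_sub.2 hyz), mul_assoc]
  have hm : ∀ q b, Φ (mv p U q b) = Φ (some q) := by
    intro q b
    unfold mv
    split_ifs with hq
    · rw [hn, hq.1, hs]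
    · rfl
  refine ⟨fun q => Φ (some q), fun u x v huv => ?_⟩
  have h3 := hΦ _ x _ (P.mem_spl_mv.2 huv)
  rw [hm, hm] at h3
  exact h3

end OW

end Pool.Agent.InjLI
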