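import Pool.Agent.Lib.InjLI.Defs

/-!
# JpB : corners and blocks at a vertex

(helper18, problem MP_cf50d6_gt, paper MP_cf50d6_gt_paper18rel.md)

* `step_jp`: a step from `p` or to `p` with the letter `l` is an edge at `p` with the letter `l.1` (case distinction on `l.2`).
* `at_jp`: let `q` be the polygon, `q κ.2 = p`. The step `κ.2` starts at `p` with the letter `nxt κ`; the step `κ.2 - 1` ends at `q (κ.2 - 1 + 1) = p` with the letter
  `prv κ` (`sub_add_cancel`).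
* `iv_ne`: `P.alt κ.1 (κ.2 - 1)` and `sub_add_cancel`.
* `at_ess`: two different elements of `Jp` (`Finset.one_lt_card`).
* `cor_bl`: `⊆` is `at_jp`; `⊇`: `p` essential, `b ∈ Jp`: `{b} ⊂ Jp`, by `Rdc` some corner at `p` crosses `{b}`, so it involves `b` (exactly one of its blocks is `b`).
* `cor_two`: `cor_bl` and `Rdc`; nonempty: `Jp` is nonempty.
* `jp_nonempty`: if `Jp Γ p = ∅` then `{p}` is closed under the edges, so every vertex is `p` by `hC`, the essential vertex too, but `Jp = ∅` there.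
* `cor_empty`: a corner at `p` would give `at_ess`.
-/

set_option autoImplicit false

open scoped Classical

namespace Pool.Agent.InjLI

open Pool.Agent.LIA

universe u v

namespace OW

variable {X : Type u} {I E : Type} {W : Type*} (P : OW X I E)


theorem mem_jp [Fintype I] {Γ : LG W X} {p : W} {b : I} :
    b ∈ P.Jp Γ p ↔ ∃ u x v, (u, x, v) ∈ Γ.F ∧ P.cl x = b ∧ (u = p ∨ v = p) := by
  unfold Jp
  rw [Finset.mem_filter]
  exact and_iff_right (Finset.mem_univ _)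

theorem step_jp [Fintype I] {Γ : LG W X} {p q : W} {l : X × Bool} (h : Γ.Step p l q) :
    P.cl l.1 ∈ P.Jp Γ p ∧ P.cl l.1 ∈ P.Jp Γ q := by
  unfold LG.Step at h
  rw [P.mem_jp, P.mem_jp]
  split_ifs at h with hl
  · exact ⟨⟨p, l.1, q, h, rfl, Or.inl rfl⟩, ⟨p, l.1, q, h, rfl, Or.inr rfl⟩⟩
  · exact ⟨⟨q, l.1, p, h, rfl, Or.inr rfl⟩, ⟨q, l.1, p, h, rfl, Or.inl rfl⟩⟩

theorem at_jp [Fintype I] {Γ : LG W X} {p : W} {κ : P.Cor} (h : P.At Γ p κ) :
    P.cl (P.nxt κ).1 ∈ P.Jp Γ p ∧ P.cl (P.prv κ).1 ∈ P.Jp Γ p := by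
  obtain ⟨q, hq, rfl⟩ := h
  refine ⟨(P.step_jp (hq κ.2)).1, ?_⟩
  have h1 := (P.step_jp (hq (κ.2 - 1))).2
  rw [sub_add_cancel] at h1
  exact h1

theorem iv_ne (κ : P.Cor) : P.cl (P.prv κ).1 ≠ P.cl (P.nxt κ).1 := by
  have h := P.alt κ.1 (κ.2 - 1)
  rw [sub_add_cancel] at h
  exact h

theorem at_ess [Fintype I] {Γ : LG W X} {p : W} {κ : P.Cor} (h : P.At Γ p κ) : P.Ess Γ p := by
  have h1 := P.at_jp h
  exact Finset.one_lt_card.2 ⟨_, h1.2, _, h1.1, P.iv_ne κ⟩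

private theorem mem_cor [Fintype E] {Γ : LG W X} {p : W} {κ : P.Cor} :
    κ ∈ P.cor Γ p ↔ P.At Γ p κ := by
  unfold cor
  rw [Finset.mem_filter]
  exact and_iff_right (Finset.mem_univ _)

theorem cor_empty [Fintype I] [Fintype E] {Γ : LG W X} {p : W} (h : ¬ P.Ess Γ p) :
    P.cor Γ p = ∅ := by
  rw [Finset.eq_empty_iff_forall_notMem]
  intro κ hκ
  exact h (P.at_ess (P.mem_cor.1 hκ))

theorem exists_iv [Fintype I] [Fintype E] {Γ : LG W X} (hR : P.Rdc Γ) {p : W} (h : P.Ess Γ p)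
    {b : I} (hb : b ∈ P.Jp Γ p) : ∃ κ, P.At Γ p κ ∧ P.Iv κ b := by
  have h1 : ({b} : Finset I) ⊂ P.Jp Γ p := by
    rw [Finset.ssubset_iff_subset_ne]
    refine ⟨Finset.singleton_subset_iff.2 hb, fun h2 => ?_⟩
    unfold Ess at h
    rw [← h2, Finset.card_singleton] at h
    omega
  have h3 := hR p {b} (Finset.singleton_nonempty b) h1
  have h4 : 0 < ((P.cor Γ p).filter fun κ => P.Cr κ {b}).card := by omega
  obtain ⟨κ, hκ⟩ := Finset.card_pos.1 h4
  rw [Finset.mem_filter, P.mem_cor] at hκ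
  refine ⟨κ, hκ.1, ?_⟩
  have h5 := hκ.2
  unfold Cr at h5
  rw [Finset.mem_singleton, Finset.mem_singleton] at h5
  unfold Iv
  tauto

theorem cor_bl [Fintype I] [Fintype E] {Γ : LG W X} (hR : P.Rdc Γ) {p : W} (h : P.Ess Γ p) :
    P.Bl (P.cor Γ p) = P.Jp Γ p := by
  ext b
  unfold Bl
  rw [Finset.mem_filter]
  constructor
  · rintro ⟨_, κ, hκ, hI⟩
    have h1 := P.at_jp (P.mem_cor.1 hκ)
    rcases hI with h2 | h2
    · rw [← h2]
      exact h1.1
    · rw [← h2]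
      exact h1.2
  · intro hb
    obtain ⟨κ, hκ, hI⟩ := P.exists_iv hR h hb
    exact ⟨Finset.mem_univ _, κ, P.mem_cor.2 hκ, hI⟩

theorem cor_two [Fintype I] [Fintype E] {Γ : LG W X} (hR : P.Rdc Γ) {p : W} (h : P.Ess Γ p) :
    P.TwoConn (P.cor Γ p) := by
  constructor
  · have h1 : (P.Jp Γ p).Nonempty := by
      rw [← Finset.card_pos]
      unfold Ess at h
      omega
    obtain ⟨b, hb⟩ := h1
    obtain ⟨κ, hκ, _⟩ := P.exists_iv hR h hb
    exact ⟨κ, P.mem_cor.2 hκ⟩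
  · intro U hU hU2
    rw [P.cor_bl hR h] at hU2
    exact hR p U hU hU2

theorem jp_nonempty [Fintype I] {Γ : LG W X} (hC : Cn Γ) (hE : ∃ p, P.Ess Γ p) (p : W) :
    (P.Jp Γ p).Nonempty := by
  by_contra hne
  rw [Finset.not_nonempty_iff_eq_empty] at hne
  obtain ⟨p', hp'⟩ := hE
  have h1 : p' ∈ ({p} : Set W) := by
    refine hC {p} (Set.singleton_nonempty p) ?_ p'
    intro u x v huv
    constructor
    · intro hu
      exfalso
      have h2 : P.cl x ∈ P.Jp Γ p := P.mem_jp.2 ⟨u, x, v, huv, rfl, Or.inl hu⟩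
      rw [hne] at h2
      exact Finset.notMem_empty _ h2
    · intro hv
      exfalso
      have h2 : P.cl x ∈ P.Jp Γ p := P.mem_jp.2 ⟨u, x, v, huv, rfl, Or.inr hv⟩
      rw [hne] at h2
      exact Finset.notMem_empty _ h2
  rw [Set.mem_singleton_iff] at h1
  unfold Ess at hp'
  rw [h1, hne, Finset.card_empty] at hp'
  omega

end OW

end Pool.Agent.InjLI
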