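import Pool.Agent.Lib.InjLI.KTwo

/-!
# KThr : the number of good components

(helper18, problem MP_cf50d6_gt, paper MP_cf50d6_gt_paper18rel.md)

`LG.card_le_zc` (`Lib/GogLI/KNf.lean`) for the graph `P.bg Γ b`, the values `f b : X → Q b` and the relators `P.innb f b` (by definition `FreeGroup.lift (f b) ρ = 1`):
`card W ≤ finrank ((P.bg Γ b).Zc (P.innb f b)) + P.good f Γ b`. Sum over `b` and `sum_finrank_le`. `finrank_block` is `Finset.single_le_sum` and `sum_finrank_le`.
-/

/-!
# KThr : the number of good components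

(helper18, problem MP_cf50d6_gt, paper MP_cf50d6_gt_paper18rel.md)

`LG.card_le_zc` (`Lib/GogLI/KNf.lean`) for the graph `P.bg Γ b`, the values `f b : X → Q b` and the relators `P.innb f b` (by definition `FreeGroup.lift (f b) ρ = 1`):
`card W ≤ finrank ((P.bg Γ b).Zc (P.innb f b)) + P.good f Γ b`. Sum over `b` and `sum_finrank_le`. `finrank_block` is `Finset.single_le_sum` and `sum_finrank_le`.
-/

set_option autoImplicit false

open scoped Classical

namespace Pool.Agent.InjLI

open Pool.Agent.LIA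

universe u v

namespace OW

variable {X : Type u} {I E : Type} {W : Type*} (P : OW X I E)


theorem card_le_good [Fintype W] {Q : I → Type v} [∀ b, Group (Q b)]
    (hQ : ∀ b, LocallyIndicable (Q b)) (f : ∀ b, X → Q b) (Γ : LG W X) (b : I) :
    Fintype.card W ≤ Module.finrank ℚ ((P.bg Γ b).Zc (P.innb f b)) + P.good f Γ b := by
  exact LG.card_le_zc (hQ b) (P.bg Γ b) (f b) (P.innb f b) fun ρ hρ => hρ.2

theorem finrank_block [Fintype I] {Q : I → Type v} [∀ b, Group (Q b)] (f : ∀ b, X → Q b)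
    (Γ : LG W X) (b : I) :
    Module.finrank ℚ ((P.bg Γ b).Zc (P.innb f b)) ≤ Module.finrank ℚ (Γ.Zc (P.inn f)) := by
  refine le_trans ?_ (P.sum_finrank_le f Γ)
  exact Finset.single_le_sum
    (f := fun b => Module.finrank ℚ ((P.bg Γ b).Zc (P.innb f b)))
    (fun _ _ => Nat.zero_le _) (Finset.mem_univ b)

theorem card_mul_le [Fintype I] [Fintype W] {Q : I → Type v} [∀ b, Group (Q b)]
    (hQ : ∀ b, LocallyIndicable (Q b)) (f : ∀ b, X → Q b) (Γ : LG W X) :
    Fintype.card I * Fintype.card W ≤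
      Module.finrank ℚ (Γ.Zc (P.inn f)) + ∑ b, P.good f Γ b := by
  calc Fintype.card I * Fintype.card W = ∑ _b : I, Fintype.card W := by
        rw [Finset.sum_const, Finset.card_univ, smul_eq_mul]
    _ ≤ ∑ b, (Module.finrank ℚ ((P.bg Γ b).Zc (P.innb f b)) + P.good f Γ b) :=
        Finset.sum_le_sum fun b _ => P.card_le_good hQ f Γ b
    _ = ∑ b, Module.finrank ℚ ((P.bg Γ b).Zc (P.innb f b)) + ∑ b, P.good f Γ b :=
        Finset.sum_add_distrib
    _ ≤ Module.finrank ℚ (Γ.Zc (P.inn f)) + ∑ b, P.good f Γ b :=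
        Nat.add_le_add_right (P.sum_finrank_le f Γ) _

end OW

end Pool.Agent.InjLI
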