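import Pool.Agent.Lib.InjLI.KOne
import Pool.Agent.Lib.InjLI.KThr
import Pool.Agent.Lib.InjLI.JpB

/-!
# NoE : graphs without essential vertices

(helper18, problem MP_cf50d6_gt, paper MP_cf50d6_gt_paper18rel.md)

If `Γ.F = ∅` everything is trivial (constant functions, no edges). Let `(u₀, x₀, v₀) ∈ Γ.F`, `b := cl x₀`. `{p | b ∈ Jp Γ p}` is closed under the edges: for `(u, x, v) ∈ Γ.F` with
`b ∈ Jp Γ u`: `cl x ∈ Jp Γ u`, not essential, so `cl x = b` and `b ∈ Jp Γ v`; the same in the other direction. It contains `u₀`, so it is everything (`hC`), and all edges of `Γ` have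
letters in `b` (`cl x ∈ Jp Γ u = {b}`). There are no polygons (a polygon `(e, q)` gives the corner `⟨e, 0⟩` at `q 0`, `at_ess`), so `P.sq Γ = ∅`, and by `finrank_zc`,
`finrank_block`, `card_le_good`: `P.good f Γ b ≥ 1`: there is a component `C` of `P.bg Γ b` with a potential `φ`. `C` is closed under the edges of `Γ` (they are all edges of
`P.bg Γ b`, `LG.mem_of_edge`) and nonempty, so it is everything: `φ q = φ p * f b x` for all edges. `PotB`: for `b' ≠ b` there are no edges. `PotG`: `θ b ∘ φ` and `hθ`.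
-/

set_option autoImplicit false

open scoped Classical

namespace Pool.Agent.InjLI

open Pool.Agent.LIA

universe u v

namespace OW

variable {X : Type u} {I E : Type} {W : Type*} (P : OW X I E)


theorem pot_of_not_ess [Fintype I] [Fintype E] [Fintype W] [Nonempty W] {Q : I → Type v}
    [∀ b, Group (Q b)] (hQ : ∀ b, LocallyIndicable (Q b)) {f : ∀ b, X → Q b} {G : Type*} [Group G]
    {g : X → G} (θ : ∀ b, Q b →* G) (hθ : ∀ x, θ (P.cl x) (f (P.cl x) x) = g x) {Γ : LG W X}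
    (hC : Cn Γ) (hA : P.Acyc (P.inn f) Γ) (hN : ¬ ∃ p, P.Ess Γ p) :
    PotG g Γ ∧ P.PotB f Γ := by
  by_cases hF : Γ.F = ∅
  · refine ⟨⟨fun _ => 1, fun p x q h => ?_⟩, fun b => ⟨fun _ => 1, fun p x q h => ?_⟩⟩
    · rw [hF] at h
      exact absurd h (Finset.notMem_empty _)
    · rw [hF] at h
      exact absurd h (Finset.notMem_empty _)
  obtain ⟨⟨u₀, x₀, v₀⟩, h₀⟩ := Finset.nonempty_iff_ne_empty.2 hF
  have key : ∀ (p : W) (b b' : I), b ∈ P.Jp Γ p → b' ∈ P.Jp Γ p → b = b' := by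
    intro p b b' hb hb'
    by_contra hne
    exact hN ⟨p, Finset.one_lt_card.2 ⟨b, hb, b', hb', hne⟩⟩
  obtain ⟨b, hb0⟩ : ∃ b, b = P.cl x₀ := ⟨_, rfl⟩
  have hall : ∀ w, w ∈ {p : W | b ∈ P.Jp Γ p} := by
    apply hC
    · exact ⟨u₀, P.mem_jp.2 ⟨u₀, x₀, v₀, h₀, hb0.symm, Or.inl rfl⟩⟩
    · intro p x q h
      have h1 : P.cl x ∈ P.Jp Γ p := P.mem_jp.2 ⟨p, x, q, h, rfl, Or.inl rfl⟩
      have h2 : P.cl x ∈ P.Jp Γ q := P.mem_jp.2 ⟨p, x, q, h, rfl, Or.inr rfl⟩
      constructor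
      · intro hb
        have h3 : b = P.cl x := key p _ _ hb h1
        show b ∈ P.Jp Γ q
        rw [h3]
        exact h2
      · intro hb
        have h3 : b = P.cl x := key q _ _ hb h2
        show b ∈ P.Jp Γ p
        rw [h3]
        exact h1
  have hcl : ∀ p x q, (p, x, q) ∈ Γ.F → P.cl x = b := fun p x q h =>
    key p _ _ (P.mem_jp.2 ⟨p, x, q, h, rfl, Or.inl rfl⟩) (hall p)
  have hsq : P.sq Γ = ∅ := by
    rw [Finset.eq_empty_iff_forall_notMem]
    rintro ⟨e, q⟩ h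
    have hp : P.Poly Γ e q := (Finset.mem_filter.1 h).2
    exact hN ⟨q 0, P.at_ess (κ := ⟨e, 0⟩) ⟨q, hp, rfl⟩⟩
  have h1 := P.finrank_zc hA
  have h2 := P.finrank_block f Γ b
  have h3 := P.card_le_good hQ f Γ b
  rw [hsq, Finset.card_empty] at h1
  have h4 : 0 < P.good f Γ b := by omega
  obtain ⟨C, hC'⟩ := Finset.card_pos.1 h4
  obtain ⟨hC1, φ, hφ⟩ := Finset.mem_filter.1 hC'
  have hCall : ∀ w, w ∈ (C : Set W) := by
    apply hC
    · exact LG.nonempty_of_mem_comps hC1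
    · intro p x q h
      exact LG.mem_of_edge hC1 (P.mem_bg.2 ⟨h, hcl p x q h⟩)
  have hφ' : ∀ p x q, (p, x, q) ∈ Γ.F → φ q = φ p * f b x := fun p x q h =>
    hφ p x q (P.mem_bg.2 ⟨h, hcl p x q h⟩) (hCall p)
  constructor
  · refine ⟨fun w => θ b (φ w), fun p x q h => ?_⟩
    have h5 : θ b (f b x) = g x := by
      have h6 := hθ x
      rw [hcl p x q h] at h6
      exact h6
    show θ b (φ q) = θ b (φ p) * g x
    rw [hφ' p x q h, map_mul, h5]
  · intro b'
    by_cases hbb : b' = b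
    · subst hbb
      exact ⟨φ, fun p x q h _ => hφ' p x q h⟩
    · refine ⟨fun _ => 1, fun p x q h hx => ?_⟩
      exact absurd (hx.symm.trans (hcl p x q h)) hbb

end OW

end Pool.Agent.InjLI
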