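import Pool.Agent.Lib.InjLI.Defs

/-!
# Par : polygons are determined by one vertex, summation by parts, positions after splitting

(helper18, problem MP_cf50d6_gt, paper MP_cf50d6_gt_paper18rel.md)

* `poly_unique`: `LG.step_det`: `q i = q' i` implies `q (i + 1) = q' (i + 1)`; by induction `q (i + n) = q' (i + n)` for `n : ℕ` (cast into `Fin`), and every `j`
  is `i + ((j - i).val : Fin _)`.
* `mv_eq`: unfold `mv`, `Cr`, `nxt`, `prv`; if `q ≠ p` both sides are `some q`; if `q = p` the two blocks are both in `U` or both not in `U`.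
* `mv_ne`: at `q = p` with a crossing corner one side is `none`, the other `some p`.
* `parts`: `vl` of the cochain at the step `(q i, a i, q (i + 1))` is `k (mv (q (i+1)) (cl (a i).1)) - k (mv (q i) (cl (a i).1))` (both signs of the letter); shift the
  first sum: `Equiv.sum_comp (Equiv.addRight (1 : Fin _))`, `i + 1 - 1 = i`.
-/

set_option autoImplicit false

open scoped Classical

namespace Pool.Agent.InjLI

open Pool.Agent.LIA

universe u v

namespace OW

variable {X : Type u} {I E : Type} {W : Type*} (P : OW X I E)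


theorem poly_unique {Γ : LG W X} {e : E} {q q' : Fin (P.m e + 1) → W} (h : P.Poly Γ e q)
    (h' : P.Poly Γ e q') {i : Fin (P.m e + 1)} (hi : q i = q' i) : q = q' := by
  have key : ∀ n : Fin (P.m e + 1), q (i + n) = q' (i + n) := by
    intro n
    induction n using Fin.induction with
    | zero => simpa using hi
    | succ n ih =>
      have h1 := h (i + n.castSucc)
      have h2 := h' (i + n.castSucc)
      rw [← ih] at h2
      have h3 := LG.step_det h1 h2
      rw [add_assoc, Fin.coeSucc_eq_succ] at h3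
      exact h3
  funext j
  have h5 := key (j - i)
  rw [add_sub_cancel] at h5
  exact h5

theorem mv_eq {p q : W} {U : Finset I} {κ : P.Cor} (h : q = p → ¬ P.Cr κ U) :
    mv p U q (P.cl (P.prv κ).1) = mv p U q (P.cl (P.nxt κ).1) := by
  unfold mv
  by_cases hq : q = p
  · have h1 := h hq
    unfold Cr at h1
    rw [not_not] at h1
    simp only [hq, true_and, h1]
  · simp only [hq, false_and, if_false]

theorem mv_ne {p : W} {U : Finset I} {κ : P.Cor} (h : P.Cr κ U) :
    (mv p U p (P.cl (P.prv κ).1) = none ∧ mv p U p (P.cl (P.nxt κ).1) = some p) ∨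
      (mv p U p (P.cl (P.prv κ).1) = some p ∧ mv p U p (P.cl (P.nxt κ).1) = none) := by
  unfold Cr at h
  unfold mv
  by_cases h1 : P.cl (P.prv κ).1 ∈ U
  · have h2 : P.cl (P.nxt κ).1 ∉ U := fun h3 => h ⟨fun _ => h1, fun _ => h3⟩
    left
    simp [h1, h2]
  · have h2 : P.cl (P.nxt κ).1 ∈ U := by
      by_contra h3
      exact h ⟨fun h4 => absurd h4 h3, fun h4 => absurd h4 h1⟩
    right
    simp [h1, h2]

private theorem par_vl (k : Option W → ℚ) (p : W) (U : Finset I) (u v : W) (l : X × Bool) :
    vl (fun y : W × X × W => k (mv p U y.2.2 (P.cl y.2.1)) - k (mv p U y.1 (P.cl y.2.1))) u l v =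
      k (mv p U v (P.cl l.1)) - k (mv p U u (P.cl l.1)) := by
  obtain ⟨x, b⟩ := l
  unfold vl
  cases b
  · simp
  · simp

theorem parts (k : Option W → ℚ) (p : W) (U : Finset I) (e : E) (q : Fin (P.m e + 1) → W) :
    ∑ i, vl (fun y : W × X × W => k (mv p U y.2.2 (P.cl y.2.1)) - k (mv p U y.1 (P.cl y.2.1)))
        (q i) (P.a e i) (q (i + 1)) =
      ∑ i, (k (mv p U (q i) (P.cl (P.prv ⟨e, i⟩).1)) - k (mv p U (q i) (P.cl (P.nxt ⟨e, i⟩).1))) := by
  simp only [par_vl]
  rw [Finset.sum_sub_distrib, Finset.sum_sub_distrib]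
  have h1 : ∑ i, k (mv p U (q i) (P.cl (P.prv ⟨e, i⟩).1)) =
      ∑ i, k (mv p U (q (i + 1)) (P.cl (P.a e i).1)) := by
    rw [← Equiv.sum_comp (Equiv.addRight (1 : Fin (P.m e + 1)))
      (fun i => k (mv p U (q i) (P.cl (P.prv ⟨e, i⟩).1)))]
    refine Finset.sum_congr rfl fun i _ => ?_
    have h2 : (Equiv.addRight (1 : Fin (P.m e + 1))) i = i + 1 := rfl
    have h3 : P.prv ⟨e, i + 1⟩ = P.a e i := by
      unfold prv
      simp
    rw [h2, h3]
  rw [h1]
  rfl

end OW

end Pool.Agent.InjLI
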