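import Pool.Agent.Lib.InjLI.SplB
import Pool.Agent.Lib.InjLI.Par

/-!
# SplP : polygons of the split graph

(helper18, problem MP_cf50d6_gt, paper MP_cf50d6_gt_paper18rel.md)

* `poly_lift`: the step `i` of `q` gives by `step_spl_mv` the step from `mv (q i) (cl (a i).1)` to `mv (q (i + 1)) (cl (a i).1)`, and this is
  `mv (q (i + 1)) (cl (a (i + 1)).1)` by `mv_eq` for the corner `⟨e, i + 1⟩` (`prv ⟨e, i + 1⟩ = a e (i + 1 - 1) = a e i`, `nxt ⟨e, i + 1⟩ = a e (i + 1)`).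
* `sum_lift`: the same for the values: `vl (pb c) (q i) (a i) (q (i + 1)) = vl c (mv (q i) (cl (a i).1)) (a i) (mv (q (i+1)) (cl (a i).1))`.
* `poly_pr`: by `step_spl` for all `i`; the last equation for `i` is the third part of `step_spl` for the step `i - 1`.
* `sq_spl_le`: the map `⟨e, q⟩ ↦ ⟨e, pr p ∘ q⟩` maps `sq (spl)` into `sq Γ` (`poly_pr`) and is injective there (`q i = mv (pr (q i)) (cl (a i).1)`).
* `sq_spl_lt`: if the corner `κ` occurs at `p` in the polygon `q` (`q κ.2 = p`) and crosses `U`, then `⟨κ.1, q⟩ ∈ sq Γ` is not in the image: for a preimage `q'` the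
  two equations of `poly_pr` at `i = κ.2` contradict `mv_ne`. (`Finset.card_lt_card` for the image, or `Finset.card_lt_of_injective...`.)
-/

set_option autoImplicit false

open scoped Classical

namespace Pool.Agent.InjLI

open Pool.Agent.LIA

universe u v

namespace OW

variable {X : Type u} {I E : Type} {W : Type*} (P : OW X I E)


private lemma splP_mv {p : W} {U : Finset I} {e : E} {q : Fin (P.m e + 1) → W}
    (hn : ∀ i, q i = p → ¬ P.Cr ⟨e, i⟩ U) (i : Fin (P.m e + 1)) :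
    mv p U (q (i + 1)) (P.cl (P.a e (i + 1)).1) = mv p U (q (i + 1)) (P.cl (P.a e i).1) := by
  have h := P.mv_eq (κ := ⟨e, i + 1⟩) (hn (i + 1))
  simp only [prv, nxt, add_sub_cancel_right] at h
  exact h.symm

theorem poly_lift {Γ : LG W X} {p : W} {U : Finset I} {e : E} {q : Fin (P.m e + 1) → W}
    (h : P.Poly Γ e q) (hn : ∀ i, q i = p → ¬ P.Cr ⟨e, i⟩ U) :
    P.Poly (P.spl Γ p U) e fun i => mv p U (q i) (P.cl (P.a e i).1) := by
  intro i
  have h1 := P.splP_mv hn i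
  have h2 := (P.step_spl_mv (Γ := Γ) (p := p) (U := U)).2 (h i)
  simp only
  rw [h1]
  exact h2

theorem sum_lift {Γ : LG W X} {p : W} {U : Finset I} {e : E} {q : Fin (P.m e + 1) → W}
    (c : Option W × X × Option W → ℚ)
    (h : P.Poly Γ e q) (hn : ∀ i, q i = p → ¬ P.Cr ⟨e, i⟩ U) :
    ∑ i, vl (P.pb p U c) (q i) (P.a e i) (q (i + 1)) =
      ∑ i, vl c (mv p U (q i) (P.cl (P.a e i).1)) (P.a e i)
        (mv p U (q (i + 1)) (P.cl (P.a e (i + 1)).1)) := by
  refine Finset.sum_congr rfl fun i _ => ?_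
  rw [P.splP_mv hn i]
  rfl

theorem poly_pr {Γ : LG W X} {p : W} {U : Finset I} {e : E} {q : Fin (P.m e + 1) → Option W}
    (h : P.Poly (P.spl Γ p U) e q) :
    (P.Poly Γ e fun i => pr p (q i)) ∧
      ∀ i, q i = mv p U (pr p (q i)) (P.cl (P.a e i).1) ∧
        q i = mv p U (pr p (q i)) (P.cl (P.a e (i - 1)).1) := by
  refine ⟨fun i => (P.step_spl.1 (h i)).1, fun i => ⟨(P.step_spl.1 (h i)).2.1, ?_⟩⟩
  have h1 := (P.step_spl.1 (h (i - 1))).2.2
  rw [sub_add_cancel] at h1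
  exact h1

/-- the projection of polygons -/
private def splPf (p : W) (σ : Σ e : E, Fin (P.m e + 1) → Option W) :
    Σ e : E, Fin (P.m e + 1) → W := ⟨σ.1, fun i => pr p (σ.2 i)⟩

private lemma splP_maps [Fintype E] [Fintype W] (Γ : LG W X) (p : W) (U : Finset I) :
    ∀ σ ∈ P.sq (P.spl Γ p U), P.splPf p σ ∈ P.sq Γ := by
  intro σ hσ
  have h1 : P.Poly (P.spl Γ p U) σ.1 σ.2 := (Finset.mem_filter.1 hσ).2
  exact Finset.mem_filter.2 ⟨Finset.mem_univ _, (P.poly_pr h1).1⟩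

private lemma splP_inj [Fintype E] [Fintype W] (Γ : LG W X) (p : W) (U : Finset I) :
    Set.InjOn (P.splPf p) (P.sq (P.spl Γ p U) : Set (Σ e : E, Fin (P.m e + 1) → Option W)) := by
  rintro ⟨e, q⟩ hσ ⟨e', q'⟩ hσ' h
  have h1 : P.Poly (P.spl Γ p U) e q := (Finset.mem_filter.1 (Finset.mem_coe.1 hσ)).2
  have h1' : P.Poly (P.spl Γ p U) e' q' := (Finset.mem_filter.1 (Finset.mem_coe.1 hσ')).2
  unfold splPf at h
  simp only [Sigma.mk.injEq] at h
  obtain ⟨rfl, h2⟩ := h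
  have h3 := eq_of_heq h2
  have h4 : q = q' := by
    funext i
    have h5 : pr p (q i) = pr p (q' i) := congrFun h3 i
    rw [((P.poly_pr h1).2 i).1, ((P.poly_pr h1').2 i).1, h5]
  rw [h4]

theorem sq_spl_le [Fintype E] [Fintype W] (Γ : LG W X) (p : W) (U : Finset I) :
    (P.sq (P.spl Γ p U)).card ≤ (P.sq Γ).card :=
  Finset.card_le_card_of_injOn (P.splPf p) (P.splP_maps Γ p U) (P.splP_inj Γ p U)

theorem sq_spl_lt [Fintype E] [Fintype W] {Γ : LG W X} {p : W} {U : Finset I} {κ : P.Cor}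
    (h1 : P.At Γ p κ) (h2 : P.Cr κ U) : (P.sq (P.spl Γ p U)).card < (P.sq Γ).card := by
  obtain ⟨q, hq, hqp⟩ := h1
  rw [← Finset.card_image_of_injOn (P.splP_inj Γ p U)]
  refine Finset.card_lt_card (Finset.ssubset_iff_of_subset ?_ |>.2 ?_)
  · intro τ hτ
    obtain ⟨σ, hσ, rfl⟩ := Finset.mem_image.1 hτ
    exact P.splP_maps Γ p U σ hσ
  · refine ⟨⟨κ.1, q⟩, Finset.mem_filter.2 ⟨Finset.mem_univ _, hq⟩, ?_⟩
    intro hτ
    obtain ⟨⟨e, q'⟩, hσ, h3⟩ := Finset.mem_image.1 hτ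
    have h4 : P.Poly (P.spl Γ p U) e q' := (Finset.mem_filter.1 hσ).2
    obtain ⟨e0, i⟩ := κ
    unfold splPf at h3
    simp only [Sigma.mk.injEq] at h3
    obtain ⟨rfl, h5⟩ := h3
    have h6 := eq_of_heq h5
    have h7 : pr p (q' i) = p := (congrFun h6 i).trans hqp
    obtain ⟨h8, h9⟩ := (P.poly_pr h4).2 i
    rw [h7] at h8 h9
    have h10 := P.mv_ne (p := p) h2
    simp only [prv, nxt] at h10
    rw [← h8, ← h9] at h10
    rcases h10 with ⟨h11, h12⟩ | ⟨h11, h12⟩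
    · rw [h11] at h12
      exact Option.some_ne_none _ h12.symm
    · rw [h11] at h12
      exact Option.some_ne_none _ h12

end OW

end Pool.Agent.InjLI
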