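import Pool.Agent.Lib.InjLI.SplI
import Pool.Agent.Lib.InjLI.SplP

/-!
# SplA : the split graph is acyclic

(helper18, problem MP_cf50d6_gt, paper MP_cf50d6_gt_paper18rel.md)

`c'` a cochain on the split graph with the two balance conditions; `c := P.pb p U c'` on `Γ`. The inner condition for `c`: `inner_spl`.
* `acyc_spl_zero`: outer condition for `c`: by `sum_lift` the sum along a polygon `q` is the sum of `c'` along the polygon `poly_lift`, hence 0 (no corner of `q` at `p`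
  crosses `U`: `⟨e, i⟩` with `q i = p` occurs at `p`, witness `q`). So `c = d k` on the edges of `Γ` and `c' = d (k ∘ pr p)` on the edges of the split graph (`mem_spl`: an edge
  is `(mv u (cl x), x, mv v (cl x))`, `c' (...) = c (u, x, v) = k v - k u`, `pr_mv`).
* `acyc_spl_one`: let `q0` be the polygon of `κ0` through `p`. `δ := ∑ vl c` along `q0`; `η` the cochain of `parts` for `k y = if y = none then 1 else 0`; its sum along a
  polygon `(e, q)` is by `parts` the sum over the corners `i` of `k (mv (q i) (cl prv)) - k (mv (q i) (cl nxt))`, which is 0 (`mv_eq`) unless `q i = p` and `⟨e, i⟩` crosses, i.e.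
  `⟨e, i⟩ = κ0` and then `q = q0` (`poly_unique`); so it is 0 for all polygons except `q0`, and for `q0` it is `ε = ± 1` (`mv_ne`; only the term `i = κ0.2`). For the polygons
  other than `q0` the sum of `c` is 0 as before (no crossing corner at `p`: such a corner would be `κ0` and the polygon `q0`). So `c - δ / ε * η` satisfies both
  conditions (`inner_eta`, `LG.trSum_add`, `LG.trSum_smul`, `vl` is linear) and is `d k'`; hence `c' = d (k' ∘ pr p + δ / ε * k)` on the edges of the split graph.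
-/

set_option autoImplicit false

open scoped Classical

namespace Pool.Agent.InjLI

open Pool.Agent.LIA

universe u v

namespace OW

variable {X : Type u} {I E : Type} {W : Type*} (P : OW X I E)


theorem acyc_spl_zero {Γ : LG W X} {R : Set (FreeGroup X)} (hR : P.Mono R) (hA : P.Acyc R Γ)
    {p : W} {U : Finset I} (h0 : ∀ κ, P.At Γ p κ → ¬ P.Cr κ U) : P.Acyc R (P.spl Γ p U) := by
  intro c' hin hout
  obtain ⟨k, hk⟩ := hA (P.pb p U c') (P.inner_spl hR hin) (by
    intro e q hq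
    have hn : ∀ i, q i = p → ¬ P.Cr ⟨e, i⟩ U := fun i hi => h0 _ ⟨q, hq, hi⟩
    rw [P.sum_lift c' hq hn]
    exact hout e _ (P.poly_lift hq hn))
  refine ⟨fun y => k (pr p y), fun y x z h => ?_⟩
  obtain ⟨u, v, h1, rfl, rfl⟩ := P.mem_spl.1 h
  simp only [pr_mv]
  exact hk u x v h1

private theorem vl_lin {W X : Type*} (c d : W × X × W → ℚ) (r : ℚ) (p : W) (l : X × Bool)
    (q : W) : vl (fun y => c y + r * d y) p l q = vl c p l q + r * vl d p l q := by
  unfold vl
  split_ifs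
  · rfl
  · ring

theorem acyc_spl_one {Γ : LG W X} {R : Set (FreeGroup X)} (hR : P.Mono R) (hA : P.Acyc R Γ)
    {p : W} {U : Finset I} {κ₀ : P.Cor} (h1 : P.At Γ p κ₀) (h2 : P.Cr κ₀ U)
    (h3 : ∀ κ, P.At Γ p κ → P.Cr κ U → κ = κ₀) : P.Acyc R (P.spl Γ p U) := by
  intro c' hin hout
  obtain ⟨e₀, j₀⟩ := κ₀
  obtain ⟨q₀, hq₀, hp₀⟩ := h1
  have hcase : ∀ e q, P.Poly Γ e q → (∀ i, q i = p → ¬ P.Cr ⟨e, i⟩ U) ∨
      ∀ c : W × X × W → ℚ, ∑ i, vl c (q i) (P.a e i) (q (i + 1)) =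
        ∑ i, vl c (q₀ i) (P.a e₀ i) (q₀ (i + 1)) := by
    intro e q hq
    by_cases h : ∃ i, q i = p ∧ P.Cr ⟨e, i⟩ U
    · obtain ⟨i, hi, hc⟩ := h
      have h4 := h3 ⟨e, i⟩ ⟨q, hq, hi⟩ hc
      right
      cases h4
      have h5 : q = q₀ := P.poly_unique hq hq₀ (hi.trans hp₀.symm)
      subst h5
      intro c
      rfl
    · left
      intro i hi hc
      exact h ⟨i, hi, hc⟩
  obtain ⟨k, hk⟩ : ∃ k : Option W → ℚ, k = fun y => if y = none then 1 else 0 := ⟨_, rfl⟩
  obtain ⟨η, hη⟩ : ∃ η : W × X × W → ℚ, η = fun y => k (mv p U y.2.2 (P.cl y.2.1)) -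
    k (mv p U y.1 (P.cl y.2.1)) := ⟨_, rfl⟩
  have hη0 : ∀ e q, P.Poly Γ e q → (∀ i, q i = p → ¬ P.Cr ⟨e, i⟩ U) →
      ∑ i, vl η (q i) (P.a e i) (q (i + 1)) = 0 := by
    intro e q hq hn
    rw [hη, P.parts]
    apply Finset.sum_eq_zero
    intro i _
    rw [P.mv_eq (κ := ⟨e, i⟩) (hn i), sub_self]
  have hε : ∑ i, vl η (q₀ i) (P.a e₀ i) (q₀ (i + 1)) ≠ 0 := by
    rw [hη, P.parts, Finset.sum_eq_single j₀]
    · rw [hp₀]
      rcases P.mv_ne (p := p) h2 with ⟨h4, h5⟩ | ⟨h4, h5⟩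
      · rw [h4, h5, hk]
        simp
      · rw [h4, h5, hk]
        simp
    · intro i _ hi
      rw [P.mv_eq (κ := ⟨e₀, i⟩), sub_self]
      intro hqi hc
      have h4 := h3 ⟨e₀, i⟩ ⟨q₀, hq₀, hqi⟩ hc
      cases h4
      exact hi rfl
    · intro h
      exact absurd (Finset.mem_univ _) h
  obtain ⟨ε, he⟩ : ∃ ε, ε = ∑ i, vl η (q₀ i) (P.a e₀ i) (q₀ (i + 1)) := ⟨_, rfl⟩
  obtain ⟨δ, hd⟩ : ∃ δ, δ = ∑ i, vl (P.pb p U c') (q₀ i) (P.a e₀ i) (q₀ (i + 1)) := ⟨_, rfl⟩
  rw [← he] at hε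
  obtain ⟨k', hk'⟩ := hA (fun y => P.pb p U c' y + (-(δ / ε)) * η y) (by
    intro ρ hρ v hv
    rw [LG.trSum_add, LG.trSum_smul, P.inner_spl hR hin ρ hρ v hv, hη,
      P.inner_eta hR p U k ρ hρ v hv]
    ring) (by
    intro e q hq
    simp only [vl_lin]
    rw [Finset.sum_add_distrib, ← Finset.mul_sum]
    rcases hcase e q hq with hn | hn
    · rw [hη0 e q hq hn, P.sum_lift c' hq hn, hout e _ (P.poly_lift hq hn)]
      ring
    · rw [hn, hn, ← he, ← hd]
      field_simp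
      ring)
  refine ⟨fun y => k' (pr p y) + δ / ε * k y, fun y x z h => ?_⟩
  obtain ⟨u, v, h4, rfl, rfl⟩ := P.mem_spl.1 h
  simp only [pr_mv]
  have h5 := hk' u x v h4
  simp only [pb, hη] at h5
  linarith

end OW

end Pool.Agent.InjLI
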