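import Pool.Agent.Lib.InjLI.SplB
import Pool.Agent.Lib.InjLI.Par

/-!
# SplC : connectedness of the split graph and of its parts

(helper18, problem MP_cf50d6_gt, paper MP_cf50d6_gt_paper18rel.md)

Closed set: closed under the edges in both directions.
* `closed_empty`: `S := {u | some u ∈ T}` is closed in `Γ`: let `(u, x, v) ∈ Γ.F`, `u ∈ S`. Then `u ≠ p` (`some p ∉ T`), so `mv u (cl x) = some u ∈ T`, so `mv v (cl x) ∈ T`
  (`mem_spl_mv`), it is not `none`, so it is `some v` (unfold `mv`), `v ∈ S`. Same for `v ∈ S`. If `S` were nonempty then `p ∈ S` by `hC`. So `S = ∅`, and `none ∉ T`.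
* `cn_spl_one`: let `T` be closed and nonempty. If `none ∉ T`, `some p ∉ T`: `T = ∅`, contradiction. If both are in `T`: `closed_empty` for `Tᶜ`. If exactly one is in `T`:
  let `q` be the polygon of `κ₀` through `p`, `k y = if y ∈ T then 1 else 0`. All terms of the left side of `parts` are 0 (both ends of an edge of the split graph are in `T` or
  none is; the steps of `q` are edges of `Γ`, `step_spl_mv`), the right side has exactly one term different from 0: for the corners `i ≠ κ₀.2` either `q i ≠ p` or `⟨κ₀.1, i⟩`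
  does not cross (`h3`), `mv_eq`; for `i = κ₀.2` the term is `± 1` by `mv_ne`. Contradiction.
* `cn_sub`: let `S` be a nonempty closed set of vertices of `sub (spl) T`; `S' := Subtype.val '' S` is closed in the split graph (`mem_sub`, `hT`). `some p ∉ S'`. If `none ∉ S'`
  then `S' = ∅` (`closed_empty`). So `none ∈ S'`, and `T \ S'` is closed, contains neither `none` nor `some p`: empty. Same for `Tᶜ` (with `some p` in place of `none`).
-/

set_option autoImplicit false

open scoped Classical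

namespace Pool.Agent.InjLI

open Pool.Agent.LIA

universe u v

namespace OW

variable {X : Type u} {I E : Type} {W : Type*} (P : OW X I E)


theorem closed_empty {Γ : LG W X} (hC : Cn Γ) {p : W} {U : Finset I} {T : Set (Option W)}
    (hT : ∀ y x z, (y, x, z) ∈ (P.spl Γ p U).F → (y ∈ T ↔ z ∈ T)) (h1 : none ∉ T)
    (h2 : some p ∉ T) : T = ∅ := by
  have hmv : ∀ (u : W) (b : I), (mv p U u b ∈ T ↔ some u ∈ T) := by
    intro u b
    unfold mv
    split_ifs with h
    · rw [h.1]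
      exact ⟨fun h' => absurd h' h1, fun h' => absurd h' h2⟩
    · rfl
  have hS : ∀ u x v, (u, x, v) ∈ Γ.F → (u ∈ {w | some w ∈ T} ↔ v ∈ {w | some w ∈ T}) := by
    intro u x v h
    have h3 := hT _ _ _ ((P.mem_spl_mv (p := p) (U := U)).2 h)
    rwa [hmv, hmv] at h3
  by_contra hne
  obtain ⟨t, ht⟩ := Set.nonempty_iff_ne_empty.2 hne
  cases t with
  | none => exact h1 ht
  | some w => exact h2 (hC {w | some w ∈ T} ⟨w, ht⟩ hS p)

private theorem splC_zero {Γ : LG W X} {p : W} {U : Finset I} {T : Set (Option W)}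
    (hT : ∀ y x z, (y, x, z) ∈ (P.spl Γ p U).F → (y ∈ T ↔ z ∈ T)) {u v : W} {l : X × Bool}
    (h : Γ.Step u l v) :
    vl (fun y : W × X × W => (if mv p U y.2.2 (P.cl y.2.1) ∈ T then (1 : ℚ) else 0) -
      (if mv p U y.1 (P.cl y.2.1) ∈ T then (1 : ℚ) else 0)) u l v = 0 := by
  obtain ⟨x, b⟩ := l
  cases b
  · rw [LG.step_false] at h
    have h3 := hT _ _ _ ((P.mem_spl_mv (p := p) (U := U)).2 h)
    simp [vl, h3]
  · rw [LG.step_true] at h
    have h3 := hT _ _ _ ((P.mem_spl_mv (p := p) (U := U)).2 h)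
    simp [vl, h3]

theorem cn_spl_one {Γ : LG W X} (hC : Cn Γ) {p : W} {U : Finset I} {κ₀ : P.Cor}
    (h1 : P.At Γ p κ₀) (h2 : P.Cr κ₀ U) (h3 : ∀ κ, P.At Γ p κ → P.Cr κ U → κ = κ₀) :
    Cn (P.spl Γ p U) := by
  intro T hTne hT
  have hsame : (none ∈ T ↔ some p ∈ T) := by
    obtain ⟨e, i₀⟩ := κ₀
    obtain ⟨q, hq, hqp⟩ := h1
    have hq' : ∀ c, Γ.Step (q c) (P.a e c) (q (c + 1)) := hq
    have hparts := P.parts (fun y => if y ∈ T then (1 : ℚ) else 0) p U e q
    rw [Finset.sum_eq_zero fun i _ => P.splC_zero hT (hq' i)] at hparts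
    rw [Finset.sum_eq_single i₀] at hparts
    · have hqp' : q i₀ = p := hqp
      rw [hqp'] at hparts
      rcases P.mv_ne (p := p) h2 with ⟨e1, e2⟩ | ⟨e1, e2⟩
      · rw [e1, e2] at hparts
        by_cases a1 : none ∈ T <;> by_cases a2 : some p ∈ T <;> simp_all
      · rw [e1, e2] at hparts
        by_cases a1 : none ∈ T <;> by_cases a2 : some p ∈ T <;> simp_all
    · intro i _ hi
      rw [P.mv_eq (p := p) (q := q i) (U := U) (κ := ⟨e, i⟩), sub_self]
      intro h4 h5
      apply hi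
      have h6 := h3 ⟨e, i⟩ ⟨q, hq, h4⟩ h5
      simpa using h6
    · intro h4
      exact absurd (Finset.mem_univ _) h4
  by_cases a1 : none ∈ T
  · have hc : Tᶜ = ∅ := P.closed_empty hC (p := p) (U := U)
      (fun y x z h => not_congr (hT y x z h)) (fun h => h a1) (fun h => h (hsame.1 a1))
    intro w
    by_contra hw
    have hw' : w ∈ Tᶜ := hw
    rw [hc] at hw'
    exact hw'
  · have hc : T = ∅ := P.closed_empty hC (p := p) (U := U) hT a1 fun h => a1 (hsame.2 h)
    rw [hc] at hTne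
    exact absurd hTne Set.not_nonempty_empty

private theorem splC_cn {Y : Type*} {G : LG Y X} {a b : Y}
    (hab : ∀ T : Set Y, (∀ y x z, (y, x, z) ∈ G.F → (y ∈ T ↔ z ∈ T)) → a ∉ T → b ∉ T → T = ∅)
    {T : Set Y} (hT : ∀ y x z, (y, x, z) ∈ G.F → (y ∈ T ↔ z ∈ T)) (_ha : a ∈ T) (hb : b ∉ T) :
    Cn (sub G T) := by
  intro S hSne hS
  have hS' : ∀ y x z, (y, x, z) ∈ G.F → (y ∈ Subtype.val '' S ↔ z ∈ Subtype.val '' S) := by
    intro y x z h
    constructor
    · rintro ⟨y', hy', rfl⟩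
      have hz : z ∈ T := (hT _ _ _ h).1 y'.2
      exact ⟨⟨z, hz⟩, (hS y' x ⟨z, hz⟩ (mem_sub.2 h)).1 hy', rfl⟩
    · rintro ⟨z', hz', rfl⟩
      have hy : y ∈ T := (hT _ _ _ h).2 z'.2
      exact ⟨⟨y, hy⟩, (hS ⟨y, hy⟩ x z' (mem_sub.2 h)).2 hz', rfl⟩
  have hbS : b ∉ Subtype.val '' S := by
    rintro ⟨y, _, rfl⟩
    exact hb y.2
  have haS : a ∈ Subtype.val '' S := by
    by_contra haS
    have h := hab _ hS' haS hbS
    obtain ⟨s, hs⟩ := hSne
    have h' : s.1 ∈ Subtype.val '' S := ⟨s, hs, rfl⟩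
    rw [h] at h'
    exact h'
  have hE : T \ Subtype.val '' S = ∅ := by
    refine hab _ (fun y x z h => ?_) (fun h => h.2 haS) (fun h => hb h.1)
    exact and_congr (hT y x z h) (not_congr (hS' y x z h))
  intro w
  by_contra hw
  have h' : w.1 ∈ T \ Subtype.val '' S := by
    refine ⟨w.2, ?_⟩
    rintro ⟨s, hs, hsw⟩
    exact hw (Subtype.ext hsw ▸ hs)
  rw [hE] at h'
  exact h'

theorem cn_sub {Γ : LG W X} (hC : Cn Γ) {p : W} {U : Finset I} {T : Set (Option W)}
    (hT : ∀ y x z, (y, x, z) ∈ (P.spl Γ p U).F → (y ∈ T ↔ z ∈ T)) (h1 : none ∈ T)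
    (h2 : some p ∉ T) : Cn (sub (P.spl Γ p U) T) ∧ Cn (sub (P.spl Γ p U) Tᶜ) := by
  refine ⟨?_, ?_⟩
  · exact splC_cn (a := none) (b := some p)
      (fun T' hT' b1 b2 => P.closed_empty hC hT' b1 b2) hT h1 h2
  · exact splC_cn (a := some p) (b := none)
      (fun T' hT' b1 b2 => P.closed_empty hC hT' b2 b1)
      (fun y x z h => not_congr (hT y x z h)) h2 (fun h => h h1)

end OW

end Pool.Agent.InjLI
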