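import Mathlib

/-!
# Cyc : closing a cyclic relation

(helper18, problem MP_cf50d6_gt, paper MP_cf50d6_gt_paper18rel.md)

Only Mathlib. Let `p k = g 0 * g 1 * ... * g (k - 1)` (`k ≤ n + 1`), for instance `((List.ofFn g).take k).prod`; `p 0 = 1`, `p (k + 1) = p k * g k`, `p (n + 1) = 1` by `hr`.
* If `j = 0`: `A i = A 0 * p i` for all `i` by induction (`A (i + 1) = B i = A i * g i`, as `i + 1 ≠ 0`), so `B (last) = A 0 * p (n + 1) = A 0`, and `0 - 1 = last`.
* If `j ≠ 0`: `A i = A 0 * p i` for `i < j`, so `B (j - 1) = A 0 * p j`. For `i ≥ j`: `A i = A j * (p j)⁻¹ * p i`, so `B (last) = A j * (p j)⁻¹ * p (n + 1) = A j * (p j)⁻¹`; and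
  `A 0 = B (0 - 1) = B (last)`. So `A j = A 0 * p j = B (j - 1)`.
-/

set_option autoImplicit false

open scoped Classical

namespace Pool.Agent.InjLI

universe u v

private theorem Cyc_sub {n : ℕ} (k : ℕ) (h : k + 1 < n + 1) :
    ((⟨k + 1, h⟩ : Fin (n + 1)) - 1) = ⟨k, by omega⟩ := by
  rw [sub_eq_iff_eq_add]
  apply Fin.ext
  rw [Fin.val_add_one_of_lt]
  rw [Fin.lt_def, Fin.val_last]
  show k < n
  omega

private theorem Cyc_zsub {n : ℕ} : ((0 : Fin (n + 1)) - 1) = Fin.last n := by
  rw [sub_eq_iff_eq_add, Fin.last_add_one]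

private theorem Cyc_p {G : Type*} [Group G] {n : ℕ} (g : Fin (n + 1) → G) (k : ℕ) (h : k < n + 1) :
    ((List.ofFn g).take (k + 1)).prod = ((List.ofFn g).take k).prod * g ⟨k, h⟩ := by
  have hl : k < (List.ofFn g).length := by
    rw [List.length_ofFn]
    exact h
  rw [List.prod_take_succ _ _ hl, List.getElem_ofFn]

theorem cyc {G : Type*} [Group G] {n : ℕ} (g A B : Fin (n + 1) → G)
    (hr : (List.ofFn g).prod = 1) (hB : ∀ i, B i = A i * g i) (j : Fin (n + 1))
    (hj : ∀ i, i ≠ j → A i = B (i - 1)) : A j = B (j - 1) := by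
  have hpl : ((List.ofFn g).take (n + 1)).prod = 1 := by
    rw [List.take_of_length_le (by rw [List.length_ofFn]), hr]
  have h1 : ∀ k : ℕ, ∀ h : k < n + 1, k < (j : ℕ) →
      A ⟨k, h⟩ = A 0 * ((List.ofFn g).take k).prod := by
    intro k
    induction k with
    | zero =>
      intro h _
      rw [List.take_zero, List.prod_nil, mul_one]
      rfl
    | succ k ih =>
      intro h hk
      have hne : (⟨k + 1, h⟩ : Fin (n + 1)) ≠ j := by
        intro he
        rw [← he] at hk
        exact lt_irrefl _ hk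
      rw [hj _ hne, Cyc_sub, hB, ih (by omega) (by omega), Cyc_p g k (by omega), mul_assoc]
  have h2 : ∀ k : ℕ, (j : ℕ) ≤ k → ∀ h : k < n + 1,
      A ⟨k, h⟩ = A j * (((List.ofFn g).take (j : ℕ)).prod)⁻¹ * ((List.ofFn g).take k).prod := by
    intro k hk
    induction k, hk using Nat.le_induction with
    | base =>
      intro h
      rw [inv_mul_cancel_right]
    | succ k hk ih =>
      intro h
      have hne : (⟨k + 1, h⟩ : Fin (n + 1)) ≠ j := by
        intro he
        have := congrArg Fin.val he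
        simp only at this
        omega
      rw [hj _ hne, Cyc_sub, hB, ih (by omega), Cyc_p g k (by omega), mul_assoc]
  have h3 : B (Fin.last n) = A j * (((List.ofFn g).take (j : ℕ)).prod)⁻¹ := by
    have h4 := h2 n (by have := j.isLt; omega) (Nat.lt_succ_self n)
    have h5 := hB ⟨n, Nat.lt_succ_self n⟩
    rw [h4, mul_assoc, ← Cyc_p g n (Nat.lt_succ_self n), hpl, mul_one] at h5
    exact h5
  rcases Nat.eq_zero_or_pos (j : ℕ) with h0 | h0
  · have hj0 : j = 0 := Fin.ext h0
    subst hj0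
    rw [Cyc_zsub, h3]
    simp
  · obtain ⟨m, hm⟩ : ∃ m, (j : ℕ) = m + 1 := ⟨(j : ℕ) - 1, by omega⟩
    have hjm : j = ⟨m + 1, by have := j.isLt; omega⟩ := Fin.ext hm
    have hne : (0 : Fin (n + 1)) ≠ j := by
      intro he
      rw [← he] at h0
      exact lt_irrefl _ h0
    have h6 := hj 0 hne
    rw [Cyc_zsub, h3] at h6
    have h7 : B (j - 1) = A 0 * ((List.ofFn g).take (j : ℕ)).prod := by
      have h8 := h1 m (by have := j.isLt; omega) (by omega)
      have h9 := Cyc_p g m (by have := j.isLt; omega)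
      rw [hm, h9, ← mul_assoc, ← h8, ← hB]
      have h10 : j - 1 = ⟨m, by have := j.isLt; omega⟩ := by
        have h11 := Cyc_sub (n := n) m (by have := j.isLt; omega)
        rw [← h11]
        exact congrArg (fun t => t - 1) hjm
      rw [h10]
    rw [h7, h6, inv_mul_cancel_right]

end Pool.Agent.InjLI
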