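import Pool.Agent.Lib.InjLI.SplP
import Pool.Agent.Lib.InjLI.Cyc

/-!
# SplG : a potential of the split graph gives one of the graph (one crossing corner)

(helper18, problem MP_cf50d6_gt, paper MP_cf50d6_gt_paper18rel.md)

Let `q` be the polygon of `κ₀ = ⟨e, j⟩` through `p` (`q j = p`), `Φ` a potential of the split graph. Put `A i = Φ (mv p U (q i) (cl (nxt ⟨e, i⟩).1))` (start of the letter `i`),
`B i = Φ (mv p U (q (i + 1)) (cl (nxt ⟨e, i⟩).1))` (end of the letter `i`). By `step_spl_mv` the step `i` is a step of the split graph, so `B i = A i * y i` with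
`y i = if (a e i).2 then g (a e i).1 else (g (a e i).1)⁻¹`. For `i ≠ j`: `A i = B (i - 1)` (`mv_eq` for the corner `⟨e, i⟩`: if `q i = p` and it crosses then it occurs at `p`, so it
is `κ₀`; `i - 1 + 1 = i`). `(List.ofFn y).prod = FreeGroup.lift g (FreeGroup.mk (List.ofFn (P.a e))) = 1` (`FreeGroup.lift_mk`, `List.map_ofFn`). By `cyc`: `A j = B (j - 1)`, i.e.
`Φ` has the same value at `mv p U p (cl nxt)` and `mv p U p (cl prv)`, which are `none` and `some p` (`mv_ne`). So `Φ none = Φ (some p)`, `Φ (mv p U q b) = Φ (some q)` for all `q b`, and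
`φ q = Φ (some q)` is a potential of `Γ` (`mem_spl_mv`).
-/

set_option autoImplicit false

open scoped Classical

namespace Pool.Agent.InjLI

open Pool.Agent.LIA

universe u v

namespace OW

variable {X : Type u} {I E : Type} {W : Type*} (P : OW X I E)


theorem potG_spl {G : Type*} [Group G] (g : X → G)
    (hr : ∀ e, FreeGroup.lift g (FreeGroup.mk (List.ofFn (P.a e))) = 1) {Γ : LG W X} {p : W}
    {U : Finset I} {κ₀ : P.Cor} (h1 : P.At Γ p κ₀) (h2 : P.Cr κ₀ U)
    (h3 : ∀ κ, P.At Γ p κ → P.Cr κ U → κ = κ₀) (h : PotG g (P.spl Γ p U)) : PotG g Γ := by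
  obtain ⟨e, j⟩ := κ₀
  obtain ⟨q, hq, hqj⟩ := h1
  obtain ⟨Φ, hΦ⟩ := h
  have hqj' : q j = p := hqj
  have hB : ∀ i, Φ (mv p U (q (i + 1)) (P.cl (P.a e i).1)) =
      Φ (mv p U (q i) (P.cl (P.a e i).1)) *
        (if (P.a e i).2 then g (P.a e i).1 else (g (P.a e i).1)⁻¹) := by
    intro i
    have h4 : (P.spl Γ p U).Step (mv p U (q i) (P.cl (P.a e i).1)) (P.a e i)
        (mv p U (q (i + 1)) (P.cl (P.a e i).1)) := P.step_spl_mv.2 (hq i)
    unfold LG.Step at h4
    split_ifs at h4 ⊢ with h5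
    · exact hΦ _ _ _ h4
    · rw [hΦ _ _ _ h4, mul_inv_cancel_right]
  have hp : (List.ofFn fun i => if (P.a e i).2 then g (P.a e i).1
      else (g (P.a e i).1)⁻¹).prod = 1 := by
    have h4 := hr e
    rw [FreeGroup.lift_mk, List.map_ofFn] at h4
    rw [← h4]
    congr 2
    funext i
    simp only [Function.comp]
    cases (P.a e i).2 <;> simp
  have hj : ∀ i, i ≠ j → Φ (mv p U (q i) (P.cl (P.a e i).1)) =
      Φ (mv p U (q (i - 1 + 1)) (P.cl (P.a e (i - 1)).1)) := by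
    intro i hi
    rw [sub_add_cancel]
    have h4 : mv p U (q i) (P.cl (P.prv ⟨e, i⟩).1) = mv p U (q i) (P.cl (P.nxt ⟨e, i⟩).1) := by
      refine P.mv_eq fun h5 h6 => hi ?_
      have h7 := h3 ⟨e, i⟩ ⟨q, hq, h5⟩ h6
      simpa using h7
    exact congrArg Φ h4.symm
  have h5 := cyc (fun i => if (P.a e i).2 then g (P.a e i).1 else (g (P.a e i).1)⁻¹)
    (fun i => Φ (mv p U (q i) (P.cl (P.a e i).1)))
    (fun i => Φ (mv p U (q (i + 1)) (P.cl (P.a e i).1))) hp hB j hj
  simp only [sub_add_cancel, hqj'] at h5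
  have h6 : Φ (mv p U p (P.cl (P.nxt ⟨e, j⟩).1)) = Φ (mv p U p (P.cl (P.prv ⟨e, j⟩).1)) := h5
  have h7 : Φ none = Φ (some p) := by
    rcases P.mv_ne (p := p) h2 with ⟨h8, h9⟩ | ⟨h8, h9⟩
    · rw [h8, h9] at h6
      exact h6.symm
    · rw [h8, h9] at h6
      exact h6
  have h8 : ∀ (w : W) (b : I), Φ (mv p U w b) = Φ (some w) := by
    intro w b
    unfold mv
    split_ifs with h9
    · rw [h7, h9.1]
    · rfl
  refine ⟨fun w => Φ (some w), fun u x v hux => ?_⟩
  have h9 := hΦ _ _ _ (P.mem_spl_mv.2 hux : (mv p U u (P.cl x), x, mv p U v (P.cl x)) ∈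
    (P.spl Γ p U).F)
  rwa [h8, h8] at h9

end OW

end Pool.Agent.InjLI
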