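import Pool.Agent.Lib.InjLI.SplI
import Pool.Agent.Lib.InjLI.SplP

/-!
# SplZ : without crossing corners the split graph is not connected

(helper18, problem MP_cf50d6_gt, paper MP_cf50d6_gt_paper18rel.md)

The cochain `η y = k (mv y.2.2 (cl y.2.1)) - k (mv y.1 (cl y.2.1))` on `Γ`, for `k y = if y = none then 1 else 0`, satisfies both balance conditions: inner: `inner_eta`; outer: `parts`,
every term is 0 by `mv_eq` (a corner `⟨e, i⟩` of a polygon `q` with `q i = p` occurs at `p`, so it does not cross). By `hA` there is `h` with `η (u, x, v) = h v - h u` on the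
edges. Put `T := {y | k y - h (pr p y) = 1 - h p}`. For an edge `(mv u (cl x), x, mv v (cl x))` of the split graph (`mem_spl`) the numbers `k y - h (pr p y)` at both ends
agree (`pr_mv`). `none ∈ T`, `some p ∉ T` (`0 - h p ≠ 1 - h p`).
-/

set_option autoImplicit false

open scoped Classical

namespace Pool.Agent.InjLI

open Pool.Agent.LIA

universe u v

namespace OW

variable {X : Type u} {I E : Type} {W : Type*} (P : OW X I E)


theorem exists_closed {Γ : LG W X} {R : Set (FreeGroup X)} (hR : P.Mono R) (hA : P.Acyc R Γ)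
    {p : W} {U : Finset I} (h0 : ∀ κ, P.At Γ p κ → ¬ P.Cr κ U) :
    ∃ T : Set (Option W), none ∈ T ∧ some p ∉ T ∧
      ∀ y x z, (y, x, z) ∈ (P.spl Γ p U).F → (y ∈ T ↔ z ∈ T) := by
  obtain ⟨k, hk0, hk1⟩ : ∃ k : Option W → ℚ, k none = 1 ∧ k (some p) = 0 :=
    ⟨fun y => if y = none then 1 else 0, if_pos rfl, if_neg (by simp)⟩
  obtain ⟨h, hh⟩ := hA
    (fun y : W × X × W => k (mv p U y.2.2 (P.cl y.2.1)) - k (mv p U y.1 (P.cl y.2.1)))
    (P.inner_eta hR p U k) (fun e q hq => by
      rw [P.parts k p U e q]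
      refine Finset.sum_eq_zero fun i _ => ?_
      rw [mv_eq P (κ := ⟨e, i⟩) (fun hi => h0 ⟨e, i⟩ ⟨q, hq, hi⟩), sub_self])
  refine ⟨{y | k y - h (pr p y) = 1 - h p}, ?_, ?_, ?_⟩
  · rw [Set.mem_ofPred_eq, hk0]
    rfl
  · rw [Set.mem_ofPred_eq, hk1]
    intro h1
    have h2 : h (pr p (some p)) = h p := rfl
    rw [h2] at h1
    linarith
  · intro y x z hyz
    obtain ⟨u, v, huv, rfl, rfl⟩ := P.mem_spl.1 hyz
    have h1 := hh u x v huv
    simp only at h1
    rw [Set.mem_ofPred_eq, Set.mem_ofPred_eq, pr_mv, pr_mv]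
    constructor <;> intro h2 <;> linarith

end OW

end Pool.Agent.InjLI
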