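import Pool.Agent.Lib.InjLI.Defs

/-!
# SubA : a closed part of an acyclic graph is acyclic

(helper18, problem MP_cf50d6_gt, paper MP_cf50d6_gt_paper18rel.md)

`c` a cochain on `sub Δ T` with both balance conditions. Extend it by zero: `c' y = if h : y.1 ∈ T ∧ y.2.2 ∈ T then c (⟨y.1, h.1⟩, y.2.1, ⟨y.2.2, h.2⟩) else 0`.
* INNER: let `Δ.Walk v L v`. If `v ∈ T`: private lemma by induction on `L`: for `v ∈ T` and `Δ.Walk v L w` we have `w ∈ T`, `(sub Δ T).Walk ⟨v, _⟩ L ⟨w, _⟩` and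
  `Δ.trSum c' v L = (sub Δ T).trSum c ⟨v, _⟩ L` (`LG.trSum_cons` on both sides, a step from a vertex of `T` ends in `T` by `hT`, `mem_sub`). If `v ∉ T`: the sum is 0 (all
  vertices of the walk are not in `T`: `LG.trSum_congr` with `C = Tᶜ` and the zero cochain, or induction).
* OUTER: `P.Poly Δ e q`: if `q 0 ∈ T` then all `q i ∈ T` (induction along `i`, as in `q (0 + n)`), lift to a polygon of `sub Δ T`, the sums agree; if `q 0 ∉ T` then no `q i` is in `T` and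
  every term is 0.
So `c' = d h` on the edges of `Δ`, and `c = d (h ∘ Subtype.val)` (`mem_sub`).
-/

set_option autoImplicit false

open scoped Classical

namespace Pool.Agent.InjLI

open Pool.Agent.LIA

universe u v

namespace OW

variable {X : Type u} {I E : Type} {W : Type*} (P : OW X I E)


private theorem SubA_step {Δ : LG W X} {T : Set W}
    (hT : ∀ y x z, (y, x, z) ∈ Δ.F → (y ∈ T ↔ z ∈ T)) {u : W} {l : X × Bool} {v : W}
    (h : Δ.Step u l v) : u ∈ T ↔ v ∈ T := by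
  unfold LG.Step at h
  split_ifs at h with hl
  · exact hT _ _ _ h
  · exact (hT _ _ _ h).symm

private theorem SubA_sub_step {Δ : LG W X} {T : Set W} {u v : T} {l : X × Bool}
    (h : Δ.Step u.1 l v.1) : (sub Δ T).Step u l v := by
  unfold LG.Step at h ⊢
  split_ifs at h ⊢ with hl
  · exact mem_sub.2 h
  · exact mem_sub.2 h

/-- extension of a cochain by zero -/
private noncomputable def SubA_ext {T : Set W} (c : T × X × T → ℚ) : W × X × W → ℚ :=
  fun y => if h : y.1 ∈ T ∧ y.2.2 ∈ T then c (⟨y.1, h.1⟩, y.2.1, ⟨y.2.2, h.2⟩) else 0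

private theorem SubA_ext_in {T : Set W} (c : T × X × T → ℚ) {u v : W} (x : X) (hu : u ∈ T)
    (hv : v ∈ T) : SubA_ext c (u, x, v) = c (⟨u, hu⟩, x, ⟨v, hv⟩) := by
  unfold SubA_ext
  rw [dif_pos ⟨hu, hv⟩]

private theorem SubA_ext_out {T : Set W} (c : T × X × T → ℚ) {u v : W} (x : X)
    (h : ¬ (u ∈ T ∧ v ∈ T)) : SubA_ext c (u, x, v) = 0 := by
  unfold SubA_ext
  rw [dif_neg h]

private theorem SubA_vl_in {T : Set W} (c : T × X × T → ℚ) {u v : W} (l : X × Bool) (hu : u ∈ T)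
    (hv : v ∈ T) : vl (SubA_ext c) u l v = vl c ⟨u, hu⟩ l ⟨v, hv⟩ := by
  unfold vl
  rw [SubA_ext_in c l.1 hu hv, SubA_ext_in c l.1 hv hu]

private theorem SubA_vl_out {T : Set W} (c : T × X × T → ℚ) {u v : W} (l : X × Bool)
    (hu : u ∉ T) : vl (SubA_ext c) u l v = 0 := by
  unfold vl
  rw [SubA_ext_out c l.1 (fun h => hu h.1), SubA_ext_out c l.1 (fun h => hu h.2), neg_zero,
    ite_self]

private theorem SubA_in {Δ : LG W X} {T : Set W}
    (hT : ∀ y x z, (y, x, z) ∈ Δ.F → (y ∈ T ↔ z ∈ T)) (c : T × X × T → ℚ)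
    (L : List (X × Bool)) : ∀ (u w : W) (hu : u ∈ T), Δ.Walk u L w →
      ∃ hw : w ∈ T, (sub Δ T).Walk ⟨u, hu⟩ L ⟨w, hw⟩ ∧
        Δ.trSum (SubA_ext c) u L = (sub Δ T).trSum c ⟨u, hu⟩ L := by
  induction L with
  | nil =>
    intro u w hu h
    obtain rfl := LG.walk_nil.1 h
    exact ⟨hu, LG.walk_nil.2 rfl, by rw [LG.trSum_nil, LG.trSum_nil]⟩
  | cons l L ih =>
    intro u w hu h
    obtain ⟨v, h1, h2⟩ := LG.walk_cons.1 h
    have hv : v ∈ T := (SubA_step hT h1).1 hu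
    obtain ⟨hw, h3, h4⟩ := ih v w hv h2
    have h5 : (sub Δ T).Step ⟨u, hu⟩ l ⟨v, hv⟩ := SubA_sub_step (u := ⟨u, hu⟩) (v := ⟨v, hv⟩) h1
    refine ⟨hw, LG.walk_cons.2 ⟨_, h5, h3⟩, ?_⟩
    rw [LG.trSum_cons _ _ _ h1, LG.trSum_cons _ _ _ h5, h4]
    exact congrArg (· + _) (SubA_vl_in c l hu hv)

private theorem SubA_out {Δ : LG W X} {T : Set W}
    (hT : ∀ y x z, (y, x, z) ∈ Δ.F → (y ∈ T ↔ z ∈ T)) (c : T × X × T → ℚ)
    (L : List (X × Bool)) : ∀ (u w : W), u ∉ T → Δ.Walk u L w →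
      Δ.trSum (SubA_ext c) u L = 0 := by
  induction L with
  | nil =>
    intro u w hu h
    rw [LG.trSum_nil]
  | cons l L ih =>
    intro u w hu h
    obtain ⟨v, h1, h2⟩ := LG.walk_cons.1 h
    have hv : v ∉ T := fun hv => hu ((SubA_step hT h1).2 hv)
    rw [LG.trSum_cons _ _ _ h1, ih v w hv h2, add_zero]
    exact SubA_vl_out c l hu

private theorem SubA_cyc {Δ : LG W X} {T : Set W}
    (hT : ∀ y x z, (y, x, z) ∈ Δ.F → (y ∈ T ↔ z ∈ T)) {e : E} {q : Fin (P.m e + 1) → W}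
    (h : P.Poly Δ e q) (i : Fin (P.m e + 1)) : q 0 ∈ T ↔ q i ∈ T := by
  induction i using Fin.induction with
  | zero => exact Iff.rfl
  | succ i ih =>
    have h1 := SubA_step hT (h i.castSucc)
    rw [Fin.coeSucc_eq_succ] at h1
    exact ih.trans h1

theorem acyc_sub {Δ : LG W X} {R : Set (FreeGroup X)} (hA : P.Acyc R Δ) {T : Set W}
    (hT : ∀ y x z, (y, x, z) ∈ Δ.F → (y ∈ T ↔ z ∈ T)) : P.Acyc R (sub Δ T) := by
  intro c hin hout
  have key1 : ∀ ρ ∈ R, ∀ v, Δ.Walk v ρ.toWord v → Δ.trSum (SubA_ext c) v ρ.toWord = 0 := by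
    intro ρ hρ v hv
    by_cases hvT : v ∈ T
    · obtain ⟨hw, h1, h2⟩ := SubA_in hT c ρ.toWord v v hvT hv
      rw [h2]
      exact hin ρ hρ _ h1
    · exact SubA_out hT c ρ.toWord v v hvT hv
  have key2 : ∀ e q, P.Poly Δ e q → ∑ i, vl (SubA_ext c) (q i) (P.a e i) (q (i + 1)) = 0 := by
    intro e q hq
    by_cases h0 : q 0 ∈ T
    · have hall : ∀ i, q i ∈ T := fun i => (SubA_cyc P hT hq i).1 h0
      have h1 := hout e (fun i => ⟨q i, hall i⟩) (fun i =>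
        SubA_sub_step (u := ⟨q i, hall i⟩) (v := ⟨q (i + 1), hall (i + 1)⟩) (hq i))
      rw [← h1]
      exact Finset.sum_congr rfl fun i _ => SubA_vl_in c _ (hall i) (hall (i + 1))
    · have hall : ∀ i, q i ∉ T := fun i hi => h0 ((SubA_cyc P hT hq i).2 hi)
      exact Finset.sum_eq_zero fun i _ => SubA_vl_out c _ (hall i)
  obtain ⟨h, hh⟩ := hA (SubA_ext c) key1 key2
  refine ⟨fun w => h w.1, ?_⟩
  intro p x q hpq
  have h1 := hh p.1 x q.1 (mem_sub.1 hpq)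
  rw [SubA_ext_in c x p.2 q.2] at h1
  exact h1

end OW

end Pool.Agent.InjLI
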