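import Pool.Agent.Lib.InjLI.SplP

/-!
# SubN : the measure of the parts

(helper18, problem MP_cf50d6_gt, paper MP_cf50d6_gt_paper18rel.md)

`mu = F.card + sq.card`.
* `sq`: private lemma, for every graph `Δ` and set `T`: `(P.sq (sub Δ T)).card ≤ (P.sq Δ).card` (the map `⟨e, q⟩ ↦ ⟨e, Subtype.val ∘ q⟩` is injective and maps polygons to polygons,
  `mem_sub`, case distinction on the sign of the letters), and `(P.sq (P.spl Γ p U)).card ≤ (P.sq Γ).card` is `sq_spl_le`.
* `F`: the map `(u, x, v) ↦ (u.1, x, v.1)` from `(sub Δ T).F` to `Δ.F` is injective; it is not onto if some edge of `Δ` has an end outside `T`. `card_spl`.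
  For `T`: there is `b ∈ Jp Γ p` not in `U`: an edge `(u, x, v)` of `Γ` with `cl x = b` and `u = p` or `v = p`; its image in the split graph has the end `mv p U p b = some p ∉ T`.
  For `Tᶜ`: there is `b ∈ U`, also in `Jp Γ p`: the end is `mv p U p b = none ∈ T`.
-/

set_option autoImplicit false

open scoped Classical

namespace Pool.Agent.InjLI

open Pool.Agent.LIA

universe u v

namespace OW

variable {X : Type u} {I E : Type} {W : Type*} (P : OW X I E)

private theorem SubN_mem {α : Type*} {s : Finset α} {f : α → Prop} {inst : DecidablePred f}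
    {a : α} (h : a ∈ @Finset.filter α f inst s) : a ∈ s ∧ f a :=
  (@Finset.mem_filter α f inst s a).1 h

private theorem SubN_step {V : Type*} {Δ : LG V X} {T : Set V} {a b : T} {l : X × Bool}
    (h : (sub Δ T).Step a l b) : Δ.Step a.1 l b.1 := by
  unfold LG.Step at h ⊢
  split_ifs at h ⊢ with hl
  · exact mem_sub.1 h
  · exact mem_sub.1 h

private theorem SubN_sq [Fintype E] {V : Type*} [Fintype V] (Δ : LG V X) (T : Set V)
    [Fintype ↥T] : (P.sq (sub Δ T)).card ≤ (P.sq Δ).card := by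
  refine Finset.card_le_card_of_injOn (fun σ => ⟨σ.1, fun i => (σ.2 i).1⟩) ?_ ?_
  · rintro ⟨e, q⟩ h
    have h1 : P.Poly (sub Δ T) e q := by
      simpa [OW.sq] using h
    have h2 : P.Poly Δ e fun i => (q i).1 := fun c => SubN_step (h1 c)
    simpa [OW.sq] using h2
  · rintro ⟨e, q⟩ _ ⟨e', q'⟩ _ h
    simp only [Sigma.mk.injEq] at h
    obtain ⟨h1, h2⟩ := h
    subst h1
    rw [heq_iff_eq] at h2
    have h3 : q = q' := by
      funext i
      exact Subtype.ext (congrFun h2 i)
    rw [h3]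

private theorem SubN_F {V : Type*} (Δ : LG V X) (T : Set V) {a b : V} {x : X}
    (h : (a, x, b) ∈ Δ.F) (hab : a ∉ T ∨ b ∉ T) : (sub Δ T).F.card < Δ.F.card := by
  have h1 : ((sub Δ T).F.image fun e => (e.1.1, e.2.1, e.2.2.1)).card = (sub Δ T).F.card := by
    refine Finset.card_image_of_injective _ ?_
    rintro ⟨u, y, v⟩ ⟨u', y', v'⟩ h
    simp only [Prod.mk.injEq] at h
    obtain ⟨h2, h3, h4⟩ := h
    rw [Subtype.ext h2, h3, Subtype.ext h4]
  rw [← h1]
  refine Finset.card_lt_card ⟨?_, ?_⟩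
  · intro e he
    rw [Finset.mem_image] at he
    obtain ⟨⟨u, y, v⟩, h2, rfl⟩ := he
    exact mem_sub.1 h2
  · intro hh
    have h2 := hh h
    rw [Finset.mem_image] at h2
    obtain ⟨⟨u, y, v⟩, _, h3⟩ := h2
    simp only [Prod.mk.injEq] at h3
    rcases hab with h4 | h4
    · exact h4 (h3.1 ▸ u.2)
    · exact h4 (h3.2.2 ▸ v.2)

theorem mu_sub_lt [Fintype I] [Fintype E] [Fintype W] {Γ : LG W X} {p : W} {U : Finset I}
    (hU : U.Nonempty) (hU' : U ⊂ P.Jp Γ p) {T : Set (Option W)} [Fintype ↥T] [Fintype ↥(Tᶜ)]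
    (h1 : none ∈ T) (h2 : some p ∉ T) :
    P.mu (sub (P.spl Γ p U) T) < P.mu Γ ∧ P.mu (sub (P.spl Γ p U) Tᶜ) < P.mu Γ := by
  have hs := P.sq_spl_le Γ p U
  have hc := P.card_spl Γ p U
  constructor
  · obtain ⟨b, hb, hbU⟩ := Finset.exists_of_ssubset hU'
    obtain ⟨u, x, v, huv, hx, hp⟩ := (SubN_mem hb).2
    have hm := P.mem_spl_mv (p := p) (U := U) |>.2 huv
    have hmv : mv p U p (P.cl x) = some p := by
      unfold mv
      rw [if_neg]
      rintro ⟨-, h⟩
      exact hbU (hx ▸ h)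
    have h3 : (sub (P.spl Γ p U) T).F.card < (P.spl Γ p U).F.card := by
      refine SubN_F _ T hm ?_
      rcases hp with rfl | rfl
      · left; rw [hmv]; exact h2
      · right; rw [hmv]; exact h2
    have h4 := P.SubN_sq (P.spl Γ p U) T
    unfold OW.mu
    omega
  · obtain ⟨b, hbU⟩ := hU
    have hb := hU'.1 hbU
    obtain ⟨u, x, v, huv, hx, hp⟩ := (SubN_mem hb).2
    have hm := P.mem_spl_mv (p := p) (U := U) |>.2 huv
    have hmv : mv p U p (P.cl x) = none := by
      unfold mv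
      rw [if_pos]
      exact ⟨rfl, hx ▸ hbU⟩
    have h3 : (sub (P.spl Γ p U) Tᶜ).F.card < (P.spl Γ p U).F.card := by
      refine SubN_F _ Tᶜ hm ?_
      rcases hp with rfl | rfl
      · left; rw [hmv]; exact fun h => h h1
      · right; rw [hmv]; exact fun h => h h1
    have h4 := P.SubN_sq (P.spl Γ p U) Tᶜ
    unfold OW.mu
    omega

end OW

end Pool.Agent.InjLI
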