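import Pool.Agent.Lib.InjLI.Defs2

/-!
# Ker : the kernel of the map from the free group on all elements

(helper18, problem MP_cf50d6_gt, paper MP_cf50d6_gt_paper18rel.md)

`X = Σ b, H b`, `P = ⟨Sigma.fst, m, a, alt⟩`, `fv b x` = the element `x` if it is in `H b`, otherwise 1 (`fv_self` by `dif_pos`).
`N :=` the normal closure on the right side, `K := FreeGroup (Σ b, H b) ⧸ N`.
* private: a word with all letters in the block `b` has a reduced form with all letters in `b` (`FreeGroup.toWord` of `FreeGroup.mk L` is `FreeGroup.reduce L`, a sublist of `L`: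
  `FreeGroup.reduce.red`, `FreeGroup.Red.sublist`). So for `h h' : H b` the element `of ⟨b, h⟩ * of ⟨b, h'⟩ * (of ⟨b, h * h'⟩)⁻¹` is in `P.innb fv b`, so in `P.inn fv`, and its class in `K` is 1
  (`FreeGroup.mk_toWord`).
* `φ b : H b →* K`, `h ↦ mk (of ⟨b, h⟩)` (`MonoidHom.mk'`). `Monoid.CoprodI.lift φ (relA a e)` is the class of `FreeGroup.mk (List.ofFn (a e))` (both are products over
  `List.ofFn`; `map_list_prod`, `List.map_ofFn`, and `FreeGroup.mk` of a list is the product of its letters: private induction), hence 1.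
* `hcol.univ` gives `Φ : G →* K`, and `Φ ∘ FreeGroup.lift (fun x => θ x.1 x.2) = QuotientGroup.mk' N` (check on generators, `FreeGroup.ext_hom`). So an element of the kernel is in `N`.
-/

set_option autoImplicit false

open scoped Classical

namespace Pool.Agent.InjLI

open Pool.Agent.LIA

universe u v

/-- the element `x` if it is in `H b`, otherwise 1 -/
noncomputable def fv {I : Type} {H : I → Type u} [∀ b, Group (H b)] (b : I) (x : Σ b, H b) : H b :=
  if h : x.1 = b then h ▸ x.2 else 1

theorem fv_self {I : Type} {H : I → Type u} [∀ b, Group (H b)] (b : I) (h : H b) :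
    fv b ⟨b, h⟩ = h := by
  simp [fv]

private lemma Ker_aux {X : Type*} [DecidableEq X] (x y z : X) (s : X × Bool)
    (hs : s ∈ (FreeGroup.of x * FreeGroup.of y * (FreeGroup.of z)⁻¹).toWord) :
    s.1 = x ∨ s.1 = y ∨ s.1 = z := by
  have h1 := (FreeGroup.toWord_mul_sublist (FreeGroup.of x * FreeGroup.of y)
    (FreeGroup.of z)⁻¹).subset hs
  rw [List.mem_append] at h1
  rcases h1 with h1 | h1
  · have h2 := (FreeGroup.toWord_mul_sublist (FreeGroup.of x) (FreeGroup.of y)).subset h1
    rw [List.mem_append, FreeGroup.toWord_of, FreeGroup.toWord_of] at h2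
    rcases h2 with h2 | h2
    · rw [List.mem_singleton.1 h2]
      exact Or.inl rfl
    · rw [List.mem_singleton.1 h2]
      exact Or.inr (Or.inl rfl)
  · rw [FreeGroup.toWord_inv, FreeGroup.toWord_of] at h1
    have h3 : s = (z, false) := by
      simpa [FreeGroup.invRev] using h1
    rw [h3]
    exact Or.inr (Or.inr rfl)

theorem ker_le {I E : Type} {H : I → Type u} [∀ b, Group (H b)] {m : E → ℕ}
    {a : ∀ e, Fin (m e + 1) → (Σ b, H b) × Bool}
    (alt : ∀ e c, (a e c).1.1 ≠ (a e (c + 1)).1.1) {G : Type u} [Group G] {θ : ∀ b, H b →* G}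
    (hcol : IsCol H (relA a) G θ) :
    (FreeGroup.lift fun x : Σ b, H b => θ x.1 x.2).ker ≤ Subgroup.normalClosure
      (Set.range fun z => FreeGroup.mk ((OW.mk Sigma.fst m a alt).relw
        ((OW.mk Sigma.fst m a alt).inn fv) z)) := by
  set N : Subgroup (FreeGroup (Σ b, H b)) := Subgroup.normalClosure
      (Set.range fun z => FreeGroup.mk ((OW.mk Sigma.fst m a alt).relw
        ((OW.mk Sigma.fst m a alt).inn fv) z)) with hN
  have hin : ∀ ρ ∈ (OW.mk Sigma.fst m a alt).inn (fv (H := H)), ρ ∈ N := by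
    intro ρ hρ
    refine Subgroup.subset_normalClosure ⟨Sum.inl ⟨ρ, hρ⟩, ?_⟩
    exact @FreeGroup.mk_toWord _ (fun a b => Classical.propDecidable (a = b)) ρ
  have hout : ∀ e, FreeGroup.mk (List.ofFn (a e)) ∈ N := fun e =>
    Subgroup.subset_normalClosure ⟨Sum.inr e, rfl⟩
  have hmul : ∀ b (h h' : H b),
      FreeGroup.of (⟨b, h⟩ : Σ b, H b) * FreeGroup.of ⟨b, h'⟩ * (FreeGroup.of ⟨b, h * h'⟩)⁻¹ ∈ N := by
    intro b h h'
    refine hin _ ⟨b, ?_, ?_⟩
    · intro s hs
      rcases @Ker_aux _ (fun a b => Classical.propDecidable (a = b)) _ _ _ s hs with h1 | h1 | h1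
      · exact congrArg Sigma.fst h1
      · exact congrArg Sigma.fst h1
      · exact congrArg Sigma.fst h1
    · simp only [map_mul, map_inv, FreeGroup.lift_apply_of, fv_self]
      exact mul_inv_cancel _
  let q : FreeGroup (Σ b, H b) →* (FreeGroup (Σ b, H b) ⧸ N) := QuotientGroup.mk' N
  have hq : ∀ x, q x = 1 ↔ x ∈ N := fun x => QuotientGroup.eq_one_iff x
  let φ : ∀ b, H b →* (FreeGroup (Σ b, H b) ⧸ N) := fun b =>
    MonoidHom.mk' (fun h => q (FreeGroup.of ⟨b, h⟩)) (by
      intro h h'
      have h1 := (hq _).2 (hmul b h h')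
      rw [map_mul, map_mul, map_inv, mul_inv_eq_one] at h1
      exact h1.symm)
  have hφ : ∀ e, Monoid.CoprodI.lift φ (relA a e) = 1 := by
    intro e
    have h1 : q (FreeGroup.mk (List.ofFn (a e))) = 1 := (hq _).2 (hout e)
    have h2 : FreeGroup.lift (fun x => q (FreeGroup.of x)) = q := FreeGroup.ext_hom _ _ (by simp)
    rw [← h2, FreeGroup.lift_mk] at h1
    rw [← h1]
    unfold relA
    rw [map_list_prod, List.map_ofFn, List.map_ofFn]
    congr 2
    funext c
    simp only [Function.comp]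
    unfold sg
    cases (a e c).2
    · simp [φ]
    · simp [φ]
  obtain ⟨Φ, hΦ⟩ := hcol.univ (FreeGroup (Σ b, H b) ⧸ N) inferInstance φ hφ
  have hcomp : Φ.comp (FreeGroup.lift fun x : Σ b, H b => θ x.1 x.2) = q := by
    refine FreeGroup.ext_hom _ _ fun x => ?_
    rw [MonoidHom.comp_apply, FreeGroup.lift_apply_of]
    exact hΦ x.1 x.2
  intro x hx
  rw [MonoidHom.mem_ker] at hx
  rw [← hq, ← hcomp, MonoidHom.comp_apply, hx, map_one]

end Pool.Agent.InjLI
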