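import Pool.Agent.Lib.InjLI.Defs

/-!
# KOne : the dimension of the cochains balanced along the inner relators

(helper18, problem MP_cf50d6_gt, paper MP_cf50d6_gt_paper18rel.md)

`Zc R` = cochains on the edges with sum 0 along all closed walks with words in `R` (`Lib/GogLI/KDefs.lean`), `ext0` = extension by zero.
Linear map `Λ : Γ.Zc R → (↥(P.sq Γ) → ℚ)`, `c ↦ fun σ => ∑ i, vl (Γ.ext0 c) (σ.2 i) (P.a σ.1 i) (σ.2 (i + 1))` (linear: `ext0_add`, `ext0_smul`, `vl` is linear in `c`).
A `c` in the kernel satisfies both conditions of `P.Acyc R Γ` (a polygon `(e, q)` is an element of `P.sq Γ`), so `Γ.ext0 c = d h` on the edges, i.e. `c` is in the range of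
`d : (W → ℚ) →ₗ (↥Γ.F → ℚ)`, `h ↦ fun y => h y.1.2.2 - h y.1.1`. The constant function 1 is a nonzero element of `ker d` (`W` nonempty), so `finrank (range d) + 1 ≤ card W`
(`LinearMap.finrank_range_add_finrank_ker`). `finrank (Zc R) = finrank (range Λ) + finrank (ker Λ) ≤ (P.sq Γ).card + finrank (range d)` (the kernel, mapped by `Submodule.subtype`, is
injective into `range d`: `LinearMap.finrank_le_finrank_of_injective`).
-/

/-!
# KOne : the dimension of the cochains balanced along the inner relators

(helper18, problem MP_cf50d6_gt, paper MP_cf50d6_gt_paper18rel.md)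

`Zc R` = cochains on the edges with sum 0 along all closed walks with words in `R` (`Lib/GogLI/KDefs.lean`), `ext0` = extension by zero.
Linear map `Λ : Γ.Zc R → (↥(P.sq Γ) → ℚ)`, `c ↦ fun σ => ∑ i, vl (Γ.ext0 c) (σ.2 i) (P.a σ.1 i) (σ.2 (i + 1))` (linear: `ext0_add`, `ext0_smul`, `vl` is linear in `c`).
A `c` in the kernel satisfies both conditions of `P.Acyc R Γ` (a polygon `(e, q)` is an element of `P.sq Γ`), so `Γ.ext0 c = d h` on the edges, i.e. `c` is in the range of
`d : (W → ℚ) →ₗ (↥Γ.F → ℚ)`, `h ↦ fun y => h y.1.2.2 - h y.1.1`. The constant function 1 is a nonzero element of `ker d` (`W` nonempty), so `finrank (range d) + 1 ≤ card W`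
(`LinearMap.finrank_range_add_finrank_ker`). `finrank (Zc R) = finrank (range Λ) + finrank (ker Λ) ≤ (P.sq Γ).card + finrank (range d)` (the kernel, mapped by `Submodule.subtype`, is
injective into `range d`: `LinearMap.finrank_le_finrank_of_injective`).
-/

set_option autoImplicit false

open scoped Classical

namespace Pool.Agent.InjLI

open Pool.Agent.LIA

universe u v

namespace OW

variable {X : Type u} {I E : Type} {W : Type*} (P : OW X I E)

private lemma KOne_vl_add (c d : W × X × W → ℚ) (p : W) (l : X × Bool) (q : W) :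
    vl (fun e => c e + d e) p l q = vl c p l q + vl d p l q := by
  unfold vl
  split_ifs
  · rfl
  · ring

private lemma KOne_vl_smul (r : ℚ) (c : W × X × W → ℚ) (p : W) (l : X × Bool) (q : W) :
    vl (fun e => r * c e) p l q = r * vl c p l q := by
  unfold vl
  split_ifs
  · rfl
  · ring

theorem finrank_zc [Fintype E] [Fintype W] [Nonempty W] {Γ : LG W X} {R : Set (FreeGroup X)}
    (hA : P.Acyc R Γ) :
    Module.finrank ℚ (Γ.Zc R) + 1 ≤ Fintype.card W + (P.sq Γ).card := by
  let Λ : ↥(Γ.Zc R) →ₗ[ℚ] (↥(P.sq Γ) → ℚ) :=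
    { toFun := fun c σ =>
        ∑ i, vl (Γ.ext0 c.1) (σ.1.2 i) (P.a σ.1.1 i) (σ.1.2 (i + 1))
      map_add' := by
        intro c c'
        funext σ
        simp only [Submodule.coe_add, LG.ext0_add, KOne_vl_add, Finset.sum_add_distrib,
          Pi.add_apply]
      map_smul' := by
        intro r c
        funext σ
        simp only [Submodule.coe_smul, LG.ext0_smul, KOne_vl_smul, ← Finset.mul_sum,
          Pi.smul_apply, smul_eq_mul, RingHom.id_apply] }
  let d : (W → ℚ) →ₗ[ℚ] (↥Γ.F → ℚ) :=
    { toFun := fun h y => h y.1.2.2 - h y.1.1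
      map_add' := by
        intro h h'
        funext y
        simp only [Pi.add_apply]
        ring
      map_smul' := by
        intro r h
        funext y
        simp only [Pi.smul_apply, smul_eq_mul, RingHom.id_apply]
        ring }
  have h1 := LinearMap.finrank_range_add_finrank_ker Λ
  have h2 : Module.finrank ℚ (LinearMap.range Λ) ≤ (P.sq Γ).card := by
    refine (Submodule.finrank_le _).trans ?_
    rw [Module.finrank_fintype_fun_eq_card, Fintype.card_coe]
  have h3 : Module.finrank ℚ (LinearMap.ker Λ) ≤ Module.finrank ℚ (LinearMap.range d) := by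
    have hmem : ∀ c : LinearMap.ker Λ,
        ((Γ.Zc R).subtype ∘ₗ (LinearMap.ker Λ).subtype) c ∈ LinearMap.range d := by
      intro c
      have hc : Λ c.1 = 0 := c.2
      obtain ⟨h, hh⟩ := hA (Γ.ext0 c.1.1) c.1.2 (by
        intro e q hq
        have hm : (⟨e, q⟩ : Σ e : E, Fin (P.m e + 1) → W) ∈ P.sq Γ := by
          unfold sq
          exact Finset.mem_filter.2 ⟨Finset.mem_univ _, hq⟩
        exact congrFun hc ⟨⟨e, q⟩, hm⟩)
      refine ⟨h, ?_⟩
      funext y
      obtain ⟨⟨p, x, q⟩, hy⟩ := y
      have h5 := hh p x q hy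
      simp only [LG.ext0, hy, dite_true] at h5
      exact h5.symm
    refine LinearMap.finrank_le_finrank_of_injective
      (f := LinearMap.codRestrict (LinearMap.range d)
        ((Γ.Zc R).subtype ∘ₗ (LinearMap.ker Λ).subtype) hmem) ?_
    intro a b hab
    have h6 := congrArg Subtype.val hab
    exact Subtype.ext (Subtype.ext h6)
  have h4 : Module.finrank ℚ (LinearMap.range d) + 1 ≤ Fintype.card W := by
    have h5 := LinearMap.finrank_range_add_finrank_ker d
    rw [Module.finrank_fintype_fun_eq_card] at h5
    have h6 : 0 < Module.finrank ℚ (LinearMap.ker d) := by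
      rw [Module.finrank_pos_iff_exists_ne_zero]
      refine ⟨⟨fun _ => 1, ?_⟩, ?_⟩
      · rw [LinearMap.mem_ker]
        funext y
        exact sub_self (1 : ℚ)
      · intro h
        have h7 := congrArg Subtype.val h
        exact one_ne_zero (congrFun h7 (Classical.arbitrary W))
    omega
  omega

end OW

end Pool.Agent.InjLI
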