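import Pool.Agent.Lib.InjLI.Ker
import Pool.Agent.Lib.InjLI.Wof
import Pool.Agent.Lib.TwLI.VPot
import Pool.Agent.Lib.TwLI.VInd

/-!
# Lim : infinite systems, local indicability from finite subsystems

(helper18, problem MP_cf50d6_gt, paper MP_cf50d6_gt_paper18rel.md)

Pattern: the end of `Lib/GogLI/KMain.lean` (`GOG.li_of_weights`) with `exists_graph_acy` (`Lib/TwLI/TEx.lean`), `hom_rat_trivial`, and `LG.acy_pot` (`Lib/TwLI/VPot.lean`), `LG.wv_label` (`Lib/TwLI/VInd.lean`).
`X = Σ b, H b`, `π = FreeGroup.lift (fun x : X => θ x.1 x.2)`, surjective by `hcol.gen`. For every `e` choose `τ e : FreeGroup X` with `FreeGroup.lift (fun x => Monoid.CoprodI.of x.2) (τ e) = r e` (this map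
`FreeGroup X → Monoid.CoprodI H` is surjective: `Monoid.CoprodI.induction_on`). Relators: `Z = (Σ b, H b × H b) ⊕ E`, `rel (inl ⟨b, h, h'⟩) = (of ⟨b, h⟩ * of ⟨b, h'⟩ * (of ⟨b, h * h'⟩)⁻¹).toWord`,
`rel (inr e) = (τ e).toWord`.
1. KERNEL (as in `Ker.lean`, simpler): `π.ker ≤ normalClosure (range (mk ∘ rel)) =: N`: `K := FreeGroup X ⧸ N`, `φ b h := mk (of ⟨b, h⟩)` is a homomorphism, `lift φ (r e) = mk (τ e) = 1`, `hcol.univ`.
2. FINITELY MANY RELATIONS SUFFICE: let `Γ` be a finite graph, `Γ.Acy rel`. There is a finite set `Z₀` of `Z` with `Γ.Acy (fun z : ↥Z₀ => rel z)`: the subspaces `N z = {c : ↥Γ.F → ℚ | ∀ v, Γ.Walk v (rel z) v → Γ.trSum (Γ.ext0 c) v (rel z) = 0}`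
  of the finite dimensional space `↥Γ.F → ℚ`: choose a finite set `Z₀` with `⨅ z ∈ Z₀, N z` of minimal dimension; then it is contained in all `N z` (otherwise add `z`). (A cochain on all triples
  and its restriction to the edges, extended by zero, have the same sums: `LG.trSum_congr`.)
3. POTENTIAL IN A FINITE STAGE: let `Γ`, `o` be as given by `exists_graph_acy` for words `k j` (`n` words), `Z₀` as in 2, `E' = {e | inr e ∈ Z₀}`, `F` = the blocks of all letters of the words `(k j).toWord`. `h F E'` gives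
  `G'`, `ψ`, `π'`. `Ψ := FreeGroup.lift (fun x => ψ x.1 x.2)` satisfies `Ψ (mk (rel z)) = 1` for `z ∈ Z₀` (inner: `ψ b` is a homomorphism; outer: `lift ψ (r e) = Ψ (τ e)`), so `LG.acy_pot` with the values `θ y = ψ y.2.1.1 y.2.1.2`
  (`LG.wv_label` for the hypothesis) gives a potential of `Γ` in `G'`, and `Ψ (k j) = 1` for the closed walks `(k j).toWord` at `o` (`walk_pot`, as `h1` in `KMain`).
4. LI: `π (k j) = π' (Ψ (k j)) = 1` (both sides are homomorphisms which agree on the letters with blocks in `F`; induction on the word). So every finitely generated subgroup without surjection onto `ℤ` is trivial.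
5. INJECTIVITY: `θ b x = 1`: `n = 1`, `k = fun _ => of ⟨b, x⟩`; the subgroup generated by `π (k 0) = 1` is trivial; `Ψ (of ⟨b, x⟩) = ψ b x = 1`, `b ∈ F`, so `x = 1`.
-/

set_option autoImplicit false

open scoped Classical

namespace Pool.Agent.InjLI

open Pool.Agent.LIA

universe u v

/-- finitely many relations suffice for a finite graph -/
private theorem lim_fin {V X Z : Type*} (Γ : LG V X) (rel : Z → List (X × Bool))
    (h : Γ.Acy rel) : ∃ Z₀ : Finset Z, Γ.Acy (fun z : ↥Z₀ => rel z.1) := by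
  let N : Z → Submodule ℚ (↥Γ.F → ℚ) := fun z =>
    { carrier := {c | ∀ v, Γ.Walk v (rel z) v → Γ.trSum (Γ.ext0 c) v (rel z) = 0}
      add_mem' := by
        intro c d hc hd v hv
        rw [LG.ext0_add, LG.trSum_add, hc v hv, hd v hv, add_zero]
      zero_mem' := by
        intro v hv
        have h : Γ.ext0 (0 : ↥Γ.F → ℚ) = fun e => 0 * Γ.ext0 (0 : ↥Γ.F → ℚ) e := by
          funext e
          by_cases he : e ∈ Γ.F
          · simp [LG.ext0, he]
          · simp [LG.ext0, he]
        rw [h, LG.trSum_smul, zero_mul]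
      smul_mem' := by
        intro r c hc v hv
        rw [LG.ext0_smul, LG.trSum_smul, hc v hv, mul_zero] }
  have hN : ∀ z c, c ∈ N z ↔ ∀ v, Γ.Walk v (rel z) v → Γ.trSum (Γ.ext0 c) v (rel z) = 0 :=
    fun z c => Iff.rfl
  let d : Finset Z → ℕ := fun Y => Module.finrank ℚ ↥(Y.inf N)
  obtain ⟨Z₀, hZ₀⟩ : ∃ Z₀, ∀ Y, d Z₀ ≤ d Y :=
    ⟨Function.argmin d, fun Y => Function.argmin_le d Y⟩
  have hle : ∀ z, Z₀.inf N ≤ N z := by
    intro z
    have h1 : (insert z Z₀).inf N ≤ Z₀.inf N := by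
      rw [Finset.inf_insert]
      exact inf_le_right
    have h2 : (insert z Z₀).inf N = Z₀.inf N :=
      Submodule.eq_of_le_of_finrank_le h1 (hZ₀ (insert z Z₀))
    rw [← h2, Finset.inf_insert]
    exact inf_le_left
  have hext : ∀ (c : V × X × V → ℚ) (v : V) (L : List (X × Bool)),
      Γ.trSum (Γ.ext0 fun e => c e.1) v L = Γ.trSum c v L := by
    intro c v L
    refine LG.trSum_congr Γ _ _ Set.univ (fun _ _ _ _ _ => Set.mem_univ _) ?_ v L (Set.mem_univ _)
    intro u s v h _
    exact dif_pos h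
  refine ⟨Z₀, fun c hc => h c fun v z hw => ?_⟩
  have h1 : (fun e : ↥Γ.F => c e.1) ∈ Z₀.inf N := by
    rw [Submodule.mem_finsetInf]
    intro y hy
    rw [hN]
    intro v' hv'
    rw [hext]
    exact hc v' ⟨y, hy⟩ hv'
  have h2 := (hN z _).1 (hle z h1) v hw
  rwa [hext] at h2

private theorem lim_mk_toWord {S : Type*} (inst : DecidableEq S) (x : FreeGroup S) :
    FreeGroup.mk (@FreeGroup.toWord S inst x) = x := @FreeGroup.mk_toWord S inst x

/-- finitely many elements which generate a subgroup without characters die in all locally indicable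
groups which satisfy finitely many relations -/
private theorem lim_core {X : Type u} {Z G : Type*} [Group G] (π : FreeGroup X →* G)
    (ρ : Z → FreeGroup X) (hker : π.ker ≤ Subgroup.normalClosure (Set.range ρ))
    {n : ℕ} (k : Fin n → FreeGroup X)
    (hno : ∀ f : Subgroup.closure (Set.range fun j => π (k j)) →* Multiplicative ℚ,
      ∀ h, f h = 1) :
    ∃ Z₀ : Finset Z, ∀ (Q : Type v) [Group Q], LocallyIndicable Q → ∀ g : X → Q,
      (∀ z ∈ Z₀, FreeGroup.lift g (ρ z) = 1) → ∀ j, FreeGroup.lift g (k j) = 1 := by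
  obtain ⟨W, _, Γ, o, hc, hAcy, hw⟩ := exists_graph_acy π (fun z => (ρ z).toWord) (by
    have h1 : (fun z => FreeGroup.mk (ρ z).toWord) = ρ := funext fun z => lim_mk_toWord _ _
    rw [h1]
    exact hker) k hno
  obtain ⟨Z₀, hZ₀⟩ := lim_fin Γ _ hAcy
  refine ⟨Z₀, fun Q _ hQ g hg j => ?_⟩
  obtain ⟨h, hh⟩ := LG.acy_pot hQ Γ hZ₀ (fun e => g e.2.1) (by
    intro v z hvz
    have h1 := wv_label g hvz
    rw [lim_mk_toWord, hg z.1 z.2] at h1
    exact h1)
  have h2 := LG.wv_pot hh (wv_label g (hw j))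
  rw [lim_mk_toWord] at h2
  exact left_eq_mul.1 h2

/-- the value of a word depends only on finitely many blocks -/
private theorem lim_supp {X I : Type*} (cl : X → I) {G : Type*} [Group G] (w : FreeGroup X) :
    ∃ F : Finset I, ∀ f g : FreeGroup X →* G,
      (∀ x, cl x ∈ F → f (FreeGroup.of x) = g (FreeGroup.of x)) → f w = g w := by
  refine FreeGroup.induction_on w ?_ ?_ ?_ ?_
  · exact ⟨∅, fun f g _ => by rw [map_one, map_one]⟩
  · exact fun x => ⟨{cl x}, fun f g h => h x (Finset.mem_singleton_self _)⟩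
  · intro x _
    refine ⟨{cl x}, fun f g h => ?_⟩
    have h1 := h x (Finset.mem_singleton_self _)
    rw [map_inv, map_inv]
    exact congrArg (fun y => y⁻¹) h1
  · intro x y hx hy
    obtain ⟨F, hF⟩ := hx
    obtain ⟨F', hF'⟩ := hy
    refine ⟨F ∪ F', fun f g h => ?_⟩
    rw [map_mul, map_mul, hF f g fun x hx => h x (Finset.mem_union_left _ hx),
      hF' f g fun x hx => h x (Finset.mem_union_right _ hx)]

/-- the relators -/
private def lrel {I E : Type} {H : I → Type u} [∀ b, Group (H b)]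
    (τ : E → FreeGroup (Σ b, H b)) : (Σ b, H b × H b) ⊕ E → FreeGroup (Σ b, H b)
  | Sum.inl z => FreeGroup.of ⟨z.1, z.2.1⟩ * FreeGroup.of ⟨z.1, z.2.2⟩ *
      (FreeGroup.of ⟨z.1, z.2.1 * z.2.2⟩)⁻¹
  | Sum.inr e => τ e

private theorem lim_ker {I E : Type} {H : I → Type u} [∀ b, Group (H b)]
    {r : E → Monoid.CoprodI H} {G : Type u} [Group G] {θ : ∀ b, H b →* G}
    (hcol : IsCol H r G θ) (τ : E → FreeGroup (Σ b, H b))
    (hτ : ∀ e, FreeGroup.lift (fun x : Σ b, H b => (Monoid.CoprodI.of x.2 : Monoid.CoprodI H))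
      (τ e) = r e) :
    (FreeGroup.lift fun x : Σ b, H b => θ x.1 x.2).ker ≤
      Subgroup.normalClosure (Set.range (lrel τ)) := by
  set N : Subgroup (FreeGroup (Σ b, H b)) := Subgroup.normalClosure (Set.range (lrel τ)) with hN
  let q : FreeGroup (Σ b, H b) →* (FreeGroup (Σ b, H b) ⧸ N) := QuotientGroup.mk' N
  have hq : ∀ x, q x = 1 ↔ x ∈ N := fun x => QuotientGroup.eq_one_iff x
  let φ : ∀ b, H b →* (FreeGroup (Σ b, H b) ⧸ N) := fun b =>
    MonoidHom.mk' (fun h => q (FreeGroup.of ⟨b, h⟩)) (by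
      intro h h'
      have h0 : lrel τ (Sum.inl ⟨b, h, h'⟩) ∈ N := Subgroup.subset_normalClosure ⟨_, rfl⟩
      have h1 := (hq _).2 h0
      change q (FreeGroup.of ⟨b, h⟩ * FreeGroup.of ⟨b, h'⟩ * (FreeGroup.of ⟨b, h * h'⟩)⁻¹) = 1
        at h1
      rw [map_mul, map_mul, map_inv, mul_inv_eq_one] at h1
      exact h1.symm)
  have hφ : ∀ e, Monoid.CoprodI.lift φ (r e) = 1 := by
    intro e
    have h0 : lrel τ (Sum.inr e) ∈ N := Subgroup.subset_normalClosure ⟨_, rfl⟩
    have h1 : q (τ e) = 1 := (hq _).2 h0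
    have h2 : (Monoid.CoprodI.lift φ).comp
        (FreeGroup.lift (fun x : Σ b, H b => (Monoid.CoprodI.of x.2 : Monoid.CoprodI H))) = q := by
      refine FreeGroup.ext_hom _ _ fun x => ?_
      rw [MonoidHom.comp_apply, FreeGroup.lift_apply_of, Monoid.CoprodI.lift_of]
      rfl
    rw [← hτ, ← MonoidHom.comp_apply, h2, h1]
  obtain ⟨Φ, hΦ⟩ := hcol.univ (FreeGroup (Σ b, H b) ⧸ N) inferInstance φ hφ
  have hcomp : Φ.comp (FreeGroup.lift fun x : Σ b, H b => θ x.1 x.2) = q := by
    refine FreeGroup.ext_hom _ _ fun x => ?_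
    rw [MonoidHom.comp_apply, FreeGroup.lift_apply_of]
    exact hΦ x.1 x.2
  intro x hx
  rw [MonoidHom.mem_ker] at hx
  rw [← hq, ← hcomp, MonoidHom.comp_apply, hx, map_one]

theorem lim_li {I E : Type} {H : I → Type u} [∀ b, Group (H b)] {r : E → Monoid.CoprodI H}
    {G : Type u} [Group G] {θ : ∀ b, H b →* G} (hcol : IsCol H r G θ)
    (h : ∀ (F : Finset I) (E' : Finset E), ∃ (G' : Type u) (_ : Group G') (ψ : ∀ b, H b →* G')
      (π' : G' →* G), LocallyIndicable G' ∧ (∀ e ∈ E', Monoid.CoprodI.lift ψ (r e) = 1) ∧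
      (∀ b ∈ F, Function.Injective (ψ b)) ∧ ∀ b ∈ F, ∀ x, π' (ψ b x) = θ b x) :
    LocallyIndicable G ∧ ∀ b, Function.Injective (θ b) := by
  -- the relators as words
  have hof : Function.Surjective
      (FreeGroup.lift (fun x : Σ b, H b => (Monoid.CoprodI.of x.2 : Monoid.CoprodI H))) := by
    intro y
    induction y using Monoid.CoprodI.induction_on with
    | one => exact ⟨1, map_one _⟩
    | of b m => exact ⟨FreeGroup.of ⟨b, m⟩, by rw [FreeGroup.lift_apply_of]⟩
    | mul x y hx hy =>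
      obtain ⟨x', rfl⟩ := hx
      obtain ⟨y', rfl⟩ := hy
      exact ⟨x' * y', map_mul _ _ _⟩
  choose τ hτ using fun e => hof (r e)
  set π : FreeGroup (Σ b, H b) →* G := FreeGroup.lift fun x : Σ b, H b => θ x.1 x.2 with hπ
  have hsurj : Function.Surjective π := by
    rw [← MonoidHom.range_eq_top, eq_top_iff, ← hcol.gen]
    refine iSup_le fun b => ?_
    rintro _ ⟨x, rfl⟩
    exact ⟨FreeGroup.of ⟨b, x⟩, by rw [hπ, FreeGroup.lift_apply_of]⟩
  have hker := lim_ker hcol τ hτ
  -- the finite stage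
  have hmain : ∀ {n : ℕ} (k : Fin n → FreeGroup (Σ b, H b)) (F₀ : Finset I),
      (∀ f : Subgroup.closure (Set.range fun j => π (k j)) →* Multiplicative ℚ,
        ∀ h, f h = 1) →
      ∃ (G' : Type u) (_ : Group G') (ψ : ∀ b, H b →* G'),
        (∀ b ∈ F₀, Function.Injective (ψ b)) ∧
        (∀ j, FreeGroup.lift (fun x : Σ b, H b => ψ x.1 x.2) (k j) = 1) ∧
        ∀ j, π (k j) = 1 := by
    intro n k F₀ hno
    obtain ⟨Z₀, hZ₀⟩ := lim_core.{u, u} π (lrel τ) hker k hno
    choose F hF using fun j => lim_supp (Sigma.fst : (Σ b, H b) → I) (G := G) (k j)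
    obtain ⟨G', hG', ψ, π', hLI, hrel, hinj, hπ'⟩ := h (F₀ ∪ Finset.univ.biUnion F)
      (Z₀.preimage Sum.inr Sum.inr_injective.injOn)
    have hg : ∀ z ∈ Z₀, FreeGroup.lift (fun x : Σ b, H b => ψ x.1 x.2) (lrel τ z) = 1 := by
      rintro (⟨b, y, y'⟩ | e) hz
      · change FreeGroup.lift (fun x : Σ b, H b => ψ x.1 x.2)
          (FreeGroup.of ⟨b, y⟩ * FreeGroup.of ⟨b, y'⟩ * (FreeGroup.of ⟨b, y * y'⟩)⁻¹) = 1
        rw [map_mul, map_mul, map_inv, FreeGroup.lift_apply_of, FreeGroup.lift_apply_of,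
          FreeGroup.lift_apply_of, map_mul, mul_inv_cancel]
      · have h1 := hrel e (Finset.mem_preimage.2 hz)
        have h2 : (Monoid.CoprodI.lift ψ).comp
            (FreeGroup.lift (fun x : Σ b, H b =>
              (Monoid.CoprodI.of x.2 : Monoid.CoprodI H))) =
            FreeGroup.lift (fun x : Σ b, H b => ψ x.1 x.2) := by
          refine FreeGroup.ext_hom _ _ fun x => ?_
          rw [MonoidHom.comp_apply, FreeGroup.lift_apply_of, Monoid.CoprodI.lift_of,
            FreeGroup.lift_apply_of]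
        change FreeGroup.lift (fun x : Σ b, H b => ψ x.1 x.2) (τ e) = 1
        rw [← h2, MonoidHom.comp_apply, hτ, h1]
    have hk := hZ₀ G' hLI (fun x : Σ b, H b => ψ x.1 x.2) hg
    refine ⟨G', hG', ψ, fun b hb => hinj b (Finset.mem_union_left _ hb), hk, fun j => ?_⟩
    have h1 : π (k j) =
        (π'.comp (FreeGroup.lift (fun x : Σ b, H b => ψ x.1 x.2))) (k j) := by
      refine hF j _ _ fun x hx => ?_
      rw [MonoidHom.comp_apply, FreeGroup.lift_apply_of, FreeGroup.lift_apply_of]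
      exact (hπ' x.1 (Finset.mem_union_right _
        (Finset.mem_biUnion.2 ⟨j, Finset.mem_univ _, hx⟩)) x.2).symm
    rw [h1, MonoidHom.comp_apply, hk j, map_one]
  constructor
  · intro K hK hne
    by_contra hno
    obtain ⟨T, hT⟩ := id hK
    let e := T.equivFin
    choose k hk using fun j : Fin T.card => hsurj ((e.symm j : G))
    have hy : Subgroup.closure (Set.range fun j => π (k j)) = K := by
      rw [← hT]
      congr 1
      ext x
      constructor
      · rintro ⟨j, rfl⟩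
        change π (k j) ∈ (T : Set G)
        rw [hk]
        exact (e.symm j).2
      · intro hx
        refine ⟨e ⟨x, hx⟩, ?_⟩
        change π (k (e ⟨x, hx⟩)) = x
        rw [hk]
        simp
    have hKfg : Group.FG K := by
      rw [Group.fg_iff_subgroup_fg]
      exact hK
    obtain ⟨G', _, ψ, _, _, h1⟩ := hmain k ∅ (by
      rw [hy]
      exact fun f => hom_rat_trivial hKfg hno f)
    apply hne
    rw [← hy, Subgroup.closure_eq_bot_iff]
    rintro _ ⟨j, rfl⟩
    exact h1 j
  · intro b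
    rw [injective_iff_map_eq_one]
    intro x hx
    have h0 : π (FreeGroup.of ⟨b, x⟩) = 1 := by
      rw [hπ, FreeGroup.lift_apply_of]
      exact hx
    obtain ⟨G', _, ψ, hinj, h1, _⟩ := hmain (fun _ : Fin 1 => FreeGroup.of ⟨b, x⟩) {b} (by
      intro f y
      have h2 : y = 1 := by
        have h3 : Subgroup.closure
            (Set.range fun _ : Fin 1 => π (FreeGroup.of ⟨b, x⟩)) = ⊥ := by
          rw [Subgroup.closure_eq_bot_iff]
          rintro _ ⟨_, rfl⟩
          exact h0
        apply Subtype.ext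
        have h4 : (y : G) ∈ (⊥ : Subgroup G) := by
          rw [← h3]
          exact y.2
        exact Subgroup.mem_bot.1 h4
      rw [h2, map_one])
    have h2 := h1 0
    rw [FreeGroup.lift_apply_of] at h2
    exact (injective_iff_map_eq_one (ψ b)).1 (hinj b (Finset.mem_singleton_self _)) x h2

end Pool.Agent.InjLI
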