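import Pool.Agent.Lib.InjLI.Defs2

/-!
# QuoC : the canonical quotient

(helper18, problem MP_cf50d6_gt, paper MP_cf50d6_gt_paper18rel.md)

* `isCol_quot`: `rel`: `Monoid.CoprodI.lift (qh r) = QuotientGroup.mk' N` (`Monoid.CoprodI.ext_hom`), and `r e ∈ N`. `gen`: the quotient map is surjective and `Monoid.CoprodI H` is the
  supremum of the ranges of `Monoid.CoprodI.of` (`Monoid.CoprodI.range_eq_iSup` or `Monoid.CoprodI.induction_on`). `univ`: `QuotientGroup.lift N (Monoid.CoprodI.lift φ)` with
  `Subgroup.normalClosure_le_normal` (the kernel is normal and contains the `r e`).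
* `isCol_congr`: the two conditions on the relators are equivalent in every group; the other fields are the same.
-/

set_option autoImplicit false

open scoped Classical

namespace Pool.Agent.InjLI

open Pool.Agent.LIA

universe u v

theorem isCol_quot {I E : Type} {H : I → Type u} [∀ b, Group (H b)] (r : E → Monoid.CoprodI H) :
    IsCol H r (QG r) (qh r) := by
  have hl : Monoid.CoprodI.lift (qh r) =
      QuotientGroup.mk' (Subgroup.normalClosure (Set.range r)) := by
    apply Monoid.CoprodI.ext_hom
    intro b
    ext h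
    simp [qh]
  refine ⟨?_, ?_, ?_⟩
  · intro e
    rw [hl, QuotientGroup.mk'_apply, QuotientGroup.eq_one_iff]
    exact Subgroup.subset_normalClosure ⟨e, rfl⟩
  · rw [eq_top_iff]
    rintro x -
    obtain ⟨y, rfl⟩ := QuotientGroup.mk'_surjective (Subgroup.normalClosure (Set.range r)) x
    rw [← hl]
    induction y using Monoid.CoprodI.induction_on with
    | one => rw [map_one]; exact one_mem _
    | of b m =>
      rw [Monoid.CoprodI.lift_of]
      exact (le_iSup (fun b => (qh r b).range) b) ⟨m, rfl⟩
    | mul x y hx hy => rw [map_mul]; exact mul_mem hx hy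
  · intro K _ φ h
    have hle : Subgroup.normalClosure (Set.range r) ≤ (Monoid.CoprodI.lift φ).ker := by
      apply Subgroup.normalClosure_le_normal
      rintro _ ⟨e, rfl⟩
      exact h e
    refine ⟨QuotientGroup.lift _ (Monoid.CoprodI.lift φ) hle, ?_⟩
    intro b x
    simp [qh]

theorem isCol_congr {I E E' : Type} {H : I → Type u} [∀ b, Group (H b)]
    {r : E → Monoid.CoprodI H} {r' : E' → Monoid.CoprodI H}
    (h : ∀ (K : Type u) (_ : Group K) (φ : ∀ b, H b →* K),
      (∀ e, Monoid.CoprodI.lift φ (r e) = 1) ↔ ∀ e, Monoid.CoprodI.lift φ (r' e) = 1)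
    {G : Type u} [Group G] {θ : ∀ b, H b →* G} (hcol : IsCol H r G θ) : IsCol H r' G θ := by
  refine ⟨(h G inferInstance θ).1 hcol.rel, hcol.gen, ?_⟩
  intro K _ φ h'
  exact hcol.univ K inferInstance φ ((h K inferInstance φ).2 h')

end Pool.Agent.InjLI
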