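import Pool.Agent.Lib.InjLI.Defs2

/-!
# BH : signs in locally indicable groups (Burns-Hale)

(helper18, problem MP_cf50d6_gt, paper MP_cf50d6_gt_paper18rel.md)

* FIRST without the last condition, strong induction on `F.card`. `F = ∅`: the closure of the empty set is empty (`Subsemigroup.closure_empty`, `Subsemigroup.notMem_bot`). `F` nonempty:
  `D := Subgroup.closure F` is finitely generated and not trivial; `χ : D →* Multiplicative ℤ` surjective. Not all `χ y`, `y ∈ F`, are 1 (otherwise `χ` is trivial on `D`). Put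
  `F₀ := {y ∈ F | χ y = 1}`, `F₀.card < F.card`, `σ₀` the signs for `F₀`. `σ y := true` if `χ y > 0`, `false` if `χ y < 0` (`toAdd`), `σ₀ y` if `χ y = 0` (for `y ∉ D`
  arbitrary). Every `z` in the subsemigroup is in `D`, and `χ z > 0`, or `χ z = 0` and `z` is in the subsemigroup of `F₀`, `σ₀` (`Subsemigroup.closure_induction`; product: if one factor has
  `χ > 0` the product has, otherwise both are in the subsemigroup of `F₀`). For `z = 1`: `χ = 0`, so `1` would be in the subsemigroup of `F₀`: contradiction.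
* THEN: if `y₀ ∈ F` and `σ y₀ ≠ t` replace `σ` by `!σ`: an element of the new subsemigroup is the inverse of an element of the old one (induction), so `1` would be in the old one.
* `exists_signs_all`: for every `b` apply `exists_signs` to the finite set of the `x : H b` with `(a e c).1 = ⟨b, x⟩` for some `e c` (finite: the image of a finite type;
  `Set.Finite.toFinset`), `y₀ = y b`, and glue: `s ⟨b, x⟩ = σ b x`.
-/

set_option autoImplicit false

open scoped Classical

namespace Pool.Agent.InjLI

open Pool.Agent.LIA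

universe u v

private theorem BH_exists {G : Type u} [Group G] (hG : LocallyIndicable G) (F : Finset G)
    (hF : ∀ y ∈ F, y ≠ 1) :
    ∃ σ : G → Bool, (1 : G) ∉ Subsemigroup.closure {z | ∃ y ∈ F, z = sg y (σ y)} := by
  induction F using Finset.strongInduction with
  | H F ih =>
    by_cases hne : F = ∅
    · refine ⟨fun _ => true, ?_⟩
      have h1 : {z : G | ∃ y ∈ F, z = sg y ((fun _ => true) y)} = ∅ := by
        rw [hne]
        ext z
        simp
      rw [h1, Subsemigroup.closure_empty]
      exact Subsemigroup.notMem_bot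
    · obtain ⟨y₁, hy₁⟩ := Finset.nonempty_iff_ne_empty.2 hne
      set D : Subgroup G := Subgroup.closure (F : Set G) with hD
      have hFD : ∀ y ∈ F, y ∈ D := fun y hy => Subgroup.subset_closure (by simpa using hy)
      have hDne : D ≠ ⊥ := by
        intro h
        have h1 := hFD y₁ hy₁
        rw [h, Subgroup.mem_bot] at h1
        exact hF y₁ hy₁ h1
      obtain ⟨χ, hχ⟩ := hG D ⟨F, rfl⟩ hDne
      let ψ : G → ℤ := fun x => if hx : x ∈ D then Multiplicative.toAdd (χ ⟨x, hx⟩) else 0
      have hψ : ∀ x (hx : x ∈ D), ψ x = Multiplicative.toAdd (χ ⟨x, hx⟩) := by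
        intro x hx
        exact dif_pos hx
      have hψ1 : ψ 1 = 0 := by
        rw [hψ 1 D.one_mem]
        have h1 : (⟨1, D.one_mem⟩ : D) = 1 := rfl
        rw [h1, map_one]
        rfl
      have hψm : ∀ a ∈ D, ∀ b ∈ D, ψ (a * b) = ψ a + ψ b := by
        intro a ha b hb
        rw [hψ _ (D.mul_mem ha hb), hψ a ha, hψ b hb]
        have h1 : (⟨a * b, D.mul_mem ha hb⟩ : D) = ⟨a, ha⟩ * ⟨b, hb⟩ := rfl
        rw [h1, map_mul]
        rfl
      have hψi : ∀ a ∈ D, ψ a⁻¹ = - ψ a := by
        intro a ha
        have h1 := hψm a ha a⁻¹ (D.inv_mem ha)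
        rw [mul_inv_cancel, hψ1] at h1
        linarith
      have hex : ∃ y ∈ F, ψ y ≠ 0 := by
        by_contra hcon
        push Not at hcon
        obtain ⟨⟨x, hx⟩, hx1⟩ := hχ (Multiplicative.ofAdd 1)
        have key : ψ x = 0 := by
          refine Subgroup.closure_induction (p := fun x _ => ψ x = 0) ?_ hψ1 ?_ ?_ hx
          · intro x hx
            exact hcon x (by simpa using hx)
          · intro a b ha hb h1 h2
            rw [hψm a ha b hb, h1, h2, add_zero]
          · intro a ha h1
            rw [hψi a ha, h1, neg_zero]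
        rw [hψ x hx, hx1] at key
        exact absurd key one_ne_zero
      obtain ⟨y₂, hy₂, hy₂ψ⟩ := hex
      obtain ⟨σ₀, hσ₀⟩ := ih (F.filter fun y => ψ y = 0)
        (Finset.filter_ssubset.2 ⟨y₂, hy₂, hy₂ψ⟩)
        (fun y hy => hF y (Finset.mem_filter.1 hy).1)
      refine ⟨fun y => if ψ y = 0 then σ₀ y else decide (0 < ψ y), ?_⟩
      intro h1
      have key : ∀ z ∈ Subsemigroup.closure {z : G | ∃ y ∈ F, z = sg y
          ((fun y => if ψ y = 0 then σ₀ y else decide (0 < ψ y)) y)}, z ∈ D ∧ (0 < ψ z ∨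
          (ψ z = 0 ∧ z ∈ Subsemigroup.closure {z | ∃ y ∈ F.filter fun y => ψ y = 0,
            z = sg y (σ₀ y)})) := by
        intro z hz
        induction hz using Subsemigroup.closure_induction with
        | mem x hx =>
          obtain ⟨y, hy, rfl⟩ := hx
          have hyD := hFD y hy
          by_cases h0 : ψ y = 0
          · simp only [h0, if_true]
            have h2 : sg y (σ₀ y) ∈ D ∧ ψ (sg y (σ₀ y)) = 0 := by
              unfold sg
              split_ifs
              · exact ⟨hyD, h0⟩
              · exact ⟨D.inv_mem hyD, by rw [hψi y hyD, h0, neg_zero]⟩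
            exact ⟨h2.1, Or.inr ⟨h2.2, Subsemigroup.subset_closure
              ⟨y, Finset.mem_filter.2 ⟨hy, h0⟩, rfl⟩⟩⟩
          · simp only [h0, if_false]
            by_cases h3 : 0 < ψ y
            · rw [decide_eq_true h3]
              exact ⟨hyD, Or.inl h3⟩
            · rw [decide_eq_false h3]
              refine ⟨D.inv_mem hyD, Or.inl ?_⟩
              show 0 < ψ y⁻¹
              rw [hψi y hyD]
              omega
        | mul x y _ _ ihx ihy =>
          obtain ⟨hx, hx'⟩ := ihx
          obtain ⟨hy, hy'⟩ := ihy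
          refine ⟨D.mul_mem hx hy, ?_⟩
          rw [hψm x hx y hy]
          rcases hx' with hx' | hx'
          · rcases hy' with hy' | hy'
            · left; omega
            · left; rw [hy'.1]; omega
          · rcases hy' with hy' | hy'
            · left; rw [hx'.1]; omega
            · right
              refine ⟨by rw [hx'.1, hy'.1, add_zero], ?_⟩
              exact Subsemigroup.mul_mem _ hx'.2 hy'.2
      obtain ⟨_, h2 | h2⟩ := key 1 h1
      · rw [hψ1] at h2
        exact lt_irrefl 0 h2
      · exact hσ₀ h2.2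

theorem exists_signs {G : Type u} [Group G] (hG : LocallyIndicable G) (F : Finset G)
    (hF : ∀ y ∈ F, y ≠ 1) (y₀ : G) (t : Bool) :
    ∃ σ : G → Bool, (1 : G) ∉ Subsemigroup.closure {z | ∃ y ∈ F, z = sg y (σ y)} ∧
      (y₀ ∈ F → σ y₀ = t) := by
  obtain ⟨σ, hσ⟩ := BH_exists hG F hF
  by_cases h : y₀ ∈ F → σ y₀ = t
  · exact ⟨σ, hσ, h⟩
  · push Not at h
    refine ⟨fun y => !σ y, ?_, ?_⟩
    · intro h1
      apply hσ
      have key : ∀ z ∈ Subsemigroup.closure {z : G | ∃ y ∈ F, z = sg y ((fun y => !σ y) y)},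
          z⁻¹ ∈ Subsemigroup.closure {z | ∃ y ∈ F, z = sg y (σ y)} := by
        intro z hz
        induction hz using Subsemigroup.closure_induction with
        | mem x hx =>
          obtain ⟨y, hy, rfl⟩ := hx
          apply Subsemigroup.subset_closure
          refine ⟨y, hy, ?_⟩
          cases h2 : σ y <;> simp [sg, h2]
        | mul x y _ _ ihx ihy =>
          rw [mul_inv_rev]
          exact Subsemigroup.mul_mem _ ihy ihx
      have h2 := key 1 h1
      rwa [inv_one] at h2
    · intro _
      have h1 := h.2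
      cases h2 : σ y₀ <;> cases t <;> simp_all

theorem exists_signs_all {I E : Type} [Fintype E] {H : I → Type u} [∀ b, Group (H b)]
    (hH : ∀ b, LocallyIndicable (H b)) {m : E → ℕ} (a : ∀ e, Fin (m e + 1) → (Σ b, H b) × Bool)
    (ha : ∀ e c, (a e c).1.2 ≠ 1) (y : ∀ b, H b) (t : I → Bool) :
    ∃ s : (Σ b, H b) → Bool, (∀ b, PosH a b s) ∧
      ∀ b, (∃ e c, (a e c).1 = ⟨b, y b⟩) → s ⟨b, y b⟩ = t b := by
  have hfin : ∀ b, Set.Finite {x : H b | ∃ e c, (a e c).1 = ⟨b, x⟩} := by
    intro b
    have h1 : {x : H b | ∃ e c, (a e c).1 = ⟨b, x⟩} =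
        (fun x : H b => (⟨b, x⟩ : Σ b, H b)) ⁻¹'
          Set.range (fun κ : Σ e : E, Fin (m e + 1) => (a κ.1 κ.2).1) := by
      ext x
      simp only [Set.mem_ofPred_eq, Set.mem_preimage, Set.mem_range, Sigma.exists]
    rw [h1]
    exact (Set.finite_range _).preimage (sigma_mk_injective.injOn)
  have h1 : ∀ b, ∃ σ : H b → Bool, (1 : H b) ∉ Subsemigroup.closure
      {z | ∃ x ∈ (hfin b).toFinset, z = sg x (σ x)} ∧
      (y b ∈ (hfin b).toFinset → σ (y b) = t b) := by
    intro b
    refine exists_signs (hH b) (hfin b).toFinset ?_ (y b) (t b)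
    intro x hx
    obtain ⟨e, c, hec⟩ := (hfin b).mem_toFinset.1 hx
    have h2 := ha e c
    rw [hec] at h2
    exact h2
  choose σ h2 h3 using h1
  refine ⟨fun p => σ p.1 p.2, ?_, ?_⟩
  · intro b h4
    apply h2 b
    refine Subsemigroup.closure_mono ?_ h4
    rintro h ⟨e, c, x, hx, rfl⟩
    exact ⟨x, (hfin b).mem_toFinset.2 ⟨e, c, hx⟩, rfl⟩
  · rintro b ⟨e, c, hx⟩
    exact h3 b ((hfin b).mem_toFinset.2 ⟨e, c, hx⟩)

end Pool.Agent.InjLI
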