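import Pool.Agent.Lib.InjLI.Ind
import Pool.Agent.Lib.InjLI.Wof

/-!
# Base : local indicability and embedding of the blocks, abstract form

(helper18, problem MP_cf50d6_gt, paper MP_cf50d6_gt_paper18rel.md)

Pattern: the end of `Lib/GogLI/KMain.lean` (`GOG.li_of_weights`), with `exists_graph_acy` (`Lib/TwLI/TEx.lean`), `hom_rat_trivial`.
`π := FreeGroup.lift g`, relators `P.relw (P.inn f)`.
* private `walk_pot`: for a potential `φ` of `Γ` (values `g`) and `Γ.Walk u L v`: `φ v = φ u * FreeGroup.lift g (FreeGroup.mk L)` (induction on `L`, as `h1` in `KMain`). The same for a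
  word with all letters in the block `b` and a potential of the edges of the block `b` with the values `f b`.
* `Cn Γ` follows from `∀ x, Γ.Conn o x` : a set `S` closed under the edges and containing `w` contains `o` and then everything (`LG.Conn.induction`, `LG.Conn.symm`, `LG.step_true`, `LG.step_false`).
* (LI) Let `H` be a finitely generated nontrivial subgroup of `G` without surjection onto `ℤ`; generators `π (k j)`, `j : Fin n` (as `π` is surjective). `exists_graph_acy` gives `Δ`, `o`;
  `acyc_of`, `main` (`Nonempty W` by `o`): `PotG g Δ`, so `φ o = φ o * π (k j)`, `π (k j) = 1` for all `j`, `H = ⊥`.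
* (embedding) Let `ρ` have all letters in the block `b`, `π ρ = 1`. Take `n = 1`, `k = fun _ => ρ`: the subgroup is trivial, so the homomorphisms to `ℚ` are trivial. In `Δ` we have the
  closed walk `ρ.toWord` at `o`, and the potential of the block `b` gives `FreeGroup.lift (f b) ρ = 1`.
-/

set_option autoImplicit false

open scoped Classical

namespace Pool.Agent.InjLI

open Pool.Agent.LIA

universe u v

private theorem base_walk_pot {X : Type u} {W : Type*} {G : Type*} [Group G] {g : X → G}
    {Γ : LG W X} {φ : W → G} (Z : X → Prop)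
    (hφ : ∀ p x q, (p, x, q) ∈ Γ.F → Z x → φ q = φ p * g x) :
    ∀ (L : List (X × Bool)) (u v : W), (∀ t ∈ L, Z t.1) → Γ.Walk u L v →
      φ v = φ u * FreeGroup.lift g (FreeGroup.mk L) := by
  intro L
  induction L with
  | nil =>
    intro u v _ h
    obtain rfl := h
    rw [← FreeGroup.one_eq_mk, map_one, mul_one]
  | cons l L ih =>
    intro u v hZ h
    obtain ⟨c, h1, h2⟩ := h
    rw [ih c v (fun t ht => hZ t (List.mem_cons_of_mem _ ht)) h2, mk_cons, map_mul, ← mul_assoc]
    congr 1
    have hZl : Z l.1 := hZ l List.mem_cons_self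
    obtain ⟨s, b⟩ := l
    cases b
    · rw [LG.step_false] at h1
      rw [lv_false, map_inv, FreeGroup.lift_apply_of, eq_mul_inv_iff_mul_eq]
      exact (hφ _ _ _ h1 hZl).symm
    · rw [LG.step_true] at h1
      rw [lv_true, FreeGroup.lift_apply_of]
      exact hφ _ _ _ h1 hZl

private theorem base_mk_toWord {S : Type*} (inst : DecidableEq S) (x : FreeGroup S) :
    FreeGroup.mk (@FreeGroup.toWord S inst x) = x := @FreeGroup.mk_toWord S inst x

private theorem base_cn {X : Type u} {W : Type*} {Γ : LG W X} {o : W} (h : ∀ x, Γ.Conn o x) :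
    Cn Γ := by
  intro S hS hcl w
  have key : ∀ a l b, a ∈ S → Γ.Step a l b → b ∈ S := by
    rintro a ⟨s, c⟩ b ha hab
    cases c
    · rw [LG.step_false] at hab
      exact (hcl _ _ _ hab).2 ha
    · rw [LG.step_true] at hab
      exact (hcl _ _ _ hab).1 ha
  obtain ⟨a, ha⟩ := hS
  have ho : o ∈ S := LG.Conn.induction (p := fun x => x ∈ S) ha key (h a).symm
  exact LG.Conn.induction (p := fun x => x ∈ S) ho key (h w)

namespace OW

theorem base {X : Type u} {I E : Type} (P : OW X I E) [Fintype I] [Fintype E] {Q : I → Type v}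
    [∀ b, Group (Q b)] (hQ : ∀ b, LocallyIndicable (Q b)) {f : ∀ b, X → Q b} {O : Type} [Fintype O]
    {s : O → X → Bool} {w : P.Cor → ℝ} {α : I → O → ℝ} (hCv : P.Curv s w α)
    (hP : ∀ b o, α b o ≠ 0 → P.Pos f b (s o)) {G : Type*} [Group G] {g : X → G}
    (θ : ∀ b, Q b →* G) (hθ : ∀ x, θ (P.cl x) (f (P.cl x) x) = g x)
    (hr : ∀ e, FreeGroup.lift g (FreeGroup.mk (List.ofFn (P.a e))) = 1)
    (hsurj : Function.Surjective (FreeGroup.lift g))
    (hker : (FreeGroup.lift g).ker ≤ Subgroup.normalClosure
      (Set.range fun z => FreeGroup.mk (P.relw (P.inn f) z))) :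
    LocallyIndicable G ∧ ∀ b (ρ : FreeGroup X), (∀ t ∈ ρ.toWord, P.cl t.1 = b) →
      FreeGroup.lift g ρ = 1 → FreeGroup.lift (f b) ρ = 1 := by
  have hmain : ∀ {n : ℕ} (k : Fin n → FreeGroup X),
      (∀ F : Subgroup.closure (Set.range fun j => FreeGroup.lift g (k j)) →* Multiplicative ℚ,
        ∀ h, F h = 1) →
      ∃ (W : Type u) (Δ : LG W X) (o : W), PotG g Δ ∧ P.PotB f Δ ∧
        ∀ j, Δ.Walk o (k j).toWord o := by
    intro n k hno
    obtain ⟨W, _, Δ, o, hc, hAcy, hw⟩ := exists_graph_acy (FreeGroup.lift g)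
      (P.relw (P.inn f)) hker k hno
    have : Nonempty W := ⟨o⟩
    have h1 := P.main hQ hCv hP θ hθ hr W Δ (base_cn hc) (P.acyc_of hAcy)
    exact ⟨W, Δ, o, h1.1, h1.2, hw⟩
  constructor
  · intro H hH hne
    by_contra hno
    obtain ⟨T, hT⟩ := id hH
    let e := T.equivFin
    choose k hk using fun j : Fin T.card => hsurj ((e.symm j : G))
    have hy : Subgroup.closure (Set.range fun j => FreeGroup.lift g (k j)) = H := by
      rw [← hT]
      congr 1
      ext x
      constructor
      · rintro ⟨j, rfl⟩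
        change FreeGroup.lift g (k j) ∈ (T : Set G)
        rw [hk]
        exact (e.symm j).2
      · intro hx
        refine ⟨e ⟨x, hx⟩, ?_⟩
        change FreeGroup.lift g (k (e ⟨x, hx⟩)) = x
        rw [hk]
        simp
    have hHfg : Group.FG H := by
      rw [Group.fg_iff_subgroup_fg]
      exact hH
    obtain ⟨W, Δ, o, ⟨φ, hφ⟩, _, hw⟩ := hmain k (by
      rw [hy]
      exact fun F => hom_rat_trivial hHfg hno F)
    apply hne
    rw [← hy, Subgroup.closure_eq_bot_iff]
    rintro _ ⟨j, rfl⟩
    have h2 := base_walk_pot (fun _ => True) (fun p x q h _ => hφ p x q h) _ o o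
      (fun _ _ => trivial) (hw j)
    rw [base_mk_toWord] at h2
    exact left_eq_mul.1 h2
  · intro b ρ hρ h1
    obtain ⟨W, Δ, o, _, hB, hw⟩ := hmain (fun _ : Fin 1 => ρ) (by
      intro F h
      have h2 : h = 1 := by
        have h3 : Subgroup.closure (Set.range fun _ : Fin 1 => FreeGroup.lift g ρ) = ⊥ := by
          rw [Subgroup.closure_eq_bot_iff]
          rintro _ ⟨_, rfl⟩
          exact h1
        apply Subtype.ext
        have h4 : (h : G) ∈ (⊥ : Subgroup G) := by
          rw [← h3]
          exact h.2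
        exact Subgroup.mem_bot.1 h4
      rw [h2, map_one])
    obtain ⟨φ, hφ⟩ := hB b
    have h2 := base_walk_pot (fun x => P.cl x = b) hφ _ o o hρ (hw 0)
    rw [base_mk_toWord] at h2
    exact left_eq_mul.1 h2

end OW

end Pool.Agent.InjLI
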