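import Pool.Agent.Lib.InjLI.Defs3
import Pool.Agent.Lib.InjLI.QuoC

/-!
# BlkC : the group of a labelled oriented graph is a quotient of the free product of the block groups

(helper18, problem MP_cf50d6_gt, paper MP_cf50d6_gt_paper18rel.md)

* `of_ne_one`: the homomorphism `PresentedGroup.toGroup` to `Multiplicative ℤ` with all generators to `ofAdd 1` (it kills the relators: `(ofAdd 1 * ofAdd 1) * (ofAdd 1 * ofAdd 1)⁻¹`).
* `pos_bx`: the elements of the set are `bx` or their inverses of vertices of the block (according to `σ b`, the same for the whole block). The homomorphism of `of_ne_one` maps every element of the subsemigroup to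
  a positive (`σ b = true`) or negative number (`Subsemigroup.closure_induction`), but 1 to 0.
* `isCol_blk`: `Θ u = PresentedGroup.toGroup` of `v ↦ PresentedGroup.of v.1` (the relators of the block are relators). `rel`: for an outer edge `e`: `Monoid.CoprodI.lift_of`, the value is
  `x_i x_k x_j⁻¹ x_k⁻¹ = 1`. `gen`: `PresentedGroup.closure_range_of`, every generator is in the range of `Θ (cl v)`. `univ`: given `φ u : Blk u →* K`, define on generators `v ↦ φ (cl v) (bx v)`; a relator `e`
  which is outer holds by hypothesis; if `cl (i e) = cl (k e) = cl (j e)`, it holds in the block `u = cl (k e)` (private lemma: for `h : cl v = u` we have `φ (cl v) (bx v) = φ u (PresentedGroup.of ⟨v, h⟩)`, by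
  `subst`). `Φ (Θ u x) = φ u x`: both are homomorphisms of `x : Blk u` which agree on the generators (`PresentedGroup.ext`, the private lemma again).
-/

set_option autoImplicit false

open scoped Classical

namespace Pool.Agent.InjLI

open Pool.Agent.LIA

universe u v

private theorem BlkC_kill {V E : Type} (i j k : E → V) :
    ∀ r ∈ wrel i j k, FreeGroup.lift (fun _ : V => Multiplicative.ofAdd (1 : ℤ)) r = 1 := by
  rintro r ⟨e, rfl⟩
  rw [map_mul, map_inv, map_mul, map_mul]
  simp only [FreeGroup.lift_apply_of]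
  exact mul_inv_cancel _

private def BlkC_deg {V E : Type} (i j k : E → V) :
    PresentedGroup (wrel i j k) →* Multiplicative ℤ :=
  PresentedGroup.toGroup (BlkC_kill i j k)

private theorem BlkC_deg_of {V E : Type} (i j k : E → V) (v : V) :
    BlkC_deg i j k (PresentedGroup.of v) = Multiplicative.ofAdd (1 : ℤ) := by
  unfold BlkC_deg
  exact PresentedGroup.toGroup.of (BlkC_kill i j k)

private theorem BlkC_rel {V E : Type} (i j k : E → V) (e : E) :
    (PresentedGroup.of (i e) * PresentedGroup.of (k e) *
      (PresentedGroup.of (k e) * PresentedGroup.of (j e))⁻¹ : PresentedGroup (wrel i j k)) = 1 := by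
  have h : (PresentedGroup.mk (wrel i j k)) (FreeGroup.of (i e) * FreeGroup.of (k e) *
      (FreeGroup.of (k e) * FreeGroup.of (j e))⁻¹) = 1 :=
    PresentedGroup.one_of_mem ⟨e, rfl⟩
  rw [map_mul, map_inv, map_mul, map_mul] at h
  exact h

theorem of_ne_one {V E : Type} (i j k : E → V) (v : V) :
    (PresentedGroup.of v : PresentedGroup (wrel i j k)) ≠ 1 := by
  intro h
  have h1 := BlkC_deg_of i j k v
  rw [h, map_one] at h1
  have h2 := congrArg Multiplicative.toAdd h1
  rw [toAdd_one, toAdd_ofAdd] at h2
  exact zero_ne_one h2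

private theorem BlkC_degbx {V I E : Type} (cl : V → I) (i j k : E → V) (v : V) :
    BlkC_deg (iu cl i j k (cl v)) (ju cl i j k (cl v)) (ku cl i j k (cl v)) (bx cl i j k v) =
      Multiplicative.ofAdd (1 : ℤ) :=
  BlkC_deg_of _ _ _ _

theorem pos_bx {V I E : Type} (cl : V → I) (i j k : E → V) (σ : I → Bool) (b : I) :
    PosH (wd (H := Blk cl i j k) (i := fun e : Out cl i j k => cl (i e.1))
      (j := fun e => cl (j e.1)) (k := fun e => cl (k e.1)) (fun e => bx cl i j k (i e.1))
      (fun e => bx cl i j k (k e.1)) fun e => bx cl i j k (j e.1)) b fun x => σ x.1 := by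
  intro h1
  let D : (Σ u, Blk cl i j k u) → Multiplicative ℤ := fun y =>
    BlkC_deg (iu cl i j k y.1) (ju cl i j k y.1) (ku cl i j k y.1) y.2
  have hD : ∀ (e : Out cl i j k) (c : Fin (3 + 1)),
      D ((wd (H := Blk cl i j k) (i := fun e : Out cl i j k => cl (i e.1))
      (j := fun e => cl (j e.1)) (k := fun e => cl (k e.1)) (fun e => bx cl i j k (i e.1))
      (fun e => bx cl i j k (k e.1)) (fun e => bx cl i j k (j e.1)) e c).1) =
      Multiplicative.ofAdd (1 : ℤ) := by
    intro e c
    fin_cases c
    · exact BlkC_degbx cl i j k (i e.1)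
    · exact BlkC_degbx cl i j k (k e.1)
    · exact BlkC_degbx cl i j k (j e.1)
    · exact BlkC_degbx cl i j k (k e.1)
  have key : ∀ h ∈ Subsemigroup.closure {h : Blk cl i j k b | ∃ (e : Out cl i j k)
      (c : Fin (3 + 1)) (x : Blk cl i j k b),
      (wd (H := Blk cl i j k) (i := fun e : Out cl i j k => cl (i e.1))
      (j := fun e => cl (j e.1)) (k := fun e => cl (k e.1)) (fun e => bx cl i j k (i e.1))
      (fun e => bx cl i j k (k e.1)) (fun e => bx cl i j k (j e.1)) e c).1 = ⟨b, x⟩ ∧
        h = sg x (σ b)},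
      if σ b = true then 0 < Multiplicative.toAdd (D ⟨b, h⟩)
        else Multiplicative.toAdd (D ⟨b, h⟩) < 0 := by
    intro h hh
    induction hh using Subsemigroup.closure_induction with
    | mem h hm =>
      obtain ⟨e, c, x, h2, rfl⟩ := hm
      have h3 := hD e c
      rw [h2] at h3
      have h4 : BlkC_deg (iu cl i j k b) (ju cl i j k b) (ku cl i j k b) x =
        Multiplicative.ofAdd (1 : ℤ) := h3
      by_cases hs : σ b = true
      · rw [if_pos hs]
        show 0 < Multiplicative.toAdd (BlkC_deg (iu cl i j k b) (ju cl i j k b) (ku cl i j k b)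
          (sg x (σ b)))
        rw [hs, sg, if_pos rfl, h4, toAdd_ofAdd]
        exact one_pos
      · rw [if_neg hs]
        show Multiplicative.toAdd (BlkC_deg (iu cl i j k b) (ju cl i j k b) (ku cl i j k b)
          (sg x (σ b))) < 0
        rw [sg, if_neg hs, map_inv, h4, toAdd_inv, toAdd_ofAdd]
        exact neg_neg_of_pos one_pos
    | mul x y hx hy h2 h3 =>
      have h4 : D ⟨b, x * y⟩ = D ⟨b, x⟩ * D ⟨b, y⟩ := map_mul _ _ _
      by_cases hs : σ b = true
      · rw [if_pos hs] at h2 h3 ⊢
        rw [h4, toAdd_mul]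
        exact add_pos h2 h3
      · rw [if_neg hs] at h2 h3 ⊢
        rw [h4, toAdd_mul]
        exact add_neg h2 h3
  have h2 := key 1 h1
  have h3 : D ⟨b, 1⟩ = 1 := map_one _
  rw [h3, toAdd_one] at h2
  split_ifs at h2
  · exact lt_irrefl _ h2
  · exact lt_irrefl _ h2

private theorem BlkC_phi {V I E K : Type} [Group K] (cl : V → I) (i j k : E → V)
    (φ : ∀ b, Blk cl i j k b →* K) (u : I) (v : V) (h : cl v = u) :
    φ (cl v) (bx cl i j k v) = φ u (PresentedGroup.of ⟨v, h⟩) := by
  subst h
  rfl

private theorem BlkC_theta {V I E : Type} (cl : V → I) (i j k : E → V) (u : I) :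
    ∀ r ∈ wrel (iu cl i j k u) (ju cl i j k u) (ku cl i j k u),
      FreeGroup.lift (fun v : Cls cl u => (PresentedGroup.of v.1 : PresentedGroup (wrel i j k)))
        r = 1 := by
  rintro r ⟨e, rfl⟩
  rw [map_mul, map_inv, map_mul, map_mul]
  simp only [FreeGroup.lift_apply_of]
  exact BlkC_rel i j k e.1

theorem isCol_blk {V I E : Type} (cl : V → I) (i j k : E → V) :
    ∃ Θ : ∀ u, Blk cl i j k u →* PresentedGroup (wrel i j k),
      IsCol (Blk cl i j k)
        (relB (i := fun e : Out cl i j k => cl (i e.1)) (j := fun e => cl (j e.1))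
          (k := fun e => cl (k e.1)) (fun e => bx cl i j k (i e.1))
          (fun e => bx cl i j k (k e.1)) fun e => bx cl i j k (j e.1))
        (PresentedGroup (wrel i j k)) Θ ∧
      ∀ u (v : Cls cl u), Θ u (PresentedGroup.of v) = PresentedGroup.of v.1 := by
  have hof : ∀ u (v : Cls cl u), PresentedGroup.toGroup (BlkC_theta cl i j k u)
      (PresentedGroup.of v) = (PresentedGroup.of v.1 : PresentedGroup (wrel i j k)) := by
    intro u v
    exact PresentedGroup.toGroup.of (BlkC_theta cl i j k u)
  refine ⟨fun u => PresentedGroup.toGroup (BlkC_theta cl i j k u), ⟨?_, ?_, ?_⟩, hof⟩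
  · intro e
    have h1 := BlkC_rel i j k e.1
    rw [mul_inv_rev, ← mul_assoc] at h1
    unfold relB
    rw [map_mul, map_mul, map_mul, map_inv, map_inv, Monoid.CoprodI.lift_of,
      Monoid.CoprodI.lift_of, Monoid.CoprodI.lift_of]
    have h2 : ∀ v, PresentedGroup.toGroup (BlkC_theta cl i j k (cl v)) (bx cl i j k v) =
        (PresentedGroup.of v : PresentedGroup (wrel i j k)) := fun v => hof (cl v) ⟨v, rfl⟩
    rw [h2, h2, h2]
    exact h1
  · rw [eq_top_iff, ← PresentedGroup.closure_range_of, Subgroup.closure_le]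
    rintro _ ⟨v, rfl⟩
    exact (le_iSup (fun u => (PresentedGroup.toGroup (BlkC_theta cl i j k u)).range) (cl v))
      ⟨PresentedGroup.of ⟨v, rfl⟩, hof (cl v) ⟨v, rfl⟩⟩
  · intro K _ φ hφ
    have hrel : ∀ r ∈ wrel i j k,
        FreeGroup.lift (fun v => φ (cl v) (bx cl i j k v)) r = 1 := by
      rintro r ⟨e, rfl⟩
      rw [map_mul, map_inv, map_mul, map_mul]
      simp only [FreeGroup.lift_apply_of]
      by_cases hin : cl (i e) = cl (k e) ∧ cl (j e) = cl (k e)
      · have h1 := BlkC_rel (iu cl i j k (cl (k e))) (ju cl i j k (cl (k e)))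
          (ku cl i j k (cl (k e))) ⟨e, hin.1, hin.2, rfl⟩
        have h2 := congrArg (φ (cl (k e))) h1
        rw [map_mul, map_inv, map_mul, map_mul, map_one] at h2
        rw [BlkC_phi cl i j k φ (cl (k e)) (i e) hin.1, BlkC_phi cl i j k φ (cl (k e)) (j e) hin.2]
        exact h2
      · have h1 := hφ ⟨e, hin⟩
        unfold relB at h1
        rw [map_mul, map_mul, map_mul, map_inv, map_inv, Monoid.CoprodI.lift_of,
          Monoid.CoprodI.lift_of, Monoid.CoprodI.lift_of] at h1
        rw [mul_inv_rev, ← mul_assoc]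
        exact h1
    refine ⟨PresentedGroup.toGroup hrel, ?_⟩
    intro u x
    have h1 : (PresentedGroup.toGroup hrel).comp (PresentedGroup.toGroup (BlkC_theta cl i j k u)) =
        φ u := by
      apply PresentedGroup.ext
      intro v
      rw [MonoidHom.comp_apply, hof u v, PresentedGroup.toGroup.of]
      exact BlkC_phi cl i j k φ u v.1 v.2
    exact DFunLike.congr_fun h1 x

end Pool.Agent.InjLI
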