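import Pool.Agent.Lib.InjLI.EdB

/-!
# Brn : orientations of a system with two arcs leaving every set of labels

(helper18, problem MP_cf50d6_gt, paper MP_cf50d6_gt_paper18rel.md)

`L` = image of `k`. For `c ∈ L` let `e_c` be the edge with label `c` (unique, `hk`); `a c := i e_c`, `b c := j e_c`; for `c ∉ L` put `a c = b c = c`. For `U ⊆ L` the edges `e` with `k e ∈ U`, `i e ∉ U` correspond by
`k` to the `c ∈ U` with `a c ∉ U` (`Finset.card_bij` or `Finset.card_image_of_injOn`), so `hT` is the hypothesis of `exists_branching`, which gives `s`.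
* first two conclusions, for a nonempty `S`: `k` maps the filter injectively into `S`. If some `b ∈ S` is not a label, it is not in the image. Otherwise `S ⊆ L` and there is `c ∈ S` with `f c ∉ S`, so `c` is not
  in the image. So the cardinality is less than `S.card`.
* third: `hT` for `U = {k e}`: both filters are contained in `{e}` (`hk`), so both are equal to it.
-/

/-!
# Brn : orientations of a system with two arcs leaving every set of labels

(helper18, problem MP_cf50d6_gt, paper MP_cf50d6_gt_paper18rel.md)

`L` = image of `k`. For `c ∈ L` let `e_c` be the edge with label `c` (unique, `hk`); `a c := i e_c`, `b c := j e_c`; for `c ∉ L` put `a c = b c = c`. For `U ⊆ L` the edges `e` with `k e ∈ U`, `i e ∉ U` correspond by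
`k` to the `c ∈ U` with `a c ∉ U` (`Finset.card_bij` or `Finset.card_image_of_injOn`), so `hT` is the hypothesis of `exists_branching`, which gives `s`.
* first two conclusions, for a nonempty `S`: `k` maps the filter injectively into `S`. If some `b ∈ S` is not a label, it is not in the image. Otherwise `S ⊆ L` and there is `c ∈ S` with `f c ∉ S`, so `c` is not
  in the image. So the cardinality is less than `S.card`.
* third: `hT` for `U = {k e}`: both filters are contained in `{e}` (`hk`), so both are equal to it.
-/

set_option autoImplicit false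

open scoped Classical

namespace Pool.Agent.InjLI

open Pool.Agent.LIA

universe u v

private theorem brn_count {I E : Type} [Fintype E] {k : E → I} (hk : Function.Injective k)
    (f : I → I) (g : E → I) (hfg : ∀ e, f (k e) = g e) (U : Finset I)
    (hU : ∀ c ∈ U, ∃ e, k e = c) :
    (U.filter fun c => f c ∉ U).card =
      (Finset.univ.filter fun e => k e ∈ U ∧ g e ∉ U).card := by
  rw [← Finset.card_image_of_injective (Finset.univ.filter fun e => k e ∈ U ∧ g e ∉ U) hk]
  apply congrArg
  ext c
  simp only [Finset.mem_filter, Finset.mem_image, Finset.mem_univ, true_and]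
  constructor
  · rintro ⟨hc, hf⟩
    obtain ⟨e, rfl⟩ := hU c hc
    exact ⟨e, ⟨hc, by rwa [← hfg]⟩, rfl⟩
  · rintro ⟨e, ⟨h1, h2⟩, rfl⟩
    exact ⟨h1, by rwa [hfg]⟩

private theorem brn_lt {I E : Type} [Fintype E] {k : E → I} (hk : Function.Injective k)
    (f : I → I) (g : E → I) (hfg : ∀ e, f (k e) = g e)
    (hf : ∀ U : Finset I, U.Nonempty → U ⊆ Finset.univ.image k → ∃ c ∈ U, f c ∉ U)
    (S : Finset I) (hS : S.Nonempty) :
    (Finset.univ.filter fun e => k e ∈ S ∧ g e ∈ S).card < S.card := by
  rw [← Finset.card_image_of_injective (Finset.univ.filter fun e => k e ∈ S ∧ g e ∈ S) hk]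
  apply Finset.card_lt_card
  rw [Finset.ssubset_iff_of_subset]
  · by_cases hSL : S ⊆ Finset.univ.image k
    · obtain ⟨c, hc, hfc⟩ := hf S hS hSL
      refine ⟨c, hc, ?_⟩
      intro hm
      obtain ⟨e, he, rfl⟩ := Finset.mem_image.1 hm
      have h2 := (Finset.mem_filter.1 he).2.2
      rw [← hfg] at h2
      exact hfc h2
    · obtain ⟨c, hc, hcL⟩ := Finset.not_subset.1 hSL
      refine ⟨c, hc, fun hm => hcL ?_⟩
      obtain ⟨e, -, rfl⟩ := Finset.mem_image.1 hm
      exact Finset.mem_image_of_mem _ (Finset.mem_univ _)
  · intro c hc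
    obtain ⟨e, he, rfl⟩ := Finset.mem_image.1 hc
    exact (Finset.mem_filter.1 he).2.1

private theorem brn_le_one {I E : Type} [Fintype E] {k : E → I} (hk : Function.Injective k)
    (e : E) (g : E → I) :
    (Finset.univ.filter fun e' => k e' ∈ ({k e} : Finset I) ∧ g e' ∉ ({k e} : Finset I)).card
      ≤ 1 := by
  rw [Finset.card_le_one]
  intro x hx y hy
  have h1 := Finset.mem_singleton.1 (Finset.mem_filter.1 hx).2.1
  have h2 := Finset.mem_singleton.1 (Finset.mem_filter.1 hy).2.1
  exact hk (h1.trans h2.symm)

private theorem brn_zero {I E : Type} [Fintype E] {k : E → I} (hk : Function.Injective k)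
    (e : E) (g : E → I) (hg : g e = k e) :
    (Finset.univ.filter fun e' => k e' ∈ ({k e} : Finset I) ∧ g e' ∉ ({k e} : Finset I)).card
      = 0 := by
  rw [Finset.card_eq_zero, Finset.filter_eq_empty_iff]
  rintro x - ⟨h1, h2⟩
  have h3 : x = e := hk (Finset.mem_singleton.1 h1)
  subst h3
  exact h2 (Finset.mem_singleton.2 hg)

theorem exists_orient {I E : Type} [Fintype E] {i j k : E → I} (hk : Function.Injective k)
    (hT : TwoOut i j k) :
    ∃ s : I → Bool,
      (∀ S : Finset I, S.Nonempty → (Finset.univ.filter fun e =>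
        k e ∈ S ∧ (if s (k e) then i e else j e) ∈ S).card < S.card) ∧
      (∀ S : Finset I, S.Nonempty → (Finset.univ.filter fun e =>
        k e ∈ S ∧ (if s (k e) then j e else i e) ∈ S).card < S.card) ∧
      ∀ e, i e ≠ k e ∧ j e ≠ k e := by
  have hext : ∀ g : E → I, ∃ f : I → I, ∀ e, f (k e) = g e := by
    intro g
    refine ⟨fun c => if h : ∃ e, k e = c then g h.choose else c, fun e => ?_⟩
    have h : ∃ e', k e' = k e := ⟨e, rfl⟩
    change (if h : ∃ e', k e' = k e then g h.choose else k e) = g e
    rw [dif_pos h, hk h.choose_spec]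
  obtain ⟨a, ha⟩ := hext i
  obtain ⟨b, hb⟩ := hext j
  have h : ∀ U : Finset I, U.Nonempty → U ⊆ Finset.univ.image k →
      2 ≤ (U.filter fun c => a c ∉ U).card + (U.filter fun c => b c ∉ U).card := by
    intro U hU hUL
    have hl : ∀ c ∈ U, ∃ e, k e = c := fun c hc => by
      obtain ⟨e, -, he⟩ := Finset.mem_image.1 (hUL hc)
      exact ⟨e, he⟩
    rw [brn_count hk a i ha U hl, brn_count hk b j hb U hl]
    exact hT U hU hl
  obtain ⟨s, h1, h2⟩ := exists_branching h
  refine ⟨s, brn_lt hk (fun c => if s c then a c else b c) _ (fun e => by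
      simp only [ha, hb]) h1,
    brn_lt hk (fun c => if s c then b c else a c) _ (fun e => by
      simp only [ha, hb]) h2, fun e => ?_⟩
  have h3 := hT {k e} (Finset.singleton_nonempty _)
    (fun b hb => ⟨e, (Finset.mem_singleton.1 hb).symm⟩)
  have h4 := brn_le_one hk e i
  have h5 := brn_le_one hk e j
  constructor
  · intro h6
    have h7 := brn_zero hk e i h6
    omega
  · intro h6
    have h7 := brn_zero hk e j h6
    omega

end Pool.Agent.InjLI
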