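import Pool.Agent.Lib.InjLI.Mx

/-!
# Gd : the good components are not more than the vertices without up ends

(helper18, problem MP_cf50d6_gt, paper MP_cf50d6_gt_paper18rel.md)

Choose for every good component `C` the vertex `p C ∈ C` of `exists_top`. The map is injective on the good components (`LG.eq_comp_of_mem`: `C = comp (p C)`), and its values are in
the filtered set (`κ ∈ P.cor Γ p ↔ P.At Γ p κ`). `Finset.card_le_card_of_injOn`.
-/

set_option autoImplicit false

open scoped Classical

namespace Pool.Agent.InjLI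

open Pool.Agent.LIA

universe u v

namespace OW

variable {X : Type u} {I E : Type} {W : Type*} (P : OW X I E)


theorem good_le [Fintype I] [Fintype E] [Fintype W] {Q : I → Type v} [∀ b, Group (Q b)]
    {f : ∀ b, X → Q b} {Γ : LG W X} (hC : Cn Γ) (hR : P.Rdc Γ) (hE : ∃ p, P.Ess Γ p) {b : I}
    {s : X → Bool} (hP : P.Pos f b s) :
    P.good f Γ b ≤ (Finset.univ.filter fun p : W => (b ∉ P.Jp Γ p ∨ P.Ess Γ p) ∧
      ¬ ∃ κ ∈ P.cor Γ p, P.En κ b s).card := by
  classical
  have h : ∀ C ∈ (P.bg Γ b).comps.filter (fun C => (P.bg Γ b).PotIn (f b) C),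
      ∃ p ∈ C, (b ∉ P.Jp Γ p ∨ P.Ess Γ p) ∧ ∀ κ, P.At Γ p κ → ¬ P.En κ b s := by
    intro C hC'
    rw [Finset.mem_filter] at hC'
    exact P.exists_top hC hR hE hP hC'.1 hC'.2
  unfold good
  rcases isEmpty_or_nonempty W with hW | hW
  · refine le_of_eq_of_le (Finset.card_eq_zero.2 (Finset.eq_empty_of_forall_notMem fun C hC' => ?_))
      (Nat.zero_le _)
    obtain ⟨p, -⟩ := h C hC'
    exact hW.elim p
  · choose! g hg using h
    refine Finset.card_le_card_of_injOn g (fun C hC' => ?_) (fun C hC' D hD hCD => ?_)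
    · rw [Finset.mem_coe] at hC'
      obtain ⟨-, h1, h2⟩ := hg C hC'
      rw [Finset.mem_coe, Finset.mem_filter]
      refine ⟨Finset.mem_univ _, h1, ?_⟩
      rintro ⟨κ, hκ, hκ'⟩
      unfold cor at hκ
      exact h2 κ (Finset.mem_filter.1 hκ).2 hκ'
    · rw [Finset.mem_coe] at hC' hD
      have h1 := (hg C hC').1
      have h2 := (hg D hD).1
      rw [← hCD] at h2
      rw [LG.eq_comp_of_mem (Finset.mem_filter.1 hC').1 h1,
        LG.eq_comp_of_mem (Finset.mem_filter.1 hD).1 h2]

end OW

end Pool.Agent.InjLI
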