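import Pool.Agent.Lib.InjLI.JpB

/-!
# Loc : the inequality at a vertex

(helper18, problem MP_cf50d6_gt, paper MP_cf50d6_gt_paper18rel.md)

* `p` ESSENTIAL: the first condition holds, so the summand is `α b o - (if ∃ κ ∈ P.cor Γ p, P.En κ b (s o) then α b o else 0)`; the sum over `b, o` of `α b o` is `card I`
  (`∑ o, α b o = 1`), and `Curv` for `K = P.cor Γ p` (`cor_two`) gives the claim.
* `p` NOT ESSENTIAL: `P.cor Γ p = ∅` (`cor_empty`), so the sum over the corners is 0 and the summand is `if b ∉ Jp then α b o else 0`; the sum over `o` is `if b ∉ Jp then 1 else 0`, the sum over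
  `b` is `card I - (Jp).card ≤ card I - 1` (`jp_nonempty`).
-/

set_option autoImplicit false

open scoped Classical

namespace Pool.Agent.InjLI

open Pool.Agent.LIA

universe u v

namespace OW

variable {X : Type u} {I E : Type} {W : Type*} (P : OW X I E)


theorem loc [Fintype I] [Fintype E] {O : Type} [Fintype O] {s : O → X → Bool} {w : P.Cor → ℝ}
    {α : I → O → ℝ} (hCv : P.Curv s w α) {Γ : LG W X} (hC : Cn Γ) (hR : P.Rdc Γ)
    (hE : ∃ p, P.Ess Γ p) (p : W) :
    (∑ b, ∑ o, if (b ∉ P.Jp Γ p ∨ P.Ess Γ p) ∧ ¬ ∃ κ ∈ P.cor Γ p, P.En κ b (s o) then α b o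
      else 0) + 1 + ∑ κ ∈ P.cor Γ p, w κ ≤ Fintype.card I := by
  obtain ⟨-, hα1, -, hK⟩ := hCv
  by_cases hp : P.Ess Γ p
  · have h1 := hK (P.cor Γ p) (P.cor_two hR hp)
    have h2 : (∑ b, ∑ o, if (b ∉ P.Jp Γ p ∨ P.Ess Γ p) ∧ ¬ ∃ κ ∈ P.cor Γ p, P.En κ b (s o)
        then α b o else 0) =
        (∑ b, ∑ o, α b o) - ∑ b, ∑ o, if ∃ κ ∈ P.cor Γ p, P.En κ b (s o) then α b o else 0 := by
      rw [← Finset.sum_sub_distrib]
      refine Finset.sum_congr rfl fun b _ => ?_
      rw [← Finset.sum_sub_distrib]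
      refine Finset.sum_congr rfl fun o _ => ?_
      by_cases h : ∃ κ ∈ P.cor Γ p, P.En κ b (s o)
      · rw [if_neg (fun h' => h'.2 h), if_pos h, sub_self]
      · rw [if_pos ⟨Or.inr hp, h⟩, if_neg h, sub_zero]
    have h3 : (∑ b, ∑ o, α b o) = (Fintype.card I : ℝ) := by
      rw [Finset.sum_congr rfl fun b _ => hα1 b]
      simp
    rw [h2, h3]
    linarith
  · have h0 : P.cor Γ p = ∅ := P.cor_empty hp
    have h2 : (∑ b, ∑ o, if (b ∉ P.Jp Γ p ∨ P.Ess Γ p) ∧ ¬ ∃ κ ∈ P.cor Γ p, P.En κ b (s o)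
        then α b o else 0) = ∑ b, if b ∈ P.Jp Γ p then (0 : ℝ) else 1 := by
      refine Finset.sum_congr rfl fun b _ => ?_
      by_cases h : b ∈ P.Jp Γ p
      · rw [if_pos h]
        refine Finset.sum_eq_zero fun o _ => ?_
        rw [if_neg]
        rintro ⟨h' | h', -⟩
        · exact h' h
        · exact hp h'
      · rw [if_neg h, ← hα1 b]
        refine Finset.sum_congr rfl fun o _ => ?_
        rw [if_pos]
        refine ⟨Or.inl h, ?_⟩
        rw [h0]
        rintro ⟨κ, hκ, -⟩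
        exact absurd hκ (Finset.notMem_empty κ)
    have h3 : (∑ b, if b ∈ P.Jp Γ p then (0 : ℝ) else 1) =
        (Fintype.card I : ℝ) - ((P.Jp Γ p).card : ℝ) := by
      have h4 : (∑ b, if b ∈ P.Jp Γ p then (0 : ℝ) else 1) =
          ∑ b, ((1 : ℝ) - if b ∈ P.Jp Γ p then (1 : ℝ) else 0) := by
        refine Finset.sum_congr rfl fun b _ => ?_
        split_ifs <;> norm_num
      rw [h4, Finset.sum_sub_distrib]
      simp
    have h5 : 1 ≤ (P.Jp Γ p).card := (P.jp_nonempty hC hE p).card_pos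
    have h6 : (1 : ℝ) ≤ ((P.Jp Γ p).card : ℝ) := by exact_mod_cast h5
    rw [h2, h3, h0, Finset.sum_empty]
    linarith

end OW

end Pool.Agent.InjLI
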