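import Pool.Agent.Lib.InjLI.Par

/-!
# Wt : the weights of the corners

(helper18, problem MP_cf50d6_gt, paper MP_cf50d6_gt_paper18rel.md)

`∑ p, ∑ κ ∈ P.cor Γ p, w κ = ∑ σ ∈ P.sq Γ, ∑ c, w ⟨σ.1, c⟩`: the pairs `(σ, c)` with `σ ∈ P.sq Γ`, `c : Fin (P.m σ.1 + 1)` correspond to the pairs `(p, κ)` with `κ ∈ P.cor Γ p` by
`(σ, c) ↦ (σ.2 c, ⟨σ.1, c⟩)`: onto by the definition of `At`, injective by `poly_unique`. (For instance `Finset.sum_bij` on the sigma types `Finset.sigma`,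
`Finset.sum_sigma'`.) The right side is at least `∑ σ ∈ P.sq Γ, 1`.
-/

set_option autoImplicit false

open scoped Classical

namespace Pool.Agent.InjLI

open Pool.Agent.LIA

universe u v

namespace OW

variable {X : Type u} {I E : Type} {W : Type*} (P : OW X I E)


theorem card_sq_le [Fintype E] [Fintype W] (Γ : LG W X) (w : P.Cor → ℝ)
    (hw : ∀ e, 1 ≤ ∑ c, w ⟨e, c⟩) : ((P.sq Γ).card : ℝ) ≤ ∑ p, ∑ κ ∈ P.cor Γ p, w κ := by
  have key : ∑ σ ∈ P.sq Γ, ∑ c, w ⟨σ.1, c⟩ = ∑ p, ∑ κ ∈ P.cor Γ p, w κ := by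
    rw [Finset.sum_sigma', Finset.sum_sigma']
    refine Finset.sum_bij
      (fun (x : Σ _ : (Σ e : E, Fin (P.m e + 1) → W), Fin (P.m _ + 1)) _ =>
        (⟨x.1.2 x.2, ⟨x.1.1, x.2⟩⟩ : Σ _ : W, P.Cor)) ?_ ?_ ?_ ?_
    · rintro ⟨⟨e, q⟩, c⟩ hx
      have h1 : P.Poly Γ e q := (Finset.mem_filter.1 (Finset.mem_sigma.1 hx).1).2
      exact Finset.mem_sigma.2 ⟨Finset.mem_univ _,
        Finset.mem_filter.2 ⟨Finset.mem_univ _, q, h1, rfl⟩⟩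
    · rintro ⟨⟨e, q⟩, c⟩ hx ⟨⟨e', q'⟩, c'⟩ hx' heq
      have h1 : P.Poly Γ e q := (Finset.mem_filter.1 (Finset.mem_sigma.1 hx).1).2
      have h1' : P.Poly Γ e' q' := (Finset.mem_filter.1 (Finset.mem_sigma.1 hx').1).2
      simp only [Sigma.mk.injEq, heq_eq_eq] at heq
      obtain ⟨h2, h3, h4⟩ := heq
      subst h3
      have h5 := eq_of_heq h4
      subst h5
      have h6 := P.poly_unique h1 h1' h2
      subst h6
      rfl
    · rintro ⟨p, ⟨e, c⟩⟩ hy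
      obtain ⟨q, h1, h2⟩ := (Finset.mem_filter.1 (Finset.mem_sigma.1 hy).2).2
      refine ⟨⟨⟨e, q⟩, c⟩, Finset.mem_sigma.2 ⟨Finset.mem_filter.2 ⟨Finset.mem_univ _, h1⟩,
        Finset.mem_univ _⟩, ?_⟩
      exact Sigma.ext h2 (heq_of_eq rfl)
    · rintro ⟨⟨e, q⟩, c⟩ _
      rfl
  rw [← key]
  calc ((P.sq Γ).card : ℝ) = ∑ _σ ∈ P.sq Γ, (1 : ℝ) := by simp
    _ ≤ _ := Finset.sum_le_sum fun σ _ => hw σ.1

end OW

end Pool.Agent.InjLI
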