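import Pool.Agent.Lib.InjLI.KOne
import Pool.Agent.Lib.InjLI.KThr
import Pool.Agent.Lib.InjLI.Wt
import Pool.Agent.Lib.InjLI.Gd
import Pool.Agent.Lib.InjLI.Loc

/-!
# Cnt : a reduced graph has no essential vertex

(helper18, problem MP_cf50d6_gt, paper MP_cf50d6_gt_paper18rel.md)

Suppose there is an essential vertex. For all `b`: `good b = ∑ o, α b o * good b ≤ ∑ o, α b o * (number of p in the set of good_le for s o)` (`good_le` if `α b o ≠ 0`, using `hP`; otherwise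
both sides are 0). Sum over `b`, exchange the sums: `∑ b, good b ≤ ∑ p, ∑ b, ∑ o, (if ... then α b o else 0)`, and by `loc` for every `p` this is at most
`∑ p, (card I - 1 - ∑ κ ∈ P.cor Γ p, w κ) ≤ card I * card W - card W - (P.sq Γ).card` (`card_sq_le`). With `card_mul_le` and `finrank_zc` (in ℝ):
`card I * card W ≤ finrank + ∑ good ≤ (card W + (P.sq Γ).card - 1) + card I * card W - card W - (P.sq Γ).card`. Contradiction.
-/

set_option autoImplicit false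

open scoped Classical

namespace Pool.Agent.InjLI

open Pool.Agent.LIA

universe u v

namespace OW

variable {X : Type u} {I E : Type} {W : Type*} (P : OW X I E)


theorem not_ess [Fintype I] [Fintype E] [Fintype W] [Nonempty W] {Q : I → Type v}
    [∀ b, Group (Q b)] (hQ : ∀ b, LocallyIndicable (Q b)) {f : ∀ b, X → Q b} {O : Type} [Fintype O]
    {s : O → X → Bool} {w : P.Cor → ℝ} {α : I → O → ℝ} (hCv : P.Curv s w α)
    (hP : ∀ b o, α b o ≠ 0 → P.Pos f b (s o)) {Γ : LG W X} (hC : Cn Γ)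
    (hA : P.Acyc (P.inn f) Γ) (hR : P.Rdc Γ) : ¬ ∃ p, P.Ess Γ p := by
  intro hE
  have hα0 := hCv.1
  have hα1 := hCv.2.1
  have hw := hCv.2.2.1
  have h1 : ∀ b, (P.good f Γ b : ℝ) ≤ ∑ p : W, ∑ o, (if (b ∉ P.Jp Γ p ∨ P.Ess Γ p) ∧
      ¬ ∃ κ ∈ P.cor Γ p, P.En κ b (s o) then α b o else 0) := by
    intro b
    have h2 : (P.good f Γ b : ℝ) = ∑ o, α b o * (P.good f Γ b : ℝ) := by
      rw [← Finset.sum_mul, hα1, one_mul]
    rw [h2, Finset.sum_comm]
    refine Finset.sum_le_sum fun o _ => ?_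
    rw [← Finset.sum_filter, Finset.sum_const, nsmul_eq_mul]
    by_cases h0 : α b o = 0
    · rw [h0]
      simp
    · have h3 := P.good_le hC hR hE (hP b o h0)
      have h4 : (P.good f Γ b : ℝ) ≤ ((Finset.univ.filter fun p : W =>
          (b ∉ P.Jp Γ p ∨ P.Ess Γ p) ∧ ¬ ∃ κ ∈ P.cor Γ p, P.En κ b (s o)).card : ℝ) := by
        exact_mod_cast h3
      rw [mul_comm]
      exact mul_le_mul_of_nonneg_right h4 (hα0 b o)
  have h5 : ((∑ b, P.good f Γ b : ℕ) : ℝ) ≤ ∑ p : W, ∑ b, ∑ o,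
      (if (b ∉ P.Jp Γ p ∨ P.Ess Γ p) ∧ ¬ ∃ κ ∈ P.cor Γ p, P.En κ b (s o) then α b o
        else 0) := by
    rw [Nat.cast_sum, Finset.sum_comm]
    exact Finset.sum_le_sum fun b _ => h1 b
  have h6 : ∑ p : W, ((∑ b, ∑ o, if (b ∉ P.Jp Γ p ∨ P.Ess Γ p) ∧
      ¬ ∃ κ ∈ P.cor Γ p, P.En κ b (s o) then α b o else 0) + 1 + ∑ κ ∈ P.cor Γ p, w κ) ≤
      ∑ _p : W, (Fintype.card I : ℝ) :=
    Finset.sum_le_sum fun p _ => P.loc hCv hC hR hE p
  rw [Finset.sum_add_distrib, Finset.sum_add_distrib, Finset.sum_const, Finset.sum_const,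
    nsmul_eq_mul, nsmul_eq_mul, Finset.card_univ, mul_one] at h6
  have h7 : ((P.sq Γ).card : ℝ) ≤ ∑ p, ∑ κ ∈ P.cor Γ p, w κ := P.card_sq_le Γ w hw
  have h8 : (Fintype.card I : ℝ) * (Fintype.card W : ℝ) ≤
      (Module.finrank ℚ (Γ.Zc (P.inn f)) : ℝ) + ((∑ b, P.good f Γ b : ℕ) : ℝ) := by
    exact_mod_cast P.card_mul_le hQ f Γ
  have h9 : (Module.finrank ℚ (Γ.Zc (P.inn f)) : ℝ) + 1 ≤
      (Fintype.card W : ℝ) + ((P.sq Γ).card : ℝ) := by
    exact_mod_cast P.finrank_zc hA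
  have h10 : (Fintype.card W : ℝ) * (Fintype.card I : ℝ) =
      (Fintype.card I : ℝ) * (Fintype.card W : ℝ) := mul_comm _ _
  linarith

end OW

end Pool.Agent.InjLI
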