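import Pool.Agent.Lib.InjLI.Base
import Pool.Agent.Lib.InjLI.Ker

/-!
# ColA : Theorem A for quotients of free products (assembly)

(helper18, problem MP_cf50d6_gt, paper MP_cf50d6_gt_paper18rel.md)

`OW.base` for `X = Σ b, H b`, `P = ⟨Sigma.fst, m, a, alt⟩`, `Q = H`, `f = fv`, `g x = θ x.1 x.2`.
* `hP`: the set in `P.Pos fv b (s o)` is contained in the set of `PosH a b (s o)` (if `(a e c).1.1 = b` then `(a e c).1 = ⟨b, x⟩` with `x` its second component, `fv_self`;
  `Subsemigroup.closure_mono`).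
* `hθ`: `fv_self`. `hr`: `hcol.rel e`: `Monoid.CoprodI.lift θ (relA a e) = FreeGroup.lift g (FreeGroup.mk (List.ofFn (a e)))` (`map_list_prod`, `FreeGroup.lift_mk`).
* `hsurj`: `hcol.gen`: the range contains the range of every `θ b`.
* `hker`: `ker_le`.
* injectivity: let `θ b h = 1`; `ρ := FreeGroup.of ⟨b, h⟩` has the reduced word `[(⟨b, h⟩, true)]` (`FreeGroup.toWord_of`), `FreeGroup.lift g ρ = θ b h = 1`, so
  `FreeGroup.lift (fv b) ρ = h = 1`.
-/

set_option autoImplicit false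

open scoped Classical

namespace Pool.Agent.InjLI

open Pool.Agent.LIA

universe u v

private theorem colA_toWord {S : Type*} (inst : DecidableEq S) (x : S) :
    @FreeGroup.toWord S inst (FreeGroup.of x) = [(x, true)] := @FreeGroup.toWord_of S inst x

private theorem colA_lift {I E : Type} {H : I → Type u} [∀ b, Group (H b)] {m : E → ℕ}
    (a : ∀ e, Fin (m e + 1) → (Σ b, H b) × Bool) {G : Type u} [Group G] (θ : ∀ b, H b →* G)
    (e : E) : Monoid.CoprodI.lift θ (relA a e) =
      FreeGroup.lift (fun x : Σ b, H b => θ x.1 x.2) (FreeGroup.mk (List.ofFn (a e))) := by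
  rw [relA, map_list_prod, List.map_ofFn, FreeGroup.lift_mk, List.map_ofFn]
  congr 2
  funext c
  simp only [Function.comp_apply, sg]
  cases (a e c).2
  · simp
  · simp

private theorem colA_pos {I E : Type} {H : I → Type u} [∀ b, Group (H b)] {m : E → ℕ}
    {a : ∀ e, Fin (m e + 1) → (Σ b, H b) × Bool}
    (alt : ∀ e c, (a e c).1.1 ≠ (a e (c + 1)).1.1) (b : I) (s : (Σ b, H b) → Bool)
    (h : PosH a b s) : (OW.mk Sigma.fst m a alt).Pos fv b s := by
  intro h1
  apply h
  refine Subsemigroup.closure_mono ?_ h1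
  rintro h ⟨e, c, hb, rfl⟩
  obtain ⟨x, hx⟩ : ∃ x : H b, (a e c).1 = ⟨b, x⟩ := by
    change (a e c).1.1 = b at hb
    subst hb
    exact ⟨(a e c).1.2, rfl⟩
  refine ⟨e, c, x, hx, ?_⟩
  change (if s (a e c).1 = true then fv b (a e c).1 else (fv b (a e c).1)⁻¹) = _
  rw [hx, fv_self, sg]

theorem colA {I E : Type} [Fintype I] [Fintype E] {H : I → Type u} [∀ b, Group (H b)]
    (hH : ∀ b, LocallyIndicable (H b)) {m : E → ℕ}
    {a : ∀ e, Fin (m e + 1) → (Σ b, H b) × Bool}
    (alt : ∀ e c, (a e c).1.1 ≠ (a e (c + 1)).1.1) {O : Type} [Fintype O]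
    {s : O → (Σ b, H b) → Bool} {w : (Σ e : E, Fin (m e + 1)) → ℝ} {α : I → O → ℝ}
    (hCv : (OW.mk Sigma.fst m a alt).Curv s w α)
    (hP : ∀ b o, α b o ≠ 0 → PosH a b (s o)) {G : Type u} [Group G] {θ : ∀ b, H b →* G}
    (hcol : IsCol H (relA a) G θ) :
    LocallyIndicable G ∧ ∀ b, Function.Injective (θ b) := by
  have hbase := OW.base (OW.mk Sigma.fst m a alt) hH (f := fv) hCv
    (fun b o h => colA_pos alt b (s o) (hP b o h)) (g := fun x : Σ b, H b => θ x.1 x.2) θ
    (fun x => by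
      change θ x.1 (fv x.1 x) = θ x.1 x.2
      have : fv x.1 x = x.2 := fv_self x.1 x.2
      rw [this])
    (fun e => by
      rw [← colA_lift a θ e]
      exact hcol.rel e)
    (by
      rw [← MonoidHom.range_eq_top, eq_top_iff, ← hcol.gen, iSup_le_iff]
      rintro b _ ⟨x, rfl⟩
      exact ⟨FreeGroup.of ⟨b, x⟩, FreeGroup.lift_apply_of⟩)
    (ker_le alt hcol)
  refine ⟨hbase.1, fun b => ?_⟩
  rw [injective_iff_map_eq_one]
  intro h h1
  have h2 := hbase.2 b (FreeGroup.of ⟨b, h⟩) (by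
    intro t ht
    rw [colA_toWord, List.mem_singleton] at ht
    rw [ht])
    (by rw [FreeGroup.lift_apply_of]; exact h1)
  rw [FreeGroup.lift_apply_of, fv_self] at h2
  exact h2

end Pool.Agent.InjLI
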