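import Pool.Agent.Lib.InjLI.Tre

/-!
# RelS : the quotient of a tree by connected blocks is sparse

(helper18, problem MP_cf50d6_gt, paper MP_cf50d6_gt_paper18rel.md)

Counting. Let `S` be a nonempty set of blocks, `U = {v | cl v ∈ S}`. If `U = ∅` there are no edges with `cl (init e) ∈ S`, so the left side is 0. Otherwise (`tree_card`): the number of the edges with both ends in `U`
is at most `U.card - 1`. These edges contain, disjointly, the outer edges inside `S` and for every `u ∈ S` the edges inside the block `u` (both ends and the label in the block `u`). So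
`(outer edges inside S) + ∑ u ∈ S, (edges inside u) ≤ U.card - 1`, and `U.card = ∑ u ∈ S, (block u).card ≤ ∑ u ∈ S, ((edges inside u) + 1)` by `h`. (Count the outer edges by the map `e ↦ e.1`; the fibres over
`cl (lab e)`: `Finset.card_eq_sum_card_fiberwise`.)
-/

set_option autoImplicit false

open scoped Classical

namespace Pool.Agent.InjLI

open Pool.Agent.LIA

universe u v

theorem sparse_blocks {V E I : Type} [Fintype V] [Fintype E] (Γ : Pool.Agent.LOTI.LOT V E)
    (cl : V → I)
    (h : ∀ u, (Finset.univ.filter fun v => cl v = u).card ≤ (Finset.univ.filter fun e =>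
      cl (Γ.init e) = u ∧ cl (Γ.term e) = u ∧ cl (Γ.lab e) = u).card + 1)
    [Fintype (Out cl Γ.init Γ.term Γ.lab)] :
    Sparse (fun e : Out cl Γ.init Γ.term Γ.lab => cl (Γ.init e.1)) (fun e => cl (Γ.term e.1))
      fun e => cl (Γ.lab e.1) := by
  intro S hS
  set U : Finset V := Finset.univ.filter fun v => cl v ∈ S with hU
  set D : Finset E := Finset.univ.filter fun e => Γ.init e ∈ U ∧ Γ.term e ∈ U with hD
  set A : Finset E := (EU (fun e : Out cl Γ.init Γ.term Γ.lab => cl (Γ.init e.1))
    (fun e => cl (Γ.term e.1)) (fun e => cl (Γ.lab e.1)) S).map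
      ⟨Subtype.val, Subtype.val_injective⟩ with hA
  set B : I → Finset E := fun u => Finset.univ.filter fun e =>
    cl (Γ.init e) = u ∧ cl (Γ.term e) = u ∧ cl (Γ.lab e) = u with hB
  have hAc : A.card = (EU (fun e : Out cl Γ.init Γ.term Γ.lab => cl (Γ.init e.1))
    (fun e => cl (Γ.term e.1)) (fun e => cl (Γ.lab e.1)) S).card := Finset.card_map _
  rw [← hAc]
  have hmA : ∀ e ∈ A, (cl (Γ.init e) ∈ S ∧ cl (Γ.term e) ∈ S ∧ cl (Γ.lab e) ∈ S) ∧
      ¬ (cl (Γ.init e) = cl (Γ.lab e) ∧ cl (Γ.term e) = cl (Γ.lab e)) := by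
    intro e he
    obtain ⟨e', he', rfl⟩ := Finset.mem_map.1 he
    exact ⟨(Finset.mem_filter.1 he').2, e'.2⟩
  have hmU : ∀ v, v ∈ U ↔ cl v ∈ S := fun v => by simp [hU]
  have hAD : A ⊆ D := by
    intro e he
    obtain ⟨⟨h1, h2, _⟩, _⟩ := hmA e he
    exact Finset.mem_filter.2 ⟨Finset.mem_univ _, (hmU _).2 h1, (hmU _).2 h2⟩
  rcases U.eq_empty_or_nonempty with hE | hN
  · have h1 : A = ∅ := by
      rw [Finset.eq_empty_iff_forall_notMem]
      intro e he
      have h2 := (hmU _).2 (hmA e he).1.1
      rw [hE] at h2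
      exact absurd h2 (Finset.notMem_empty _)
    rw [h1, Finset.card_empty]
    exact hS.card_pos
  · have h1 : D.card < U.card := tree_card Γ U hN
    have h2 : A.card + ∑ u ∈ S, (B u).card ≤ D.card := by
      have h3 : (S : Set I).PairwiseDisjoint B := by
        intro u _ v _ huv
        refine Finset.disjoint_left.2 fun e he he' => huv ?_
        exact ((Finset.mem_filter.1 he).2.1).symm.trans (Finset.mem_filter.1 he').2.1
      have h4 : Disjoint A (S.biUnion B) := by
        refine Finset.disjoint_left.2 fun e he he' => ?_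
        obtain ⟨u, _, hu⟩ := Finset.mem_biUnion.1 he'
        obtain ⟨_, h5, h6, h7⟩ := Finset.mem_filter.1 hu
        exact (hmA e he).2 ⟨h5.trans h7.symm, h6.trans h7.symm⟩
      rw [← Finset.card_biUnion h3, ← Finset.card_union_of_disjoint h4]
      refine Finset.card_le_card (Finset.union_subset hAD ?_)
      intro e he
      obtain ⟨u, hu1, hu⟩ := Finset.mem_biUnion.1 he
      obtain ⟨_, h5, h6, _⟩ := Finset.mem_filter.1 hu
      exact Finset.mem_filter.2 ⟨Finset.mem_univ _, (hmU _).2 (h5 ▸ hu1), (hmU _).2 (h6 ▸ hu1)⟩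
    have h3 : U.card ≤ ∑ u ∈ S, (B u).card + S.card := by
      have h4 : U.card = ∑ u ∈ S, (U.filter fun v => cl v = u).card :=
        Finset.card_eq_sum_card_fiberwise fun v hv => (hmU v).1 hv
      rw [h4, Finset.card_eq_sum_ones S, ← Finset.sum_add_distrib]
      refine Finset.sum_le_sum fun u _ => ?_
      refine (Finset.card_le_card ?_).trans (h u)
      exact Finset.filter_subset_filter _ (Finset.subset_univ _)
    omega

end Pool.Agent.InjLI
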