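import Pool.Agent.Lib.InjLI.Defs2

/-!
# Mrg : the combinatorics of the induction

(helper18, problem MP_cf50d6_gt, paper MP_cf50d6_gt_paper18rel.md)

Finite combinatorics. `EU i j k U` = edges `e` with `i e, j e, k e ∈ U`.
* `sparse_class`: for a nonempty `U` in the class `u` the edges inside `U` correspond to edges inside the image of `U` in `I` (`Finset.map` with `Function.Embedding.subtype`): injective map
  `e ↦ e.1`, same cardinality of `U`.
* `cases_B`: suppose `TwoOut` fails for `U`: nonempty, all elements are labels, and the sum of the two cardinalities is at most 1. The edges with label in `U` are `U.card` many (`hk`). If the sum is 0,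
  they are all inside `U`: contradiction to `hS`. So it is 1: exactly one edge `e₀` with label in `U` has exactly one end outside `U`, the others are inside `U`: `(EU U).card + 1 = U.card`. If
  `2 ≤ U.card`: `V = U` (`U ≠ univ` since an end is outside). If `U = {k e₀}`: the other end of `e₀` is `k e₀`; `V = {i e₀, j e₀} ∋ k e₀`, `V.card = 2`, `e₀ ∈ EU V`, so `(EU V).card = 1` by
  `hS`. If `V ≠ univ`: second case; if `V = univ` then all edges are in `EU V`, so every edge is `e₀`: third case.
* `card_clV`: `card (Option {b // b ∉ V}) = card I - V.card + 1`. `card_cls`: the class of `none` is `V`, `V ≠ univ`; the class of `some b` has one element, and `2 ≤ V.card ≤ card I`.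
* `inj_out`: let `e, e'` be outer edges with `cl (k e) = cl (k e')`, `cl = clV V`. If it is `some`, `k e = k e'`. If it is `none`: `k e, k e' ∈ V`, both edges are not in `EU V`; if `e ≠ e'` the set
  `EU V ∪ {e, e'}` has `V.card + 1` elements with labels in `V`, contradiction to `hk`. (An edge in `EU V` is not outer.)
* `sparse_out`: let `U'` be nonempty in `Option {b // b ∉ V}`. If `none ∉ U'`: the outer edges inside `U'` are mapped injectively (`e ↦ e.1`) into the edges inside
  `U = {b | clV V b ∈ U'}`, `U.card = U'.card`. If `none ∈ U'`: `U = {b | clV V b ∈ U'} ⊇ V`, `U.card = U'.card - 1 + V.card`; the outer edges inside `U'` are edges inside `U` not in `EU V`, so at most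
  `(EU U).card - (EU V).card ≤ U.card - 1 - (V.card - 1) = U'.card - 1`.
-/

set_option autoImplicit false

open scoped Classical

namespace Pool.Agent.InjLI

open Pool.Agent.LIA

universe u v

private theorem Mrg_mem_EU {I E : Type} [Fintype E] {i j k : E → I} {U : Finset I} {e : E} :
    e ∈ EU i j k U ↔ i e ∈ U ∧ j e ∈ U ∧ k e ∈ U := by
  unfold EU
  simp

private theorem Mrg_clV_mem {I : Type} {V : Finset I} {b : I} (h : b ∈ V) : clV V b = none := by
  unfold clV
  rw [dif_pos h]

private theorem Mrg_clV_not {I : Type} {V : Finset I} {b : I} (h : b ∉ V) :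
    clV V b = some ⟨b, h⟩ := by
  unfold clV
  rw [dif_neg h]

private theorem Mrg_clV_none {I : Type} {V : Finset I} {b : I} (h : clV V b = none) : b ∈ V := by
  by_contra h1
  rw [Mrg_clV_not h1] at h
  exact Option.some_ne_none _ h

private theorem Mrg_clV_inj {I : Type} {V : Finset I} {b b' : I} (hb : b ∉ V)
    (h : clV V b = clV V b') : b = b' := by
  by_cases hb' : b' ∈ V
  · rw [Mrg_clV_not hb, Mrg_clV_mem hb'] at h
    exact absurd h (Option.some_ne_none _)
  · rw [Mrg_clV_not hb, Mrg_clV_not hb'] at h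
    have h1 := Option.some.inj h
    exact congrArg Subtype.val h1

theorem sparse_class {I I' E : Type} [Fintype E] {i j k : E → I} (hS : Sparse i j k)
    (cl : I → I') (u : I') [Fintype (Inr cl i j k u)] :
    Sparse (iu cl i j k u) (ju cl i j k u) (ku cl i j k u) := by
  intro U hU
  have h1 := hS (U.map (Function.Embedding.subtype _)) hU.map
  rw [Finset.card_map] at h1
  refine lt_of_le_of_lt ?_ h1
  refine Finset.card_le_card_of_injOn (fun e => e.1) ?_ ?_
  · intro e he
    obtain ⟨h2, h3, h4⟩ := Mrg_mem_EU.1 he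
    refine Mrg_mem_EU.2 ⟨?_, ?_, ?_⟩
    · exact Finset.mem_map.2 ⟨_, h2, rfl⟩
    · exact Finset.mem_map.2 ⟨_, h3, rfl⟩
    · exact Finset.mem_map.2 ⟨_, h4, rfl⟩
  · intro e _ e' _ h
    exact Subtype.ext h

/-- counting the edges with labels in `U` -/
private theorem Mrg_count {I E : Type} [Fintype E] {i j k : E → I} {U : Finset I}
    (hlab : ∀ b ∈ U, ∃ e, k e = b) {A B : Finset E}
    (hA : ∀ e, e ∈ A ↔ k e ∈ U ∧ i e ∉ U) (hB : ∀ e, e ∈ B ↔ k e ∈ U ∧ j e ∉ U) :
    U.card ≤ (EU i j k U).card + (A.card + B.card) := by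
  have h1 : U ⊆ (EU i j k U ∪ (A ∪ B)).image k := by
    intro b hb
    obtain ⟨e, he⟩ := hlab b hb
    refine Finset.mem_image.2 ⟨e, ?_, he⟩
    have hke : k e ∈ U := he ▸ hb
    by_cases h2 : i e ∈ U
    · by_cases h3 : j e ∈ U
      · exact Finset.mem_union_left _ (Mrg_mem_EU.2 ⟨h2, h3, hke⟩)
      · exact Finset.mem_union_right _ (Finset.mem_union_right _ ((hB e).2 ⟨hke, h3⟩))
    · exact Finset.mem_union_right _ (Finset.mem_union_left _ ((hA e).2 ⟨hke, h2⟩))
  calc U.card ≤ ((EU i j k U ∪ (A ∪ B)).image k).card := Finset.card_le_card h1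
    _ ≤ (EU i j k U ∪ (A ∪ B)).card := Finset.card_image_le
    _ ≤ (EU i j k U).card + (A ∪ B).card := Finset.card_union_le _ _
    _ ≤ (EU i j k U).card + (A.card + B.card) :=
      Nat.add_le_add_left (Finset.card_union_le _ _) _

/-- the case of a single label -/
private theorem Mrg_single {I E : Type} [Fintype I] [Fintype E] {i j k : E → I}
    (hS : Sparse i j k) (e₀ : E) (hij : i e₀ ≠ j e₀) (hk0 : k e₀ = i e₀ ∨ k e₀ = j e₀) :
    (∃ V : Finset I, 2 ≤ V.card ∧ V ≠ Finset.univ ∧ (EU i j k V).card + 1 = V.card) ∨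
    ∃ e₀, (∀ e, e = e₀) ∧ i e₀ ≠ j e₀ ∧ (k e₀ = i e₀ ∨ k e₀ = j e₀) := by
  obtain ⟨V, hV⟩ : ∃ V : Finset I, V = {i e₀, j e₀} := ⟨_, rfl⟩
  have hi : i e₀ ∈ V := by rw [hV]; exact Finset.mem_insert_self _ _
  have hj : j e₀ ∈ V := by
    rw [hV]; exact Finset.mem_insert_of_mem (Finset.mem_singleton_self _)
  have hkV : k e₀ ∈ V := by
    rcases hk0 with h | h
    · rw [h]; exact hi
    · rw [h]; exact hj
  have hc : V.card = 2 := by rw [hV]; exact Finset.card_pair hij
  have h1 := hS V ⟨_, hi⟩
  have h2 : 0 < (EU i j k V).card :=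
    Finset.card_pos.2 ⟨e₀, Mrg_mem_EU.2 ⟨hi, hj, hkV⟩⟩
  have h3 : (EU i j k V).card = 1 := by omega
  by_cases hu : V = Finset.univ
  · right
    refine ⟨e₀, ?_, hij, hk0⟩
    intro e
    have h4 : ∀ b, b ∈ V := fun b => by rw [hu]; exact Finset.mem_univ b
    have he : e ∈ EU i j k V := Mrg_mem_EU.2 ⟨h4 _, h4 _, h4 _⟩
    have he0 : e₀ ∈ EU i j k V := Mrg_mem_EU.2 ⟨h4 _, h4 _, h4 _⟩
    exact Finset.card_le_one.1 h3.le e he e₀ he0
  · left
    exact ⟨V, hc.ge, hu, by omega⟩

theorem cases_B {I E : Type} [Fintype I] [Fintype E] {i j k : E → I}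
    (hk : Function.Injective k) (hS : Sparse i j k) :
    TwoOut i j k ∨
    (∃ V : Finset I, 2 ≤ V.card ∧ V ≠ Finset.univ ∧ (EU i j k V).card + 1 = V.card) ∨
    ∃ e₀, (∀ e, e = e₀) ∧ i e₀ ≠ j e₀ ∧ (k e₀ = i e₀ ∨ k e₀ = j e₀) := by
  by_cases hT : TwoOut i j k
  · left; exact hT
  right
  unfold TwoOut at hT
  push Not at hT
  obtain ⟨U, hU, hlab, hlt⟩ := hT
  obtain ⟨A, hAdef⟩ : ∃ A : Finset E, A = Finset.univ.filter fun e => k e ∈ U ∧ i e ∉ U :=
    ⟨_, rfl⟩
  obtain ⟨B, hBdef⟩ : ∃ B : Finset E, B = Finset.univ.filter fun e => k e ∈ U ∧ j e ∉ U :=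
    ⟨_, rfl⟩
  rw [← hAdef, ← hBdef] at hlt
  have hA : ∀ e, e ∈ A ↔ k e ∈ U ∧ i e ∉ U := by
    intro e; rw [hAdef]; simp
  have hB : ∀ e, e ∈ B ↔ k e ∈ U ∧ j e ∉ U := by
    intro e; rw [hBdef]; simp
  have h1 := Mrg_count (i := i) (j := j) hlab hA hB
  have h2 := hS U hU
  have h3 : A.card + B.card = 1 := by omega
  have h4 : (EU i j k U).card + 1 = U.card := by omega
  by_cases hc : 2 ≤ U.card
  · left
    refine ⟨U, hc, ?_, h4⟩
    rintro rfl
    have h5 : A = ∅ := by
      rw [Finset.eq_empty_iff_forall_notMem]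
      intro e he
      exact ((hA e).1 he).2 (Finset.mem_univ _)
    have h6 : B = ∅ := by
      rw [Finset.eq_empty_iff_forall_notMem]
      intro e he
      exact ((hB e).1 he).2 (Finset.mem_univ _)
    rw [h5, h6] at h3
    simp at h3
  · have hU1 : U.card = 1 := by
      have := hU.card_pos
      omega
    obtain ⟨b, rfl⟩ := Finset.card_eq_one.1 hU1
    obtain ⟨e₀, he₀⟩ := hlab b (Finset.mem_singleton_self b)
    simp only [Finset.mem_singleton] at hA hB
    have huniq : ∀ e, k e = b → e = e₀ := fun e he => hk (he.trans he₀.symm)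
    have key : (i e₀ ≠ b ∧ j e₀ = b) ∨ (i e₀ = b ∧ j e₀ ≠ b) := by
      by_cases hi : i e₀ = b
      · by_cases hj : j e₀ = b
        · exfalso
          have h5 : A = ∅ := by
            rw [Finset.eq_empty_iff_forall_notMem]
            intro e he
            have := (hA e).1 he
            rw [huniq e this.1] at this
            exact this.2 hi
          have h6 : B = ∅ := by
            rw [Finset.eq_empty_iff_forall_notMem]
            intro e he
            have := (hB e).1 he
            rw [huniq e this.1] at this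
            exact this.2 hj
          rw [h5, h6] at h3
          simp at h3
        · exact Or.inr ⟨hi, hj⟩
      · by_cases hj : j e₀ = b
        · exact Or.inl ⟨hi, hj⟩
        · exfalso
          have h5 : 0 < A.card := Finset.card_pos.2 ⟨e₀, (hA e₀).2 ⟨he₀, hi⟩⟩
          have h6 : 0 < B.card := Finset.card_pos.2 ⟨e₀, (hB e₀).2 ⟨he₀, hj⟩⟩
          omega
    rcases key with ⟨hi, hj⟩ | ⟨hi, hj⟩
    · exact Mrg_single hS e₀ (by rw [hj]; exact hi) (Or.inr (he₀.trans hj.symm))
    · exact Mrg_single hS e₀ (by rw [hi]; exact fun h => hj h.symm) (Or.inl (he₀.trans hi.symm))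

theorem card_clV {I : Type} [Fintype I] {V : Finset I} (hV : 2 ≤ V.card) :
    Fintype.card (Option {b : I // b ∉ V}) < Fintype.card I := by
  rw [Fintype.card_option]
  have h1 : Fintype.card {b : I // b ∉ V} = Fintype.card I - V.card := by
    rw [Fintype.card_subtype_compl, Fintype.card_coe]
  have h2 : V.card ≤ Fintype.card I := Finset.card_le_univ V
  omega

theorem card_cls {I : Type} [Fintype I] {V : Finset I} (hV : 2 ≤ V.card)
    (hV' : V ≠ Finset.univ) (u : Option {b : I // b ∉ V}) [Fintype (Cls (clV V) u)] :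
    Fintype.card (Cls (clV V) u) < Fintype.card I := by
  rcases u with _ | b
  · obtain ⟨b, hb⟩ : ∃ b, b ∉ V := by
      by_contra h
      push Not at h
      exact hV' (Finset.eq_univ_iff_forall.2 h)
    refine Fintype.card_subtype_lt (x := b) ?_
    rw [Mrg_clV_not hb]
    exact Option.some_ne_none _
  · obtain ⟨c, hc⟩ : V.Nonempty := Finset.card_pos.1 (by omega)
    refine Fintype.card_subtype_lt (x := c) ?_
    rw [Mrg_clV_mem hc]
    exact fun h => Option.some_ne_none _ h.symm

private theorem Mrg_out {I E : Type} [Fintype E] {i j k : E → I} {V : Finset I}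
    (e : Out (clV V) i j k) : e.1 ∉ EU i j k V := by
  intro h
  obtain ⟨h1, h2, h3⟩ := Mrg_mem_EU.1 h
  apply e.2
  rw [Mrg_clV_mem h1, Mrg_clV_mem h2, Mrg_clV_mem h3]
  exact ⟨rfl, rfl⟩

theorem inj_out {I E : Type} [Fintype E] {i j k : E → I} (hk : Function.Injective k)
    {V : Finset I} (hE : (EU i j k V).card + 1 = V.card) :
    Function.Injective fun e : Out (clV V) i j k => clV V (k e.1) := by
  intro e e' h
  simp only at h
  by_cases h1 : k e.1 ∈ V
  · have h2 : k e'.1 ∈ V := by
      apply Mrg_clV_none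
      rw [← h, Mrg_clV_mem h1]
    by_contra hne
    have hne' : e.1 ≠ e'.1 := fun h3 => hne (Subtype.ext h3)
    have h3 : (insert e.1 (insert e'.1 (EU i j k V))).card ≤ V.card := by
      refine Finset.card_le_card_of_injOn k ?_ hk.injOn
      intro x hx
      rcases Finset.mem_insert.1 hx with rfl | hx
      · exact h1
      rcases Finset.mem_insert.1 hx with rfl | hx
      · exact h2
      · exact (Mrg_mem_EU.1 hx).2.2
    rw [Finset.card_insert_of_notMem, Finset.card_insert_of_notMem (Mrg_out e')] at h3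
    · omega
    · intro hx
      rcases Finset.mem_insert.1 hx with hx | hx
      · exact hne' hx
      · exact Mrg_out e hx
  · exact Subtype.ext (hk (Mrg_clV_inj h1 h))

theorem sparse_out {I E : Type} [Fintype I] [Fintype E] {i j k : E → I} (hS : Sparse i j k)
    {V : Finset I} (hE : (EU i j k V).card + 1 = V.card) [Fintype (Out (clV V) i j k)] :
    Sparse (fun e : Out (clV V) i j k => clV V (i e.1)) (fun e => clV V (j e.1))
      fun e => clV V (k e.1) := by
  intro U' hU'
  obtain ⟨U, hUdef⟩ : ∃ U : Finset I, U = Finset.univ.filter fun b => clV V b ∈ U' := ⟨_, rfl⟩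
  have hU : ∀ b, b ∈ U ↔ clV V b ∈ U' := by
    intro b; rw [hUdef]; simp
  have hsub : ∀ e : Out (clV V) i j k,
      e ∈ EU (fun e : Out (clV V) i j k => clV V (i e.1)) (fun e => clV V (j e.1))
        (fun e => clV V (k e.1)) U' → e.1 ∈ EU i j k U := by
    intro e he
    obtain ⟨h1, h2, h3⟩ := Mrg_mem_EU.1 he
    exact Mrg_mem_EU.2 ⟨(hU _).2 h1, (hU _).2 h2, (hU _).2 h3⟩
  by_cases hn : none ∈ U'
  · have hVU : V ⊆ U := by
      intro b hb
      rw [hU, Mrg_clV_mem hb]
      exact hn
    have hEV : EU i j k V ⊆ EU i j k U := by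
      intro e he
      obtain ⟨h1, h2, h3⟩ := Mrg_mem_EU.1 he
      exact Mrg_mem_EU.2 ⟨hVU h1, hVU h2, hVU h3⟩
    have h1 : (EU (fun e : Out (clV V) i j k => clV V (i e.1)) (fun e => clV V (j e.1))
        (fun e => clV V (k e.1)) U').card ≤ (EU i j k U \ EU i j k V).card := by
      refine Finset.card_le_card_of_injOn (fun e => e.1) ?_ ?_
      · intro e he
        exact Finset.mem_sdiff.2 ⟨hsub e he, Mrg_out e⟩
      · intro e _ e' _ h
        exact Subtype.ext h
    have h2 := Finset.card_sdiff_add_card_eq_card hEV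
    have h3 := Finset.card_sdiff_add_card_eq_card hVU
    have h4 : (U \ V).card ≤ (U'.erase none).card := by
      refine Finset.card_le_card_of_injOn (fun b => clV V b) ?_ ?_
      · intro b hb
        obtain ⟨h5, h6⟩ := Finset.mem_sdiff.1 hb
        refine Finset.mem_erase.2 ⟨?_, (hU b).1 h5⟩
        beta_reduce
        rw [Mrg_clV_not h6]
        exact Option.some_ne_none _
      · intro b hb b' _ h
        exact Mrg_clV_inj (Finset.mem_sdiff.1 hb).2 h
    have h5 := Finset.card_erase_add_one hn
    have h6 : U.Nonempty := by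
      obtain ⟨c, hc⟩ : V.Nonempty := Finset.card_pos.1 (by omega)
      exact ⟨c, hVU hc⟩
    have h7 := hS U h6
    omega
  · have h1 : (EU (fun e : Out (clV V) i j k => clV V (i e.1)) (fun e => clV V (j e.1))
        (fun e => clV V (k e.1)) U').card ≤ (EU i j k U).card := by
      refine Finset.card_le_card_of_injOn (fun e => e.1) ?_ ?_
      · intro e he
        exact hsub e he
      · intro e _ e' _ h
        exact Subtype.ext h
    have h2 : U.card ≤ U'.card := by
      refine Finset.card_le_card_of_injOn (fun b => clV V b) ?_ ?_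
      · intro b hb
        exact (hU b).1 hb
      · intro b hb b' _ h
        have h5 : b ∉ V := by
          intro h6
          have h7 := (hU b).1 hb
          rw [Mrg_clV_mem h6] at h7
          exact hn h7
        exact Mrg_clV_inj h5 h
    have h3 : U.Nonempty := by
      obtain ⟨x, hx⟩ := hU'
      rcases x with _ | b
      · exact absurd hx hn
      · refine ⟨b.1, (hU _).2 ?_⟩
        rw [Mrg_clV_not b.2]
        exact hx
    have h4 := hS U h3
    omega

end Pool.Agent.InjLI
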