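import Pool.Agent.Lib.InjLI.QuoC

/-!
# Trs : quotients in two steps

(helper18, problem MP_cf50d6_gt, paper MP_cf50d6_gt_paper18rel.md)

Write `Q u = Qc cl i j k a w c u`. 
* `Θ u : Q u →* G` exists by the universal property of the class group (`(isCol_quot _).univ` for `φ b = θ b.1`, the inner relators hold in `G` by `hcol.rel`): `Θ u (qh _ b h) = θ b.1 h`; so
  `Θ (cl b) (emb b h) = θ b h`.
* `rel`: `Monoid.CoprodI.lift Θ (relB (emb ..) .. e) = θ (a e) θ (w e) (θ (c e))⁻¹ (θ (w e))⁻¹ = 1` by `hcol.rel e.1` (`Monoid.CoprodI.lift_of`, unfold `relB`).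
* `gen`: `(θ b).range ≤ (Θ (cl b)).range`.
* `univ`: let `φ u : Q u →* K` satisfy the outer relators. `ψ b := (φ (cl b)).comp (emb b)` satisfies all relators: an outer one by hypothesis; an edge `e` inside the class `u`
  (`cl (i e) = u` etc., after rewriting `u = cl (k e)`; take `u := cl (k e)`): the relator `ru u ⟨e, _⟩` is 1 in `Q u`; the embeddings of `a e`, `w e`, `c e` are `qh _ ⟨i e, _⟩ (a e)` and so on (for `i e` the
  class is `cl (i e)`, equal but not syntactically equal to `u`: private lemma: for `b` and `h : cl b = u`, `φ (cl b) (emb b x) = φ u (qh (ru .. u) ⟨b, h⟩ x)`, by `subst`). So `hcol.univ`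
  gives `Φ : G →* K` with `Φ (θ b h) = φ (cl b) (emb b h)`, and `Φ (Θ u x) = φ u x` for all `x : Q u`: both are homomorphisms in `x` which agree on `qh _ b h` (private lemma above), and these generate
  `Q u` (`(isCol_quot _).gen`).
-/

set_option autoImplicit false

open scoped Classical

namespace Pool.Agent.InjLI

open Pool.Agent.LIA

universe u v

private theorem lift_relB {I E : Type} {H : I → Type u} [∀ b, Group (H b)] {i j k : E → I}
    (a : ∀ e, H (i e)) (w : ∀ e, H (k e)) (c : ∀ e, H (j e)) {K : Type*} [Group K]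
    (φ : ∀ b, H b →* K) (e : E) :
    Monoid.CoprodI.lift φ (relB a w c e) =
      φ _ (a e) * φ _ (w e) * (φ _ (c e))⁻¹ * (φ _ (w e))⁻¹ := by
  simp [relB]

private theorem emb_cast {I I' E : Type} {cl : I → I'} {i j k : E → I} {H : I → Type u}
    [∀ b, Group (H b)] {a : ∀ e, H (i e)} {w : ∀ e, H (k e)} {c : ∀ e, H (j e)} {K : Type u}
    [Group K] (φ : ∀ u : I', Qc cl i j k a w c u →* K) {b : I} {u : I'} (h : cl b = u) (x : H b) :
    φ (cl b) (emb cl i j k a w c b x) = φ u (qh (ru cl i j k a w c u) ⟨b, h⟩ x) := by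
  subst h
  rfl

private theorem inr_rel {I I' E : Type} {cl : I → I'} {i j k : E → I} {H : I → Type u}
    [∀ b, Group (H b)] {a : ∀ e, H (i e)} {w : ∀ e, H (k e)} {c : ∀ e, H (j e)} {K : Type u}
    [Group K] {u : I'} (φ : Qc cl i j k a w c u →* K) (e : Inr cl i j k u) :
    φ (qh (ru cl i j k a w c u) ⟨i e.1, e.2.1⟩ (a e.1)) *
      φ (qh (ru cl i j k a w c u) ⟨k e.1, e.2.2.2⟩ (w e.1)) *
      (φ (qh (ru cl i j k a w c u) ⟨j e.1, e.2.2.1⟩ (c e.1)))⁻¹ *
      (φ (qh (ru cl i j k a w c u) ⟨k e.1, e.2.2.2⟩ (w e.1)))⁻¹ = 1 := by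
  have h1 : Monoid.CoprodI.lift (fun b => φ.comp (qh (ru cl i j k a w c u) b))
      (ru cl i j k a w c u e) = 1 := by
    have h2 : Monoid.CoprodI.lift (fun b => φ.comp (qh (ru cl i j k a w c u) b)) =
        φ.comp (Monoid.CoprodI.lift (qh (ru cl i j k a w c u))) := by
      ext b x
      simp
    rw [h2, MonoidHom.comp_apply, (isCol_quot (ru cl i j k a w c u)).rel e, map_one]
  exact (lift_relB (H := fun b : Cls cl u => H b.1) (i := iu cl i j k u) (j := ju cl i j k u)
    (k := ku cl i j k u) (fun e => a e.1) (fun e => w e.1) (fun e => c e.1)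
    (fun b => φ.comp (qh (ru cl i j k a w c u) b)) e).symm.trans h1

theorem isCol_trans {I I' E : Type} (cl : I → I') {i j k : E → I} {H : I → Type u}
    [∀ b, Group (H b)] {a : ∀ e, H (i e)} {w : ∀ e, H (k e)} {c : ∀ e, H (j e)} {G : Type u}
    [Group G] {θ : ∀ b, H b →* G} (hcol : IsCol H (relB a w c) G θ) :
    ∃ Θ : ∀ u : I', Qc cl i j k a w c u →* G,
      IsCol (Qc cl i j k a w c)
        (relB (i := fun e : Out cl i j k => cl (i e.1)) (j := fun e => cl (j e.1))
          (k := fun e => cl (k e.1)) (fun e => emb cl i j k a w c (i e.1) (a e.1))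
          (fun e => emb cl i j k a w c (k e.1) (w e.1))
          fun e => emb cl i j k a w c (j e.1) (c e.1)) G Θ ∧
      ∀ b h, Θ (cl b) (emb cl i j k a w c b h) = θ b h := by
  have hex : ∀ u : I', ∃ Θ : Qc cl i j k a w c u →* G,
      ∀ b h, Θ (qh (ru cl i j k a w c u) b h) = θ b.1 h := by
    intro u
    apply (isCol_quot (ru cl i j k a w c u)).univ G _ (fun b => θ b.1)
    intro e
    have h1 := hcol.rel e.1
    rw [lift_relB] at h1
    unfold ru
    rw [lift_relB]
    exact h1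
  choose Θ hΘ using hex
  refine ⟨Θ, ⟨?_, ?_, ?_⟩, fun b h => hΘ (cl b) ⟨b, rfl⟩ h⟩
  · intro e
    rw [lift_relB]
    have h1 := hcol.rel e.1
    rw [lift_relB] at h1
    have h2 : ∀ b h, Θ (cl b) (emb cl i j k a w c b h) = θ b h :=
      fun b h => hΘ (cl b) ⟨b, rfl⟩ h
    rw [h2, h2, h2]
    exact h1
  · rw [eq_top_iff, ← hcol.gen]
    apply iSup_le
    rintro b _ ⟨h, rfl⟩
    exact Subgroup.mem_iSup_of_mem (cl b) ⟨emb cl i j k a w c b h, hΘ (cl b) ⟨b, rfl⟩ h⟩
  · intro K _ φ hφ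
    obtain ⟨Φ, hΦ⟩ := hcol.univ K _ (fun b => (φ (cl b)).comp (emb cl i j k a w c b)) (by
      intro e
      rw [lift_relB]
      by_cases he : cl (i e) = cl (k e) ∧ cl (j e) = cl (k e)
      · simp only [MonoidHom.comp_apply]
        rw [emb_cast φ he.1, emb_cast φ he.2, emb_cast φ (rfl : cl (k e) = cl (k e))]
        exact inr_rel (φ (cl (k e))) ⟨e, he.1, he.2, rfl⟩
      · have h3 := hφ ⟨e, he⟩
        rw [lift_relB] at h3
        exact h3)
    refine ⟨Φ, fun u x => ?_⟩
    have h5 : Set.EqOn (Φ.comp (Θ u)) (φ u) (⊤ : Subgroup (Qc cl i j k a w c u)) := by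
      have h6 : (⊤ : Subgroup (Qc cl i j k a w c u)) ≤ (Φ.comp (Θ u)).eqLocus (φ u) := by
        rw [← (isCol_quot (ru cl i j k a w c u)).gen]
        apply iSup_le
        rintro ⟨b, hb⟩ _ ⟨h, rfl⟩
        show Φ (Θ u (qh (ru cl i j k a w c u) ⟨b, hb⟩ h)) = φ u (qh (ru cl i j k a w c u) ⟨b, hb⟩ h)
        rw [hΘ, hΦ, ← emb_cast φ hb]
        rfl
      exact fun y hy => h6 hy
    exact h5 (Subgroup.mem_top x)

end Pool.Agent.InjLI
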