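import Pool.Agent.Lib.InjLI.Tw
import Pool.Agent.Lib.InjLI.ColA
import Pool.Agent.Lib.InjLI.QuoC
import Pool.Agent.Lib.InjLI.BH

/-!
# Two : two blocks and one relator (assembly)

(helper18, problem MP_cf50d6_gt, paper MP_cf50d6_gt_paper18rel.md)

There is only one edge `e`. There are `p : H (i e)`, `q : H (j e)`, both `≠ 1`, such that for every family `φ` of homomorphisms to a group `K`:
`Monoid.CoprodI.lift φ (relB a w c e) = 1 ↔ φ (i e) p = φ (j e) q`. If `k e = i e`: `p = w⁻¹ a w`, `q = c`; if `k e = j e`: `p = a`, `q = w c w⁻¹` (private lemma first for `H (i e)`, with the equation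
`k e = i e` eliminated by `cases`/`subst` after generalizing `i e`, `j e`, `k e`; for instance state the private lemma for `x y z : I`, `a : H x`, `w : H z`, `c : H y`, `z = x ∨ z = y`).
Words: `m e = 1`, `a' e = ![(⟨i e, p⟩, true), (⟨j e, q⟩, false)]` (for all edges: `he` says that every edge is `e`), `alt` by `i e ≠ j e`. `isCol_congr`: `IsCol H (relA a') G θ`
(`sg`, `List.ofFn_succ`). Signs: `exists_signs_all` with `y b` = `p` at `i e`, `q` at `j e`, `t = true` for all `b`: `s ⟨i e, p⟩ = true`, `s ⟨j e, q⟩ = true`. Corner 0: `prv = (q, false)`,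
`nxt = (p, true)`: Up; corner 1: `prv = (p, true)`, `nxt = (q, false)`: Dn. `curv_of_forests` with `ch e = 0`: a nonempty `S` which contains both blocks `i e ≠ j e` has `2 ≤ S.card`, and there is
only one chosen corner and only one Dn corner. `colA` with `O = Unit`.
-/

set_option autoImplicit false

open scoped Classical

namespace Pool.Agent.InjLI

open Pool.Agent.LIA

universe u v

private theorem twoWord {I : Type} {H : I → Type u} [∀ b, Group (H b)] {x y z : I} (a : H x)
    (w : H z) (c : H y) (ha : a ≠ 1) (hc : c ≠ 1) (h : z = x ∨ z = y) :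
    ∃ (p : H x) (q : H y), p ≠ 1 ∧ q ≠ 1 ∧ ∀ (K : Type u) (_ : Group K) (φ : ∀ b, H b →* K),
      (Monoid.CoprodI.lift φ (Monoid.CoprodI.of a * Monoid.CoprodI.of w *
        (Monoid.CoprodI.of c)⁻¹ * (Monoid.CoprodI.of w)⁻¹) = 1 ↔ φ x p = φ y q) := by
  rcases h with rfl | rfl
  · refine ⟨w⁻¹ * a * w, c, ?_, hc, ?_⟩
    · intro h
      apply ha
      have h2 : a = w * (w⁻¹ * a * w) * w⁻¹ := by group
      rw [h2, h]
      group
    · intro K _ φ
      simp only [map_mul, map_inv, Monoid.CoprodI.lift_of]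
      constructor
      · intro h
        have h2 : φ z a * φ z w = φ z w * φ y c := by
          rw [mul_inv_eq_one, mul_inv_eq_iff_eq_mul] at h
          exact h
        rw [mul_assoc, h2, inv_mul_cancel_left]
      · intro h
        rw [← h]
        group
  · refine ⟨a, w * c * w⁻¹, ha, ?_, ?_⟩
    · intro h
      apply hc
      have h2 : c = w⁻¹ * (w * c * w⁻¹) * w := by group
      rw [h2, h]
      group
    · intro K _ φ
      simp only [map_mul, map_inv, Monoid.CoprodI.lift_of]
      constructor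
      · intro h
        rw [mul_inv_eq_one, mul_inv_eq_iff_eq_mul] at h
        rw [← h]
        group
      · intro h
        rw [h]
        group

theorem caseTwo {I E : Type} [Fintype I] [Fintype E] {H : I → Type u} [∀ b, Group (H b)]
    (hH : ∀ b, LocallyIndicable (H b)) {i j k : E → I} {e₀ : E} (he : ∀ e, e = e₀)
    (h1 : i e₀ ≠ j e₀) (h2 : k e₀ = i e₀ ∨ k e₀ = j e₀) {a : ∀ e, H (i e)} {w : ∀ e, H (k e)}
    {c : ∀ e, H (j e)} (ha : ∀ e, a e ≠ 1) (hc : ∀ e, c e ≠ 1) {G : Type u} [Group G]
    {θ : ∀ b, H b →* G} (hcol : IsCol H (relB a w c) G θ) :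
    LocallyIndicable G ∧ ∀ b, Function.Injective (θ b) := by
  choose p q hp hq hpq using fun e => twoWord (a e) (w e) (c e) (ha e) (hc e)
    (by rw [he e]; exact h2)
  have hij : ∀ e, i e ≠ j e := fun e => by rw [he e]; exact h1
  let m : E → ℕ := fun _ => 1
  let a' : ∀ e, Fin (m e + 1) → (Σ b, H b) × Bool := fun e =>
    ![((⟨i e, p e⟩ : Σ b, H b), true), ((⟨j e, q e⟩ : Σ b, H b), false)]
  have ha0 : ∀ e, a' e 0 = ((⟨i e, p e⟩ : Σ b, H b), true) := fun e => rfl
  have ha1 : ∀ e, a' e 1 = ((⟨j e, q e⟩ : Σ b, H b), false) := fun e => rfl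
  have alt : ∀ e c, (a' e c).1.1 ≠ (a' e (c + 1)).1.1 := by
    intro e c
    have : c = 0 ∨ c = 1 := by
      have h := c.2
      rcases c with ⟨c, hc⟩
      have : c = 0 ∨ c = 1 := by
        have h3 : m e = 1 := rfl
        omega
      rcases this with rfl | rfl
      · exact Or.inl rfl
      · exact Or.inr rfl
    rcases this with rfl | rfl
    · exact hij e
    · have h3 : (1 + 1 : Fin (m e + 1)) = 0 := by
        show (1 + 1 : Fin 2) = 0
        decide
      rw [h3]
      exact fun h => hij e h.symm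
  have hcol' : IsCol H (relA a') G θ := by
    refine isCol_congr ?_ hcol
    intro K _ φ
    refine forall_congr' fun e => ?_
    have e1 : Monoid.CoprodI.lift φ (relB a w c e) = 1 ↔ φ (i e) (p e) = φ (j e) (q e) :=
      hpq e K _ φ
    have e2 : Monoid.CoprodI.lift φ (relA a' e) = φ (i e) (p e) * (φ (j e) (q e))⁻¹ := by
      have e3 : relA a' e = Monoid.CoprodI.of (p e) * (Monoid.CoprodI.of (q e))⁻¹ := by
        show (List.ofFn fun c : Fin 2 =>
          sg (Monoid.CoprodI.of (a' e c).1.2) (a' e c).2).prod = _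
        rw [List.ofFn_succ, List.ofFn_succ, List.ofFn_zero, List.prod_cons, List.prod_cons,
          List.prod_nil, mul_one]
        rfl
      rw [e3]
      simp only [map_mul, map_inv, Monoid.CoprodI.lift_of]
    rw [e1, e2, mul_inv_eq_one]
  let y : ∀ b, H b := fun b =>
    if h : i e₀ = b then h ▸ p e₀ else if h : j e₀ = b then h ▸ q e₀ else 1
  have hy1 : y (i e₀) = p e₀ := by
    show (if h : i e₀ = i e₀ then h ▸ p e₀ else _) = _
    rw [dif_pos rfl]
  have hy2 : y (j e₀) = q e₀ := by
    show (if h : i e₀ = j e₀ then h ▸ p e₀ else if h : j e₀ = j e₀ then h ▸ q e₀ else 1) = _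
    rw [dif_neg h1, dif_pos rfl]
  obtain ⟨s, hs1, hs2⟩ := exists_signs_all hH a' (by
    intro e c
    have : c = 0 ∨ c = 1 := by
      rcases c with ⟨c, hc⟩
      have : c = 0 ∨ c = 1 := by
        have h3 : m e = 1 := rfl
        omega
      rcases this with rfl | rfl
      · exact Or.inl rfl
      · exact Or.inr rfl
    rcases this with rfl | rfl
    · exact hp e
    · exact hq e) y (fun _ => true)
  have hsi : ∀ e, s ⟨i e, p e⟩ = true := by
    intro e
    rw [he e]
    have := hs2 (i e₀) ⟨e₀, 0, by rw [ha0, hy1]⟩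
    rwa [hy1] at this
  have hsj : ∀ e, s ⟨j e, q e⟩ = true := by
    intro e
    rw [he e]
    have := hs2 (j e₀) ⟨e₀, 1, by rw [ha1, hy2]⟩
    rwa [hy2] at this
  have hcard : ∀ S : Finset I, ∀ e, i e ∈ S → j e ∈ S → 2 ≤ S.card := by
    intro S e hi hj
    have h3 : ({i e, j e} : Finset I) ⊆ S := by
      intro b hb
      rcases Finset.mem_insert.1 hb with rfl | hb
      · exact hi
      · rw [Finset.mem_singleton.1 hb]; exact hj
    have h4 := Finset.card_le_card h3
    rwa [Finset.card_pair (hij e)] at h4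
  have hCv := (OW.mk Sigma.fst m a' alt).curv_of_forests s (fun _ => 0) (by
      intro e
      refine ⟨?_, ?_⟩
      · show true = s ⟨i e, p e⟩
        rw [hsi e]
      · show false = !s ⟨j e, q e⟩
        rw [hsj e]
        rfl) (by
      intro S hS
      by_cases hex : ∃ e, i e ∈ S ∧ j e ∈ S
      · obtain ⟨e, hi, hj⟩ := hex
        refine lt_of_le_of_lt ?_ (hcard S e hi hj)
        refine Finset.card_le_one.2 ?_
        intro e1 _ e2 _
        rw [he e1, he e2]
      · have : (Finset.univ.filter fun e : E =>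
            (OW.mk Sigma.fst m a' alt).cl ((OW.mk Sigma.fst m a' alt).nxt ⟨e, 0⟩).1 ∈ S ∧
            (OW.mk Sigma.fst m a' alt).cl ((OW.mk Sigma.fst m a' alt).prv ⟨e, 0⟩).1 ∈ S) = ∅ := by
          refine Finset.filter_eq_empty_iff.2 ?_
          intro e _ h3
          exact hex ⟨e, h3.1, h3.2⟩
        rw [this, Finset.card_empty]
        exact hS.card_pos) (by
      intro S hS
      have hform : ∀ κ : (OW.mk Sigma.fst m a' alt).Cor,
          (OW.mk Sigma.fst m a' alt).Dn κ s → κ = ⟨e₀, 1⟩ := by
        intro κ hκ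
        rcases κ with ⟨e, ⟨c, hc⟩⟩
        obtain rfl := he e
        have : c = 0 ∨ c = 1 := by
          have h3 : m e = 1 := rfl
          have h4 : c < m e + 1 := hc
          omega
        rcases this with rfl | rfl
        · exfalso
          have h3 : true = !s ⟨i e, p e⟩ := hκ.1
          rw [hsi e] at h3
          exact absurd h3 (by decide)
        · rfl
      by_cases hex : i e₀ ∈ S ∧ j e₀ ∈ S
      · refine lt_of_le_of_lt ?_ (hcard S e₀ hex.1 hex.2)
        refine Finset.card_le_one.2 ?_
        intro κ1 h3 κ2 h4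
        rw [hform κ1 (Finset.mem_filter.1 h3).2.1, hform κ2 (Finset.mem_filter.1 h4).2.1]
      · have : (Finset.univ.filter fun κ : (OW.mk Sigma.fst m a' alt).Cor =>
            (OW.mk Sigma.fst m a' alt).Dn κ s ∧
            (OW.mk Sigma.fst m a' alt).cl ((OW.mk Sigma.fst m a' alt).nxt κ).1 ∈ S ∧
            (OW.mk Sigma.fst m a' alt).cl ((OW.mk Sigma.fst m a' alt).prv κ).1 ∈ S) = ∅ := by
          refine Finset.filter_eq_empty_iff.2 ?_
          intro κ _ h3
          obtain ⟨h4, h5, h6⟩ := h3
          rw [hform κ h4] at h5 h6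
          have h7 : (OW.mk Sigma.fst m a' alt).prv ⟨e₀, 1⟩ = a' e₀ 0 := by
            have h8 : (1 - 1 : Fin (m e₀ + 1)) = 0 := by
              show (1 - 1 : Fin 2) = 0
              decide
            show a' e₀ (1 - 1) = a' e₀ 0
            rw [h8]
          rw [h7] at h6
          exact hex ⟨h6, h5⟩
        rw [this, Finset.card_empty]
        exact hS.card_pos)
  exact colA hH alt (O := Unit) hCv (fun b _ _ => hs1 b) hcol'

end Pool.Agent.InjLI
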