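import Pool.Agent.Lib.InjLI.Fou
import Pool.Agent.Lib.InjLI.Two
import Pool.Agent.Lib.InjLI.Trs
import Pool.Agent.Lib.InjLI.Mrg

/-!
# ThmB : Theorem B (assembly)

(helper18, problem MP_cf50d6_gt, paper MP_cf50d6_gt_paper18rel.md)

Strong induction on `Fintype.card I` (for all `I E H i j k a w c G θ`). `cases_B`: first case `caseOne`, third case `caseTwo`. Second case, `V`; `cl := clV V`. For every `u` the class group
`Qc cl i j k a w c u` is the canonical quotient for the class (`isCol_quot`), `card_cls`, `sparse_class`, `ku` is injective (`hk`), the elements are nontrivial: by induction it is LI and the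
homomorphisms `qh (ru ..) b` are injective, so `emb b` is injective. `isCol_trans` gives `Θ`; for the outer system on `Option {b // b ∉ V}`: `card_clV`, `inj_out`, `sparse_out`, the elements `emb (a e)` and so on are
nontrivial: by induction `G` is LI and the `Θ u` are injective; `θ b = Θ (cl b) ∘ emb b` is injective. (`Fintype` instances of the subtypes: classical.)
-/

set_option autoImplicit false

open scoped Classical

namespace Pool.Agent.InjLI

open Pool.Agent.LIA

universe u v

private theorem thmB_aux (n : ℕ) : ∀ (I E : Type) (_ : Fintype I) (_ : Fintype E)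
    (H : I → Type u) (_ : ∀ b, Group (H b)) (_ : ∀ b, LocallyIndicable (H b)) (i j k : E → I)
    (_ : Function.Injective k) (_ : Sparse i j k) (a : ∀ e, H (i e)) (w : ∀ e, H (k e))
    (c : ∀ e, H (j e)) (_ : ∀ e, a e ≠ 1) (_ : ∀ e, w e ≠ 1) (_ : ∀ e, c e ≠ 1) (G : Type u)
    (_ : Group G) (θ : ∀ b, H b →* G) (_ : IsCol H (relB a w c) G θ), Fintype.card I = n →
    LocallyIndicable G ∧ ∀ b, Function.Injective (θ b) := by
  induction n using Nat.strong_induction_on with
  | _ n ih =>
    intro I E _ _ H _ hH i j k hk hS a w c ha hw hc G _ θ hcol hn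
    rcases cases_B hk hS with h1 | ⟨V, hV2, hVne, hE⟩ | ⟨e₀, he, hij, hk'⟩
    · exact caseOne hH hk h1 ha hw hc hcol
    · have hu : ∀ u, LocallyIndicable (Qc (clV V) i j k a w c u) ∧
          ∀ b, Function.Injective (qh (ru (clV V) i j k a w c u) b) := by
        intro u
        have hc1 : Fintype.card (Cls (clV V) u) < n := by
          rw [← hn]
          exact card_cls hV2 hVne u
        refine ih _ hc1 (Cls (clV V) u) (Inr (clV V) i j k u) _ inferInstance
          (fun b => H b.1) _ (fun b => hH b.1) (iu (clV V) i j k u) (ju (clV V) i j k u)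
          (ku (clV V) i j k u) ?_ (sparse_class hS (clV V) u) (fun e => a e.1) (fun e => w e.1)
          (fun e => c e.1) (fun e => ha e.1) (fun e => hw e.1) (fun e => hc e.1)
          (Qc (clV V) i j k a w c u) _ (qh (ru (clV V) i j k a w c u))
          (isCol_quot (ru (clV V) i j k a w c u)) rfl
        intro e e' h
        have h2 : k e.1 = k e'.1 := congrArg Subtype.val h
        exact Subtype.ext (hk h2)
      have hemb : ∀ b, Function.Injective (emb (clV V) i j k a w c b) :=
        fun b => (hu (clV V b)).2 ⟨b, rfl⟩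
      have hne : ∀ (b : I) (x : H b), x ≠ 1 → emb (clV V) i j k a w c b x ≠ 1 := by
        intro b x hx h
        apply hx
        apply hemb b
        rw [h, map_one]
      obtain ⟨Θ, hΘ, hΘe⟩ := isCol_trans (clV V) hcol
      have hc2 : Fintype.card (Option {b : I // b ∉ V}) < n := by
        rw [← hn]
        exact card_clV hV2
      have hout := ih _ hc2 (Option {b : I // b ∉ V}) (Out (clV V) i j k) _ inferInstance
        (Qc (clV V) i j k a w c) _ (fun u => (hu u).1) (fun e => clV V (i e.1))
        (fun e => clV V (j e.1)) (fun e => clV V (k e.1)) (inj_out hk hE) (sparse_out hS hE)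
        (fun e => emb (clV V) i j k a w c (i e.1) (a e.1))
        (fun e => emb (clV V) i j k a w c (k e.1) (w e.1))
        (fun e => emb (clV V) i j k a w c (j e.1) (c e.1))
        (fun e => hne _ _ (ha e.1)) (fun e => hne _ _ (hw e.1)) (fun e => hne _ _ (hc e.1))
        G _ Θ hΘ rfl
      refine ⟨hout.1, fun b x y hxy => ?_⟩
      rw [← hΘe, ← hΘe] at hxy
      exact hemb b (hout.2 (clV V b) hxy)
    · exact caseTwo hH he hij hk' ha hc hcol

theorem thmB {I E : Type} [Fintype I] [Fintype E] {H : I → Type u} [∀ b, Group (H b)]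
    (hH : ∀ b, LocallyIndicable (H b)) {i j k : E → I} (hk : Function.Injective k)
    (hS : Sparse i j k) {a : ∀ e, H (i e)} {w : ∀ e, H (k e)} {c : ∀ e, H (j e)}
    (ha : ∀ e, a e ≠ 1) (hw : ∀ e, w e ≠ 1) (hc : ∀ e, c e ≠ 1) {G : Type u} [Group G]
    {θ : ∀ b, H b →* G} (hcol : IsCol H (relB a w c) G θ) :
    LocallyIndicable G ∧ ∀ b, Function.Injective (θ b) := by
  exact thmB_aux (Fintype.card I) I E inferInstance inferInstance H _ hH i j k hk hS a w c ha hw hc G
    inferInstance θ hcol rfl

end Pool.Agent.InjLI
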