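import Pool.Agent.Lib.InjLI.FouS
import Pool.Agent.Lib.InjLI.BlkC
import Pool.Agent.Lib.InjLI.RelS
import Pool.Agent.Lib.InjLI.ThmB

/-!
# Comp : composition theorems for labelled oriented trees and graphs (assembly)

(helper18, problem MP_cf50d6_gt, paper MP_cf50d6_gt_paper18rel.md)

* `two_forests`: `isCol_blk` and `four_of_signs` with `t = σ`, `s x = σ x.1`, `pos_bx`; `hne` follows from the forest conditions for `S = {cl (k e)}`: if `cl (i e) = cl (k e)` for an outer edge `e` then for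
  `σ (cl (k e)) = true` the filter of `hA` contains `e`, for `false` the one of `hB`; the same for `j e`.
* `rel_inj`: `isCol_blk` and `thmB` (`sparse_blocks`; the generators are nontrivial: `of_ne_one`). `Γ.Grp` is `PresentedGroup (wrel Γ.init Γ.term Γ.lab)` by definition (`Γ.rels` and `wrel` have the same body).
-/

set_option autoImplicit false

open scoped Classical

namespace Pool.Agent.InjLI

open Pool.Agent.LIA

universe u v

theorem two_forests {V I E : Type} [Fintype I] [Fintype E] (cl : V → I) (i j k : E → V)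
    (hLI : ∀ u, LocallyIndicable (Blk cl i j k u)) (σ : I → Bool)
    (hA : ∀ S : Finset I, S.Nonempty → (Finset.univ.filter fun e : E =>
      ¬ (cl (i e) = cl (k e) ∧ cl (j e) = cl (k e)) ∧ cl (k e) ∈ S ∧
      (if σ (cl (k e)) then cl (i e) else cl (j e)) ∈ S).card < S.card)
    (hB : ∀ S : Finset I, S.Nonempty → (Finset.univ.filter fun e : E =>
      ¬ (cl (i e) = cl (k e) ∧ cl (j e) = cl (k e)) ∧ cl (k e) ∈ S ∧
      (if σ (cl (k e)) then cl (j e) else cl (i e)) ∈ S).card < S.card) :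
    LocallyIndicable (PresentedGroup (wrel i j k)) := by
  obtain ⟨Θ, hcol, -⟩ := isCol_blk cl i j k
  have key : ∀ (f : E → I) (S : Finset I), (Finset.univ.filter fun e : E =>
      ¬ (cl (i e) = cl (k e) ∧ cl (j e) = cl (k e)) ∧ cl (k e) ∈ S ∧ f e ∈ S).card < S.card →
      (Finset.univ.filter fun e : Out cl i j k => cl (k e.1) ∈ S ∧ f e.1 ∈ S).card < S.card := by
    intro f S hS
    refine lt_of_le_of_lt ?_ hS
    refine Finset.card_le_card_of_injOn (fun e => e.1) ?_ ?_
    · intro e he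
      rw [Finset.mem_coe, Finset.mem_filter] at he ⊢
      exact ⟨Finset.mem_univ _, e.2, he.2⟩
    · intro e _ e' _ h
      exact Subtype.ext h
  have hemp : ∀ (f : E → I) (e : Out cl i j k), (∀ S : Finset I, S.Nonempty →
      (Finset.univ.filter fun e : E =>
      ¬ (cl (i e) = cl (k e) ∧ cl (j e) = cl (k e)) ∧ cl (k e) ∈ S ∧ f e ∈ S).card < S.card) →
      f e.1 ≠ cl (k e.1) := by
    intro f e hf h
    have h1 := key f {cl (k e.1)} (hf {cl (k e.1)} (Finset.singleton_nonempty _))
    rw [Finset.card_singleton, Nat.lt_one_iff, Finset.card_eq_zero] at h1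
    have h3 : e ∈ (Finset.univ.filter fun e' : Out cl i j k =>
        cl (k e'.1) ∈ ({cl (k e.1)} : Finset I) ∧ f e'.1 ∈ ({cl (k e.1)} : Finset I)) := by
      rw [Finset.mem_filter]
      exact ⟨Finset.mem_univ _, Finset.mem_singleton_self _, Finset.mem_singleton.2 h⟩
    rw [h1] at h3
    exact absurd h3 (Finset.notMem_empty e)
  refine (four_of_signs (I := I) (E := Out cl i j k) (H := Blk cl i j k) hLI
    (i := fun e => cl (i e.1)) (j := fun e => cl (j e.1)) (k := fun e => cl (k e.1)) σ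
    (fun S hS => key (fun e => if σ (cl (k e)) then cl (i e) else cl (j e)) S (hA S hS))
    (fun S hS => key (fun e => if σ (cl (k e)) then cl (j e) else cl (i e)) S (hB S hS))
    (fun e => ?_) (s := fun x => σ x.1) (fun e => rfl) (fun b => pos_bx cl i j k σ b) hcol).1
  have h1 := hemp (fun e => if σ (cl (k e)) then cl (i e) else cl (j e)) e hA
  have h2 := hemp (fun e => if σ (cl (k e)) then cl (j e) else cl (i e)) e hB
  beta_reduce at h1 h2
  by_cases hσ : σ (cl (k e.1)) = true
  · rw [if_pos hσ] at h1 h2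
    exact ⟨h1, h2⟩
  · rw [if_neg hσ] at h1 h2
    exact ⟨h2, h1⟩

theorem rel_inj {V E I : Type} [Fintype V] [Fintype E] [Fintype I]
    (Γ : Pool.Agent.LOTI.LOT V E) (cl : V → I)
    (h : ∀ u, (Finset.univ.filter fun v => cl v = u).card ≤ (Finset.univ.filter fun e =>
      cl (Γ.init e) = u ∧ cl (Γ.term e) = u ∧ cl (Γ.lab e) = u).card + 1)
    (hLI : ∀ u, LocallyIndicable (Blk cl Γ.init Γ.term Γ.lab u))
    (hk : ∀ e e', ¬ (cl (Γ.init e) = cl (Γ.lab e) ∧ cl (Γ.term e) = cl (Γ.lab e)) →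
      ¬ (cl (Γ.init e') = cl (Γ.lab e') ∧ cl (Γ.term e') = cl (Γ.lab e')) →
      cl (Γ.lab e) = cl (Γ.lab e') → e = e') : LocallyIndicable Γ.Grp := by
  obtain ⟨Θ, hcol, -⟩ := isCol_blk cl Γ.init Γ.term Γ.lab
  exact (thmB (I := I) (E := Out cl Γ.init Γ.term Γ.lab) (H := Blk cl Γ.init Γ.term Γ.lab) hLI
    (i := fun e => cl (Γ.init e.1)) (j := fun e => cl (Γ.term e.1)) (k := fun e => cl (Γ.lab e.1))
    (fun e e' he => Subtype.ext (hk e.1 e'.1 e.2 e'.2 he)) (sparse_blocks Γ cl h)
    (fun e => of_ne_one _ _ _ _) (fun e => of_ne_one _ _ _ _) (fun e => of_ne_one _ _ _ _)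
    hcol).1

end Pool.Agent.InjLI
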