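import Pool.Agent.Lib.InjLI.Defs

/-!
# Quotients of free products, sparse injective systems : definitions

(helper18, problem MP_cf50d6_gt; paper in the team store: MP_cf50d6_gt_paper18rel.md)
-/

set_option autoImplicit false

open scoped Classical

namespace Pool.Agent.InjLI

open Pool.Agent.LIA

universe u v

/-- `x` or its inverse -/
def sg {G : Type*} [Group G] (x : G) (t : Bool) : G := if t then x else x⁻¹

/-- `G` with the homomorphisms `θ b` is (isomorphic to) the quotient of the free product of the groups `H b` by the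
normal closure of the elements `r e` -/
structure IsCol {I E : Type} (H : I → Type u) [∀ b, Group (H b)] (r : E → Monoid.CoprodI H)
    (G : Type u) [Group G] (θ : ∀ b, H b →* G) : Prop where
  rel : ∀ e, Monoid.CoprodI.lift θ (r e) = 1
  gen : ⨆ b, (θ b).range = ⊤
  univ : ∀ (K : Type u) (_ : Group K) (φ : ∀ b, H b →* K),
    (∀ e, Monoid.CoprodI.lift φ (r e) = 1) → ∃ Φ : G →* K, ∀ b h, Φ (θ b h) = φ b h

/-- the quotient -/
abbrev QG {I E : Type} {H : I → Type u} [∀ b, Group (H b)] (r : E → Monoid.CoprodI H) : Type u :=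
  Monoid.CoprodI H ⧸ Subgroup.normalClosure (Set.range r)

/-- the canonical homomorphisms to the quotient -/
def qh {I E : Type} {H : I → Type u} [∀ b, Group (H b)] (r : E → Monoid.CoprodI H) (b : I) :
    H b →* QG r :=
  (QuotientGroup.mk' (Subgroup.normalClosure (Set.range r))).comp Monoid.CoprodI.of

/-- the relators given by signed words in the elements of the groups `H b` -/
def relA {I E : Type} {H : I → Type u} [∀ b, Group (H b)] {m : E → ℕ}
    (a : ∀ e, Fin (m e + 1) → (Σ b, H b) × Bool) (e : E) : Monoid.CoprodI H :=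
  (List.ofFn fun c => sg (Monoid.CoprodI.of (a e c).1.2) (a e c).2).prod

/-- no product of the signed elements of `H b` which occur in the words `a` is trivial -/
def PosH {I E : Type} {H : I → Type u} [∀ b, Group (H b)] {m : E → ℕ}
    (a : ∀ e, Fin (m e + 1) → (Σ b, H b) × Bool) (b : I) (s : (Σ b, H b) → Bool) : Prop :=
  (1 : H b) ∉ Subsemigroup.closure {h | ∃ e c x, (a e c).1 = ⟨b, x⟩ ∧ h = sg x (s ⟨b, x⟩)}

namespace OW

variable {X : Type u} {I E : Type} (P : OW X I E)

/-- both ends at the corner are up -/
def Up (κ : P.Cor) (s : X → Bool) : Prop :=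
  (P.nxt κ).2 = s (P.nxt κ).1 ∧ (P.prv κ).2 = !s (P.prv κ).1

/-- both ends at the corner are down -/
def Dn (κ : P.Cor) (s : X → Bool) : Prop :=
  (P.nxt κ).2 = (!s (P.nxt κ).1) ∧ (P.prv κ).2 = s (P.prv κ).1

end OW

/-! ## branchings -/

/-- the number of unused arcs leaving `W`: the arcs are `c → a c` and `c → b c`; for `c ∈ T` the arc `c → a c` is
used if `s c = true`, the arc `c → b c` if `s c = false` -/
noncomputable def phi {I : Type*} (a b : I → I) (T : Finset I) (s : I → Bool)
    (W : Finset I) : ℕ :=
  (W.filter fun c => (c ∉ T ∨ s c = false) ∧ a c ∉ W).card +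
    (W.filter fun c => (c ∉ T ∨ s c = true) ∧ b c ∉ W).card

/-! ## sparse systems -/

section sparse

variable {I E : Type} [Fintype E] (i j k : E → I)

/-- the edges inside `U` -/
noncomputable def EU (U : Finset I) : Finset E :=
  Finset.univ.filter fun e => i e ∈ U ∧ j e ∈ U ∧ k e ∈ U

/-- every nonempty set `U` contains less than `|U|` edges -/
def Sparse : Prop := ∀ U : Finset I, U.Nonempty → (EU i j k U).card < U.card

/-- at least two arcs leave every nonempty set of labels -/
def TwoOut : Prop := ∀ U : Finset I, U.Nonempty → (∀ b ∈ U, ∃ e, k e = b) →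
  2 ≤ (Finset.univ.filter fun e => k e ∈ U ∧ i e ∉ U).card +
    (Finset.univ.filter fun e => k e ∈ U ∧ j e ∉ U).card

end sparse

/-- the relators `a w = w c` -/
def relB {I E : Type} {H : I → Type u} [∀ b, Group (H b)] {i j k : E → I} (a : ∀ e, H (i e))
    (w : ∀ e, H (k e)) (c : ∀ e, H (j e)) (e : E) : Monoid.CoprodI H :=
  Monoid.CoprodI.of (a e) * Monoid.CoprodI.of (w e) * (Monoid.CoprodI.of (c e))⁻¹ *
    (Monoid.CoprodI.of (w e))⁻¹

/-! ## partitions -/

section part

variable {I I' E : Type} (cl : I → I') (i j k : E → I)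

/-- the edges inside the class `u` -/
abbrev Inr (u : I') : Type := {e : E // cl (i e) = u ∧ cl (j e) = u ∧ cl (k e) = u}

/-- the edges which are not inside a class -/
abbrev Out : Type := {e : E // ¬ (cl (i e) = cl (k e) ∧ cl (j e) = cl (k e))}

/-- the class -/
abbrev Cls (u : I') : Type := {b : I // cl b = u}

/-- `i` for the class `u` -/
def iu (u : I') (e : Inr cl i j k u) : Cls cl u := ⟨i e.1, e.2.1⟩

/-- `j` for the class `u` -/
def ju (u : I') (e : Inr cl i j k u) : Cls cl u := ⟨j e.1, e.2.2.1⟩

/-- `k` for the class `u` -/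
def ku (u : I') (e : Inr cl i j k u) : Cls cl u := ⟨k e.1, e.2.2.2⟩

variable {H : I → Type u} [∀ b, Group (H b)] (a : ∀ e, H (i e)) (w : ∀ e, H (k e))
  (c : ∀ e, H (j e))

/-- the relators of the class `u` -/
def ru (u : I') : Inr cl i j k u → Monoid.CoprodI fun b : Cls cl u => H b.1 :=
  relB (H := fun b : Cls cl u => H b.1) (i := iu cl i j k u) (j := ju cl i j k u)
    (k := ku cl i j k u) (fun e => a e.1) (fun e => w e.1) (fun e => c e.1)

/-- the group of the class `u` -/
abbrev Qc (u : I') : Type u := QG (ru cl i j k a w c u)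

/-- the homomorphism from a block to the group of its class -/
def emb (b : I) : H b →* Qc cl i j k a w c (cl b) :=
  qh (ru cl i j k a w c (cl b)) ⟨b, rfl⟩

end part

/-- the partition of `I` into `V` and singletons -/
noncomputable def clV {I : Type} (V : Finset I) (b : I) : Option {b : I // b ∉ V} :=
  if h : b ∈ V then none else some ⟨b, h⟩

end Pool.Agent.InjLI
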