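import Pool.Agent.Lib.InjLI.Defs2
import Pool.Agent.Lib.LOTI.LDefs

/-!
# Labelled oriented graphs with blocks : definitions

(helper18, problem MP_cf50d6_gt; paper in the team store: MP_cf50d6_gt_paper18rel.md)
-/

set_option autoImplicit false

open scoped Classical

namespace Pool.Agent.InjLI

open Pool.Agent.LIA

universe u

/-- the relators `x_i x_k = x_k x_j` of a labelled oriented graph: an edge `e` from `i e` to `j e` with the label `k e` -/
def wrel {V E : Type} (i j k : E → V) : Set (FreeGroup V) :=
  {r | ∃ e : E, r = FreeGroup.of (i e) * FreeGroup.of (k e) *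
    (FreeGroup.of (k e) * FreeGroup.of (j e))⁻¹}

/-- the group of the block `u`: the vertices `v` with `cl v = u` and the edges with both ends and the label in the
block -/
abbrev Blk {V I E : Type} (cl : V → I) (i j k : E → V) (u : I) : Type :=
  PresentedGroup (wrel (iu cl i j k u) (ju cl i j k u) (ku cl i j k u))

/-- the generator of the block of `v` -/
def bx {V I E : Type} (cl : V → I) (i j k : E → V) (v : V) : Blk cl i j k (cl v) :=
  PresentedGroup.of ⟨v, rfl⟩

/-- the words of the relators `a w c⁻¹ w⁻¹` -/
def wd {I E : Type} {H : I → Type u} [∀ b, Group (H b)] {i j k : E → I} (a : ∀ e, H (i e))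
    (w : ∀ e, H (k e)) (c : ∀ e, H (j e)) (e : E) : Fin (3 + 1) → (Σ b, H b) × Bool :=
  ![(⟨i e, a e⟩, true), (⟨k e, w e⟩, true), (⟨j e, c e⟩, false), (⟨k e, w e⟩, false)]

end Pool.Agent.InjLI
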