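import Pool.Agent.Lib.InjLI.Defs3

/-!
# Infinite systems : definitions

(helper18, problem MP_cf50d6_gt; paper in the team store: MP_cf50d6_gt_paper18rel.md)
-/

set_option autoImplicit false

open scoped Classical

namespace Pool.Agent.InjLI

open Pool.Agent.LIA

universe u

namespace OW

variable {X : Type u} {I E : Type} (P : OW X I E)

/-- the blocks of a finite set of corners -/
noncomputable def Bk (K : Finset P.Cor) : Finset I :=
  K.image (fun κ => P.cl (P.nxt κ).1) ∪ K.image fun κ => P.cl (P.prv κ).1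

/-- a nonempty finite set of corners which is 2-edge-connected as a graph on its blocks: for every nonempty proper subset `U`
of its blocks at least two of its corners have exactly one of their two blocks in `U` -/
def TwoC (K : Finset P.Cor) : Prop :=
  K.Nonempty ∧ ∀ U : Finset I, U.Nonempty → U ⊂ P.Bk K → 2 ≤ (K.filter fun κ => P.Cr κ U).card

/-- the curvature condition; `s o`, `o : O`, are vectors of signs, `w` are weights of the corners -/
def Crv {O : Type} [Fintype O] (s : O → X → Bool) (w : P.Cor → ℝ) (α : I → O → ℝ) : Prop :=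
  (∀ b o, 0 ≤ α b o) ∧ (∀ b, ∑ o, α b o = 1) ∧ (∀ e, 1 ≤ ∑ c, w ⟨e, c⟩) ∧
  ∀ K : Finset P.Cor, P.TwoC K → ∑ κ ∈ K, w κ + 1 ≤
    ∑ b ∈ P.Bk K, ∑ o, if ∃ κ ∈ K, P.En κ b (s o) then α b o else 0

end OW

/-- every nonempty finite set `U` contains less than `|U|` edges (for injective `k` these are finitely many) -/
def SparseI {I E : Type} (i j k : E → I) : Prop :=
  ∀ U : Finset I, U.Nonempty → {e | i e ∈ U ∧ j e ∈ U ∧ k e ∈ U}.ncard < U.card

/-- the words of the edges `E₀` as words in the groups `H b`, `b ∈ I₀` -/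
def ra {I E : Type} {H : I → Type u} {m : E → ℕ}
    (a : ∀ e, Fin (m e + 1) → (Σ b, H b) × Bool) (I₀ : Finset I) (E₀ : Finset E)
    (h : ∀ e ∈ E₀, ∀ c, (a e c).1.1 ∈ I₀) (e : ↥E₀) (c : Fin (m e.1 + 1)) :
    (Σ b : ↥I₀, H b.1) × Bool :=
  (⟨⟨(a e.1 c).1.1, h e.1 e.2 c⟩, (a e.1 c).1.2⟩, (a e.1 c).2)

theorem ra_alt {I E : Type} {H : I → Type u} {m : E → ℕ}
    {a : ∀ e, Fin (m e + 1) → (Σ b, H b) × Bool} (alt : ∀ e c, (a e c).1.1 ≠ (a e (c + 1)).1.1)
    (I₀ : Finset I) (E₀ : Finset E) (h : ∀ e ∈ E₀, ∀ c, (a e c).1.1 ∈ I₀) (e : ↥E₀)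
    (c : Fin (m e.1 + 1)) : (ra a I₀ E₀ h e c).1.1 ≠ (ra a I₀ E₀ h e (c + 1)).1.1 :=
  fun hh => alt e.1 c (congrArg Subtype.val hh)

end Pool.Agent.InjLI
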