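import Pool.Agent.Lib.InjLI.Defs2

/-!
# EdA : submodularity and the growing step

(helper18, problem MP_cf50d6_gt, paper MP_cf50d6_gt_paper18rel.md)

Finite combinatorics.
* `phi_submod`: each of the two summands is a sum over the arcs `c → y` of the indicator of (`c ∈ W` and `y ∉ W`, and the arc is unused); for one arc: `[c ∈ A ∩ B, y ∉ A ∩ B] +
  [c ∈ A ∪ B, y ∉ A ∪ B] ≤ [c ∈ A, y ∉ A] + [c ∈ B, y ∉ B]` (case distinction). Write `card (filter) = ∑ c, if ... then 1 else 0` over `Finset.univ` or over `A ∪ B`.
* `ed_step`: call `W` critical if `W` is nonempty, `W ⊆ L`, `W \ T` nonempty and `phi a b T s W = 1`. If there is a critical set let `W₀` be one with the smallest cardinality, otherwise `W₀ = L`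
  (`L \ T` is nonempty). `Z := W₀ \ T` is nonempty and `⊆ L`, so by `h` at least two arcs (`c`, a or b) with `c ∈ Z` leave `Z`; they are unused (`c ∉ T`).
  - `W₀ = L` without critical sets: take such an arc `c → y`: `y ∉ L \ T`, so `y ∈ T` or `y ∉ L`. For a nonempty `W ⊆ L`: `phi` for `insert c T` and the updated `s` is at least `phi a b T s W - 1`,
    and equal to it if `c ∉ W`; if `c ∈ W` then `W \ T` is nonempty, `W` is not critical, so `phi a b T s W ≥ 2`.
  - `W₀` critical: the arcs from `Z` which leave `W₀` are counted in `phi a b T s W₀ = 1`, so at most one; so there is an arc `c → y`, `c ∈ Z`, `y ∉ Z`, `y ∈ W₀`, so `y ∈ T`. Let `W ⊆ L` be nonempty;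
    the new `phi` of `W` is smaller than `phi a b T s W` only if `c ∈ W` and `y ∉ W`, and then by 1. If then `phi a b T s W = 1`, `W` is critical; `phi_submod` for `W₀`, `W`: both `W₀ ∩ W` (it contains
    `c`) and `W₀ ∪ W` have `phi ≥ 1` (`h2`), so both have `phi = 1`, and `W₀ ∩ W` is critical and smaller (`y ∈ W₀`, `y ∉ W`). Contradiction.
-/

set_option autoImplicit false

open scoped Classical

namespace Pool.Agent.InjLI

open Pool.Agent.LIA

universe u v

private theorem edA_sub {I : Type*} (P : I → Prop) [DecidablePred P] (f : I → I)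
    (A B : Finset I) :
    ((A ∩ B).filter fun c => P c ∧ f c ∉ A ∩ B).card +
      ((A ∪ B).filter fun c => P c ∧ f c ∉ A ∪ B).card ≤
    (A.filter fun c => P c ∧ f c ∉ A).card + (B.filter fun c => P c ∧ f c ∉ B).card := by
  rw [← Finset.card_union_add_card_inter ((A ∩ B).filter _), ← Finset.card_union_add_card_inter
    (A.filter _)]
  refine Nat.add_le_add (Finset.card_le_card ?_) (Finset.card_le_card ?_)
  · intro c hc
    simp only [Finset.mem_union, Finset.mem_filter, Finset.mem_inter] at hc ⊢
    tauto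
  · intro c hc
    simp only [Finset.mem_union, Finset.mem_filter, Finset.mem_inter] at hc ⊢
    tauto

theorem phi_submod {I : Type*} (a b : I → I) (T : Finset I) (s : I → Bool) (A B : Finset I) :
    phi a b T s (A ∩ B) + phi a b T s (A ∪ B) ≤ phi a b T s A + phi a b T s B := by
  have h1 := edA_sub (fun c => c ∉ T ∨ s c = false) a A B
  have h2 := edA_sub (fun c => c ∉ T ∨ s c = true) b A B
  unfold phi
  omega

private theorem edA_up {I : Type*} {a b : I → I} {T : Finset I} {s : I → Bool} {c : I}
    (hc : c ∉ T) (t : Bool) (W : Finset I) :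
    phi a b T s W ≤ phi a b (insert c T) (Function.update s c t) W + 1 := by
  unfold phi
  have key : ∀ (P Q : I → Prop) [DecidablePred P] [DecidablePred Q],
      (∀ d, d ≠ c → P d → Q d) → (W.filter P).card ≤ (W.filter Q).card + 1 := by
    intro P Q _ _ hPQ
    refine le_trans (Finset.card_le_card (t := insert c (W.filter Q)) ?_)
      (Finset.card_insert_le _ _)
    intro d hd
    rw [Finset.mem_filter] at hd
    rw [Finset.mem_insert, Finset.mem_filter]
    by_cases hdc : d = c
    · exact Or.inl hdc
    · exact Or.inr ⟨hd.1, hPQ d hdc hd.2⟩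
  have key2 : ∀ (P Q : I → Prop) [DecidablePred P] [DecidablePred Q], (∀ d, P d → Q d) →
      (W.filter P).card ≤ (W.filter Q).card := by
    intro P Q _ _ hPQ
    refine Finset.card_le_card ?_
    intro d hd
    rw [Finset.mem_filter] at hd ⊢
    exact ⟨hd.1, hPQ d hd.2⟩
  have gen : ∀ (u : Bool) (f : I → I) (d : I), d ≠ c → ((d ∉ T ∨ s d = u) ∧ f d ∉ W) →
      ((d ∉ insert c T ∨ Function.update s c t d = u) ∧ f d ∉ W) := by
    intro u f d hd h3
    rw [Function.update_of_ne hd, Finset.mem_insert]
    tauto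
  cases t with
  | true =>
    have e1 := key (fun d => (d ∉ T ∨ s d = false) ∧ a d ∉ W)
      (fun d => (d ∉ insert c T ∨ Function.update s c true d = false) ∧ a d ∉ W)
      (gen false a)
    have e2 := key2 (fun d => (d ∉ T ∨ s d = true) ∧ b d ∉ W)
      (fun d => (d ∉ insert c T ∨ Function.update s c true d = true) ∧ b d ∉ W) (by
        intro d h3
        by_cases hd : d = c
        · subst hd
          exact ⟨Or.inr (Function.update_self _ _ _), h3.2⟩
        · exact gen true b d hd h3)
    omega
  | false =>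
    have e1 := key (fun d => (d ∉ T ∨ s d = true) ∧ b d ∉ W)
      (fun d => (d ∉ insert c T ∨ Function.update s c false d = true) ∧ b d ∉ W)
      (gen true b)
    have e2 := key2 (fun d => (d ∉ T ∨ s d = false) ∧ a d ∉ W)
      (fun d => (d ∉ insert c T ∨ Function.update s c false d = false) ∧ a d ∉ W) (by
        intro d h3
        by_cases hd : d = c
        · subst hd
          exact ⟨Or.inr (Function.update_self _ _ _), h3.2⟩
        · exact gen false a d hd h3)
    omega

private theorem edA_eq {I : Type*} {a b : I → I} {T : Finset I} {s : I → Bool} {c : I}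
    (t : Bool) {W : Finset I}
    (hW : ¬ (c ∈ W ∧ (if t then a c else b c) ∉ W)) :
    phi a b T s W ≤ phi a b (insert c T) (Function.update s c t) W := by
  unfold phi
  have key2 : ∀ (P Q : I → Prop) [DecidablePred P] [DecidablePred Q],
      (∀ d ∈ W, P d → Q d) → (W.filter P).card ≤ (W.filter Q).card := by
    intro P Q _ _ hPQ
    refine Finset.card_le_card ?_
    intro d hd
    rw [Finset.mem_filter] at hd ⊢
    exact ⟨hd.1, hPQ d hd.1 hd.2⟩
  have gen : ∀ (u : Bool) (f : I → I) (d : I), d ≠ c → ((d ∉ T ∨ s d = u) ∧ f d ∉ W) →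
      ((d ∉ insert c T ∨ Function.update s c t d = u) ∧ f d ∉ W) := by
    intro u f d hd h3
    rw [Function.update_of_ne hd, Finset.mem_insert]
    tauto
  refine Nat.add_le_add (key2 _ _ ?_) (key2 _ _ ?_)
  · intro d hdW h3
    by_cases hd : d = c
    · subst hd
      cases t with
      | true =>
        exact absurd ⟨hdW, h3.2⟩ hW
      | false =>
        exact ⟨Or.inr (Function.update_self _ _ _), h3.2⟩
    · exact gen false a d hd h3
  · intro d hdW h3
    by_cases hd : d = c
    · subst hd
      cases t with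
      | true =>
        exact ⟨Or.inr (Function.update_self _ _ _), h3.2⟩
      | false =>
        exact absurd ⟨hdW, h3.2⟩ hW
    · exact gen true b d hd h3

theorem ed_step {I : Type*} {a b : I → I} {L T : Finset I} (hT : T ⊆ L) (hne : T ≠ L)
    {s : I → Bool}
    (h : ∀ U : Finset I, U.Nonempty → U ⊆ L →
      2 ≤ (U.filter fun c => a c ∉ U).card + (U.filter fun c => b c ∉ U).card)
    (h2 : ∀ W : Finset I, W.Nonempty → W ⊆ L → 1 ≤ phi a b T s W) :
    ∃ c, c ∈ L ∧ c ∉ T ∧ ∃ t : Bool,
      ((if t then a c else b c) ∈ T ∨ (if t then a c else b c) ∉ L) ∧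
      ∀ W : Finset I, W.Nonempty → W ⊆ L →
        1 ≤ phi a b (insert c T) (Function.update s c t) W := by
  by_cases hcr : ∃ W : Finset I, W ⊆ L ∧ (W \ T).Nonempty ∧ phi a b T s W = 1
  · -- a critical set of smallest cardinality
    have hex : ∃ n : ℕ, ∃ W : Finset I, (W ⊆ L ∧ (W \ T).Nonempty ∧ phi a b T s W = 1) ∧
        W.card = n := by
      obtain ⟨W, hW⟩ := hcr
      exact ⟨W.card, W, hW, rfl⟩
    obtain ⟨W₀, ⟨hW₀L, hZ, hphi⟩, hcard⟩ := Nat.find_spec hex
    have hmin : ∀ W : Finset I, W ⊆ L → (W \ T).Nonempty → phi a b T s W = 1 →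
        W₀.card ≤ W.card := by
      intro W h3 h4 h5
      rw [hcard]
      exact Nat.find_min' hex ⟨W, ⟨h3, h4, h5⟩, rfl⟩
    have hZL : W₀ \ T ⊆ L := Finset.sdiff_subset.trans hW₀L
    have hZ2 := h (W₀ \ T) hZ hZL
    have hc : ∃ c ∈ W₀ \ T, ∃ t : Bool, (if t then a c else b c) ∉ W₀ \ T ∧
        (if t then a c else b c) ∈ W₀ := by
      by_contra hcon
      push Not at hcon
      have e1 : ((W₀ \ T).filter fun c => a c ∉ W₀ \ T).card ≤
          (W₀.filter fun c => (c ∉ T ∨ s c = false) ∧ a c ∉ W₀).card := by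
        refine Finset.card_le_card ?_
        intro c hc
        rw [Finset.mem_filter] at hc ⊢
        have h3 := hcon c hc.1 true hc.2
        rw [Finset.mem_sdiff] at hc
        exact ⟨hc.1.1, Or.inl hc.1.2, h3⟩
      have e2 : ((W₀ \ T).filter fun c => b c ∉ W₀ \ T).card ≤
          (W₀.filter fun c => (c ∉ T ∨ s c = true) ∧ b c ∉ W₀).card := by
        refine Finset.card_le_card ?_
        intro c hc
        rw [Finset.mem_filter] at hc ⊢
        have h3 := hcon c hc.1 false (by simpa using hc.2)
        rw [Finset.mem_sdiff] at hc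
        exact ⟨hc.1.1, Or.inl hc.1.2, by simpa using h3⟩
      unfold phi at hphi
      omega
    obtain ⟨c, hcZ, t, hy1, hy2⟩ := hc
    have hcW := (Finset.mem_sdiff.1 hcZ).1
    have hcT := (Finset.mem_sdiff.1 hcZ).2
    refine ⟨c, hZL hcZ, hcT, t, Or.inl ?_, ?_⟩
    · by_contra h3
      exact hy1 (Finset.mem_sdiff.2 ⟨hy2, h3⟩)
    · intro W hWne hWL
      by_contra hlt
      have hold := h2 W hWne hWL
      have hup := edA_up (a := a) (b := b) (s := s) hcT t W
      have hcy : c ∈ W ∧ (if t then a c else b c) ∉ W := by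
        by_contra h3
        have h4 := edA_eq (a := a) (b := b) (T := T) (s := s) t h3
        omega
      have hsub := phi_submod a b T s W₀ W
      have hcI : c ∈ W₀ ∩ W := Finset.mem_inter.2 ⟨hcW, hcy.1⟩
      have hi := h2 (W₀ ∩ W) ⟨c, hcI⟩ (Finset.inter_subset_left.trans hW₀L)
      have hu := h2 (W₀ ∪ W) ⟨c, Finset.mem_union_left _ hcW⟩ (Finset.union_subset hW₀L hWL)
      have h5 := hmin (W₀ ∩ W) (Finset.inter_subset_left.trans hW₀L)
        ⟨c, Finset.mem_sdiff.2 ⟨hcI, hcT⟩⟩ (by omega)
      have h6 : (W₀ ∩ W).card < W₀.card := by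
        refine Finset.card_lt_card ⟨Finset.inter_subset_left, ?_⟩
        intro h7
        exact hcy.2 (Finset.mem_inter.1 (h7 hy2)).2
      omega
  · have hZ : (L \ T).Nonempty := by
      rw [Finset.nonempty_iff_ne_empty]
      intro h3
      rw [Finset.sdiff_eq_empty_iff_subset] at h3
      exact hne (Finset.Subset.antisymm hT h3)
    have hZL : L \ T ⊆ L := Finset.sdiff_subset
    have hZ2 := h (L \ T) hZ hZL
    have hc : ∃ c ∈ L \ T, ∃ t : Bool, (if t then a c else b c) ∉ L \ T := by
      by_contra hcon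
      push Not at hcon
      have e1 : ((L \ T).filter fun c => a c ∉ L \ T).card = 0 := by
        rw [Finset.card_eq_zero, Finset.filter_eq_empty_iff]
        intro c hc h3
        exact h3 (hcon c hc true)
      have e2 : ((L \ T).filter fun c => b c ∉ L \ T).card = 0 := by
        rw [Finset.card_eq_zero, Finset.filter_eq_empty_iff]
        intro c hc h3
        exact h3 (by simpa using hcon c hc false)
      omega
    obtain ⟨c, hcZ, t, hy⟩ := hc
    have hcT := (Finset.mem_sdiff.1 hcZ).2
    refine ⟨c, hZL hcZ, hcT, t, ?_, ?_⟩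
    · by_cases h3 : (if t then a c else b c) ∈ L
      · left
        by_contra h4
        exact hy (Finset.mem_sdiff.2 ⟨h3, h4⟩)
      · exact Or.inr h3
    · intro W hWne hWL
      have hold := h2 W hWne hWL
      by_cases hcW : c ∈ W
      · have hup := edA_up (a := a) (b := b) (s := s) hcT t W
        have h3 : phi a b T s W ≠ 1 := by
          intro h4
          exact hcr ⟨W, hWL, ⟨c, Finset.mem_sdiff.2 ⟨hcW, hcT⟩⟩, h4⟩
        omega
      · have h4 := edA_eq (a := a) (b := b) (T := T) (s := s) (c := c) t (W := W)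
          (fun h5 => hcW h5.1)
        omega

end Pool.Agent.InjLI
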