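import Pool.Agent.Lib.InjLI.EdA

/-!
# EdB : two disjoint branchings (Edmonds)

(helper18, problem MP_cf50d6_gt, paper MP_cf50d6_gt_paper18rel.md)

Claim by induction on `n ≤ L.card`: there are `T ⊆ L` with `T.card = n` and `s` such that
(P0) for all `c ∈ T`: `(if s c then a c else b c) ∈ T ∨ (if s c then a c else b c) ∉ L`;
(P1) every nonempty `U ⊆ T` contains a `c` with `(if s c then a c else b c) ∉ U`;
(P2) every nonempty `W ⊆ L` has `1 ≤ phi a b T s W`.
`n = 0`: `T = ∅`: `phi a b ∅ s W` is the sum in `h`, `≥ 2`. Step: `ed_step` gives `c`, `t`; new `T' = insert c T`, `s' = Function.update s c t` (equal to `s` on `T`). P0: clear for `c`; for `d ∈ T` the old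
statement. P1: let `U ⊆ T'` be nonempty. If `U ∩ T` is nonempty, P1 gives `d ∈ U ∩ T` with `f d ∉ U ∩ T`; by P0 `f d ∈ T` or `f d ∉ L`; in both cases `f d ∉ U` (`U ⊆ L`; if `f d ∈ U` then
`f d ∈ L`, so `f d ∈ T`, `f d ∈ U ∩ T`). If `U ∩ T = ∅` then `U = {c}` and `f c ∈ T` or `f c ∉ L`, so `f c ≠ c` (`c ∉ T`, `c ∈ L`).
At the end `T = L` (`Finset.eq_of_subset_of_card_le`): the first conclusion is P1, the second is P2: `phi a b L s W ≥ 1` gives an unused arc leaving `W`: `c ∈ W`, `s c = false`, `a c ∉ W`, or
`s c = true`, `b c ∉ W`.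
-/

set_option autoImplicit false

open scoped Classical

namespace Pool.Agent.InjLI

open Pool.Agent.LIA

universe u v

private theorem edB_aux {I : Type*} {a b : I → I} {L : Finset I}
    (h : ∀ U : Finset I, U.Nonempty → U ⊆ L →
      2 ≤ (U.filter fun c => a c ∉ U).card + (U.filter fun c => b c ∉ U).card) :
    ∀ n : ℕ, n ≤ L.card → ∃ T : Finset I, T ⊆ L ∧ T.card = n ∧ ∃ s : I → Bool,
      (∀ c ∈ T, (if s c then a c else b c) ∈ T ∨ (if s c then a c else b c) ∉ L) ∧
      (∀ U : Finset I, U.Nonempty → U ⊆ T → ∃ c ∈ U, (if s c then a c else b c) ∉ U) ∧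
      ∀ W : Finset I, W.Nonempty → W ⊆ L → 1 ≤ phi a b T s W := by
  intro n
  induction n with
  | zero =>
    intro _
    refine ⟨∅, Finset.empty_subset _, rfl, fun _ => true, by simp, ?_, ?_⟩
    · intro U hU hU'
      exact absurd (Finset.subset_empty.1 hU') hU.ne_empty
    · intro W hW hW'
      have h3 := h W hW hW'
      unfold phi
      simp
      omega
  | succ n ih =>
    intro hn
    obtain ⟨T, hTL, hTn, s, P0, P1, P2⟩ := ih (by omega)
    have hne : T ≠ L := by
      rintro rfl
      omega
    obtain ⟨c, hcL, hcT, t, hct, hphi⟩ := ed_step hTL hne h P2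
    have hs : ∀ d ∈ T, Function.update s c t d = s d := by
      intro d hd
      rw [Function.update_of_ne]
      rintro rfl
      exact hcT hd
    refine ⟨insert c T, Finset.insert_subset hcL hTL, ?_, Function.update s c t, ?_, ?_, hphi⟩
    · rw [Finset.card_insert_of_notMem hcT, hTn]
    · intro d hd
      rcases Finset.mem_insert.1 hd with rfl | hd
      · rw [Function.update_self]
        rcases hct with h4 | h4
        · exact Or.inl (Finset.mem_insert_of_mem h4)
        · exact Or.inr h4
      · rw [hs d hd]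
        rcases P0 d hd with h4 | h4
        · exact Or.inl (Finset.mem_insert_of_mem h4)
        · exact Or.inr h4
    · intro U hU hUT
      by_cases hUe : (U ∩ T).Nonempty
      · obtain ⟨d, hd, hd'⟩ := P1 (U ∩ T) hUe Finset.inter_subset_right
        have hdU := (Finset.mem_inter.1 hd).1
        have hdT := (Finset.mem_inter.1 hd).2
        refine ⟨d, hdU, ?_⟩
        rw [hs d hdT]
        intro h5
        apply hd'
        rw [Finset.mem_inter]
        refine ⟨h5, ?_⟩
        rcases P0 d hdT with h4 | h4
        · exact h4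
        · exact absurd ((Finset.insert_subset hcL hTL) (hUT h5)) h4
      · obtain ⟨d, hd⟩ := hU
        have hUc : ∀ x ∈ U, x = c := by
          intro x hx
          rcases Finset.mem_insert.1 (hUT hx) with h4 | h4
          · exact h4
          · exact absurd ⟨x, Finset.mem_inter.2 ⟨hx, h4⟩⟩ hUe
        have hdc := hUc d hd
        subst hdc
        refine ⟨d, hd, ?_⟩
        rw [Function.update_self]
        intro h5
        have h6 := hUc _ h5
        rw [h6] at hct
        rcases hct with h4 | h4
        · exact hcT h4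
        · exact h4 hcL

theorem exists_branching {I : Type*} {a b : I → I} {L : Finset I}
    (h : ∀ U : Finset I, U.Nonempty → U ⊆ L →
      2 ≤ (U.filter fun c => a c ∉ U).card + (U.filter fun c => b c ∉ U).card) :
    ∃ s : I → Bool,
      (∀ U : Finset I, U.Nonempty → U ⊆ L → ∃ c ∈ U, (if s c then a c else b c) ∉ U) ∧
      ∀ U : Finset I, U.Nonempty → U ⊆ L → ∃ c ∈ U, (if s c then b c else a c) ∉ U := by
  obtain ⟨T, hTL, hTn, s, -, P1, P2⟩ := edB_aux h L.card le_rfl
  have hT : T = L := Finset.eq_of_subset_of_card_le hTL hTn.ge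
  subst hT
  refine ⟨s, P1, ?_⟩
  intro U hU hUT
  have h3 := P2 U hU hUT
  by_contra hcon
  push Not at hcon
  have h4 : phi a b T s U = 0 := by
    unfold phi
    rw [Nat.add_eq_zero_iff, Finset.card_eq_zero, Finset.card_eq_zero,
      Finset.filter_eq_empty_iff, Finset.filter_eq_empty_iff]
    constructor
    · intro c hc
      have h5 := hcon c hc
      have h6 := hUT hc
      cases hsc : s c <;> simp_all
    · intro c hc
      have h5 := hcon c hc
      have h6 := hUT hc
      cases hsc : s c <;> simp_all
  omega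

end Pool.Agent.InjLI
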