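import Pool.Agent.Lib.InjLI.Tw
import Pool.Agent.Lib.InjLI.ColA
import Pool.Agent.Lib.InjLI.QuoC
import Pool.Agent.Lib.InjLI.BH
import Pool.Agent.Lib.InjLI.Brn

/-!
# Fou : the case of two arcs leaving every set of labels (assembly)

(helper18, problem MP_cf50d6_gt, paper MP_cf50d6_gt_paper18rel.md)

`exists_orient` gives `t : I → Bool` (called `s` there). Words: `m e = 3`, `a' e = ![(⟨i e, a e⟩, true), (⟨k e, w e⟩, true), (⟨j e, c e⟩, false), (⟨k e, w e⟩, false)]`; `alt`: third part of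
`exists_orient` (`fin_cases`). `relA a' e = relB a w c e` (`List.ofFn_succ`, `sg`, `mul_assoc`), so `hcol` is `IsCol H (relA a') G θ`.
`exists_signs_all` with `y b` = `w e` if `b = k e` for some `e` (unique `e` by `hk`, dependent: choose; else 1) and `t`: `s` with `PosH a' b s` for all `b` and `s ⟨k e, w e⟩ = t (k e)`.
Write `A = s ⟨i e, a e⟩`, `W = s ⟨k e, w e⟩`, `C = s ⟨j e, c e⟩`. Corners of `e` (`prv`, `nxt`): 0: `(w, false), (a, true)`: Up iff `A ∧ W`, Dn iff `¬A ∧ ¬W`, blocks `k e`, `i e`;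
1: `(a, true), (w, true)`: Up iff `W ∧ ¬A`, Dn iff `¬W ∧ A`, blocks `i e`, `k e`; 2: `(w, true), (c, false)`: Up iff `¬C ∧ ¬W`, Dn iff `C ∧ W`, blocks `k e`, `j e`; 3: `(c, false), (w, false)`: Up iff
`¬W ∧ C`, Dn iff `W ∧ ¬C`, blocks `j e`, `k e`. Choose `ch e = if W then (if A then 0 else 1) else (if C then 3 else 2)`: it is Up; its blocks are `k e` and `if t (k e) then i e else j e`.
There is exactly one Dn corner; its blocks are `k e` and `if t (k e) then j e else i e`: so in `curv_of_forests` `hA` is the first part of `exists_orient`, `hB` the second one (the Dn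
corners with both blocks in `S` are mapped injectively by `κ ↦ κ.1` into the filter). Then `colA` with `O = Unit`.
-/

set_option autoImplicit false

open scoped Classical

namespace Pool.Agent.InjLI

open Pool.Agent.LIA

universe u v

private def fouW {I E : Type} {H : I → Type u} {i j k : E → I} (a : ∀ e, H (i e))
    (w : ∀ e, H (k e)) (c : ∀ e, H (j e)) (e : E) : Fin (3 + 1) → (Σ b, H b) × Bool :=
  ![(⟨i e, a e⟩, true), (⟨k e, w e⟩, true), (⟨j e, c e⟩, false), (⟨k e, w e⟩, false)]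

private theorem fouW_alt {I E : Type} {H : I → Type u} {i j k : E → I} (a : ∀ e, H (i e))
    (w : ∀ e, H (k e)) (c : ∀ e, H (j e)) (h : ∀ e, i e ≠ k e ∧ j e ≠ k e) (e : E)
    (d : Fin (3 + 1)) : (fouW a w c e d).1.1 ≠ (fouW a w c e (d + 1)).1.1 := by
  obtain ⟨h1, h2⟩ := h e
  fin_cases d
  · exact h1
  · exact fun h => h2 h.symm
  · exact h2
  · exact fun h => h1 h.symm

private theorem fouW_ne {I E : Type} {H : I → Type u} [∀ b, Group (H b)] {i j k : E → I}
    {a : ∀ e, H (i e)} {w : ∀ e, H (k e)} {c : ∀ e, H (j e)} (ha : ∀ e, a e ≠ 1)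
    (hw : ∀ e, w e ≠ 1) (hc : ∀ e, c e ≠ 1) (e : E)
    (d : Fin (3 + 1)) : (fouW a w c e d).1.2 ≠ 1 := by
  fin_cases d
  · exact ha e
  · exact hw e
  · exact hc e
  · exact hw e

private theorem fouW_rel {I E : Type} {H : I → Type u} [∀ b, Group (H b)] {i j k : E → I}
    (a : ∀ e, H (i e)) (w : ∀ e, H (k e)) (c : ∀ e, H (j e)) (e : E) :
    relA (m := fun _ : E => 3) (fouW a w c) e = relB a w c e := by
  unfold relA relB
  have h1 : (List.ofFn fun d : Fin (3 + 1) => sg (Monoid.CoprodI.of (fouW a w c e d).1.2)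
      (fouW a w c e d).2) = [Monoid.CoprodI.of (a e), Monoid.CoprodI.of (w e),
        (Monoid.CoprodI.of (c e))⁻¹, (Monoid.CoprodI.of (w e))⁻¹] := by
    rw [List.ofFn_succ, List.ofFn_succ, List.ofFn_succ, List.ofFn_succ, List.ofFn_zero]
    rfl
  rw [h1]
  simp only [List.prod_cons, List.prod_nil, mul_one, mul_assoc]

private theorem fou_y {I E : Type} {H : I → Type u} [∀ b, Group (H b)] {k : E → I}
    (hk : Function.Injective k) (w : ∀ e, H (k e)) : ∃ y : ∀ b, H b, ∀ e, y (k e) = w e := by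
  have h0 : ∀ b, ∃ y : H b, ∀ e (h : k e = b), y = h ▸ w e := by
    intro b
    by_cases h : ∃ e, k e = b
    · obtain ⟨e, rfl⟩ := h
      refine ⟨w e, fun e' h' => ?_⟩
      obtain rfl := hk h'
      rfl
    · exact ⟨1, fun e h' => absurd ⟨e, h'⟩ h⟩
  choose y hy using h0
  exact ⟨y, fun e => hy (k e) e rfl⟩

/-- the system of words -/
private def fouP {I E : Type} {H : I → Type u} {i j k : E → I} (a : ∀ e, H (i e))
    (w : ∀ e, H (k e)) (c : ∀ e, H (j e)) (h : ∀ e, i e ≠ k e ∧ j e ≠ k e) :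
    OW (Σ b, H b) I E :=
  OW.mk Sigma.fst (fun _ : E => 3) (fouW a w c) (fouW_alt a w c h)

private theorem fou_pv {I E : Type} {H : I → Type u} {i j k : E → I} (a : ∀ e, H (i e))
    (w : ∀ e, H (k e)) (c : ∀ e, H (j e)) (h : ∀ e, i e ≠ k e ∧ j e ≠ k e) (e : E)
    (d d' : Fin (3 + 1)) (hd : d - 1 = d') :
    (fouP a w c h).prv ⟨e, d⟩ = fouW a w c e d' := by
  rw [← hd]
  rfl

/-- the chosen corner -/
private noncomputable def fouC {I E : Type} {H : I → Type u} {i j k : E → I} (a : ∀ e, H (i e))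
    (w : ∀ e, H (k e)) (c : ∀ e, H (j e)) (s : (Σ b, H b) → Bool) (e : E) : Fin (3 + 1) :=
  if s ⟨k e, w e⟩ = true then (if s ⟨i e, a e⟩ = true then 0 else 1)
    else (if s ⟨j e, c e⟩ = true then 3 else 2)

private theorem fou_up {I E : Type} {H : I → Type u} {i j k : E → I} (a : ∀ e, H (i e))
    (w : ∀ e, H (k e)) (c : ∀ e, H (j e)) (h : ∀ e, i e ≠ k e ∧ j e ≠ k e)
    (s : (Σ b, H b) → Bool) (e : E) : (fouP a w c h).Up ⟨e, fouC a w c s e⟩ s := by
  unfold fouC
  split_ifs with h1 h2 h2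
  · exact ⟨h2.symm, by
      rw [fou_pv a w c h e 0 3 (by decide)]
      change false = !s ⟨k e, w e⟩
      rw [h1]; rfl⟩
  · exact ⟨h1.symm, by
      rw [fou_pv a w c h e 1 0 (by decide)]
      change true = !s ⟨i e, a e⟩
      rw [Bool.eq_false_iff.2 h2]; rfl⟩
  · exact ⟨(Bool.eq_false_iff.2 h1).symm, by
      rw [fou_pv a w c h e 3 2 (by decide)]
      change false = !s ⟨j e, c e⟩
      rw [h2]; rfl⟩
  · exact ⟨(Bool.eq_false_iff.2 h2).symm, by
      rw [fou_pv a w c h e 2 1 (by decide)]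
      change true = !s ⟨k e, w e⟩
      rw [Bool.eq_false_iff.2 h1]; rfl⟩

private theorem fou_bl {I E : Type} {H : I → Type u} {i j k : E → I} (a : ∀ e, H (i e))
    (w : ∀ e, H (k e)) (c : ∀ e, H (j e)) (h : ∀ e, i e ≠ k e ∧ j e ≠ k e)
    (s : (Σ b, H b) → Bool) (e : E) (S : Finset I)
    (h1 : (fouP a w c h).cl ((fouP a w c h).nxt ⟨e, fouC a w c s e⟩).1 ∈ S)
    (h2 : (fouP a w c h).cl ((fouP a w c h).prv ⟨e, fouC a w c s e⟩).1 ∈ S) :
    k e ∈ S ∧ (if s ⟨k e, w e⟩ = true then i e else j e) ∈ S := by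
  unfold fouC at h1 h2
  split_ifs at h1 h2 ⊢
  · rw [fou_pv a w c h e 0 3 (by decide)] at h2
    exact ⟨h2, h1⟩
  · rw [fou_pv a w c h e 1 0 (by decide)] at h2
    exact ⟨h1, h2⟩
  · rw [fou_pv a w c h e 3 2 (by decide)] at h2
    exact ⟨h1, h2⟩
  · rw [fou_pv a w c h e 2 1 (by decide)] at h2
    exact ⟨h2, h1⟩

private theorem fou_dn {I E : Type} {H : I → Type u} {i j k : E → I} (a : ∀ e, H (i e))
    (w : ∀ e, H (k e)) (c : ∀ e, H (j e)) (h : ∀ e, i e ≠ k e ∧ j e ≠ k e)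
    (s : (Σ b, H b) → Bool) (e : E) (d : Fin (3 + 1)) (hd : (fouP a w c h).Dn ⟨e, d⟩ s) :
    d = (if s ⟨k e, w e⟩ = true then (if s ⟨j e, c e⟩ = true then 2 else 3)
      else (if s ⟨i e, a e⟩ = true then 1 else 0)) ∧ ∀ S : Finset I,
      (fouP a w c h).cl ((fouP a w c h).nxt ⟨e, d⟩).1 ∈ S →
      (fouP a w c h).cl ((fouP a w c h).prv ⟨e, d⟩).1 ∈ S →
      k e ∈ S ∧ (if s ⟨k e, w e⟩ = true then j e else i e) ∈ S := by
  have h4 : ∀ d : Fin (3 + 1), d = 0 ∨ d = 1 ∨ d = 2 ∨ d = 3 := by decide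
  obtain ⟨h1, h2⟩ := hd
  rcases h4 d with rfl | rfl | rfl | rfl
  · rw [fou_pv a w c h e 0 3 (by decide)] at h2 ⊢
    have e1 : true = !s ⟨i e, a e⟩ := h1
    have e2 : false = s ⟨k e, w e⟩ := h2
    have e3 : s ⟨i e, a e⟩ = false := by
      cases h3 : s ⟨i e, a e⟩
      · rfl
      · rw [h3] at e1
        cases e1
    rw [← e2, e3]
    exact ⟨rfl, fun S g1 g2 => ⟨g2, g1⟩⟩
  · rw [fou_pv a w c h e 1 0 (by decide)] at h2 ⊢
    have e1 : true = !s ⟨k e, w e⟩ := h1
    have e2 : true = s ⟨i e, a e⟩ := h2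
    have e3 : s ⟨k e, w e⟩ = false := by
      cases h3 : s ⟨k e, w e⟩
      · rfl
      · rw [h3] at e1
        cases e1
    rw [← e2, e3]
    exact ⟨rfl, fun S g1 g2 => ⟨g1, g2⟩⟩
  · rw [fou_pv a w c h e 2 1 (by decide)] at h2 ⊢
    have e1 : false = !s ⟨j e, c e⟩ := h1
    have e2 : true = s ⟨k e, w e⟩ := h2
    have e3 : s ⟨j e, c e⟩ = true := by
      cases h3 : s ⟨j e, c e⟩
      · rw [h3] at e1
        cases e1
      · rfl
    rw [← e2, e3]
    exact ⟨rfl, fun S g1 g2 => ⟨g2, g1⟩⟩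
  · rw [fou_pv a w c h e 3 2 (by decide)] at h2 ⊢
    have e1 : false = !s ⟨k e, w e⟩ := h1
    have e2 : false = s ⟨j e, c e⟩ := h2
    have e3 : s ⟨k e, w e⟩ = true := by
      cases h3 : s ⟨k e, w e⟩
      · rw [h3] at e1
        cases e1
      · rfl
    rw [← e2, e3]
    exact ⟨rfl, fun S g1 g2 => ⟨g1, g2⟩⟩

theorem caseOne {I E : Type} [Fintype I] [Fintype E] {H : I → Type u} [∀ b, Group (H b)]
    (hH : ∀ b, LocallyIndicable (H b)) {i j k : E → I} (hk : Function.Injective k)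
    (hT : TwoOut i j k) {a : ∀ e, H (i e)} {w : ∀ e, H (k e)} {c : ∀ e, H (j e)}
    (ha : ∀ e, a e ≠ 1) (hw : ∀ e, w e ≠ 1) (hc : ∀ e, c e ≠ 1) {G : Type u} [Group G]
    {θ : ∀ b, H b →* G} (hcol : IsCol H (relB a w c) G θ) :
    LocallyIndicable G ∧ ∀ b, Function.Injective (θ b) := by
  obtain ⟨t, hA, hB, hne⟩ := exists_orient hk hT
  obtain ⟨y, hy⟩ := fou_y hk w
  obtain ⟨s, hs1, hs2⟩ := exists_signs_all hH (m := fun _ : E => 3) (fouW a w c)
    (fun e d => fouW_ne ha hw hc e d) y t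
  have hst : ∀ e, s ⟨k e, w e⟩ = t (k e) := by
    intro e
    have h1 := hs2 (k e) ⟨e, (1 : Fin (3 + 1)), by
      rw [hy e]
      rfl⟩
    rw [hy e] at h1
    exact h1
  have hcol' : IsCol H (relA (m := fun _ : E => 3) (fouW a w c)) G θ := by
    have h1 : relA (m := fun _ : E => 3) (fouW a w c) = relB a w c :=
      funext fun e => fouW_rel a w c e
    rw [h1]
    exact hcol
  have hCv := (fouP a w c hne).curv_of_forests s (fouC a w c s)
    (fun e => fou_up a w c hne s e)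
    (fun S hS => by
      refine lt_of_le_of_lt (Finset.card_le_card ?_) (hA S hS)
      intro e he
      obtain ⟨-, h1, h2⟩ := Finset.mem_filter.1 he
      refine Finset.mem_filter.2 ⟨Finset.mem_univ _, ?_⟩
      have h3 := fou_bl a w c hne s e S h1 h2
      rw [hst e] at h3
      exact h3)
    (fun S hS => by
      refine lt_of_le_of_lt (Finset.card_le_card_of_injOn (fun κ => κ.1) ?_ ?_) (hB S hS)
      · intro κ hκ
        obtain ⟨-, h0, h1, h2⟩ := Finset.mem_filter.1 (Finset.mem_coe.1 hκ)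
        refine Finset.mem_coe.2 (Finset.mem_filter.2 ⟨Finset.mem_univ _, ?_⟩)
        have h3 := (fou_dn a w c hne s κ.1 κ.2 h0).2 S h1 h2
        rw [hst κ.1] at h3
        exact h3
      · rintro ⟨e, d⟩ hκ ⟨e', d'⟩ hκ' (he : e = e')
        subst he
        obtain ⟨-, h0, -⟩ := Finset.mem_filter.1 (Finset.mem_coe.1 hκ)
        obtain ⟨-, h0', -⟩ := Finset.mem_filter.1 (Finset.mem_coe.1 hκ')
        have h1 := (fou_dn a w c hne s e d h0).1
        have h2 := (fou_dn a w c hne s e d' h0').1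
        rw [h1, h2])
  exact colA hH (m := fun _ : E => 3) (a := fouW a w c) (fouW_alt a w c hne) (O := Unit) hCv
    (fun b _ _ => hs1 b) hcol'

end Pool.Agent.InjLI
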