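import Pool.Agent.Lib.InjLI.Tw
import Pool.Agent.Lib.InjLI.ColA
import Pool.Agent.Lib.InjLI.QuoC
import Pool.Agent.Lib.InjLI.Defs3

/-!
# FouS : two forests for the relators a w = w c

(helper18, problem MP_cf50d6_gt, paper MP_cf50d6_gt_paper18rel.md)

This is the second half of `Fou` (`caseOne`) with the signs and the two forests as hypotheses (several edges may have the same label block); see the header of `Fou.lean` (and its proof, when it is on main: please
copy the analysis of the corners). Words: `wd a w c e`, `m e = 3`; `alt`: `hne` (`fin_cases`). `relA (wd a w c) e = relB a w c e`. Write `A = s ⟨i e, a e⟩`, `W = s ⟨k e, w e⟩`, `C = s ⟨j e, c e⟩`. Corners of `e`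
(`prv`, `nxt`): 0: `(w, false), (a, true)`: Up iff `A ∧ W`, Dn iff `¬A ∧ ¬W`, blocks `k e`, `i e`; 1: `(a, true), (w, true)`: Up iff `W ∧ ¬A`, Dn iff `¬W ∧ A`, blocks `i e`, `k e`; 2: `(w, true), (c, false)`: Up iff
`¬C ∧ ¬W`, Dn iff `C ∧ W`, blocks `k e`, `j e`; 3: `(c, false), (w, false)`: Up iff `¬W ∧ C`, Dn iff `W ∧ ¬C`, blocks `j e`, `k e`. Choose
`ch e = if W then (if A then 0 else 1) else (if C then 3 else 2)`: Up, blocks `k e` and `if t (k e) then i e else j e` (`hs`). Exactly one corner of `e` is Dn, its blocks are `k e` and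
`if t (k e) then j e else i e`. `curv_of_forests` with `hA`, `hB`; `colA` with `O = Unit`.
-/

set_option autoImplicit false

open scoped Classical

namespace Pool.Agent.InjLI

open Pool.Agent.LIA

universe u v

private theorem FouS_alt {I E : Type} {H : I → Type u} [∀ b, Group (H b)] {i j k : E → I}
    (hne : ∀ e, i e ≠ k e ∧ j e ≠ k e) (a : ∀ e, H (i e)) (w : ∀ e, H (k e)) (c : ∀ e, H (j e))
    (e : E) (n : Fin (3 + 1)) : (wd a w c e n).1.1 ≠ (wd a w c e (n + 1)).1.1 := by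
  fin_cases n
  · exact (hne e).1
  · exact (hne e).2.symm
  · exact (hne e).2
  · exact (hne e).1.symm

private theorem FouS_rel {I E : Type} {H : I → Type u} [∀ b, Group (H b)] {i j k : E → I}
    (a : ∀ e, H (i e)) (w : ∀ e, H (k e)) (c : ∀ e, H (j e)) :
    relA (wd a w c) = relB a w c := by
  funext e
  simp [relA, relB, wd, List.ofFn_succ, sg, mul_assoc]
  rfl

/-- the chosen corner -/
private noncomputable def FouS_ch {I E : Type} {H : I → Type u} [∀ b, Group (H b)]
    {i j k : E → I} (a : ∀ e, H (i e)) (w : ∀ e, H (k e)) (c : ∀ e, H (j e))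
    (s : (Σ b, H b) → Bool) (e : E) : Fin (3 + 1) :=
  if s ⟨k e, w e⟩ = true then (if s ⟨i e, a e⟩ = true then 0 else 1)
    else (if s ⟨j e, c e⟩ = true then 3 else 2)

private theorem FouS_up {I E : Type} {H : I → Type u} [∀ b, Group (H b)]
    {i j k : E → I} (a : ∀ e, H (i e)) (w : ∀ e, H (k e)) (c : ∀ e, H (j e))
    (s : (Σ b, H b) → Bool) (e : E) :
    ((wd a w c e (FouS_ch a w c s e)).2 = s (wd a w c e (FouS_ch a w c s e)).1 ∧
      (wd a w c e (FouS_ch a w c s e - 1)).2 = !s (wd a w c e (FouS_ch a w c s e - 1)).1) ∧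
    ((s ⟨k e, w e⟩ = true ∧
      (((wd a w c e (FouS_ch a w c s e)).1.1 = k e ∧
        (wd a w c e (FouS_ch a w c s e - 1)).1.1 = i e) ∨
       ((wd a w c e (FouS_ch a w c s e)).1.1 = i e ∧
        (wd a w c e (FouS_ch a w c s e - 1)).1.1 = k e))) ∨
     (s ⟨k e, w e⟩ = false ∧
      (((wd a w c e (FouS_ch a w c s e)).1.1 = k e ∧
        (wd a w c e (FouS_ch a w c s e - 1)).1.1 = j e) ∨
       ((wd a w c e (FouS_ch a w c s e)).1.1 = j e ∧
        (wd a w c e (FouS_ch a w c s e - 1)).1.1 = k e)))) := by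
  unfold FouS_ch
  cases hW : s ⟨k e, w e⟩ with
  | true =>
    simp only [if_true]
    cases hA : s ⟨i e, a e⟩ with
    | true =>
      simp only [if_true]
      refine ⟨⟨hA.symm, ?_⟩, Or.inl ⟨trivial, Or.inr ⟨rfl, rfl⟩⟩⟩
      show false = !s ⟨k e, w e⟩
      rw [hW]; rfl
    | false =>
      simp only [Bool.false_eq_true, if_false]
      refine ⟨⟨hW.symm, ?_⟩, Or.inl ⟨trivial, Or.inl ⟨rfl, rfl⟩⟩⟩
      show true = !s ⟨i e, a e⟩
      rw [hA]; rfl
  | false =>
    simp only [Bool.false_eq_true, if_false]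
    cases hC : s ⟨j e, c e⟩ with
    | true =>
      simp only [if_true]
      refine ⟨⟨hW.symm, ?_⟩, Or.inr ⟨trivial, Or.inl ⟨rfl, rfl⟩⟩⟩
      show false = !s ⟨j e, c e⟩
      rw [hC]; rfl
    | false =>
      simp only [Bool.false_eq_true, if_false]
      refine ⟨⟨hC.symm, ?_⟩, Or.inr ⟨trivial, Or.inr ⟨rfl, rfl⟩⟩⟩
      show true = !s ⟨k e, w e⟩
      rw [hW]; rfl

/-- the corner which is down -/
private noncomputable def FouS_dc {I E : Type} {H : I → Type u} [∀ b, Group (H b)]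
    {i j k : E → I} (a : ∀ e, H (i e)) (w : ∀ e, H (k e)) (c : ∀ e, H (j e))
    (s : (Σ b, H b) → Bool) (e : E) : Fin (3 + 1) :=
  if s ⟨k e, w e⟩ = true then (if s ⟨j e, c e⟩ = true then 2 else 3)
    else (if s ⟨i e, a e⟩ = true then 1 else 0)

private theorem FouS_dn {I E : Type} {H : I → Type u} [∀ b, Group (H b)]
    {i j k : E → I} (a : ∀ e, H (i e)) (w : ∀ e, H (k e)) (c : ∀ e, H (j e))
    (s : (Σ b, H b) → Bool) (e : E) (n : Fin (3 + 1))
    (h1 : (wd a w c e n).2 = !s (wd a w c e n).1)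
    (h2 : (wd a w c e (n - 1)).2 = s (wd a w c e (n - 1)).1) :
    n = FouS_dc a w c s e ∧
    ((s ⟨k e, w e⟩ = true ∧
      (((wd a w c e n).1.1 = k e ∧ (wd a w c e (n - 1)).1.1 = j e) ∨
       ((wd a w c e n).1.1 = j e ∧ (wd a w c e (n - 1)).1.1 = k e))) ∨
     (s ⟨k e, w e⟩ = false ∧
      (((wd a w c e n).1.1 = k e ∧ (wd a w c e (n - 1)).1.1 = i e) ∨
       ((wd a w c e n).1.1 = i e ∧ (wd a w c e (n - 1)).1.1 = k e)))) := by
  unfold FouS_dc
  fin_cases n
  · have h1' : true = !s ⟨i e, a e⟩ := h1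
    have h2' : false = s ⟨k e, w e⟩ := h2
    have hA : s ⟨i e, a e⟩ = false := by
      cases h : s ⟨i e, a e⟩ with
      | true => rw [h] at h1'; exact absurd h1' (by decide)
      | false => rfl
    rw [← h2', hA]
    exact ⟨rfl, Or.inr ⟨rfl, Or.inr ⟨rfl, rfl⟩⟩⟩
  · have h1' : true = !s ⟨k e, w e⟩ := h1
    have h2' : true = s ⟨i e, a e⟩ := h2
    have hW : s ⟨k e, w e⟩ = false := by
      cases h : s ⟨k e, w e⟩ with
      | true => rw [h] at h1'; exact absurd h1' (by decide)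
      | false => rfl
    rw [hW, ← h2']
    exact ⟨rfl, Or.inr ⟨rfl, Or.inl ⟨rfl, rfl⟩⟩⟩
  · have h1' : false = !s ⟨j e, c e⟩ := h1
    have h2' : true = s ⟨k e, w e⟩ := h2
    have hC : s ⟨j e, c e⟩ = true := by
      cases h : s ⟨j e, c e⟩ with
      | true => rfl
      | false => rw [h] at h1'; exact absurd h1' (by decide)
    rw [← h2', hC]
    exact ⟨rfl, Or.inl ⟨rfl, Or.inr ⟨rfl, rfl⟩⟩⟩
  · have h1' : false = !s ⟨k e, w e⟩ := h1
    have h2' : false = s ⟨j e, c e⟩ := h2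
    have hW : s ⟨k e, w e⟩ = true := by
      cases h : s ⟨k e, w e⟩ with
      | true => rfl
      | false => rw [h] at h1'; exact absurd h1' (by decide)
    rw [hW, ← h2']
    exact ⟨rfl, Or.inl ⟨rfl, Or.inl ⟨rfl, rfl⟩⟩⟩

theorem four_of_signs {I E : Type} [Fintype I] [Fintype E] {H : I → Type u} [∀ b, Group (H b)]
    (hH : ∀ b, LocallyIndicable (H b)) {i j k : E → I} (t : I → Bool)
    (hA : ∀ S : Finset I, S.Nonempty → (Finset.univ.filter fun e =>
      k e ∈ S ∧ (if t (k e) then i e else j e) ∈ S).card < S.card)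
    (hB : ∀ S : Finset I, S.Nonempty → (Finset.univ.filter fun e =>
      k e ∈ S ∧ (if t (k e) then j e else i e) ∈ S).card < S.card)
    (hne : ∀ e, i e ≠ k e ∧ j e ≠ k e) {a : ∀ e, H (i e)} {w : ∀ e, H (k e)} {c : ∀ e, H (j e)}
    {s : (Σ b, H b) → Bool} (hs : ∀ e, s ⟨k e, w e⟩ = t (k e)) (hp : ∀ b, PosH (wd a w c) b s)
    {G : Type u} [Group G] {θ : ∀ b, H b →* G} (hcol : IsCol H (relB a w c) G θ) :
    LocallyIndicable G ∧ ∀ b, Function.Injective (θ b) := by
  classical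
  set P : OW (Σ b, H b) I E := OW.mk Sigma.fst (fun _ => 3) (wd a w c) (FouS_alt hne a w c)
    with hP
  have hCv : P.Curv (fun _ : Unit => s)
      (fun κ => if κ.2 = FouS_ch a w c s κ.1 then 1 else 0) fun _ _ => 1 := by
    apply P.curv_of_forests s (FouS_ch a w c s)
    · intro e
      exact (FouS_up a w c s e).1
    · intro S hS
      refine lt_of_le_of_lt (Finset.card_le_card ?_) (hA S hS)
      intro e he
      obtain ⟨he1, he2⟩ := (Finset.mem_filter.1 he).2
      have he1' : (wd a w c e (FouS_ch a w c s e)).1.1 ∈ S := he1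
      have he2' : (wd a w c e (FouS_ch a w c s e - 1)).1.1 ∈ S := he2
      refine Finset.mem_filter.2 ⟨Finset.mem_univ _, ?_⟩
      rcases (FouS_up a w c s e).2 with ⟨hW, ⟨h3, h4⟩ | ⟨h3, h4⟩⟩ | ⟨hW, ⟨h3, h4⟩ | ⟨h3, h4⟩⟩
      all_goals
        rw [h3] at he1'
        rw [h4] at he2'
        rw [← hs e, hW]
        first
          | exact ⟨he1', by simpa using he2'⟩
          | exact ⟨he2', by simpa using he1'⟩
    · intro S hS
      refine lt_of_le_of_lt ?_ (hB S hS)
      refine Finset.card_le_card_of_injOn (fun κ => κ.1) ?_ ?_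
      · intro κ hκ
        obtain ⟨⟨hd1, hd2⟩, he1, he2⟩ := (Finset.mem_filter.1 (Finset.mem_coe.1 hκ)).2
        obtain ⟨e, n⟩ := κ
        have he1' : (wd a w c e n).1.1 ∈ S := he1
        have he2' : (wd a w c e (n - 1)).1.1 ∈ S := he2
        refine Finset.mem_coe.2 (Finset.mem_filter.2 ⟨Finset.mem_univ _, ?_⟩)
        show k e ∈ S ∧ (if t (k e) = true then j e else i e) ∈ S
        rcases (FouS_dn a w c s e n hd1 hd2).2 with
          ⟨hW, ⟨h3, h4⟩ | ⟨h3, h4⟩⟩ | ⟨hW, ⟨h3, h4⟩ | ⟨h3, h4⟩⟩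
        all_goals
          rw [h3] at he1'
          rw [h4] at he2'
          rw [← hs e, hW]
          first
            | exact ⟨he1', by simpa using he2'⟩
            | exact ⟨he2', by simpa using he1'⟩
      · intro κ hκ κ' hκ' hh
        obtain ⟨⟨hd1, hd2⟩, -⟩ := (Finset.mem_filter.1 (Finset.mem_coe.1 hκ)).2
        obtain ⟨⟨hd1', hd2'⟩, -⟩ := (Finset.mem_filter.1 (Finset.mem_coe.1 hκ')).2
        obtain ⟨e, n⟩ := κ
        obtain ⟨e', n'⟩ := κ'
        have hee : e = e' := hh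
        subst hee
        have h5 := (FouS_dn a w c s e n hd1 hd2).1
        have h6 := (FouS_dn a w c s e n' hd1' hd2').1
        rw [h5, ← h6]
  have hcol' : IsCol H (relA (wd a w c)) G θ := by
    rw [FouS_rel]
    exact hcol
  exact colA hH (FouS_alt hne a w c) hCv (fun b _ _ => hp b) hcol'

end Pool.Agent.InjLI
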