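import Pool.Agent.Lib.InjLI.Cnt
import Pool.Agent.Lib.InjLI.NoE
import Pool.Agent.Lib.InjLI.SplA
import Pool.Agent.Lib.InjLI.SplZ
import Pool.Agent.Lib.InjLI.SplC
import Pool.Agent.Lib.InjLI.SubA
import Pool.Agent.Lib.InjLI.SubN
import Pool.Agent.Lib.InjLI.Glu
import Pool.Agent.Lib.InjLI.SplG

/-!
# Ind : the induction (assembly)

(helper18, problem MP_cf50d6_gt, paper MP_cf50d6_gt_paper18rel.md)

Strong induction on `n = P.mu Γ`, for all `W : Type u` (finite, nonempty) and `Γ`. `P.inn f` is mono (private lemma, by definition).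
* `P.Rdc Γ`: `not_ess` and `pot_of_not_ess`.
* Otherwise there are `p`, `U` nonempty, `U ⊂ P.Jp Γ p`, with less than 2 crossing corners in `P.cor Γ p` (`κ ∈ P.cor Γ p ↔ P.At Γ p κ`).
  - none (`Finset.card_eq_zero`): `exists_closed` gives `T`; `acyc_spl_zero`, `acyc_sub` (for `T` and `Tᶜ`), `cn_sub`, `mu_sub_lt`: by induction both parts have potentials, `potG_sub`,
    `potB_sub`, `potB_spl`. (`↥T` is nonempty by `none`, `↥Tᶜ` by `some p`; `Fintype ↥T` is classical.)
  - one, `κ₀` (`Finset.card_eq_one`): `acyc_spl_one`, `cn_spl_one`, `card_spl` and `sq_spl_lt` (so `mu` is smaller), by induction potentials of the split graph; `potG_spl`, `potB_spl`.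
-/

set_option autoImplicit false

open scoped Classical

namespace Pool.Agent.InjLI

open Pool.Agent.LIA

universe u v

namespace OW

private theorem Ind_mono {X : Type u} {I E : Type} (P : OW X I E) {Q : I → Type v}
    [∀ b, Group (Q b)] (f : ∀ b, X → Q b) : P.Mono (P.inn f) := by
  rintro ρ ⟨b, hb, _⟩
  exact ⟨b, hb⟩

private theorem Ind_step {X : Type u} {I E : Type} (P : OW X I E) [Fintype I] [Fintype E]
    {Q : I → Type v}
    [∀ b, Group (Q b)] (hQ : ∀ b, LocallyIndicable (Q b)) {f : ∀ b, X → Q b} {O : Type} [Fintype O]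
    {s : O → X → Bool} {w : P.Cor → ℝ} {α : I → O → ℝ} (hCv : P.Curv s w α)
    (hP : ∀ b o, α b o ≠ 0 → P.Pos f b (s o)) {G : Type*} [Group G] {g : X → G}
    (θ : ∀ b, Q b →* G) (hθ : ∀ x, θ (P.cl x) (f (P.cl x) x) = g x)
    (hr : ∀ e, FreeGroup.lift g (FreeGroup.mk (List.ofFn (P.a e))) = 1) (n : ℕ) :
    ∀ (W : Type u) (_ : Fintype W) (_ : Nonempty W) (Γ : LG W X), P.mu Γ = n → Cn Γ →
      P.Acyc (P.inn f) Γ → PotG g Γ ∧ P.PotB f Γ := by
  induction n using Nat.strong_induction_on with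
  | _ n ih =>
    intro W hW hW' Γ hn hC hA
    have hM : P.Mono (P.inn f) := Ind_mono P f
    by_cases hR : P.Rdc Γ
    · exact P.pot_of_not_ess hQ θ hθ hC hA (P.not_ess hQ hCv hP hC hA hR)
    · unfold Rdc at hR
      push Not at hR
      obtain ⟨p, U, hU, hU', hlt⟩ := hR
      have hat : ∀ κ, κ ∈ P.cor Γ p ↔ P.At Γ p κ := by
        intro κ
        unfold cor
        simp
      have hcases : ((P.cor Γ p).filter fun κ => P.Cr κ U).card = 0 ∨
          ((P.cor Γ p).filter fun κ => P.Cr κ U).card = 1 := by omega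
      rcases hcases with h | h
      · have h0 : ∀ κ, P.At Γ p κ → ¬ P.Cr κ U := by
          intro κ h1 h2
          have h3 : κ ∈ (P.cor Γ p).filter fun κ => P.Cr κ U :=
            Finset.mem_filter.2 ⟨(hat κ).2 h1, h2⟩
          rw [Finset.card_eq_zero.1 h] at h3
          exact absurd h3 (Finset.notMem_empty _)
        obtain ⟨T, hT1, hT2, hT⟩ := P.exists_closed hM hA h0
        have hA' := P.acyc_spl_zero hM hA h0
        obtain ⟨hC1, hC2⟩ := P.cn_sub hC hT hT1 hT2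
        have hTc : ∀ y x z, (y, x, z) ∈ (P.spl Γ p U).F → (y ∈ Tᶜ ↔ z ∈ Tᶜ) := by
          intro y x z hy
          exact not_congr (hT y x z hy)
        have hA1 := P.acyc_sub hA' hT
        have hA2 := P.acyc_sub hA' hTc
        let f1 : Fintype ↥T := Fintype.ofFinite _
        let f2 : Fintype ↥(Tᶜ) := Fintype.ofFinite _
        obtain ⟨hm1, hm2⟩ := P.mu_sub_lt (Γ := Γ) hU hU' hT1 hT2
        obtain ⟨g1, b1⟩ := ih _ (hn ▸ hm1) ↥T f1 ⟨⟨none, hT1⟩⟩ _ rfl hC1 hA1
        obtain ⟨g2, b2⟩ := ih _ (hn ▸ hm2) ↥(Tᶜ) f2 ⟨⟨some p, hT2⟩⟩ _ rfl hC2 hA2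
        exact ⟨P.potG_sub g hT hT1 hT2 g1 g2, P.potB_spl f (P.potB_sub f hT b1 b2)⟩
      · obtain ⟨κ₀, hκ⟩ := Finset.card_eq_one.1 h
        have h12 : κ₀ ∈ (P.cor Γ p).filter fun κ => P.Cr κ U := by
          rw [hκ]
          exact Finset.mem_singleton_self _
        obtain ⟨h1', h2⟩ := Finset.mem_filter.1 h12
        have h1 := (hat κ₀).1 h1'
        have h3 : ∀ κ, P.At Γ p κ → P.Cr κ U → κ = κ₀ := by
          intro κ h4 h5
          have h6 : κ ∈ (P.cor Γ p).filter fun κ => P.Cr κ U :=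
            Finset.mem_filter.2 ⟨(hat κ).2 h4, h5⟩
          rw [hκ] at h6
          exact Finset.mem_singleton.1 h6
        have hA' := P.acyc_spl_one hM hA h1 h2 h3
        have hC' := P.cn_spl_one hC h1 h2 h3
        have hm : P.mu (P.spl Γ p U) < P.mu Γ := by
          unfold mu
          rw [P.card_spl]
          exact Nat.add_lt_add_left (P.sq_spl_lt h1 h2) _
        obtain ⟨g1, b1⟩ := ih _ (hn ▸ hm) (Option W) inferInstance ⟨none⟩ _ rfl hC' hA'
        exact ⟨P.potG_spl g hr h1 h2 h3 g1, P.potB_spl f b1⟩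

theorem main {X : Type u} {I E : Type} (P : OW X I E) [Fintype I] [Fintype E] {Q : I → Type v}
    [∀ b, Group (Q b)] (hQ : ∀ b, LocallyIndicable (Q b)) {f : ∀ b, X → Q b} {O : Type} [Fintype O]
    {s : O → X → Bool} {w : P.Cor → ℝ} {α : I → O → ℝ} (hCv : P.Curv s w α)
    (hP : ∀ b o, α b o ≠ 0 → P.Pos f b (s o)) {G : Type*} [Group G] {g : X → G}
    (θ : ∀ b, Q b →* G) (hθ : ∀ x, θ (P.cl x) (f (P.cl x) x) = g x)
    (hr : ∀ e, FreeGroup.lift g (FreeGroup.mk (List.ofFn (P.a e))) = 1) (W : Type u) [Fintype W]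
    [Nonempty W] (Γ : LG W X) (hC : Cn Γ) (hA : P.Acyc (P.inn f) Γ) : PotG g Γ ∧ P.PotB f Γ :=
  Ind_step P hQ hCv hP θ hθ hr _ W inferInstance inferInstance Γ rfl hC hA

end OW

end Pool.Agent.InjLI
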