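import Pool.Agent.Lib.InjLI.Defs4

/-!
# ResA : the curvature condition for finite subsystems

(helper18, problem MP_cf50d6_gt, paper MP_cf50d6_gt_paper18rel.md)

`P = OW.mk Sigma.fst m a alt`, `P₀ = OW.mk Sigma.fst _ (ra a I₀ E₀ h) _`. Corners: `ι : P₀.Cor → P.Cor`, `⟨e, c⟩ ↦ ⟨e.1, c⟩`, injective. `P.nxt (ι κ)` is `P₀.nxt κ` with the letter `⟨b, x⟩`, `b : ↥I₀`, replaced by `⟨b.1, x⟩`; the
same for `prv` (by definition). So `P.En (ι κ) b.1 s ↔ P₀.En κ b (fun x => s ⟨x.1.1, x.2⟩)`, `P.Cr (ι κ) U ↔ P₀.Cr κ U₀` if `U₀ = {b | b.1 ∈ U}`.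
* `curv_res`: the first three conditions are clear (`∑ c, w ⟨e.1, c⟩ ≥ 1`). Let `K₀` be `P₀.TwoConn`, `K := K₀.map ι`. `K` is `P.TwoC`: let `U` be nonempty, `U ⊂ P.Bk K`; all elements of `P.Bk K` are in `I₀` and are blocks of `P₀.Bl K₀`;
  `U₀ := {b | b.1 ∈ U}` is nonempty and `⊂ P₀.Bl K₀`; `K.filter (Cr U) = (K₀.filter (Cr U₀)).map ι`. The inequality of `Crv` for `K`: the left side is the one for `K₀` (`Finset.sum_map`); the right side is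
  `∑ b ∈ P.Bk K, ... ≤ ∑ b : ↥I₀, ...` (the map `b ↦ ⟨b, _⟩` from `P.Bk K` to `↥I₀` is injective, all summands are `≥ 0`; `Finset.sum_le_sum_of_subset_of_nonneg` after `Finset.sum_attach`/`Finset.sum_image`).
* `posH_res`: the set for `P₀`, `b` is contained in the set for `P`, `b.1` (`Subsemigroup.closure_mono`; `(ra a I₀ E₀ h e c).1 = ⟨b, x⟩` implies `(a e.1 c).1 = ⟨b.1, x⟩`).
-/

set_option autoImplicit false

open scoped Classical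

namespace Pool.Agent.InjLI

open Pool.Agent.LIA

universe u v

section aux

variable {I E : Type} {H : I → Type u} [∀ b, Group (H b)] {m : E → ℕ}
    {a : ∀ e, Fin (m e + 1) → (Σ b, H b) × Bool}
    (alt : ∀ e c, (a e c).1.1 ≠ (a e (c + 1)).1.1) (I₀ : Finset I) (E₀ : Finset E)
    (h : ∀ e ∈ E₀, ∀ c, (a e c).1.1 ∈ I₀)

/-- the corners of the subsystem as corners of the system -/
private def io : (OW.mk Sigma.fst (fun e : ↥E₀ => m e.1) (ra a I₀ E₀ h) (ra_alt alt I₀ E₀ h)).Cor →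
    (OW.mk Sigma.fst m a alt).Cor := fun κ => ⟨κ.1.1, κ.2⟩

private theorem io_inj : Function.Injective (io alt I₀ E₀ h) := by
  rintro ⟨⟨e, he⟩, c⟩ ⟨⟨e', he'⟩, c'⟩ hh
  have h1 : e = e' := congrArg Sigma.fst hh
  subst h1
  have h2 : c = c' := eq_of_heq (Sigma.mk.inj hh).2
  subst h2
  rfl

private theorem io_En (κ : (OW.mk Sigma.fst (fun e : ↥E₀ => m e.1) (ra a I₀ E₀ h)
      (ra_alt alt I₀ E₀ h)).Cor) (b : ↥I₀) (s : (Σ b, H b) → Bool) :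
    (OW.mk Sigma.fst m a alt).En (io alt I₀ E₀ h κ) b.1 s ↔
      (OW.mk Sigma.fst (fun e : ↥E₀ => m e.1) (ra a I₀ E₀ h)
        (ra_alt alt I₀ E₀ h)).En κ b (fun x => s ⟨x.1.1, x.2⟩) := by
  unfold OW.En
  rw [Subtype.ext_iff, Subtype.ext_iff]
  rfl

private theorem io_Cr (κ : (OW.mk Sigma.fst (fun e : ↥E₀ => m e.1) (ra a I₀ E₀ h)
      (ra_alt alt I₀ E₀ h)).Cor) (U : Finset I) :
    (OW.mk Sigma.fst m a alt).Cr (io alt I₀ E₀ h κ) U ↔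
      (OW.mk Sigma.fst (fun e : ↥E₀ => m e.1) (ra a I₀ E₀ h)
        (ra_alt alt I₀ E₀ h)).Cr κ (Finset.univ.filter fun b : ↥I₀ => b.1 ∈ U) := by
  unfold OW.Cr
  rw [Finset.mem_filter, Finset.mem_filter]
  simp only [Finset.mem_univ, true_and]
  rfl

/-- the blocks -/
private theorem mem_Bk (K : Finset (OW.mk Sigma.fst (fun e : ↥E₀ => m e.1) (ra a I₀ E₀ h)
      (ra_alt alt I₀ E₀ h)).Cor) (b : I) :
    b ∈ (OW.mk Sigma.fst m a alt).Bk (K.map ⟨io alt I₀ E₀ h, io_inj alt I₀ E₀ h⟩) ↔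
      ∃ hb : b ∈ I₀, (⟨b, hb⟩ : ↥I₀) ∈ (OW.mk Sigma.fst (fun e : ↥E₀ => m e.1) (ra a I₀ E₀ h)
        (ra_alt alt I₀ E₀ h)).Bl K := by
  unfold OW.Bk OW.Bl OW.Iv
  simp only [Finset.mem_union, Finset.mem_image, Finset.mem_map, Finset.mem_filter,
    Finset.mem_univ, true_and, Function.Embedding.coeFn_mk, exists_exists_and_eq_and]
  constructor
  · rintro (⟨κ, hκ, rfl⟩ | ⟨κ, hκ, rfl⟩)
    · exact ⟨h κ.1.1 κ.1.2 κ.2, κ, hκ, Or.inl rfl⟩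
    · exact ⟨h κ.1.1 κ.1.2 (κ.2 - 1), κ, hκ, Or.inr rfl⟩
  · rintro ⟨hb, κ, hκ, h1 | h1⟩
    · exact Or.inl ⟨κ, hκ, congrArg Subtype.val h1⟩
    · exact Or.inr ⟨κ, hκ, congrArg Subtype.val h1⟩

end aux

theorem curv_res {I E : Type} {H : I → Type u} [∀ b, Group (H b)] {m : E → ℕ}
    {a : ∀ e, Fin (m e + 1) → (Σ b, H b) × Bool}
    (alt : ∀ e c, (a e c).1.1 ≠ (a e (c + 1)).1.1) {O : Type} [Fintype O]
    {s : O → (Σ b, H b) → Bool} {w : (Σ e : E, Fin (m e + 1)) → ℝ} {α : I → O → ℝ}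
    (hCv : (OW.mk Sigma.fst m a alt).Crv s w α) (I₀ : Finset I) (E₀ : Finset E)
    (h : ∀ e ∈ E₀, ∀ c, (a e c).1.1 ∈ I₀) :
    (OW.mk Sigma.fst (fun e : ↥E₀ => m e.1) (ra a I₀ E₀ h) (ra_alt alt I₀ E₀ h)).Curv
      (fun o x => s o ⟨x.1.1, x.2⟩) (fun κ => w ⟨κ.1.1, κ.2⟩) fun b o => α b.1 o := by
  obtain ⟨h1, h2, h3, h4⟩ := hCv
  refine ⟨fun b o => h1 b.1 o, fun b => h2 b.1, fun e => h3 e.1, fun K₀ hK₀ => ?_⟩
  have hK : (OW.mk Sigma.fst m a alt).TwoC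
      (K₀.map ⟨io alt I₀ E₀ h, io_inj alt I₀ E₀ h⟩) := by
    refine ⟨hK₀.1.map, fun U hU hUB => ?_⟩
    have e1 : ((K₀.map ⟨io alt I₀ E₀ h, io_inj alt I₀ E₀ h⟩).filter
        fun κ => (OW.mk Sigma.fst m a alt).Cr κ U) =
        (K₀.filter fun κ => (OW.mk Sigma.fst (fun e : ↥E₀ => m e.1) (ra a I₀ E₀ h)
          (ra_alt alt I₀ E₀ h)).Cr κ (Finset.univ.filter fun b : ↥I₀ => b.1 ∈ U)).map
          ⟨io alt I₀ E₀ h, io_inj alt I₀ E₀ h⟩ := by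
      rw [Finset.filter_map]
      congr 1
      apply Finset.filter_congr
      intro κ _
      exact io_Cr alt I₀ E₀ h κ U
    rw [e1, Finset.card_map]
    refine hK₀.2 _ ?_ ?_
    · obtain ⟨b, hb⟩ := hU
      obtain ⟨hb', -⟩ := (mem_Bk alt I₀ E₀ h K₀ b).1 (hUB.1 hb)
      exact ⟨⟨b, hb'⟩, Finset.mem_filter.2 ⟨Finset.mem_univ _, hb⟩⟩
    · rw [Finset.ssubset_iff_subset_ne]
      constructor
      · intro b hb
        obtain ⟨-, hb1⟩ := Finset.mem_filter.1 hb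
        obtain ⟨_, hb2⟩ := (mem_Bk alt I₀ E₀ h K₀ b.1).1 (hUB.1 hb1)
        exact hb2
      · intro hne
        apply hUB.2
        intro b hb
        obtain ⟨hb', hb2⟩ := (mem_Bk alt I₀ E₀ h K₀ b).1 hb
        rw [← hne] at hb2
        exact (Finset.mem_filter.1 hb2).2
  have h5 := h4 _ hK
  rw [Finset.sum_map] at h5
  refine h5.trans ?_
  have h6 : (OW.mk Sigma.fst m a alt).Bk (K₀.map ⟨io alt I₀ E₀ h, io_inj alt I₀ E₀ h⟩) ⊆
      (Finset.univ : Finset ↥I₀).map (Function.Embedding.subtype _) := by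
    intro b hb
    obtain ⟨hb', -⟩ := (mem_Bk alt I₀ E₀ h K₀ b).1 hb
    exact Finset.mem_map.2 ⟨⟨b, hb'⟩, Finset.mem_univ _, rfl⟩
  refine (Finset.sum_le_sum_of_subset_of_nonneg h6 fun b _ _ => ?_).trans ?_
  · refine Finset.sum_nonneg fun o _ => ?_
    split_ifs
    · exact h1 b o
    · exact le_rfl
  · rw [Finset.sum_map]
    refine Finset.sum_le_sum fun b _ => Finset.sum_le_sum fun o _ => ?_
    have h7 : (∃ κ ∈ K₀.map ⟨io alt I₀ E₀ h, io_inj alt I₀ E₀ h⟩,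
        (OW.mk Sigma.fst m a alt).En κ ((Function.Embedding.subtype _) b) (s o)) ↔
        ∃ κ ∈ K₀, (OW.mk Sigma.fst (fun e : ↥E₀ => m e.1) (ra a I₀ E₀ h)
          (ra_alt alt I₀ E₀ h)).En κ b (fun x => s o ⟨x.1.1, x.2⟩) := by
      simp only [Finset.mem_map, Function.Embedding.coeFn_mk, exists_exists_and_eq_and]
      refine exists_congr fun κ => and_congr_right fun _ => ?_
      exact io_En alt I₀ E₀ h κ b (s o)
    by_cases h8 : ∃ κ ∈ K₀, (OW.mk Sigma.fst (fun e : ↥E₀ => m e.1) (ra a I₀ E₀ h)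
          (ra_alt alt I₀ E₀ h)).En κ b (fun x => s o ⟨x.1.1, x.2⟩)
    · rw [if_pos (h7.2 h8), if_pos h8]
      exact le_rfl
    · rw [if_neg fun hh => h8 (h7.1 hh), if_neg h8]

theorem posH_res {I E : Type} {H : I → Type u} [∀ b, Group (H b)] {m : E → ℕ}
    {a : ∀ e, Fin (m e + 1) → (Σ b, H b) × Bool} (I₀ : Finset I) (E₀ : Finset E)
    (h : ∀ e ∈ E₀, ∀ c, (a e c).1.1 ∈ I₀) (b : ↥I₀) {s : (Σ b, H b) → Bool}
    (hP : PosH a b.1 s) : PosH (ra a I₀ E₀ h) b fun x => s ⟨x.1.1, x.2⟩ := by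
  intro hh
  refine hP (Subsemigroup.closure_mono ?_ hh)
  rintro g ⟨e, c, x, hx, rfl⟩
  refine ⟨e.1, c, x, ?_, rfl⟩
  have h1 : (ra a I₀ E₀ h e c).1 = (⟨b, x⟩ : Σ b : ↥I₀, H b.1) := hx
  have h2 := congrArg (fun y : (Σ b : ↥I₀, H b.1) => (⟨y.1.1, y.2⟩ : Σ b, H b)) h1
  exact h2

end Pool.Agent.InjLI
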