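import Pool.Agent.Lib.InjLI.ColA
import Pool.Agent.Lib.InjLI.QuoC
import Pool.Agent.Lib.InjLI.ResA
import Pool.Agent.Lib.InjLI.Lim

/-!
# InfA : Theorem A for infinite systems (assembly)

(helper18, problem MP_cf50d6_gt, paper MP_cf50d6_gt_paper18rel.md)

`lim_li`. Given `F`, `E'` put `E₀ = E'`, `I₀ = F ∪ E'.biUnion (fun e => Finset.univ.image fun c => (a e c).1.1)`, `a₀ = ra a I₀ E₀ _`, `G' = QG (relA a₀)`, `ψ b = if h : b ∈ I₀ then qh (relA a₀) ⟨b, h⟩ else 1`.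
* LI and injectivity of `qh (relA a₀) b`: `colA` with `curv_res`, `posH_res`, `isCol_quot` (`Fintype ↥I₀`, `Fintype ↥E₀`).
* relators: for `e ∈ E'`: `Monoid.CoprodI.lift ψ (relA a e) = (List.ofFn fun c => sg (ψ _ (a e c).1.2) (a e c).2).prod` (`map_list_prod`) and `ψ _ (a e c).1.2 = qh (relA a₀) ⟨_, _⟩ (a e c).1.2` (`dif_pos`), so it is
  `Monoid.CoprodI.lift (qh (relA a₀)) (relA a₀ ⟨e, _⟩) = 1`.
* `π'`: `(isCol_quot (relA a₀)).univ G _ (fun b => θ b.1)`; the relators hold by `hcol.rel`.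
-/

set_option autoImplicit false

open scoped Classical

namespace Pool.Agent.InjLI

open Pool.Agent.LIA

universe u v

private theorem infA_lift {I E : Type} {H : I → Type u} [∀ b, Group (H b)] {m : E → ℕ}
    (a : ∀ e, Fin (m e + 1) → (Σ b, H b) × Bool) {G : Type u} [Group G] (θ : ∀ b, H b →* G)
    (e : E) : Monoid.CoprodI.lift θ (relA a e) =
      (List.ofFn fun c => sg (θ (a e c).1.1 (a e c).1.2) (a e c).2).prod := by
  rw [relA, map_list_prod, List.map_ofFn]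
  congr 2
  funext c
  simp only [Function.comp_apply, sg]
  cases (a e c).2
  · simp
  · simp

theorem thmA {I E : Type} {H : I → Type u} [∀ b, Group (H b)]
    (hH : ∀ b, LocallyIndicable (H b)) {m : E → ℕ}
    {a : ∀ e, Fin (m e + 1) → (Σ b, H b) × Bool}
    (alt : ∀ e c, (a e c).1.1 ≠ (a e (c + 1)).1.1) {O : Type} [Fintype O]
    {s : O → (Σ b, H b) → Bool} {w : (Σ e : E, Fin (m e + 1)) → ℝ} {α : I → O → ℝ}
    (hCv : (OW.mk Sigma.fst m a alt).Crv s w α)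
    (hP : ∀ b o, α b o ≠ 0 → PosH a b (s o)) {G : Type u} [Group G] {θ : ∀ b, H b →* G}
    (hcol : IsCol H (relA a) G θ) :
    LocallyIndicable G ∧ ∀ b, Function.Injective (θ b) := by
  refine lim_li hcol fun F E' => ?_
  set I₀ : Finset I := F ∪ E'.biUnion (fun e => Finset.univ.image fun c => (a e c).1.1) with hI₀
  have hF : ∀ b ∈ F, b ∈ I₀ := fun b hb => Finset.mem_union_left _ hb
  have hin : ∀ e ∈ E', ∀ c, (a e c).1.1 ∈ I₀ := by
    intro e he c
    rw [hI₀, Finset.mem_union, Finset.mem_biUnion]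
    exact Or.inr ⟨e, he, Finset.mem_image.2 ⟨c, Finset.mem_univ _, rfl⟩⟩
  have hA := colA (I := ↥I₀) (E := ↥E') (H := fun b : ↥I₀ => H b.1) (fun b => hH b.1)
    (m := fun e : ↥E' => m e.1) (a := ra a I₀ E' hin) (ra_alt alt I₀ E' hin)
    (curv_res alt hCv I₀ E' hin) (fun b o hb => posH_res I₀ E' hin b (hP b.1 o hb))
    (isCol_quot (relA (ra a I₀ E' hin)))
  let ψ : ∀ b, H b →* QG (relA (ra a I₀ E' hin)) := fun b =>
    if h : b ∈ I₀ then qh (relA (ra a I₀ E' hin)) ⟨b, h⟩ else 1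
  have hψ : ∀ b (h : b ∈ I₀), ψ b = qh (relA (ra a I₀ E' hin)) ⟨b, h⟩ := fun b h => dif_pos h
  obtain ⟨π', hπ'⟩ := (isCol_quot (relA (ra a I₀ E' hin))).univ G inferInstance
    (fun b => θ b.1) (fun e => by
      have h1 := hcol.rel e.1
      rw [infA_lift] at h1 ⊢
      exact h1)
  refine ⟨QG (relA (ra a I₀ E' hin)), inferInstance, ψ, π', hA.1, ?_, ?_, ?_⟩
  · intro e he
    have h1 := (isCol_quot (relA (ra a I₀ E' hin))).rel ⟨e, he⟩
    rw [infA_lift] at h1 ⊢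
    rw [← h1]
    congr 2
    funext c
    rw [hψ _ (hin e he c)]
    rfl
  · intro b hb
    rw [hψ b (hF b hb)]
    exact hA.2 ⟨b, hF b hb⟩
  · intro b hb x
    rw [hψ b (hF b hb)]
    exact hπ' ⟨b, hF b hb⟩ x

end Pool.Agent.InjLI
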