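import Pool.Agent.Lib.InjLI.ThmB
import Pool.Agent.Lib.InjLI.Defs4
import Pool.Agent.Lib.InjLI.Lim

/-!
# InfB : Theorem B for infinite systems (assembly)

(helper18, problem MP_cf50d6_gt, paper MP_cf50d6_gt_paper18rel.md)

`lim_li`. Given `F`, `E'` put `U = F ∪ E'.image i ∪ E'.image j ∪ E'.image k`, `cl b = decide (b ∈ U)` (with values in `Bool`), `G' = Qc cl i j k a w c true`, `ψ b = if h : cl b = true then qh (ru cl i j k a w c true) ⟨b, h⟩ else 1`.
* `Cls cl true` is finite (it is the set `U`), `Inr cl i j k true` is finite (`k` maps it injectively to `Cls cl true`). `thmB` for `iu`, `ju`, `ku` (`isCol_quot`): `ku` is injective; `Sparse`: for a nonempty `U' : Finset (Cls cl true)` the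
  edges inside `U'` are mapped injectively by `e ↦ e.1` into the set `{e | i e ∈ U'' ∧ j e ∈ U'' ∧ k e ∈ U''}`, `U'' = U'.map (Function.Embedding.subtype _)`, which is finite (`k` injective), so the number is `≤ ncard < U''.card = U'.card`
  (`Set.ncard_image_of_injective`, `Set.ncard_le_ncard`, `Set.ncard_eq_toFinset_card'`). So `G'` is LI and the `qh (ru ..) b` are injective.
* relators: for `e ∈ E'` the ends and the label are in the class; `Monoid.CoprodI.lift ψ (relB a w c e)` is `Monoid.CoprodI.lift (qh (ru ..)) (ru .. ⟨e, _⟩) = 1` (`Monoid.CoprodI.lift_of`, `dif_pos`).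
* `π'`: `(isCol_quot _).univ G _ (fun b => θ b.1)`, the relators hold by `hcol.rel`.
-/

set_option autoImplicit false

open scoped Classical

namespace Pool.Agent.InjLI

open Pool.Agent.LIA

universe u v

private theorem infB_rel {I E : Type} {H : I → Type u} [∀ b, Group (H b)] {i j k : E → I}
    (a : ∀ e, H (i e)) (w : ∀ e, H (k e)) (c : ∀ e, H (j e)) {K : Type u} [Group K]
    (φ : ∀ b, H b →* K) (e : E) : Monoid.CoprodI.lift φ (relB a w c e) =
      φ (i e) (a e) * φ (k e) (w e) * (φ (j e) (c e))⁻¹ * (φ (k e) (w e))⁻¹ := by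
  rw [relB, map_mul, map_mul, map_mul, map_inv, map_inv, Monoid.CoprodI.lift_of,
    Monoid.CoprodI.lift_of, Monoid.CoprodI.lift_of]

private theorem infB_ru {I E : Type} {I' : Type} {H : I → Type u} [∀ b, Group (H b)]
    {i j k : E → I} (cl : I → I')
    (a : ∀ e, H (i e)) (w : ∀ e, H (k e)) (c : ∀ e, H (j e)) (u : I') {K : Type u} [Group K]
    (φ : ∀ b : Cls cl u, H b.1 →* K) (e : Inr cl i j k u) :
    Monoid.CoprodI.lift φ (ru cl i j k a w c u e) =
      φ ⟨i e.1, e.2.1⟩ (a e.1) * φ ⟨k e.1, e.2.2.2⟩ (w e.1) *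
        (φ ⟨j e.1, e.2.2.1⟩ (c e.1))⁻¹ * (φ ⟨k e.1, e.2.2.2⟩ (w e.1))⁻¹ :=
  infB_rel (H := fun b : Cls cl u => H b.1) (i := iu cl i j k u) (j := ju cl i j k u)
    (k := ku cl i j k u) (fun e => a e.1) (fun e => w e.1) (fun e => c e.1) φ e

private theorem infB_ku {I E : Type} {I' : Type} {i j k : E → I} (hk : Function.Injective k)
    (cl : I → I') (u : I') : Function.Injective (ku cl i j k u) := by
  intro e e' h
  have h2 : k e.1 = k e'.1 := congrArg Subtype.val h
  exact Subtype.ext (hk h2)

private theorem infB_EU {I E : Type} [Fintype E] {i j k : E → I} {U : Finset I} {e : E}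
    (h : e ∈ EU i j k U) : i e ∈ U ∧ j e ∈ U ∧ k e ∈ U := by
  unfold EU at h
  exact (Finset.mem_filter.1 h).2

private theorem infB_sparse {I E : Type} {I' : Type} {i j k : E → I}
    (hk : Function.Injective k) (hS : SparseI i j k) (cl : I → I') (u : I')
    [Fintype (Inr cl i j k u)] :
    Sparse (iu cl i j k u) (ju cl i j k u) (ku cl i j k u) := by
  intro U' hU'
  have h1 := hS (U'.map (Function.Embedding.subtype _)) (hU'.map)
  rw [Finset.card_map] at h1
  refine lt_of_le_of_lt ?_ h1
  have hfin : {e | i e ∈ U'.map (Function.Embedding.subtype _) ∧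
      j e ∈ U'.map (Function.Embedding.subtype _) ∧
      k e ∈ U'.map (Function.Embedding.subtype _)}.Finite := by
    refine Set.Finite.of_injOn (f := k) (t := (U'.map (Function.Embedding.subtype _) : Set I))
      ?_ hk.injOn (Finset.finite_toSet _)
    intro e he
    exact he.2.2
  rw [Set.ncard_eq_toFinset_card _ hfin]
  refine Finset.card_le_card_of_injOn (fun e => e.1) ?_ ?_
  · intro e he
    obtain ⟨e1, e2, e3⟩ := infB_EU (Finset.mem_coe.1 he)
    rw [Finset.mem_coe, Set.Finite.mem_toFinset]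
    refine ⟨?_, ?_, ?_⟩
    · exact Finset.mem_map.2 ⟨_, e1, rfl⟩
    · exact Finset.mem_map.2 ⟨_, e2, rfl⟩
    · exact Finset.mem_map.2 ⟨_, e3, rfl⟩
  · intro e _ e' _ h
    exact Subtype.ext h

theorem thmBI {I E : Type} {H : I → Type u} [∀ b, Group (H b)]
    (hH : ∀ b, LocallyIndicable (H b)) {i j k : E → I} (hk : Function.Injective k)
    (hS : SparseI i j k) {a : ∀ e, H (i e)} {w : ∀ e, H (k e)} {c : ∀ e, H (j e)}
    (ha : ∀ e, a e ≠ 1) (hw : ∀ e, w e ≠ 1) (hc : ∀ e, c e ≠ 1) {G : Type u} [Group G]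
    {θ : ∀ b, H b →* G} (hcol : IsCol H (relB a w c) G θ) :
    LocallyIndicable G ∧ ∀ b, Function.Injective (θ b) := by
  refine lim_li hcol fun F E' => ?_
  set U : Finset I := F ∪ E'.image i ∪ E'.image j ∪ E'.image k with hU
  let cl : I → Bool := fun b => decide (b ∈ U)
  have hcl : ∀ b, cl b = true ↔ b ∈ U := fun b => decide_eq_true_iff
  have hfin : Finite (Cls cl true) := by
    refine Finite.of_injective (fun b : Cls cl true => (⟨b.1, (hcl b.1).1 b.2⟩ : ↥U)) ?_
    intro b b' h
    exact Subtype.ext (congrArg (fun z : ↥U => z.1) h)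
  have : Fintype (Cls cl true) := Fintype.ofFinite _
  have hfin2 : Finite (Inr cl i j k true) := Finite.of_injective _ (infB_ku hk cl true)
  have : Fintype (Inr cl i j k true) := Fintype.ofFinite _
  have hB := thmB (I := Cls cl true) (E := Inr cl i j k true) (H := fun b => H b.1)
    (fun b => hH b.1) (i := iu cl i j k true) (j := ju cl i j k true) (k := ku cl i j k true)
    (infB_ku hk cl true) (infB_sparse hk hS cl true) (a := fun e => a e.1) (w := fun e => w e.1)
    (c := fun e => c e.1) (fun e => ha e.1) (fun e => hw e.1) (fun e => hc e.1)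
    (G := Qc cl i j k a w c true) (θ := qh (ru cl i j k a w c true))
    (isCol_quot (ru cl i j k a w c true))
  obtain ⟨π', hπ'⟩ := (isCol_quot (ru cl i j k a w c true)).univ G inferInstance
    (fun b => θ b.1) (fun e => by
      rw [infB_ru, ← infB_rel a w c θ]
      exact hcol.rel e.1)
  have hψ : ∀ (b : I) (h : cl b = true),
      (if h : cl b = true then qh (ru cl i j k a w c true) ⟨b, h⟩ else 1) =
        qh (ru cl i j k a w c true) ⟨b, h⟩ := fun b h => dif_pos h
  refine ⟨Qc cl i j k a w c true, inferInstance,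
    fun b => if h : cl b = true then qh (ru cl i j k a w c true) ⟨b, h⟩ else 1, π', hB.1, ?_, ?_,
    ?_⟩
  · intro e he
    have h1 : cl (i e) = true := (hcl _).2 (by
      rw [hU]
      simp only [Finset.mem_union, Finset.mem_image]
      exact Or.inl (Or.inl (Or.inr ⟨e, he, rfl⟩)))
    have h2 : cl (j e) = true := (hcl _).2 (by
      rw [hU]
      simp only [Finset.mem_union, Finset.mem_image]
      exact Or.inl (Or.inr ⟨e, he, rfl⟩))
    have h3 : cl (k e) = true := (hcl _).2 (by
      rw [hU]
      simp only [Finset.mem_union, Finset.mem_image]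
      exact Or.inr ⟨e, he, rfl⟩)
    rw [infB_rel, hψ _ h1, hψ _ h2, hψ _ h3]
    rw [← (isCol_quot (ru cl i j k a w c true)).rel ⟨e, h1, h2, h3⟩, infB_ru]
  · intro b hb
    have h1 : cl b = true := (hcl _).2 (by
      rw [hU]
      simp only [Finset.mem_union]
      exact Or.inl (Or.inl (Or.inl hb)))
    simp only [hψ _ h1]
    exact hB.2 _
  · intro b hb x
    have h1 : cl b = true := (hcl _).2 (by
      rw [hU]
      simp only [Finset.mem_union]
      exact Or.inl (Or.inl (Or.inl hb)))
    simp only [hψ _ h1]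
    exact hπ' ⟨b, h1⟩ x

end Pool.Agent.InjLI
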