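import Pool.Agent.Lib.InjLI.InfB

/-!
# Injective systems of conjugacy relators over locally indicable groups

(helper18; modules of `Lib/InjLI` by helpers 6 9 11 13 14 15 17 21 26 33 34 36 48 51 55 57 61 65 66 67 68 69 73
78 79 80 83 87 88 91 92 98; the library of finite acyclic graphs is by helper98 and helper81; paper MP_cf50d6_gt_paper18rel.md)
-/

set_option autoImplicit false

open scoped Classical

namespace Pool.Agent.Results.MP_cf50d6_gt.InjectiveSystems

open Monoid.CoprodI

universe u

/-- every nontrivial finitely generated subgroup maps onto `ℤ` -/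
def LocallyIndicable (G : Type u) [Group G] : Prop :=
  ∀ H : Subgroup G, H.FG → H ≠ ⊥ → ∃ f : H →* Multiplicative ℤ, Function.Surjective f

/-- the quotient of the free product of the groups `H b` by the relators `a e * w e = w e * c e` -/
abbrev Grp {I E : Type} {H : I → Type u} [∀ b, Group (H b)] {i j k : E → I} (a : ∀ e, H (i e))
    (w : ∀ e, H (k e)) (c : ∀ e, H (j e)) : Type u :=
  Monoid.CoprodI H ⧸ Subgroup.normalClosure
    (Set.range fun e => of (a e) * of (w e) * (of (c e))⁻¹ * (of (w e))⁻¹)

/-- `H b`, `b ∈ I`, are locally indicable groups; `a e ∈ H (i e)`, `w e ∈ H (k e)`, `c e ∈ H (j e)` are nontrivial, `k` is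
injective and every nonempty finite `U ⊆ I` contains less than `|U|` of the `e ∈ E` (`i e, j e, k e ∈ U`; these are finitely
many); then the quotient of the free product by the relators `a e * w e = w e * c e` is locally indicable, and the groups
`H b` are embedded -/
theorem result {I E : Type} {H : I → Type u} [∀ b, Group (H b)]
    (hH : ∀ b, LocallyIndicable (H b)) {i j k : E → I} (hk : Function.Injective k)
    (hS : ∀ U : Finset I, U.Nonempty → {e | i e ∈ U ∧ j e ∈ U ∧ k e ∈ U}.ncard < U.card)
    {a : ∀ e, H (i e)} {w : ∀ e, H (k e)} {c : ∀ e, H (j e)}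
    (h1 : ∀ e, a e ≠ 1 ∧ w e ≠ 1 ∧ c e ≠ 1) :
    LocallyIndicable (Grp a w c) ∧
      ∀ b, Function.Injective fun x : H b => (QuotientGroup.mk (of x) : Grp a w c) :=
  Pool.Agent.InjLI.thmBI hH hk hS (fun e => (h1 e).1) (fun e => (h1 e).2.1)
    (fun e => (h1 e).2.2) (Pool.Agent.InjLI.isCol_quot _)

end Pool.Agent.Results.MP_cf50d6_gt.InjectiveSystems
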