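import Pool.Agent.Lib.InjLI.Defs

/-!
# KTwo : the blocks are independent

(helper18, problem MP_cf50d6_gt, paper MP_cf50d6_gt_paper18rel.md)

Linear map from `∀ b, (P.bg Γ b).Zc (P.innb f b)` to `Γ.Zc (P.inn f)`: `(c b)_b ↦ fun y : ↥Γ.F => c (cl y.1.2.1) ⟨y.1, _⟩` (`mem_bg`; the edge `y` is an edge of the graph of its
block). It has values in `Zc (inn f)`: let `ρ ∈ innb f b` and `Γ.Walk v ρ.toWord v`. All letters of the word are in `b`, so the walk is a walk of `P.bg Γ b` and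
`Γ.trSum (Γ.ext0 c) v ρ.toWord = (P.bg Γ b).trSum ((P.bg Γ b).ext0 (c b)) v ρ.toWord` (private lemma by induction on a word with letters in `b`: a step of `Γ` with such a letter is a step
of `P.bg Γ b`; `LG.trSum_cons` on both sides; on edges of the block `b` the two extensions by zero agree, `dif_pos`), which is 0. It is injective (an edge of `P.bg Γ b` is an edge of
`Γ` with block `b`). So `∑ b, finrank (...) = finrank (∀ b, ...) ≤ finrank (Γ.Zc (P.inn f))` (`Module.finrank_pi_fintype`, `LinearMap.finrank_le_finrank_of_injective`;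
everything is finite dimensional as a submodule of functions on a finite set).
-/

set_option autoImplicit false

open scoped Classical

namespace Pool.Agent.InjLI

open Pool.Agent.LIA

universe u v

namespace OW

variable {X : Type u} {I E : Type} {W : Type*} (P : OW X I E)


private theorem KTwo_step {Γ : LG W X} {b : I} {u v : W} {l : X × Bool} (hl : P.cl l.1 = b)
    (h : Γ.Step u l v) : (P.bg Γ b).Step u l v := by
  unfold LG.Step at h ⊢
  split_ifs with h1
  · rw [if_pos h1] at h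
    exact P.mem_bg.2 ⟨h, hl⟩
  · rw [if_neg h1] at h
    exact P.mem_bg.2 ⟨h, hl⟩

private theorem KTwo_walk {Γ : LG W X} {b : I} (L : List (X × Bool))
    (hL : ∀ s ∈ L, P.cl s.1 = b) : ∀ u v, Γ.Walk u L v → (P.bg Γ b).Walk u L v := by
  induction L with
  | nil => intro u v h; exact h
  | cons l L ih =>
    intro u v h
    obtain ⟨w, h1, h2⟩ := h
    exact ⟨w, P.KTwo_step (hL l (List.mem_cons_self ..)) h1,
      ih (fun s hs => hL s (List.mem_cons_of_mem _ hs)) w v h2⟩

private theorem KTwo_tr {Γ : LG W X} {b : I} (F G : W × X × W → ℚ)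
    (hFG : ∀ u x v, (u, x, v) ∈ Γ.F → P.cl x = b → F (u, x, v) = G (u, x, v))
    (L : List (X × Bool)) (hL : ∀ s ∈ L, P.cl s.1 = b) :
    ∀ u v, Γ.Walk u L v → Γ.trSum F u L = (P.bg Γ b).trSum G u L := by
  induction L with
  | nil => intro u v _; rw [LG.trSum_nil, LG.trSum_nil]
  | cons l L ih =>
    intro u v h
    obtain ⟨w, h1, h2⟩ := h
    have hl : P.cl l.1 = b := hL l (List.mem_cons_self ..)
    rw [LG.trSum_cons _ _ _ h1, LG.trSum_cons _ _ _ (P.KTwo_step hl h1),
      ih (fun s hs => hL s (List.mem_cons_of_mem _ hs)) w v h2]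
    have h3 : (if l.2 then F (u, l.1, w) else - F (w, l.1, u)) =
        if l.2 then G (u, l.1, w) else - G (w, l.1, u) := by
      unfold LG.Step at h1
      by_cases h4 : l.2 = true
      · rw [if_pos h4] at h1
        rw [if_pos h4, if_pos h4, hFG _ _ _ h1 hl]
      · rw [if_neg h4] at h1
        rw [if_neg h4, if_neg h4, hFG _ _ _ h1 hl]
    rw [h3]

private theorem KTwo_mem {Γ : LG W X} (y : ↥Γ.F) : y.1 ∈ (P.bg Γ (P.cl y.1.2.1)).F :=
  P.mem_bg.2 ⟨y.2, rfl⟩

private theorem KTwo_zc {Q : I → Type v} [∀ b, Group (Q b)] (f : ∀ b, X → Q b) (Γ : LG W X)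
    (c : ∀ b, ↥((P.bg Γ b).Zc (P.innb f b))) :
    (fun y : ↥Γ.F => (c (P.cl y.1.2.1)).1 ⟨y.1, P.KTwo_mem y⟩) ∈ Γ.Zc (P.inn f) := by
  intro ρ hρ v hv
  obtain ⟨b, hb⟩ := hρ
  rw [P.KTwo_tr _ ((P.bg Γ b).ext0 (c b).1) _ ρ.toWord hb.1 v v hv]
  · exact (c b).2 ρ hb v (P.KTwo_walk ρ.toWord hb.1 v v hv)
  · intro u x w h hx
    subst hx
    unfold LG.ext0
    rw [dif_pos h, dif_pos (P.mem_bg.2 ⟨h, rfl⟩)]

/-- the cochains of the blocks give a cochain of the graph -/
private noncomputable def KTwo_map {Q : I → Type v} [∀ b, Group (Q b)] (f : ∀ b, X → Q b)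
    (Γ : LG W X) :
    (∀ b, ↥((P.bg Γ b).Zc (P.innb f b))) →ₗ[ℚ] ↥(Γ.Zc (P.inn f)) where
  toFun c := ⟨_, P.KTwo_zc f Γ c⟩
  map_add' _ _ := rfl
  map_smul' _ _ := rfl

private theorem KTwo_inj {Q : I → Type v} [∀ b, Group (Q b)] (f : ∀ b, X → Q b)
    (Γ : LG W X) : Function.Injective (P.KTwo_map f Γ) := by
  intro c d h
  funext b
  refine Subtype.ext ?_
  funext y
  obtain ⟨⟨p, x, q⟩, hy⟩ := y
  obtain ⟨h1, h2⟩ := P.mem_bg.1 hy
  subst h2
  have h3 := congrFun (congrArg Subtype.val h) ⟨(p, x, q), h1⟩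
  exact h3

theorem sum_finrank_le [Fintype I] {Q : I → Type v} [∀ b, Group (Q b)] (f : ∀ b, X → Q b)
    (Γ : LG W X) :
    ∑ b, Module.finrank ℚ ((P.bg Γ b).Zc (P.innb f b)) ≤ Module.finrank ℚ (Γ.Zc (P.inn f)) := by
  rw [← Module.finrank_pi_fintype]
  exact LinearMap.finrank_le_finrank_of_injective (P.KTwo_inj f Γ)

end OW

end Pool.Agent.InjLI
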