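import Pool.Agent.Lib.InjLI.Defs2
import Pool.Agent.Lib.LOTI.LDefs
import Pool.Agent.Lib.TwLI.VFree
import Pool.Agent.Lib.MP_cf50d6_gt.Push

/-!
# Lot : the group of a labelled oriented tree as a quotient of a free product of infinite cyclic groups

(helper18, problem MP_cf50d6_gt, paper MP_cf50d6_gt_paper18rel.md)

`H v = Multiplicative ℤ` for all `v`, `θ v = zpowersHom _ (PresentedGroup.of v)`, `a e = w e = c e = Multiplicative.ofAdd 1`.
* `rel`: `Monoid.CoprodI.lift_of`, `zpowersHom_apply`: the element is `x_i x_k x_j⁻¹ x_k⁻¹`, which is 1 in the group (`PresentedGroup.one_of_mem` for the relator `x_i x_k (x_k x_j)⁻¹`).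
* `gen`: the group is generated by the `PresentedGroup.of v` (`PresentedGroup.closure_range_of`), which are in the ranges.
* `univ`: `PresentedGroup.toGroup` for `v ↦ φ v (ofAdd 1)`; the relators hold by hypothesis; `Φ (θ v h) = φ v h`: both are homomorphisms of `h : Multiplicative ℤ` which agree at `ofAdd 1`
  (`MonoidHom.ext_mint`).
* `li_int`: a nontrivial subgroup of the infinite cyclic group is infinite cyclic: `Multiplicative ℤ` is (isomorphic to) a free group on one generator, see `li_freeGroup` in `Lib/TwLI/VFree.lean` and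
  `LocallyIndicable.of_injective` in `Lib/MP_cf50d6_gt/Push.lean`; or directly: `Int.subgroup_cyclic`.
-/

set_option autoImplicit false

open scoped Classical

namespace Pool.Agent.InjLI

open Pool.Agent.LIA

universe u v

theorem isCol_lot {V E : Type} [Fintype V] [Fintype E] (Γ : Pool.Agent.LOTI.LOT V E) :
    IsCol (fun _ : V => Multiplicative ℤ)
      (relB (H := fun _ : V => Multiplicative ℤ) (i := Γ.init) (j := Γ.term) (k := Γ.lab)
        (fun _ => Multiplicative.ofAdd 1) (fun _ => Multiplicative.ofAdd 1)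
        fun _ => Multiplicative.ofAdd 1) Γ.Grp
      fun v => zpowersHom Γ.Grp (PresentedGroup.of v) := by
  have hx : ∀ v : V, zpowersHom Γ.Grp (PresentedGroup.of v) (Multiplicative.ofAdd 1) =
      PresentedGroup.of v := by
    intro v
    simp [zpowersHom_apply]
  refine ⟨?_, ?_, ?_⟩
  · intro e
    unfold relB
    simp only [map_mul, map_inv, Monoid.CoprodI.lift_of, hx]
    have h1 : PresentedGroup.mk Γ.rels (FreeGroup.of (Γ.init e) * FreeGroup.of (Γ.lab e) *
        (FreeGroup.of (Γ.lab e) * FreeGroup.of (Γ.term e))⁻¹) = 1 :=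
      PresentedGroup.one_of_mem ⟨e, rfl⟩
    rw [map_mul, map_mul, map_inv, map_mul, mul_inv_rev, ← mul_assoc] at h1
    exact h1
  · rw [eq_top_iff, ← PresentedGroup.closure_range_of Γ.rels, Subgroup.closure_le]
    rintro _ ⟨v, rfl⟩
    exact Subgroup.mem_iSup_of_mem v ⟨Multiplicative.ofAdd 1, hx v⟩
  · intro K _ φ h
    have h2 : ∀ r ∈ Γ.rels, FreeGroup.lift (fun v => φ v (Multiplicative.ofAdd 1)) r = 1 := by
      rintro r ⟨e, rfl⟩
      have h3 := h e
      unfold relB at h3
      simp only [map_mul, map_inv, Monoid.CoprodI.lift_of] at h3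
      simp only [map_mul, map_inv, FreeGroup.lift_apply_of, mul_inv_rev]
      rw [← mul_assoc]
      exact h3
    refine ⟨PresentedGroup.toGroup h2, ?_⟩
    intro v z
    have h4 : (PresentedGroup.toGroup h2).comp (zpowersHom Γ.Grp (PresentedGroup.of v)) = φ v := by
      refine MonoidHom.ext_mint ?_
      rw [MonoidHom.comp_apply, hx v, PresentedGroup.toGroup.of]
    exact DFunLike.congr_fun h4 z

theorem li_int : LocallyIndicable (Multiplicative ℤ) := by
  refine LocallyIndicable.of_injective (zpowersHom (FreeGroup Unit) (FreeGroup.of ())) ?_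
    (li_freeGroup Unit)
  rw [injective_iff_map_eq_one]
  intro a ha
  have h1 : FreeGroup.lift (fun _ : Unit => Multiplicative.ofAdd (1 : ℤ))
      (zpowersHom (FreeGroup Unit) (FreeGroup.of ()) a) = 1 := by
    rw [ha, map_one]
  rw [zpowersHom_apply, map_zpow, FreeGroup.lift_apply_of, ← ofAdd_zsmul] at h1
  simpa using h1

end Pool.Agent.InjLI
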