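import Pool.Agent.Lib.InjLI.JpB

/-!
# Mx : the top vertex of a good component

(helper18, problem MP_cf50d6_gt, paper MP_cf50d6_gt_paper18rel.md)

`Y := {p ∈ C | ∃ κ, P.At Γ p κ ∧ P.Iv κ b}`.
* CASE `Y` EMPTY. Take `p ∈ C` (`LG.nonempty_of_mem_comps`). If `b ∉ Jp Γ p` for some `p ∈ C`, this `p` works (an `En κ b s` gives `Iv κ b`, so `p ∈ Y`). Suppose `b ∈ Jp Γ p` for
  all `p ∈ C`. Then no `p ∈ C` is essential (`exists_iv`), so `Jp Γ p = {b}` (`card ≤ 1`). `C` is closed under the edges of `Γ`: for `(u, x, v) ∈ Γ.F`, `u ∈ C`: `cl x ∈ Jp Γ u`, so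
  `cl x = b`, the edge is in `P.bg Γ b`, and `v ∈ C` (`LG.mem_of_edge`); the same for `v ∈ C`. By `hC` every vertex is in `C`, also the essential one. Contradiction.
* CASE `Y` NONEMPTY. `φ` = the potential on `C`, `T` = the subsemigroup of `Pos`; `u ⊲ v :⟺ (φ u)⁻¹ * φ v ∈ T`: transitive (`(φ u)⁻¹ φ w = (φ u)⁻¹ φ v * (φ v)⁻¹ φ w`), irreflexive by
  `hP`. `Y` is finite, so it has an element `p` with no `v ∈ Y`, `p ⊲ v` (for instance `Finite.wellFounded_of_trans_of_irrefl` for the reversed relation on `↥Y`, `WellFounded.has_min`).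
  `p` is essential by `at_ess`. Suppose `P.At Γ p κ` with the polygon `q`, `q κ.2 = p`, and `P.En κ b s`. First alternative: the step `κ.2` goes from `p` to `v := q (κ.2 + 1)` with
  the letter `(x, s x)`, `x = (nxt κ).1`. If `s x = true`: `(p, x, v) ∈ Γ.F`, `φ v = φ p * f b x`; if `s x = false`: `(v, x, p) ∈ Γ.F`, `φ p = φ v * f b x`, `φ v = φ p * (f b x)⁻¹`. In
  both cases `(φ p)⁻¹ * φ v ∈ T`. (The edge is in `P.bg Γ b`; `v ∈ C` by `LG.mem_of_edge`; `PotIn` gives the equation for an edge `(u, x, w)` with `u ∈ C`.)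
  `v ∈ Y`: the corner `⟨κ.1, κ.2 + 1⟩` occurs at `v` with `prv = nxt κ`. Second alternative: the letter `prv κ = (x, !s x)` is read from `v := q (κ.2 - 1)` to `p`; if `s x = true` this is
  the edge `(p, x, v)`, if `s x = false` the edge `(v, x, p)`; `v ∈ Y`: the corner `⟨κ.1, κ.2 - 1⟩` has `nxt = prv κ`. So `p ⊲ v`: contradiction.
-/

set_option autoImplicit false

open scoped Classical

namespace Pool.Agent.InjLI

open Pool.Agent.LIA

universe u v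

namespace OW

variable {X : Type u} {I E : Type} {W : Type*} (P : OW X I E)


theorem exists_top [Fintype I] [Fintype E] [Fintype W] {Q : I → Type v} [∀ b, Group (Q b)]
    {f : ∀ b, X → Q b} {Γ : LG W X} (hC : Cn Γ) (hR : P.Rdc Γ) (hE : ∃ p, P.Ess Γ p) {b : I}
    {s : X → Bool} (hP : P.Pos f b s) {C : Finset W} (hCc : C ∈ (P.bg Γ b).comps)
    (hpot : (P.bg Γ b).PotIn (f b) C) :
    ∃ p ∈ C, (b ∉ P.Jp Γ p ∨ P.Ess Γ p) ∧ ∀ κ, P.At Γ p κ → ¬ P.En κ b s := by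
  have hEnIv : ∀ κ, P.En κ b s → P.Iv κ b := by
    rintro κ (⟨h, _⟩ | ⟨h, _⟩)
    · exact Or.inl h
    · exact Or.inr h
  by_cases hY : ∃ p ∈ C, ∃ κ, P.At Γ p κ ∧ P.Iv κ b
  · obtain ⟨φ, hφ⟩ := hpot
    unfold Pos at hP
    set T := Subsemigroup.closure {h | ∃ e c, P.cl (P.a e c).1 = b ∧
      h = if s (P.a e c).1 then f b (P.a e c).1 else (f b (P.a e c).1)⁻¹} with hT
    have hup : ∀ (p v : W) (e : E) (c : Fin (P.m e + 1)), p ∈ C → P.cl (P.a e c).1 = b →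
        Γ.Step p ((P.a e c).1, s (P.a e c).1) v → v ∈ C ∧ (φ p)⁻¹ * φ v ∈ T := by
      intro p v e c hp hb hst
      have hTm : (if s (P.a e c).1 then f b (P.a e c).1 else (f b (P.a e c).1)⁻¹) ∈ T :=
        Subsemigroup.subset_closure ⟨e, c, hb, rfl⟩
      unfold LG.Step at hst
      cases hs : s (P.a e c).1
      · rw [hs] at hst hTm
        simp only [Bool.false_eq_true, if_false] at hst hTm
        have h1 : (v, (P.a e c).1, p) ∈ (P.bg Γ b).F := P.mem_bg.2 ⟨hst, hb⟩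
        have hv : v ∈ C := (LG.mem_of_edge hCc h1).2 hp
        refine ⟨hv, ?_⟩
        rw [hφ _ _ _ h1 hv]
        simpa using hTm
      · rw [hs] at hst hTm
        simp only [if_true] at hst hTm
        have h1 : (p, (P.a e c).1, v) ∈ (P.bg Γ b).F := P.mem_bg.2 ⟨hst, hb⟩
        have hv : v ∈ C := (LG.mem_of_edge hCc h1).1 hp
        refine ⟨hv, ?_⟩
        rw [hφ _ _ _ h1 hp]
        simpa using hTm
    let Y : Set W := {p | p ∈ C ∧ ∃ κ, P.At Γ p κ ∧ P.Iv κ b}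
    let r : Y → Y → Prop := fun u v => (φ v)⁻¹ * φ u ∈ T
    have : IsTrans Y r := ⟨fun u v w h1 h2 => by
      have h3 : (φ w)⁻¹ * φ u = ((φ w)⁻¹ * φ v) * ((φ v)⁻¹ * φ u) := by group
      change (φ w)⁻¹ * φ u ∈ T
      rw [h3]
      exact T.mul_mem h2 h1⟩
    have : Std.Irrefl r := ⟨fun u h => by
      have h1 : (φ u)⁻¹ * φ u ∈ T := h
      rw [inv_mul_cancel] at h1
      exact hP h1⟩
    have hwf : WellFounded r := Finite.wellFounded_of_trans_of_irrefl r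
    obtain ⟨p0, hp0C, κ0, hκ0, hiv0⟩ := hY
    obtain ⟨⟨p, hp⟩, -, hmin⟩ := hwf.has_min Set.univ ⟨(⟨p0, hp0C, κ0, hκ0, hiv0⟩ : Y), trivial⟩
    have hmin' : ∀ v, v ∈ Y → ¬ (φ p)⁻¹ * φ v ∈ T := fun v hv => hmin ⟨v, hv⟩ trivial
    obtain ⟨hpC, κ1, hκ1, hiv1⟩ := hp
    refine ⟨p, hpC, Or.inr (P.at_ess hκ1), ?_⟩
    rintro κ ⟨q, hq, hqp⟩ hEn
    rcases hEn with ⟨hcl, hsg⟩ | ⟨hcl, hsg⟩
    · have hst : Γ.Step p ((P.a κ.1 κ.2).1, s (P.a κ.1 κ.2).1) (q (κ.2 + 1)) := by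
        have h1 := hq κ.2
        rw [hqp] at h1
        have h2 : P.a κ.1 κ.2 = ((P.a κ.1 κ.2).1, s (P.a κ.1 κ.2).1) :=
          Prod.ext rfl hsg
        rw [← h2]
        exact h1
      obtain ⟨hvC, hvT⟩ := hup p (q (κ.2 + 1)) κ.1 κ.2 hpC hcl hst
      refine hmin' _ ⟨hvC, ⟨κ.1, κ.2 + 1⟩, ⟨q, hq, rfl⟩, Or.inr ?_⟩ hvT
      change P.cl (P.a κ.1 (κ.2 + 1 - 1)).1 = b
      rw [add_sub_cancel_right]
      exact hcl
    · have hst : Γ.Step p ((P.a κ.1 (κ.2 - 1)).1, s (P.a κ.1 (κ.2 - 1)).1) (q (κ.2 - 1)) := by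
        have h1 := hq (κ.2 - 1)
        rw [sub_add_cancel, hqp] at h1
        have h2 : (P.a κ.1 (κ.2 - 1)).2 = !s (P.a κ.1 (κ.2 - 1)).1 := hsg
        unfold LG.Step at h1 ⊢
        rw [h2] at h1
        cases hs : s (P.a κ.1 (κ.2 - 1)).1
        · rw [hs] at h1
          simpa using h1
        · rw [hs] at h1
          simpa using h1
      obtain ⟨hvC, hvT⟩ := hup p (q (κ.2 - 1)) κ.1 (κ.2 - 1) hpC hcl hst
      exact hmin' _ ⟨hvC, ⟨κ.1, κ.2 - 1⟩, ⟨q, hq, rfl⟩, Or.inl hcl⟩ hvT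
  · push Not at hY
    by_cases hb : ∃ p ∈ C, b ∉ P.Jp Γ p
    · obtain ⟨p, hp, hpb⟩ := hb
      exact ⟨p, hp, Or.inl hpb, fun κ hκ hEn => hY p hp κ hκ (hEnIv κ hEn)⟩
    · push Not at hb
      exfalso
      obtain ⟨p0, hp0⟩ := LG.nonempty_of_mem_comps hCc
      have hne : ∀ p ∈ C, ¬ P.Ess Γ p := by
        intro p hp he
        obtain ⟨κ, hκ, hiv⟩ := P.exists_iv hR he (hb p hp)
        exact hY p hp κ hκ hiv
      have hall : ∀ p ∈ C, ∀ c ∈ P.Jp Γ p, c = b := by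
        intro p hp c hc
        have h1 := hne p hp
        unfold Ess at h1
        push Not at h1
        exact Finset.card_le_one.1 (Nat.lt_succ_iff.1 h1) c hc b (hb p hp)
      have hcl : ∀ u x v, (u, x, v) ∈ Γ.F → (u ∈ (C : Set W) ↔ v ∈ (C : Set W)) := by
        intro u x v h
        have hu : P.cl x ∈ P.Jp Γ u := P.mem_jp.2 ⟨u, x, v, h, rfl, Or.inl rfl⟩
        have hv : P.cl x ∈ P.Jp Γ v := P.mem_jp.2 ⟨u, x, v, h, rfl, Or.inr rfl⟩
        constructor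
        · intro huC
          have h1 := hall u huC _ hu
          exact (LG.mem_of_edge hCc (P.mem_bg.2 ⟨h, h1⟩)).1 huC
        · intro hvC
          have h1 := hall v hvC _ hv
          exact (LG.mem_of_edge hCc (P.mem_bg.2 ⟨h, h1⟩)).2 hvC
      obtain ⟨pe, hpe⟩ := hE
      exact hne pe (hC (C : Set W) ⟨p0, hp0⟩ hcl pe) hpe

end OW

end Pool.Agent.InjLI
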