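import Pool.Agent.Lib.InjLI.Defs

/-!
# SplB : the edges of the split graph

(helper18, problem MP_cf50d6_gt, paper MP_cf50d6_gt_paper18rel.md)

`spl Γ p U` is the image of the edges `(u, x, v)` of `Γ` under `(mv u (cl x), x, mv v (cl x))`; `pr_mv` (in `Defs`) says that `pr p` is a left inverse of
`fun q => mv p U q b`, so everything is by unfolding, `Finset.mem_image`, and `LG.step_true`, `LG.step_false` (case distinction on the sign of the letter).
`card_spl`: `Finset.card_image_of_injOn`, the map is injective by `pr_mv`.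
-/

set_option autoImplicit false

open scoped Classical

namespace Pool.Agent.InjLI

open Pool.Agent.LIA

universe u v

namespace OW

variable {X : Type u} {I E : Type} {W : Type*} (P : OW X I E)


theorem mem_spl {Γ : LG W X} {p : W} {U : Finset I} {y z : Option W} {x : X} :
    (y, x, z) ∈ (P.spl Γ p U).F ↔
      ∃ u v, (u, x, v) ∈ Γ.F ∧ y = mv p U u (P.cl x) ∧ z = mv p U v (P.cl x) := by
  unfold spl
  rw [Finset.mem_image]
  constructor
  · rintro ⟨⟨u, x', v⟩, h, he⟩
    simp only [Prod.mk.injEq] at he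
    obtain ⟨h1, h2, h3⟩ := he
    subst h2
    exact ⟨u, v, h, h1.symm, h3.symm⟩
  · rintro ⟨u, v, h, rfl, rfl⟩
    exact ⟨(u, x, v), h, rfl⟩

theorem mem_spl_mv {Γ : LG W X} {p u v : W} {U : Finset I} {x : X} :
    (mv p U u (P.cl x), x, mv p U v (P.cl x)) ∈ (P.spl Γ p U).F ↔ (u, x, v) ∈ Γ.F := by
  rw [mem_spl]
  constructor
  · rintro ⟨u', v', h, h1, h2⟩
    have e1 : u = u' := by
      rw [← pr_mv p U u (P.cl x), h1, pr_mv]
    have e2 : v = v' := by
      rw [← pr_mv p U v (P.cl x), h2, pr_mv]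
    rw [e1, e2]
    exact h
  · intro h
    exact ⟨u, v, h, rfl, rfl⟩

theorem step_spl_mv {Γ : LG W X} {p u v : W} {U : Finset I} {l : X × Bool} :
    (P.spl Γ p U).Step (mv p U u (P.cl l.1)) l (mv p U v (P.cl l.1)) ↔ Γ.Step u l v := by
  obtain ⟨x, ε⟩ := l
  cases ε
  · unfold LG.Step
    rw [if_neg Bool.false_ne_true, if_neg Bool.false_ne_true]
    exact P.mem_spl_mv
  · unfold LG.Step
    rw [if_pos rfl, if_pos rfl]
    exact P.mem_spl_mv

theorem step_spl {Γ : LG W X} {p : W} {U : Finset I} {y z : Option W} {l : X × Bool} :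
    (P.spl Γ p U).Step y l z ↔ Γ.Step (pr p y) l (pr p z) ∧
      y = mv p U (pr p y) (P.cl l.1) ∧ z = mv p U (pr p z) (P.cl l.1) := by
  constructor
  · intro h
    obtain ⟨x, ε⟩ := l
    have key : ∀ y z : Option W, (y, x, z) ∈ (P.spl Γ p U).F →
        y = mv p U (pr p y) (P.cl x) ∧ z = mv p U (pr p z) (P.cl x) := by
      intro y z hyz
      obtain ⟨u, v, -, rfl, rfl⟩ := P.mem_spl.1 hyz
      rw [pr_mv, pr_mv]
      exact ⟨rfl, rfl⟩
    have h2 : y = mv p U (pr p y) (P.cl x) ∧ z = mv p U (pr p z) (P.cl x) := by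
      cases ε
      · unfold LG.Step at h
        rw [if_neg Bool.false_ne_true] at h
        exact (key _ _ h).symm
      · unfold LG.Step at h
        rw [if_pos rfl] at h
        exact key _ _ h
    refine ⟨?_, h2⟩
    rw [h2.1, h2.2] at h
    exact P.step_spl_mv.1 h
  · rintro ⟨h, h1, h2⟩
    rw [h1, h2]
    exact P.step_spl_mv.2 h

theorem card_spl (Γ : LG W X) (p : W) (U : Finset I) :
    (P.spl Γ p U).F.card = Γ.F.card := by
  unfold spl
  apply Finset.card_image_of_injOn
  rintro ⟨u, x, v⟩ _ ⟨u', x', v'⟩ _ h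
  simp only [Prod.mk.injEq] at h
  obtain ⟨h1, h2, h3⟩ := h
  subst h2
  have e1 : u = u' := by
    rw [← pr_mv p U u (P.cl x), h1, pr_mv]
  have e2 : v = v' := by
    rw [← pr_mv p U v (P.cl x), h3, pr_mv]
  rw [e1, e2]

end OW

end Pool.Agent.InjLI
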