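import Pool.Agent.Lib.InjLI.SplB

/-!
# SplI : walks in one block lift to the split graph

(helper18, problem MP_cf50d6_gt, paper MP_cf50d6_gt_paper18rel.md)

`L` a word with all letters in the block `b`.
* `walk_spl`, `trSum_spl`: induction on `L` (generalize `u`); a step `Γ.Step u l w` gives by `step_spl_mv` (with `cl l.1 = b`) the step
  `(spl).Step (mv u b) l (mv w b)`; `LG.trSum_cons` on both sides, and `pb p U c (u, x, w) = c (mv u (cl x), x, mv w (cl x))` by definition.
* `inner_spl`: `R` is mono: all letters of `ρ.toWord` are in some block `b`; a closed walk at `v` lifts to a closed walk at `mv v b`, `trSum_spl`.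
* `inner_eta`: `inner_spl` for `c y = k y.2.2 - k y.1` (then `pb p U c` is the cochain in question, `rfl`), `LG.trSum_coboundary` with `C = Set.univ`.
-/

set_option autoImplicit false

open scoped Classical

namespace Pool.Agent.InjLI

open Pool.Agent.LIA

universe u v

namespace OW

variable {X : Type u} {I E : Type} {W : Type*} (P : OW X I E)


theorem walk_spl {Γ : LG W X} (p : W) (U : Finset I) {b : I} {L : List (X × Bool)}
    (hL : ∀ s ∈ L, P.cl s.1 = b) {u v : W} (h : Γ.Walk u L v) :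
    (P.spl Γ p U).Walk (mv p U u b) L (mv p U v b) := by
  induction L generalizing u with
  | nil =>
    rw [LG.walk_nil] at h ⊢
    rw [h]
  | cons l L ih =>
    obtain ⟨w, hw, hw'⟩ := h
    have hl : P.cl l.1 = b := hL l List.mem_cons_self
    refine ⟨mv p U w b, ?_, ih (fun s hs => hL s (List.mem_cons_of_mem l hs)) hw'⟩
    rw [← hl]
    exact (P.step_spl_mv).2 hw

theorem trSum_spl {Γ : LG W X} (p : W) (U : Finset I) (c : Option W × X × Option W → ℚ) {b : I}
    {L : List (X × Bool)} (hL : ∀ s ∈ L, P.cl s.1 = b) {u v : W} (h : Γ.Walk u L v) :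
    Γ.trSum (P.pb p U c) u L = (P.spl Γ p U).trSum c (mv p U u b) L := by
  induction L generalizing u with
  | nil => rw [LG.trSum_nil, LG.trSum_nil]
  | cons l L ih =>
    obtain ⟨w, hw, hw'⟩ := h
    have hl : P.cl l.1 = b := hL l List.mem_cons_self
    have h1 : (P.spl Γ p U).Step (mv p U u b) l (mv p U w b) := by
      rw [← hl]
      exact (P.step_spl_mv).2 hw
    rw [LG.trSum_cons _ _ _ hw, LG.trSum_cons _ _ _ h1,
      ih (fun s hs => hL s (List.mem_cons_of_mem l hs)) hw']
    subst hl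
    rfl

theorem inner_spl {Γ : LG W X} {R : Set (FreeGroup X)} (hR : P.Mono R) {p : W} {U : Finset I}
    {c : Option W × X × Option W → ℚ}
    (hc : ∀ ρ ∈ R, ∀ v, (P.spl Γ p U).Walk v ρ.toWord v → (P.spl Γ p U).trSum c v ρ.toWord = 0) :
    ∀ ρ ∈ R, ∀ v, Γ.Walk v ρ.toWord v → Γ.trSum (P.pb p U c) v ρ.toWord = 0 := by
  intro ρ hρ v hv
  obtain ⟨b, hb⟩ := hR ρ hρ
  rw [P.trSum_spl p U c hb hv]
  exact hc ρ hρ _ (P.walk_spl p U hb hv)

theorem inner_eta {Γ : LG W X} {R : Set (FreeGroup X)} (hR : P.Mono R) (p : W) (U : Finset I)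
    (k : Option W → ℚ) : ∀ ρ ∈ R, ∀ v, Γ.Walk v ρ.toWord v →
      Γ.trSum (fun y : W × X × W => k (mv p U y.2.2 (P.cl y.2.1)) - k (mv p U y.1 (P.cl y.2.1)))
        v ρ.toWord = 0 := by
  intro ρ hρ v hv
  have h1 : ∀ ρ ∈ R, ∀ v, (P.spl Γ p U).Walk v ρ.toWord v →
      (P.spl Γ p U).trSum (fun y : Option W × X × Option W => k y.2.2 - k y.1) v ρ.toWord = 0 := by
    intro ρ _ v hv
    rw [LG.trSum_coboundary (P.spl Γ p U) _ k Set.univ (fun _ _ _ _ _ => Set.mem_univ _)
      (fun _ _ _ _ _ => rfl) (Set.mem_univ v) hv, sub_self]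
  exact P.inner_spl hR h1 ρ hρ v hv

end OW

end Pool.Agent.InjLI
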