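import Pool.Agent.Lib.InjLI.Defs2
import Pool.Agent.Lib.LOTI.LDefs

/-!
# Tre : a tree has less than |U| edges inside U

(helper18, problem MP_cf50d6_gt, paper MP_cf50d6_gt_paper18rel.md)

Linear algebra over ℚ. `d : (V → ℚ) →ₗ (E → ℚ)`, `(d h) e = h (term e) - h (init e)`. The kernel consists of the constant functions (`Γ.conn`), so it has dimension 1 (`V` is nonempty by `Γ.card`), so the range has dimension
`card V - 1 = card E` and `d` is surjective. Let `U` be nonempty, `D` = the edges with both ends in `U`. The linear map `(↥U → ℚ) →ₗ (↥D → ℚ)`, `h ↦ fun e => h (term e) - h (init e)`, is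
surjective (extend an element of `↥D → ℚ` by zero to `E → ℚ`, take a preimage under `d`, restrict it to `U`) and its kernel contains the constant function 1 `≠ 0`. So `D.card + 1 ≤ U.card`
(`LinearMap.finrank_range_add_finrank_ker`). `sparse_lot`: the edges of `EU` are edges with both ends in `U`.
-/

set_option autoImplicit false

open scoped Classical

namespace Pool.Agent.InjLI

open Pool.Agent.LIA

universe u v

/-- the coboundary -/
private def Tre_d {V E : Type} [Fintype V] [Fintype E] (Γ : Pool.Agent.LOTI.LOT V E) :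
    (V → ℚ) →ₗ[ℚ] (E → ℚ) where
  toFun h e := h (Γ.term e) - h (Γ.init e)
  map_add' f g := by
    funext e
    simp only [Pi.add_apply]
    ring
  map_smul' c f := by
    funext e
    simp only [Pi.smul_apply, smul_eq_mul, RingHom.id_apply]
    ring

private theorem Tre_surj {V E : Type} [Fintype V] [Fintype E] (Γ : Pool.Agent.LOTI.LOT V E) :
    Function.Surjective (Tre_d Γ) := by
  have hker : Module.finrank ℚ (LinearMap.ker (Tre_d Γ)) ≤ 1 := by
    have h1 : LinearMap.ker (Tre_d Γ) ≤ Submodule.span ℚ {fun _ => (1 : ℚ)} := by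
      intro h hh
      have h2 : ∀ e, h (Γ.term e) = h (Γ.init e) := by
        intro e
        have h3 := congrFun (LinearMap.mem_ker.1 hh) e
        exact sub_eq_zero.1 h3
      have h4 : ∀ v w, h v = h w := by
        intro v w
        have h5 := Γ.conn v w
        induction h5 with
        | rel a b h => obtain ⟨e, rfl, rfl⟩ := h; exact (h2 e).symm
        | refl a => rfl
        | symm a b _ ih => exact ih.symm
        | trans a b c _ _ ih1 ih2 => exact ih1.trans ih2
      rw [Submodule.mem_span_singleton]
      rcases isEmpty_or_nonempty V with hV | ⟨⟨v⟩⟩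
      · exact ⟨0, funext fun v => hV.elim v⟩
      · refine ⟨h v, funext fun w => ?_⟩
        rw [Pi.smul_apply, smul_eq_mul, mul_one]
        exact h4 v w
    have h6 := finrank_span_le_card (R := ℚ) ({fun _ => (1 : ℚ)} : Set (V → ℚ))
    rw [Set.toFinset_card, Fintype.card_unique] at h6
    exact (Submodule.finrank_mono h1).trans h6
  have h2 := LinearMap.finrank_range_add_finrank_ker (Tre_d Γ)
  rw [Module.finrank_fintype_fun_eq_card, Γ.card] at h2
  have h3 : Module.finrank ℚ (LinearMap.range (Tre_d Γ)) = Module.finrank ℚ (E → ℚ) := by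
    rw [Module.finrank_fintype_fun_eq_card]
    have h4 := Submodule.finrank_le (LinearMap.range (Tre_d Γ))
    rw [Module.finrank_fintype_fun_eq_card] at h4
    omega
  exact LinearMap.range_eq_top.1 (Submodule.eq_top_of_finrank_eq h3)

theorem tree_card {V E : Type} [Fintype V] [Fintype E] (Γ : Pool.Agent.LOTI.LOT V E)
    (U : Finset V) (hU : U.Nonempty) :
    (Finset.univ.filter fun e => Γ.init e ∈ U ∧ Γ.term e ∈ U).card < U.card := by
  set D := Finset.univ.filter fun e => Γ.init e ∈ U ∧ Γ.term e ∈ U with hD
  have hmem : ∀ e ∈ D, Γ.init e ∈ U ∧ Γ.term e ∈ U := fun e he => (Finset.mem_filter.1 he).2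
  let dU : (U → ℚ) →ₗ[ℚ] (D → ℚ) :=
    { toFun := fun h e => h ⟨Γ.term e.1, (hmem e.1 e.2).2⟩ - h ⟨Γ.init e.1, (hmem e.1 e.2).1⟩
      map_add' := by
        intro f g
        funext e
        simp only [Pi.add_apply]
        ring
      map_smul' := by
        intro c f
        funext e
        simp only [Pi.smul_apply, smul_eq_mul, RingHom.id_apply]
        ring }
  have hsurj : Function.Surjective dU := by
    intro g
    obtain ⟨f, hf⟩ := Tre_surj Γ (fun e => if h : e ∈ D then g ⟨e, h⟩ else 0)
    refine ⟨fun v => f v.1, funext fun e => ?_⟩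
    have h1 := congrFun hf e.1
    simp only [e.2, dif_pos] at h1
    exact h1
  have hker : 0 < Module.finrank ℚ (LinearMap.ker dU) := by
    rw [Module.finrank_pos_iff]
    refine ⟨⟨⟨fun _ => 1, ?_⟩, 0, ?_⟩⟩
    · rw [LinearMap.mem_ker]
      funext e
      show (1 : ℚ) - 1 = 0
      ring
    · intro h
      obtain ⟨v, hv⟩ := hU
      have h1 := congrFun (congrArg Subtype.val h) ⟨v, hv⟩
      exact one_ne_zero h1
  have h2 := LinearMap.finrank_range_add_finrank_ker dU
  rw [LinearMap.range_eq_top.2 hsurj, finrank_top, Module.finrank_fintype_fun_eq_card,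
    Module.finrank_fintype_fun_eq_card, Fintype.card_coe, Fintype.card_coe] at h2
  omega

theorem sparse_lot {V E : Type} [Fintype V] [Fintype E] (Γ : Pool.Agent.LOTI.LOT V E) :
    Sparse Γ.init Γ.term Γ.lab := by
  intro U hU
  refine lt_of_le_of_lt (Finset.card_le_card ?_) (tree_card Γ U hU)
  intro e he
  obtain ⟨_, h1, h2, _⟩ := Finset.mem_filter.1 he
  exact Finset.mem_filter.2 ⟨Finset.mem_univ _, h1, h2⟩

end Pool.Agent.InjLI
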