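import Pool.Agent.Lib.InjLI.Defs2
import Pool.Agent.Lib.InjLI.JpB

/-!
# Tw : two forests give nonpositive curvature

(helper18, problem MP_cf50d6_gt, paper MP_cf50d6_gt_paper18rel.md)

Finite combinatorics. `α = 1`, `O = Unit`, `w κ = 1` if `κ` is the chosen corner of its relator. `∑ c, w ⟨e, c⟩ = 1` (`Finset.sum_ite_eq`). Let `K` be `TwoConn`,
`A := {b | ∃ κ ∈ K, P.En κ b s}`; the right side of the condition is `A.card`.
* `A` NONEMPTY: otherwise every `κ ∈ K` is `P.Dn κ s` (`En κ (cl (nxt κ).1) s` fails, so `(nxt κ).2 ≠ s ..`; same for `prv`), and `S := P.Bl K` contains both blocks of every `κ ∈ K`, so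
  `K.card ≤ (filter of hB for S).card < S.card` (`S` nonempty). But every `b ∈ S` is involved in at least 2 corners of `K`: `{b} ⊂ S` (strict: every corner has two different blocks in `S`,
  `iv_ne`), `TwoConn` for `{b}`, and a corner which crosses `{b}` involves `b`. Double counting of the pairs `(b, κ)`, `b ∈ S`, `κ ∈ K`, `P.Iv κ b`: at least `2 * S.card`, and every `κ`
  involves at most 2 blocks, so at most `2 * K.card` (`Finset.sum_comm`, or `Finset.card_nsmul_le_sum` ...). So `S.card ≤ K.card < S.card`.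
* `∑ κ ∈ K, w κ` = number of `e` with `⟨e, ch e⟩ ∈ K` `≤ (filter of hA for A).card < A.card` (both blocks of such a corner are in `A` by `h1`).
-/

set_option autoImplicit false

open scoped Classical

namespace Pool.Agent.InjLI

open Pool.Agent.LIA

universe u v

namespace OW

variable {X : Type u} {I E : Type} (P : OW X I E)

private theorem Tw_mem_bl [Fintype I] {K : Finset P.Cor} {b : I} :
    b ∈ P.Bl K ↔ ∃ κ ∈ K, P.Iv κ b := by
  unfold Bl
  simp only [Finset.mem_filter, Finset.mem_univ, true_and]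

private theorem Tw_two [Fintype I] {K : Finset P.Cor} (hK : P.TwoConn K) {b : I}
    (hb : b ∈ P.Bl K) : 2 ≤ (K.filter fun κ => P.Iv κ b).card := by
  have h1 : ({b} : Finset I) ⊂ P.Bl K := by
    refine Finset.ssubset_iff_subset_ne.2 ⟨Finset.singleton_subset_iff.2 hb, ?_⟩
    intro he
    obtain ⟨κ, hκ, -⟩ := (Tw_mem_bl P).1 hb
    have h2 : P.cl (P.nxt κ).1 ∈ ({b} : Finset I) := by
      rw [he]; exact (Tw_mem_bl P).2 ⟨κ, hκ, Or.inl rfl⟩
    have h3 : P.cl (P.prv κ).1 ∈ ({b} : Finset I) := by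
      rw [he]; exact (Tw_mem_bl P).2 ⟨κ, hκ, Or.inr rfl⟩
    rw [Finset.mem_singleton] at h2 h3
    exact P.iv_ne κ (h3.trans h2.symm)
  refine (hK.2 {b} (Finset.singleton_nonempty b) h1).trans (Finset.card_le_card ?_)
  intro κ hκ
  rw [Finset.mem_filter] at hκ ⊢
  refine ⟨hκ.1, ?_⟩
  have h2 := hκ.2
  unfold Cr at h2
  unfold Iv
  simp only [Finset.mem_singleton] at h2
  by_contra h3
  push Not at h3
  exact h2 ⟨fun h => absurd h h3.1, fun h => absurd h h3.2⟩

private theorem Tw_card [Fintype I] {K : Finset P.Cor} (hK : P.TwoConn K) :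
    (P.Bl K).card ≤ K.card := by
  have h1 : ∑ b ∈ P.Bl K, (K.filter fun κ => P.Iv κ b).card =
      ∑ κ ∈ K, ((P.Bl K).filter fun b => P.Iv κ b).card :=
    (Finset.sum_card_bipartiteAbove_eq_sum_card_bipartiteBelow
      (s := K) (t := P.Bl K) (fun κ b => P.Iv κ b)).symm
  have h2 : (P.Bl K).card * 2 ≤ ∑ b ∈ P.Bl K, (K.filter fun κ => P.Iv κ b).card := by
    rw [← smul_eq_mul]
    exact Finset.card_nsmul_le_sum _ _ _ fun b hb => Tw_two P hK hb
  have h3 : ∑ κ ∈ K, ((P.Bl K).filter fun b => P.Iv κ b).card ≤ K.card * 2 := by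
    rw [← smul_eq_mul]
    refine Finset.sum_le_card_nsmul _ _ _ fun κ _ => ?_
    refine le_trans (Finset.card_le_card (t := {P.cl (P.nxt κ).1, P.cl (P.prv κ).1}) ?_)
      Finset.card_le_two
    intro b hb
    have h4 := (Finset.mem_filter.1 hb).2
    unfold Iv at h4
    rw [Finset.mem_insert, Finset.mem_singleton]
    rcases h4 with h4 | h4
    · exact Or.inl h4.symm
    · exact Or.inr h4.symm
  omega

private theorem Tw_dn {κ : P.Cor} {s : X → Bool} (h : ∀ b, ¬ P.En κ b s) : P.Dn κ s := by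
  have h1 := h (P.cl (P.nxt κ).1)
  have h2 := h (P.cl (P.prv κ).1)
  unfold En at h1 h2
  push Not at h1 h2
  have h3 := h1.1 rfl
  have h4 := h2.2 rfl
  constructor
  · cases h5 : (P.nxt κ).2 <;> cases h6 : s (P.nxt κ).1 <;> simp_all
  · cases h5 : (P.prv κ).2 <;> cases h6 : s (P.prv κ).1 <;> simp_all

theorem curv_of_forests [Fintype I] [Fintype E] (s : X → Bool) (ch : ∀ e, Fin (P.m e + 1))
    (h1 : ∀ e, P.Up ⟨e, ch e⟩ s)
    (hA : ∀ S : Finset I, S.Nonempty → (Finset.univ.filter fun e : E =>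
      P.cl (P.nxt ⟨e, ch e⟩).1 ∈ S ∧ P.cl (P.prv ⟨e, ch e⟩).1 ∈ S).card < S.card)
    (hB : ∀ S : Finset I, S.Nonempty → (Finset.univ.filter fun κ : P.Cor => P.Dn κ s ∧
      P.cl (P.nxt κ).1 ∈ S ∧ P.cl (P.prv κ).1 ∈ S).card < S.card) :
    P.Curv (fun _ : Unit => s) (fun κ => if κ.2 = ch κ.1 then 1 else 0) fun _ _ => 1 := by
  refine ⟨fun _ _ => zero_le_one, fun _ => by simp, fun e => ?_, fun K hK => ?_⟩
  · simp
  · have hrhs : (∑ b : I, ∑ _o : Unit, if ∃ κ ∈ K, P.En κ b s then (1 : ℝ) else 0) =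
        ((Finset.univ.filter fun b : I => ∃ κ ∈ K, P.En κ b s).card : ℝ) := by
      simp
    rw [hrhs]
    set A : Finset I := Finset.univ.filter fun b : I => ∃ κ ∈ K, P.En κ b s with hAdef
    have hmA : ∀ b, b ∈ A ↔ ∃ κ ∈ K, P.En κ b s := by
      intro b; rw [hAdef]; simp only [Finset.mem_filter, Finset.mem_univ, true_and]
    have hAne : A.Nonempty := by
      by_contra hne
      rw [Finset.not_nonempty_iff_eq_empty] at hne
      have hdn : ∀ κ ∈ K, P.Dn κ s := by
        intro κ hκ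
        refine Tw_dn P fun b hb => ?_
        have : b ∈ A := (hmA b).2 ⟨κ, hκ, hb⟩
        rw [hne] at this
        exact absurd this (Finset.notMem_empty b)
      have hSne : (P.Bl K).Nonempty := by
        obtain ⟨κ, hκ⟩ := hK.1
        exact ⟨_, (Tw_mem_bl P).2 ⟨κ, hκ, Or.inl rfl⟩⟩
      have h2 := hB (P.Bl K) hSne
      have h3 := Tw_card P hK
      have h4 : K.card ≤ (Finset.univ.filter fun κ : P.Cor => P.Dn κ s ∧
          P.cl (P.nxt κ).1 ∈ P.Bl K ∧ P.cl (P.prv κ).1 ∈ P.Bl K).card := by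
        refine Finset.card_le_card fun κ hκ => ?_
        simp only [Finset.mem_filter, Finset.mem_univ, true_and]
        exact ⟨hdn κ hκ, (Tw_mem_bl P).2 ⟨κ, hκ, Or.inl rfl⟩,
          (Tw_mem_bl P).2 ⟨κ, hκ, Or.inr rfl⟩⟩
      omega
    have hsum : (∑ κ ∈ K, if κ.2 = ch κ.1 then (1 : ℝ) else 0) =
        ((K.filter fun κ => κ.2 = ch κ.1).card : ℝ) := by
      rw [Finset.sum_boole]
    rw [hsum]
    have hle : (K.filter fun κ => κ.2 = ch κ.1).card ≤ (Finset.univ.filter fun e : E =>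
        P.cl (P.nxt ⟨e, ch e⟩).1 ∈ A ∧ P.cl (P.prv ⟨e, ch e⟩).1 ∈ A).card := by
      refine Finset.card_le_card_of_injOn Sigma.fst ?_ ?_
      · intro κ hκ
        have hκ' := Finset.mem_filter.1 (Finset.mem_coe.1 hκ)
        obtain ⟨e, c⟩ := κ
        have hc : c = ch e := hκ'.2
        subst hc
        have hu := h1 e
        simp only [Finset.coe_filter, Finset.mem_univ, true_and, Set.mem_ofPred_eq]
        exact ⟨(hmA _).2 ⟨_, hκ'.1, Or.inl ⟨rfl, hu.1⟩⟩, (hmA _).2 ⟨_, hκ'.1, Or.inr ⟨rfl, hu.2⟩⟩⟩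
      · rintro ⟨e, c⟩ hκ ⟨e', c'⟩ hκ' he
        have h2 : c = ch e := (Finset.mem_filter.1 (Finset.mem_coe.1 hκ)).2
        have h3 : c' = ch e' := (Finset.mem_filter.1 (Finset.mem_coe.1 hκ')).2
        have h4 : e = e' := he
        subst h4
        rw [h2, h3]
    have hlt := hA A hAne
    have : (K.filter fun κ => κ.2 = ch κ.1).card + 1 ≤ A.card := by omega
    exact_mod_cast this

end OW

end Pool.Agent.InjLI
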